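import Pool.Agent.W_317df6_h83.Defs

/-!
# Basic facts: partial derivatives (task BasicB)
-/

set_option autoImplicit false

namespace CGL

open MeasureTheory Set
open scoped ComplexConjugate

variable {N : ℕ} {F : Type} [NormedAddCommGroup F] [NormedSpace ℝ F]

theorem pd_contDiff {n : ℕ} {f : E N → F} (hf : ContDiff ℝ (n + 1) f) (i : Fin N) :
    ContDiff ℝ n (pd i f) := by
  unfold pd
  exact (hf.fderiv_right (m := n) le_rfl).clm_apply contDiff_const

theorem pd_mul {f g : E N → ℂ} {x : E N} (hf : DifferentiableAt ℝ f x)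
    (hg : DifferentiableAt ℝ g x) (i : Fin N) :
    pd i (fun y => f y * g y) x = pd i f x * g x + f x * pd i g x := by
  unfold pd
  rw [fderiv_fun_mul hf hg]
  simp only [ContinuousLinearMap.add_apply, ContinuousLinearMap.smul_apply, smul_eq_mul]
  ring

theorem pd_mul_real {f g : E N → ℝ} {x : E N} (hf : DifferentiableAt ℝ f x)
    (hg : DifferentiableAt ℝ g x) (i : Fin N) :
    pd i (fun y => f y * g y) x = pd i f x * g x + f x * pd i g x := by
  unfold pd
  rw [fderiv_fun_mul hf hg]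
  simp only [ContinuousLinearMap.add_apply, ContinuousLinearMap.smul_apply, smul_eq_mul]
  ring

theorem pd_add {f g : E N → F} {x : E N} (hf : DifferentiableAt ℝ f x)
    (hg : DifferentiableAt ℝ g x) (i : Fin N) :
    pd i (fun y => f y + g y) x = pd i f x + pd i g x := by
  unfold pd
  rw [fderiv_fun_add hf hg, ContinuousLinearMap.add_apply]

theorem pd_sum {ι : Type} (s : Finset ι) {f : ι → E N → F} {x : E N}
    (hf : ∀ j ∈ s, DifferentiableAt ℝ (f j) x) (i : Fin N) :
    pd i (fun y => ∑ j ∈ s, f j y) x = ∑ j ∈ s, pd i (f j) x := by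
  unfold pd
  rw [fderiv_fun_sum hf, ContinuousLinearMap.sum_apply]

theorem pd_conj {f : E N → ℂ} {x : E N} (hf : DifferentiableAt ℝ f x) (i : Fin N) :
    pd i (fun y => conj (f y)) x = conj (pd i f x) := by
  have h1 : HasFDerivAt (fun y => conj (f y))
      ((Complex.conjCLE : ℂ →L[ℝ] ℂ).comp (fderiv ℝ f x)) x :=
    (Complex.conjCLE : ℂ →L[ℝ] ℂ).hasFDerivAt.comp x hf.hasFDerivAt
  unfold pd
  rw [h1.fderiv]
  rfl

theorem pd_ofReal {f : E N → ℝ} {x : E N} (hf : DifferentiableAt ℝ f x) (i : Fin N) :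
    pd i (fun y => ((f y : ℝ) : ℂ)) x = ((pd i f x : ℝ) : ℂ) := by
  have h1 : HasFDerivAt (fun y => ((f y : ℝ) : ℂ)) (Complex.ofRealCLM.comp (fderiv ℝ f x)) x :=
    Complex.ofRealCLM.hasFDerivAt.comp x hf.hasFDerivAt
  unfold pd
  rw [h1.fderiv]
  rfl

theorem pd_re {f : E N → ℂ} {x : E N} (hf : DifferentiableAt ℝ f x) (i : Fin N) :
    pd i (fun y => (f y).re) x = (pd i f x).re := by
  have h1 : HasFDerivAt (fun y => (f y).re) (Complex.reCLM.comp (fderiv ℝ f x)) x :=
    Complex.reCLM.hasFDerivAt.comp x hf.hasFDerivAt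
  unfold pd
  rw [h1.fderiv]
  rfl

/-- Schwarz: `second_derivative_symmetric` -/
theorem pd_comm {f : E N → F} (hf : ContDiff ℝ 2 f) (i j : Fin N) (x : E N) :
    pd i (pd j f) x = pd j (pd i f) x := by
  have h1 : Differentiable ℝ (fderiv ℝ f) :=
    (hf.fderiv_right (m := 1) (by norm_num)).differentiable (by norm_num)
  have key : ∀ v w : E N, fderiv ℝ (fun y => fderiv ℝ f y v) x w =
      fderiv ℝ (fderiv ℝ f) x w v := by
    intro v w
    have h2 : HasFDerivAt (fun y => fderiv ℝ f y v)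
        ((ContinuousLinearMap.apply ℝ F v).comp (fderiv ℝ (fderiv ℝ f) x)) x :=
      (ContinuousLinearMap.apply ℝ F v).hasFDerivAt.comp x (h1 x).hasFDerivAt
    rw [h2.fderiv]
    rfl
  have hsymm : IsSymmSndFDerivAt ℝ f x :=
    hf.contDiffAt.isSymmSndFDerivAt (by simp)
  unfold pd
  rw [key, key]
  exact hsymm _ _

end CGL
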