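import Pool.Agent.W_317df6_h83.BasicA
import Pool.Agent.W_317df6_h83.BasicB

/-!
# Basic facts: powers and the nonlinearity (task BasicC)
-/

set_option autoImplicit false

namespace CGL

open MeasureTheory Set
open scoped ComplexConjugate

variable {N : ℕ}

theorem BasicC_rpow {p : ℝ} (hp : 1 < p) {v : E N → ℂ} {x : E N}
    (hv : DifferentiableAt ℝ v x) (i : Fin N) :
    pd i (fun y => ‖v y‖ ^ p) x = p * ‖v x‖ ^ (p - 2) * (conj (v x) * pd i v x).re := by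
  unfold pd
  have h := (hasFDerivAt_norm_rpow (v x) hp).comp x hv.hasFDerivAt
  have h1 : fderiv ℝ (fun y => ‖v y‖ ^ p) x =
      ((p * ‖v x‖ ^ (p - 2)) • innerSL ℝ (v x)).comp (fderiv ℝ v x) := h.fderiv
  rw [h1]
  simp only [ContinuousLinearMap.comp_apply, smul_apply, innerSL_apply_apply,
    smul_eq_mul]
  congr 1
  rw [Complex.inner, mul_comm]

theorem pd_normsq {v : E N → ℂ} {x : E N} (hv : DifferentiableAt ℝ v x) (i : Fin N) :
    pd i (fun y => ‖v y‖ ^ 2) x = 2 * (conj (v x) * pd i v x).re := by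
  have h := BasicC_rpow (p := 2) (by norm_num) hv i
  have h1 : (fun y => ‖v y‖ ^ (2 : ℝ)) = fun y => ‖v y‖ ^ 2 := by
    funext y
    exact Real.rpow_natCast _ 2
  rw [h1] at h
  rw [h, sub_self, Real.rpow_zero, mul_one]

/-- `hasFDerivAt_norm_rpow` -/
theorem pd_norm_rpow {α : ℝ} (hα : 0 < α) {v : E N → ℂ} {x : E N}
    (hv : DifferentiableAt ℝ v x) (i : Fin N) :
    pd i (fun y => ‖v y‖ ^ (α + 2)) x = (α + 2) * ‖v x‖ ^ α * (conj (v x) * pd i v x).re := by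
  rw [BasicC_rpow (by linarith) hv i, add_sub_cancel_right]

/-- `contDiff_norm_rpow` -/
theorem contDiff_rpow {α : ℝ} (hα : 0 < α) {v : E N → ℂ} (hv : ContDiff ℝ 1 v) :
    ContDiff ℝ 1 (fun y => ‖v y‖ ^ (α + 2)) :=
  hv.norm_rpow (by linarith)

theorem continuous_nl {α : ℝ} (hα : 0 < α) : Continuous (nl α) := by
  unfold nl
  exact (Complex.continuous_ofReal.comp
    (continuous_norm.rpow_const fun x => Or.inr hα.le)).mul continuous_id

/-- `||z|^α z| = |z|^{α+1}` -/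
theorem norm_nl {α : ℝ} (hα : 0 < α) (z : ℂ) : ‖nl α z‖ = ‖z‖ ^ (α + 1) := by
  unfold nl
  rw [norm_mul, Complex.norm_real, Real.norm_eq_abs, abs_of_nonneg (Real.rpow_nonneg (norm_nonneg _) _),
    Real.rpow_add_one' (norm_nonneg _) (by linarith)]

theorem BasicC_pow {p : ℝ} (hp : 0 ≤ p) {v : E N → ℂ} (hv : ExpDec v) :
    ∃ C : ℝ, 0 ≤ C ∧ ∀ x, ‖v x‖ ^ (p + 1) ≤ C * ‖v x‖ := by
  obtain ⟨C, hC⟩ := hv.bdd
  have hC0 : 0 ≤ |C| := abs_nonneg C
  refine ⟨|C| ^ p, Real.rpow_nonneg hC0 _, fun x => ?_⟩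
  rw [Real.rpow_add_one' (norm_nonneg _) (by linarith)]
  refine mul_le_mul_of_nonneg_right ?_ (norm_nonneg _)
  exact Real.rpow_le_rpow (norm_nonneg _) ((hC x).trans (le_abs_self C)) hp

theorem expDec_nl {α : ℝ} (hα : 0 < α) {v : E N → ℂ} (hv : ExpDec v) :
    ExpDec (fun x => nl α (v x)) := by
  obtain ⟨C, hC0, hC⟩ := BasicC_pow hα.le hv
  refine hv.mono C fun x => ?_
  rw [norm_nl hα]
  exact hC x

theorem expDec_rpow {α : ℝ} (hα : 0 < α) {v : E N → ℂ} (hv : ExpDec v) :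
    ExpDec (fun x => ‖v x‖ ^ (α + 2)) := by
  obtain ⟨C, hC0, hC⟩ := BasicC_pow (p := α + 1) (by linarith) hv
  refine hv.mono C fun x => ?_
  rw [Real.norm_eq_abs, abs_of_nonneg (Real.rpow_nonneg (norm_nonneg _) _)]
  have h := hC x
  rwa [add_assoc, one_add_one_eq_two] at h

end CGL
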