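import Pool.Agent.W_317df6_h83.BasicC

/-!
# Basic facts: regularity and decay of expressions in `v` and `φ` (task BasicD)
-/

set_option autoImplicit false

namespace CGL

open MeasureTheory Set
open scoped ComplexConjugate

variable {N : ℕ}

/-! ### regularity and decay of `v` -/

theorem BasicD_c2 {F : Type} [NormedAddCommGroup F] [NormedSpace ℝ F] {f : E N → F}
    (hf : ContDiff ℝ 2 f) (i : Fin N) : ContDiff ℝ 1 (pd i f) := by
  have h := pd_contDiff (n := 1) (f := f) (by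
    have e : (((1 : ℕ) : WithTop ℕ∞) + 1) = 2 := by norm_num
    rw [e]
    exact hf) i
  simpa using h

theorem BasicD_c1 {F : Type} [NormedAddCommGroup F] [NormedSpace ℝ F] {f : E N → F}
    (hf : ContDiff ℝ 1 f) (i : Fin N) : Continuous (pd i f) := by
  have h := pd_contDiff (n := 0) (f := f) (by simpa using hf) i
  exact h.continuous

theorem BasicD_c3 {F : Type} [NormedAddCommGroup F] [NormedSpace ℝ F] {f : E N → F}
    (hf : ContDiff ℝ 3 f) (i : Fin N) : ContDiff ℝ 2 (pd i f) := by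
  have h := pd_contDiff (n := 2) (f := f) (by
    have e : (((2 : ℕ) : WithTop ℕ∞) + 1) = 3 := by norm_num
    rw [e]
    exact hf) i
  simpa using h

theorem BasicD_sq {f : E N → ℂ} (hf : ExpDec f) : ExpDec (fun x => ‖f x‖ ^ 2) := by
  obtain ⟨C, hC⟩ := hf.bdd
  refine hf.mono C fun x => ?_
  rw [Real.norm_eq_abs, abs_of_nonneg (sq_nonneg _), sq]
  exact mul_le_mul_of_nonneg_right (hC x) (norm_nonneg _)

theorem Dec.differentiable {v : E N → ℂ} (hv : Dec v) : Differentiable ℝ v :=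
  hv.smooth.differentiable (by norm_num)

theorem Dec.contDiff_pd {v : E N → ℂ} (hv : Dec v) (i : Fin N) : ContDiff ℝ 1 (pd i v) :=
  BasicD_c2 hv.smooth i

theorem Dec.differentiable_pd {v : E N → ℂ} (hv : Dec v) (i : Fin N) :
    Differentiable ℝ (pd i v) :=
  (hv.contDiff_pd i).differentiable (by norm_num)

theorem Dec.continuous_pd2 {v : E N → ℂ} (hv : Dec v) (i j : Fin N) :
    Continuous (pd i (pd j v)) :=
  BasicD_c1 (hv.contDiff_pd j) i

theorem Dec.continuous_lap {v : E N → ℂ} (hv : Dec v) : Continuous (lap v) := by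
  unfold lap
  exact continuous_finsetSum _ fun i _ => hv.continuous_pd2 i i

theorem Dec.expDec_lap {v : E N → ℂ} (hv : Dec v) : ExpDec (lap v) :=
  ExpDec.sum Finset.univ fun i _ => hv.d2 i i

theorem Dec.continuous_gsq {v : E N → ℂ} (hv : Dec v) : Continuous (gsq v) := by
  unfold gsq
  exact continuous_finsetSum _ fun i _ => ((hv.contDiff_pd i).continuous.norm).pow 2

theorem Dec.expDec_gsq {v : E N → ℂ} (hv : Dec v) : ExpDec (gsq v) :=
  ExpDec.sum Finset.univ fun i _ => BasicD_sq (hv.d1 i)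

theorem Dec.expDec_normsq {v : E N → ℂ} (hv : Dec v) : ExpDec (fun x => ‖v x‖ ^ 2) :=
  BasicD_sq hv.d0

/-! ### regularity and bounds for the weight -/

theorem Weight.contDiff_pd {R B0 B1 B2 B3 : ℝ} {φ : E N → ℝ} (hφ : Weight N R B0 B1 B2 B3 φ)
    (i : Fin N) : ContDiff ℝ 2 (pd i φ) :=
  BasicD_c3 hφ.smooth i

theorem Weight.contDiff_pd2 {R B0 B1 B2 B3 : ℝ} {φ : E N → ℝ} (hφ : Weight N R B0 B1 B2 B3 φ)
    (i j : Fin N) : ContDiff ℝ 1 (pd i (pd j φ)) :=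
  BasicD_c2 (hφ.contDiff_pd j) i

theorem Weight.contDiff_lap {R B0 B1 B2 B3 : ℝ} {φ : E N → ℝ} (hφ : Weight N R B0 B1 B2 B3 φ) :
    ContDiff ℝ 1 (lap φ) := by
  unfold lap
  exact ContDiff.sum fun i _ => hφ.contDiff_pd2 i i

theorem Weight.continuous_pd_lap {R B0 B1 B2 B3 : ℝ} {φ : E N → ℝ}
    (hφ : Weight N R B0 B1 B2 B3 φ) (i : Fin N) : Continuous (pd i (lap φ)) :=
  BasicD_c1 hφ.contDiff_lap i

theorem Weight.bdd {R B0 B1 B2 B3 : ℝ} {φ : E N → ℝ} (hφ : Weight N R B0 B1 B2 B3 φ) (x : E N) :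
    |φ x| ≤ B0 := by
  rw [abs_of_nonneg (hφ.nonneg x)]
  exact hφ.b0 x

theorem Weight.bdd_pd {R B0 B1 B2 B3 : ℝ} {φ : E N → ℝ} (hφ : Weight N R B0 B1 B2 B3 φ)
    (i : Fin N) (x : E N) : |pd i φ x| ≤ |B1| := by
  rw [← sq_le_sq]
  refine le_trans ?_ (hφ.b1 x)
  exact Finset.single_le_sum (f := fun i => (pd i φ x) ^ 2) (fun i _ => sq_nonneg _)
    (Finset.mem_univ i)

theorem Weight.bdd_pd_lap {R B0 B1 B2 B3 : ℝ} {φ : E N → ℝ} (hφ : Weight N R B0 B1 B2 B3 φ)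
    (i : Fin N) (x : E N) : |pd i (lap φ) x| ≤ |B3| := by
  rw [← sq_le_sq]
  refine le_trans ?_ (hφ.b3 x)
  exact Finset.single_le_sum (f := fun i => (pd i (lap φ) x) ^ 2) (fun i _ => sq_nonneg _)
    (Finset.mem_univ i)

/-- Cauchy-Schwarz in `ℂ^N` with a real vector: `|∑ a_i b_i|² ≤ ∑ a_i² ∑ |b_i|²`. -/
theorem sum_cs (a : Fin N → ℝ) (b : Fin N → ℂ) :
    ‖∑ i, ((a i : ℝ) : ℂ) * b i‖ ^ 2 ≤ (∑ i, a i ^ 2) * ∑ i, ‖b i‖ ^ 2 := by
  have h1 : ‖∑ i, ((a i : ℝ) : ℂ) * b i‖ ≤ ∑ i, |a i| * ‖b i‖ := by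
    refine (norm_sum_le _ _).trans (le_of_eq ?_)
    refine Finset.sum_congr rfl fun i _ => ?_
    rw [norm_mul, Complex.norm_real, Real.norm_eq_abs]
  have h2 := Finset.sum_mul_sq_le_sq_mul_sq Finset.univ (fun i => |a i|) (fun i => ‖b i‖)
  simp only [sq_abs] at h2
  exact (pow_le_pow_left₀ (norm_nonneg _) h1 2).trans h2

/-! ### the function `w` -/

/-- `w = Δv + |v|^α v` is continuous and decays. -/
theorem Dec.ww_cont {α : ℝ} (hα : 0 < α) {v : E N → ℂ} (hv : Dec v) : Continuous (ww α v) := by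
  unfold ww
  exact hv.continuous_lap.add ((continuous_nl hα).comp hv.smooth.continuous)

theorem Dec.ww_dec {α : ℝ} (hα : 0 < α) {v : E N → ℂ} (hv : Dec v) : ExpDec (ww α v) :=
  hv.expDec_lap.add (expDec_nl hα hv.d0)

end CGL
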