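import Pool.Agent.W_317df6_h83.BasicA
import Pool.Agent.W_317df6_h83.BasicB
import Pool.Agent.W_317df6_h83.BasicC
import Pool.Agent.W_317df6_h83.BasicD

/-!
# Basic facts (umbrella file)
-/
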