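import Pool.Agent.W_317df6_h83.Defs

/-!
# Basic facts: exponential decay, integration by parts (task BasicA)
-/

set_option autoImplicit false

namespace CGL

open MeasureTheory Set
open scoped ComplexConjugate

variable {N : ℕ} {F : Type} [NormedAddCommGroup F] [NormedSpace ℝ F]

/-- `exp(-|x|)` is integrable on `ℝ^N` (e.g. comparison with a power, `integrable_one_add_norm`). -/
theorem integrable_exp (N : ℕ) : Integrable (fun x : E N => Real.exp (-‖x‖)) := by
  have h1 : Integrable (fun x : E N => (1 + ‖x‖) ^ (-((N : ℝ) + 1))) := by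
    apply integrable_one_add_norm
    rw [finrank_euclideanSpace, Fintype.card_fin]
    linarith
  refine Integrable.mono' (h1.const_mul (Real.exp 1 * ((N + 1).factorial : ℝ))) ?_ ?_
  · exact (Real.continuous_exp.comp continuous_norm.neg).aestronglyMeasurable
  · refine Filter.Eventually.of_forall fun x => ?_
    rw [Real.norm_eq_abs, abs_of_pos (Real.exp_pos _)]
    have h2 : (0 : ℝ) < 1 + ‖x‖ := by positivity
    have h3 := Real.pow_div_factorial_le_exp (1 + ‖x‖) h2.le (N + 1)
    have h4 : (0 : ℝ) < ((N + 1).factorial : ℝ) := by exact_mod_cast Nat.factorial_pos _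
    have h5 : (1 + ‖x‖) ^ (-((N : ℝ) + 1)) = ((1 + ‖x‖) ^ (N + 1))⁻¹ := by
      rw [Real.rpow_neg h2.le]
      congr 1
      have h6 : ((N : ℝ) + 1) = ((N + 1 : ℕ) : ℝ) := by push_cast; ring
      rw [h6, Real.rpow_natCast]
    rw [div_le_iff₀ h4] at h3
    rw [h5]
    have h7 : (0 : ℝ) < (1 + ‖x‖) ^ (N + 1) := by positivity
    rw [← div_eq_mul_inv, le_div_iff₀ h7]
    calc Real.exp (-‖x‖) * (1 + ‖x‖) ^ (N + 1)
        ≤ Real.exp (-‖x‖) * (Real.exp (1 + ‖x‖) * ((N + 1).factorial : ℝ)) :=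
          mul_le_mul_of_nonneg_left h3 (Real.exp_pos _).le
      _ = Real.exp (-‖x‖ + (1 + ‖x‖)) * ((N + 1).factorial : ℝ) := by
          rw [← mul_assoc, ← Real.exp_add]
      _ = Real.exp 1 * ((N + 1).factorial : ℝ) := by
          have h8 : -‖x‖ + (1 + ‖x‖) = 1 := by ring
          rw [h8]

theorem ExpDec.integrable {f : E N → F} (hf : ExpDec f) (hc : Continuous f) : Integrable f := by
  obtain ⟨C, hC⟩ := hf
  refine Integrable.mono' ((integrable_exp N).const_mul C) hc.aestronglyMeasurable ?_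
  exact Filter.Eventually.of_forall hC

theorem ExpDec.bdd {f : E N → F} (hf : ExpDec f) : ∃ C, ∀ x, ‖f x‖ ≤ C := by
  obtain ⟨C, hC⟩ := hf
  refine ⟨|C|, fun x => (hC x).trans ?_⟩
  have h1 : Real.exp (-‖x‖) ≤ 1 := Real.exp_le_one_iff.2 (by simp)
  calc C * Real.exp (-‖x‖) ≤ |C| * Real.exp (-‖x‖) :=
        mul_le_mul_of_nonneg_right (le_abs_self C) (Real.exp_pos _).le
    _ ≤ |C| * 1 := mul_le_mul_of_nonneg_left h1 (abs_nonneg C)
    _ = |C| := mul_one _

/-- domination by an exponentially decaying function -/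
theorem ExpDec.mono {G : Type} [NormedAddCommGroup G] [NormedSpace ℝ G] {f : E N → F}
    {g : E N → G} (hf : ExpDec f) (C : ℝ) (h : ∀ x, ‖g x‖ ≤ C * ‖f x‖) : ExpDec g := by
  obtain ⟨C', hC'⟩ := hf
  refine ⟨|C| * C', fun x => (h x).trans ?_⟩
  calc C * ‖f x‖ ≤ |C| * ‖f x‖ := mul_le_mul_of_nonneg_right (le_abs_self C) (norm_nonneg _)
    _ ≤ |C| * (C' * Real.exp (-‖x‖)) := mul_le_mul_of_nonneg_left (hC' x) (abs_nonneg C)
    _ = |C| * C' * Real.exp (-‖x‖) := by ring

theorem ExpDec.add {f g : E N → F} (hf : ExpDec f) (hg : ExpDec g) :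
    ExpDec (fun x => f x + g x) := by
  obtain ⟨C, hC⟩ := hf
  obtain ⟨C', hC'⟩ := hg
  refine ⟨C + C', fun x => (norm_add_le _ _).trans ?_⟩
  have := add_le_add (hC x) (hC' x)
  linarith

theorem ExpDec.sum {ι : Type} (s : Finset ι) {f : ι → E N → F} (hf : ∀ i ∈ s, ExpDec (f i)) :
    ExpDec (fun x => ∑ i ∈ s, f i x) := by
  classical
  induction s using Finset.induction_on with
  | empty => exact ⟨0, fun x => by simp⟩
  | insert a s ha ih =>
    have h1 := hf a (Finset.mem_insert_self a s)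
    have h2 := ih fun i hi => hf i (Finset.mem_insert_of_mem hi)
    have h3 := h1.add h2
    refine h3.mono 1 fun x => ?_
    rw [Finset.sum_insert ha, one_mul]

/-- bounded times exponentially decaying -/
theorem ExpDec.bmul {f g : E N → ℂ} (hf : ∃ C, ∀ x, ‖f x‖ ≤ C) (hg : ExpDec g) :
    ExpDec (fun x => f x * g x) := by
  obtain ⟨C, hC⟩ := hf
  refine hg.mono C fun x => ?_
  rw [norm_mul]
  exact mul_le_mul_of_nonneg_right (hC x) (norm_nonneg _)

theorem BasicA_aux1 {𝕜 : Type} [RCLike 𝕜] {f : E N → 𝕜} (hf : ContDiff ℝ 1 f) (h0 : ExpDec f)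
    (i : Fin N) (h1 : ExpDec (pd i f)) : ∫ x, pd i f x = 0 := by
  have hc1 : Continuous (pd i f) :=
    (hf.continuous_fderiv (by norm_num)).clm_apply continuous_const
  have hi0 := h0.integrable hf.continuous
  have hi1 := h1.integrable hc1
  have key := integral_bilinear_hasLineDerivAt_right_eq_neg_left_of_integrable
    (μ := (volume : Measure (E N))) (f := f) (f' := pd i f) (g := fun _ => (1 : 𝕜))
    (g' := fun _ => (0 : 𝕜)) (v := EuclideanSpace.single i (1 : ℝ))
    (B := ContinuousLinearMap.mul ℝ 𝕜) (by simpa using hi1) (by simp) (by simpa using hi0)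
    (fun x _ => (hf.differentiable (by norm_num) x).hasFDerivAt.hasLineDerivAt _)
    (fun x _ => by
      unfold HasLineDerivAt
      exact hasDerivAt_const _ _)
  simpa using key.symm

/-- `∫ ∂_i f = 0` (`integral_mul_fderiv_eq_neg_fderiv_mul_of_integrable` and relatives in
`Mathlib/Analysis/Calculus/LineDeriv/IntegrationByParts.lean`; there is also
`integral_fderiv_eq_zero`-like reasoning through `integral_bilinear_hasLineDerivAt_right_eq_neg_left`
with the constant function `1`). -/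
theorem integral_pd_eq_zero {f : E N → ℂ} (hf : ContDiff ℝ 1 f) (h0 : ExpDec f) (i : Fin N)
    (h1 : ExpDec (pd i f)) : ∫ x, pd i f x = 0 :=
  BasicA_aux1 hf h0 i h1

theorem integral_pd_eq_zero_real {f : E N → ℝ} (hf : ContDiff ℝ 1 f) (h0 : ExpDec f) (i : Fin N)
    (h1 : ExpDec (pd i f)) : ∫ x, pd i f x = 0 :=
  BasicA_aux1 hf h0 i h1

end CGL
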