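import Pool.Agent.W_317df6_h83.DataA

/-!
# The initial value: scaling (task DataB)
-/

set_option autoImplicit false

namespace CGL

open MeasureTheory Set
open scoped ContDiff

variable {N : ℕ}

lemma DataB_int {lam : ℝ} (hl : 0 < lam) (f : E N → ℝ) :
    ∫ x : E N, f (lam • x) = lam ^ (-(N : ℝ)) * ∫ x, f x := by
  rw [Measure.integral_comp_smul, finrank_euclideanSpace, Fintype.card_fin, smul_eq_mul,
    abs_of_pos (by positivity), Real.rpow_neg hl.le, Real.rpow_natCast]

lemma DataB_norm {c : ℝ} (hc : 0 < c) (w : E N → ℝ) (lam : ℝ) (x : E N) :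
    ‖cx (fun x => c * w (lam • x)) x‖ = c * ‖cx w (lam • x)‖ := by
  unfold cx
  rw [Complex.norm_real, Complex.norm_real, norm_mul, Real.norm_of_nonneg hc.le]

lemma DataB_pd {c : ℝ} {lam : ℝ} {w : E N → ℝ}
    (hw : ContDiff ℝ ∞ w) (i : Fin N) (x : E N) :
    pd i (cx (fun x => c * w (lam • x))) x = ((c * lam : ℝ) : ℂ) * pd i (cx w) (lam • x) := by
  have hd : Differentiable ℝ w := hw.differentiable (by simp)
  have hdc : Differentiable ℝ (cx w) := by
    have h1 : cx w = fun x => Complex.ofRealCLM (w x) := rfl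
    rw [h1]
    exact Complex.ofRealCLM.differentiable.comp hd
  have h1 : HasFDerivAt (fun y : E N => cx w (lam • y))
      ((fderiv ℝ (cx w) (lam • x)).comp (lam • ContinuousLinearMap.id ℝ (E N))) x :=
    ((hdc (lam • x)).hasFDerivAt).comp x ((hasFDerivAt_id x).const_smul lam)
  have h2 : HasFDerivAt (cx (fun x => c * w (lam • x)))
      (c • (fderiv ℝ (cx w) (lam • x)).comp (lam • ContinuousLinearMap.id ℝ (E N))) x := by
    have h3 := h1.const_smul c
    have e : (cx (fun x => c * w (lam • x))) = fun y : E N => c • cx w (lam • y) := by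
      funext y
      unfold cx
      rw [Complex.real_smul]
      push_cast
      rfl
    rw [e]
    exact h3
  unfold pd
  rw [h2.fderiv]
  simp only [ContinuousLinearMap.smul_apply, ContinuousLinearMap.comp_apply,
    ContinuousLinearMap.coe_id', id_eq, map_smul, Complex.real_smul]
  push_cast
  ring

/-- **Scaling.**  `w_λ(x) = λ^{2/α} w(λx)`: `M(w_λ) = λ^{4/α-N} M(w)`,
`e(w_λ) = λ^{4/α-N+2} e(w)`: `∂_i w_λ(x) = λ^{2/α+1} (∂_i w)(λx)`, `∫ f(λx) dx = λ^{-N} ∫ f`
(`Measure.integral_comp_smul`), `|w_λ|^{α+2} = λ^{(2/α)(α+2)} |w(λx)|^{α+2}`, `(2/α)(α+2) = 4/α+2`. -/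
theorem profile_scale {α lam : ℝ} (hα : 0 < α) (hl : 0 < lam) {w : E N → ℝ}
    (hw : ContDiff ℝ ∞ w) (hc : HasCompactSupport w) :
    Mf (cx (fun x => lam ^ (2 / α) * w (lam • x))) = lam ^ (4 / α - N) * Mf (cx w) ∧
    ef α (cx (fun x => lam ^ (2 / α) * w (lam • x))) = lam ^ (4 / α - N + 2) * ef α (cx w) := by
  have hc0 : 0 < lam ^ (2 / α) := Real.rpow_pos_of_pos hl _
  have hc2 : (lam ^ (2 / α)) ^ 2 = lam ^ (4 / α) := by
    rw [← Real.rpow_natCast, ← Real.rpow_mul hl.le]
    congr 1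
    push_cast
    ring
  have hM : Mf (cx (fun x => lam ^ (2 / α) * w (lam • x))) = lam ^ (4 / α - N) * Mf (cx w) := by
    unfold Mf
    simp only [DataB_norm hc0]
    have e : ∀ x : E N, (lam ^ (2 / α) * ‖cx w (lam • x)‖) ^ 2 =
        lam ^ (4 / α) * (fun y : E N => ‖cx w y‖ ^ 2) (lam • x) := fun x => by
      rw [mul_pow, hc2]
    simp only [e]
    rw [integral_const_mul, DataB_int hl (fun y : E N => ‖cx w y‖ ^ 2), ← mul_assoc,
      ← Real.rpow_add hl]
    rfl
  have hP : Pf α (cx (fun x => lam ^ (2 / α) * w (lam • x))) =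
      lam ^ (4 / α - N + 2) * Pf α (cx w) := by
    unfold Pf
    simp only [DataB_norm hc0]
    have e : ∀ x : E N, (lam ^ (2 / α) * ‖cx w (lam • x)‖) ^ (α + 2) =
        lam ^ (4 / α + 2) * (fun y : E N => ‖cx w y‖ ^ (α + 2)) (lam • x) := fun x => by
      rw [Real.mul_rpow hc0.le (norm_nonneg _), ← Real.rpow_mul hl.le]
      congr 2
      field_simp
      ring
    simp only [e]
    rw [integral_const_mul, DataB_int hl (fun y : E N => ‖cx w y‖ ^ (α + 2)), ← mul_assoc,
      ← Real.rpow_add hl]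
    congr 2
    ring
  have hG : Gf (cx (fun x => lam ^ (2 / α) * w (lam • x))) =
      lam ^ (4 / α - N + 2) * Gf (cx w) := by
    unfold Gf
    have e : ∀ x : E N, gsq (cx (fun x => lam ^ (2 / α) * w (lam • x))) x =
        lam ^ (4 / α + 2) * (gsq (cx w)) (lam • x) := fun x => by
      unfold gsq
      rw [Finset.mul_sum]
      refine Finset.sum_congr rfl fun i _ => ?_
      rw [DataB_pd hw i x, norm_mul, Complex.norm_real, Real.norm_of_nonneg (by positivity),
        mul_pow, mul_pow, hc2]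
      congr 1
      rw [Real.rpow_add hl]
      norm_num
    simp only [e]
    rw [integral_const_mul, DataB_int hl (gsq (cx w)), ← mul_assoc, ← Real.rpow_add hl]
    congr 2
    ring
  refine ⟨hM, ?_⟩
  unfold ef
  rw [hP, hG]
  ring

end CGL
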