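import Pool.Agent.W_317df6_h83.Defs

/-!
# Choice of the parameters (task DataC)
-/

set_option autoImplicit false

namespace CGL

open MeasureTheory Set
open scoped ContDiff

variable {N : ℕ}

theorem DataC_scale {α b2 C M e R1 L : ℝ} {N : ℕ} (hN : 2 ≤ N) (hα0 : 0 < α)
    (hC : 0 < C) (hM : 0 < M) (he : 0 < e) (hR1 : 0 < R1) (hL : 0 < L) :
    (2 * N + b2) * (2 * (2 * (L ^ (4 / α - N) * M))) *
      ((C / (R1 / L) ^ (N - 1)) * √(2 * (2 * (L ^ (4 / α - N) * M)))) ^ (α / 2) *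
      (L ^ (4 / α - N + 2) * e / 2) ^ (α / 4 - 1)
    = (2 * N + b2) * (2 * (2 * M)) *
      ((C / R1 ^ (N - 1)) * √(2 * (2 * M))) ^ (α / 2) * (e / 2) ^ (α / 4 - 1) := by
  set σ : ℝ := 4 / α - N with hσ
  have ha : √(2 * (2 * (L ^ σ * M))) = L ^ (σ / 2) * √(2 * (2 * M)) := by
    have : 2 * (2 * (L ^ σ * M)) = L ^ σ * (2 * (2 * M)) := by ring
    rw [this, Real.sqrt_mul (Real.rpow_nonneg hL.le _)]
    congr 1
    rw [Real.sqrt_eq_rpow, ← Real.rpow_mul hL.le]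
    congr 1
    ring
  have hb : C / (R1 / L) ^ (N - 1) = (C / R1 ^ (N - 1)) * L ^ ((N : ℝ) - 1) := by
    have h1 : L ^ ((N : ℝ) - 1) = L ^ (N - 1) := by
      rw [← Real.rpow_natCast, Nat.cast_sub (by omega), Nat.cast_one]
    rw [h1, div_pow]
    field_simp
  have hx : 0 < (C / R1 ^ (N - 1)) * √(2 * (2 * M)) := by positivity
  have hc : (C / (R1 / L) ^ (N - 1)) * √(2 * (2 * (L ^ σ * M)))
      = ((C / R1 ^ (N - 1)) * √(2 * (2 * M))) * L ^ (((N : ℝ) - 1) + σ / 2) := by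
    rw [ha, hb, Real.rpow_add hL]
    ring
  have hd : L ^ (σ + 2) * e / 2 = (e / 2) * L ^ (σ + 2) := by ring
  rw [hc, hd, Real.mul_rpow hx.le (Real.rpow_nonneg hL.le _),
    Real.mul_rpow (by positivity) (Real.rpow_nonneg hL.le _), ← Real.rpow_mul hL.le,
    ← Real.rpow_mul hL.le]
  have hexp : L ^ σ * L ^ ((((N : ℝ) - 1) + σ / 2) * (α / 2)) * L ^ ((σ + 2) * (α / 4 - 1)) = 1 := by
    rw [← Real.rpow_add hL, ← Real.rpow_add hL]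
    have : σ + (((N : ℝ) - 1) + σ / 2) * (α / 2) + (σ + 2) * (α / 4 - 1) = 0 := by
      rw [hσ]
      field_simp
      ring
    rw [this, Real.rpow_zero]
  calc _ = (2 * N + b2) * (2 * (2 * M)) *
      ((C / R1 ^ (N - 1)) * √(2 * (2 * M))) ^ (α / 2) * (e / 2) ^ (α / 4 - 1) *
      (L ^ σ * L ^ ((((N : ℝ) - 1) + σ / 2) * (α / 2)) * L ^ ((σ + 2) * (α / 4 - 1))) := by ring
    _ = _ := by rw [hexp, mul_one]

theorem DataC_sq {x : ℝ} (h : 1 ≤ x) : x ≤ x ^ 2 := le_self_pow₀ h (by norm_num)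

theorem DataC_e1 {b3 R1 L X M : ℝ} (hR1 : 0 < R1) (hL : 0 < L) :
    64 * (b3 / (R1 / L)) ^ 2 * (2 * (X * M)) = X * L ^ 2 / R1 ^ 2 * (64 * b3 ^ 2 * (2 * M)) := by
  field_simp

theorem DataC_e3 {R1 L X A e : ℝ} (hR1 : 0 < R1) :
    X * L ^ 2 / R1 ^ 2 * (R1 ^ 2 * (A * (e / 2))) = A * (X * L ^ 2 * e / 2) := by
  field_simp

theorem DataC_l1 {b0 b1 R1 L X M α c T1 B : ℝ} (hα0 : 0 < α) (hL : 0 < L) :
    (b0 * (R1 / L) ^ 2) * (2 * (X * M)) * (9 + 32 / α)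
        + 128 * (b1 * (R1 / L)) ^ 2 * (2 * (X * M)) / α
        + 4 * c * (2 * (X * M)) * (T1 / L ^ 2) * B
        = X / L ^ 2 * ((b0 * (9 + 32 / α) + 128 * b1 ^ 2 / α) * R1 ^ 2 * (2 * M)
          + (c * (4 * T1 * B)) * (2 * M)) := by
  field_simp

theorem DataC_l2 {L X e T1 : ℝ} (hL : 0 < L) :
    X * L ^ 2 * e / 2 * (T1 / L ^ 2) ^ 2 = X / L ^ 2 * (T1 ^ 2 * (e / 2)) := by
  field_simp

theorem DataC_half {x : ℝ} (h0 : 0 < x) (h : x ≤ 1 / 2) : 2 * x ^ 2 ≤ 1 := by nlinarith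

/-- **Choice of the parameters.**

`m = 2M`, `e0 = e/2`, `B0 = b0R²`, `B1 = b1R`, `B2 = b2`, `B3 = b3/R`, `B4 = 2N+b2`,
`q = C/R^{N-1}`.  First choose `R1` large (for `λ = 1`) such that `H3`, `H4` hold, then `T1` with
`e0 T1² = (b0(9+32/α) + 128 b1²/α + 1) R1² m`.  For `λ > 0` put `m_λ = λ^{4/α-N} m`,
`e_λ = λ^{4/α-N+2} e0`, `R = R1/λ`, `T = T1/λ²`: `H3`, `H4` and the relation for `T` are invariant
(the exponent of `λ` in `H3` is `(4/α-N) + (α/2)((N-1) + (4/α-N)/2) + (4/α-N+2)(α/4-1) = 0`), and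
`g T = g T1/λ²` is small for `λ` large (`H1`, `H2`).  Finally `c0` with `2c0² ≤ 1` and
`4 c0 T (b2+2b2²) ≤ R²` gives `H5`. -/
theorem exists_params {α g b0 b1 b2 b3 C M e : ℝ} (hN : 2 ≤ N) (hα0 : 0 < α) (hα : 4 < N * α)
    (hα4 : α ≤ 4) (hg : 0 < g) (h0 : 0 < b0) (h1 : 0 < b1) (h2 : 0 < b2) (h3 : 0 < b3)
    (hC : 0 < C) (hM : 0 < M) (he : 0 < e) : ∃ lam R T c0 : ℝ, 0 < lam ∧ 0 < R ∧ 0 < T ∧ 0 < c0 ∧
    2 * c0 ^ 2 ≤ 1 ∧
    g * T ≤ α / 16384 ∧ 16 * N * α ^ 2 * (g * T) ≤ N * α - 4 ∧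
    (2 * N + b2) * (2 * (2 * (lam ^ (4 / α - N) * M))) *
      ((C / R ^ (N - 1)) * √(2 * (2 * (lam ^ (4 / α - N) * M)))) ^ (α / 2) *
      (lam ^ (4 / α - N + 2) * e / 2) ^ (α / 4 - 1) ≤ (N * α - 4) / 16 ∧
    64 * (b3 / R) ^ 2 * (2 * (lam ^ (4 / α - N) * M)) ≤
      (N * α - 4) * N * α * (lam ^ (4 / α - N + 2) * e / 2) ∧
    ∀ c : ℝ, 0 < c → c ≤ c0 →
      (b0 * R ^ 2) * (2 * (lam ^ (4 / α - N) * M)) * (9 + 32 / α)
        + 128 * (b1 * R) ^ 2 * (2 * (lam ^ (4 / α - N) * M)) / α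
        + 4 * c * (2 * (lam ^ (4 / α - N) * M)) * T * (b2 + 2 * b2 ^ 2) ≤
      (lam ^ (4 / α - N + 2) * e / 2) * T ^ 2 := by
  have hK : 0 < (N : ℝ) * α - 4 := by linarith
  have hNpos : (0 : ℝ) < N := by
    have : 0 < N := by omega
    exact_mod_cast this
  obtain ⟨s, hs⟩ : ∃ x : ℝ, x = √(2 * (2 * M)) := ⟨_, rfl⟩
  have hs0 : 0 < s := by rw [hs]; positivity
  obtain ⟨E, hE⟩ : ∃ x : ℝ, x = (e / 2) ^ (α / 4 - 1) := ⟨_, rfl⟩
  have hE0 : 0 < E := by rw [hE]; positivity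
  obtain ⟨P, hP⟩ : ∃ x : ℝ, x = (2 * N + b2) * (2 * (2 * M)) * E := ⟨_, rfl⟩
  have hP0 : 0 < P := by rw [hP]; positivity
  obtain ⟨δ, hδ⟩ : ∃ x : ℝ, x = ((N : ℝ) * α - 4) / 16 / P := ⟨_, rfl⟩
  have hδ0 : 0 < δ := by rw [hδ]; positivity
  obtain ⟨Dd, hDd⟩ : ∃ x : ℝ, x = δ ^ (2 / α) := ⟨_, rfl⟩
  have hD0 : 0 < Dd := by rw [hDd]; positivity
  obtain ⟨Q, hQ⟩ : ∃ x : ℝ, x = 64 * b3 ^ 2 * (2 * M) / (((N : ℝ) * α - 4) * N * α * (e / 2)) := ⟨_, rfl⟩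
  have hQ0 : 0 < Q := by rw [hQ]; positivity
  obtain ⟨R1, hR1⟩ : ∃ x : ℝ, x = 1 + C * s / Dd + Q := ⟨_, rfl⟩
  have hR11 : 1 ≤ R1 := by
    have : 0 < C * s / Dd := by positivity
    rw [hR1]; linarith
  have hR1p : 0 < R1 := by linarith
  have hR1a : C * s / Dd ≤ R1 := by
    rw [hR1]; linarith
  have hR1b : Q ≤ R1 := by
    have : 0 < C * s / Dd := by positivity
    rw [hR1]; linarith
  have hR1sq : R1 ≤ R1 ^ 2 := DataC_sq hR11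
  obtain ⟨W, hW⟩ : ∃ x : ℝ, x = (b0 * (9 + 32 / α) + 128 * b1 ^ 2 / α + 1) * R1 ^ 2 * (2 * M) / (e / 2) := ⟨_, rfl⟩
  have hW0 : 0 < W := by rw [hW]; positivity
  obtain ⟨T1, hT1⟩ : ∃ x : ℝ, x = 1 + W := ⟨_, rfl⟩
  have hT11 : 1 ≤ T1 := by rw [hT1]; linarith
  have hT1p : 0 < T1 := by linarith
  have hT1sq : W ≤ T1 ^ 2 := le_trans (by rw [hT1]; linarith) (DataC_sq hT11)
  obtain ⟨lam, hlam⟩ : ∃ x : ℝ, x = 1 + g * T1 * 16384 / α + 16 * N * α ^ 2 * (g * T1) / ((N : ℝ) * α - 4) := ⟨_, rfl⟩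
  have hl1 : 0 < g * T1 * 16384 / α := by positivity
  have hl2 : 0 < 16 * N * α ^ 2 * (g * T1) / ((N : ℝ) * α - 4) := by positivity
  have hlam1 : 1 ≤ lam := by rw [hlam]; linarith
  have hlamp : 0 < lam := by linarith
  have hlamsq : lam ≤ lam ^ 2 := DataC_sq hlam1
  obtain ⟨c0, hc0⟩ : ∃ x : ℝ, x = min (1 / 2) (R1 ^ 2 / (4 * T1 * (b2 + 2 * b2 ^ 2))) := ⟨_, rfl⟩
  have hc0p : 0 < c0 := by
    rw [hc0]
    apply lt_min
    · norm_num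
    · positivity
  refine ⟨lam, R1 / lam, T1 / lam ^ 2, c0, hlamp, by positivity, by positivity, hc0p, ?_, ?_, ?_,
    ?_, ?_, ?_⟩
  · exact DataC_half hc0p (by rw [hc0]; exact min_le_left _ _)
  · have h : g * T1 * 16384 / α ≤ lam ^ 2 := by
      refine le_trans ?_ hlamsq
      rw [hlam]; linarith
    rw [div_le_iff₀ hα0] at h
    rw [← mul_div_assoc, div_le_div_iff₀ (by positivity) (by norm_num)]
    linarith
  · have h : 16 * N * α ^ 2 * (g * T1) / ((N : ℝ) * α - 4) ≤ lam ^ 2 := by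
      refine le_trans ?_ hlamsq
      rw [hlam]; linarith
    rw [div_le_iff₀ hK] at h
    have h2 : 16 * (N : ℝ) * α ^ 2 * (g * (T1 / lam ^ 2)) = 16 * N * α ^ 2 * (g * T1) / lam ^ 2 := by
      ring
    rw [h2, div_le_iff₀ (by positivity)]
    linarith
  · rw [DataC_scale hN hα0 hC hM he hR1p hlamp, ← hs, ← hE]
    have hx : (C / R1 ^ (N - 1)) * s ≤ Dd := by
      have h1 : R1 ≤ R1 ^ (N - 1) := by
        calc R1 = R1 ^ 1 := (pow_one R1).symm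
          _ ≤ R1 ^ (N - 1) := pow_le_pow_right₀ hR11 (by omega)
      rw [div_le_iff₀ hD0] at hR1a
      rw [div_mul_eq_mul_div, div_le_iff₀ (by positivity)]
      calc C * s ≤ R1 * Dd := hR1a
        _ ≤ R1 ^ (N - 1) * Dd := by
          exact mul_le_mul_of_nonneg_right h1 hD0.le
        _ = Dd * R1 ^ (N - 1) := by ring
    have hy : ((C / R1 ^ (N - 1)) * s) ^ (α / 2) ≤ δ := by
      calc ((C / R1 ^ (N - 1)) * s) ^ (α / 2) ≤ Dd ^ (α / 2) :=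
            Real.rpow_le_rpow (by positivity) hx (by positivity)
        _ = δ := by
          rw [hDd, ← Real.rpow_mul hδ0.le]
          have : 2 / α * (α / 2) = 1 := by field_simp
          rw [this, Real.rpow_one]
    calc (2 * N + b2) * (2 * (2 * M)) * ((C / R1 ^ (N - 1)) * s) ^ (α / 2) * E
        = P * ((C / R1 ^ (N - 1)) * s) ^ (α / 2) := by rw [hP]; ring
      _ ≤ P * δ := mul_le_mul_of_nonneg_left hy hP0.le
      _ = (N * α - 4) / 16 := by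
        rw [hδ]; field_simp
  · have h := le_trans hR1b hR1sq
    rw [hQ, div_le_iff₀ (by positivity)] at h
    have e1 : 64 * (b3 / (R1 / lam)) ^ 2 * (2 * (lam ^ (4 / α - (N : ℝ)) * M))
        = lam ^ (4 / α - (N : ℝ)) * lam ^ 2 / R1 ^ 2 * (64 * b3 ^ 2 * (2 * M)) :=
      DataC_e1 hR1p hlamp
    have e2 : lam ^ (4 / α - (N : ℝ) + 2) = lam ^ (4 / α - (N : ℝ)) * lam ^ 2 := by
      rw [Real.rpow_add hlamp, Real.rpow_two]
    rw [e1, e2]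
    have hpos : 0 < lam ^ (4 / α - (N : ℝ)) * lam ^ 2 := by positivity
    calc lam ^ (4 / α - (N : ℝ)) * lam ^ 2 / R1 ^ 2 * (64 * b3 ^ 2 * (2 * M))
        ≤ lam ^ (4 / α - (N : ℝ)) * lam ^ 2 / R1 ^ 2 *
          (R1 ^ 2 * (((N : ℝ) * α - 4) * N * α * (e / 2))) :=
          mul_le_mul_of_nonneg_left h (by positivity)
      _ = (N * α - 4) * N * α * (lam ^ (4 / α - (N : ℝ)) * lam ^ 2 * e / 2) :=
        DataC_e3 hR1p
  · intro c hc hcc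
    have hc2 : c ≤ R1 ^ 2 / (4 * T1 * (b2 + 2 * b2 ^ 2)) :=
      le_trans hcc (by rw [hc0]; exact min_le_right _ _)
    rw [le_div_iff₀ (by positivity)] at hc2
    have hT := hT1sq
    rw [hW, div_le_iff₀ (by positivity)] at hT
    have e2 : lam ^ (4 / α - (N : ℝ) + 2) = lam ^ (4 / α - (N : ℝ)) * lam ^ 2 := by
      rw [Real.rpow_add hlamp, Real.rpow_two]
    rw [e2]
    obtain ⟨X, hX⟩ : ∃ x : ℝ, x = lam ^ (4 / α - (N : ℝ)) := ⟨_, rfl⟩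
    have hX0 : 0 < X := by rw [hX]; positivity
    rw [← hX]
    have l1 : (b0 * (R1 / lam) ^ 2) * (2 * (X * M)) * (9 + 32 / α)
        + 128 * (b1 * (R1 / lam)) ^ 2 * (2 * (X * M)) / α
        + 4 * c * (2 * (X * M)) * (T1 / lam ^ 2) * (b2 + 2 * b2 ^ 2)
        = X / lam ^ 2 * ((b0 * (9 + 32 / α) + 128 * b1 ^ 2 / α) * R1 ^ 2 * (2 * M)
          + (c * (4 * T1 * (b2 + 2 * b2 ^ 2))) * (2 * M)) :=
      DataC_l1 hα0 hlamp
    have l2 : X * lam ^ 2 * e / 2 * (T1 / lam ^ 2) ^ 2 = X / lam ^ 2 * (T1 ^ 2 * (e / 2)) :=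
      DataC_l2 hlamp
    rw [l1, l2]
    apply mul_le_mul_of_nonneg_left _ (by positivity)
    calc (b0 * (9 + 32 / α) + 128 * b1 ^ 2 / α) * R1 ^ 2 * (2 * M)
          + (c * (4 * T1 * (b2 + 2 * b2 ^ 2))) * (2 * M)
        ≤ (b0 * (9 + 32 / α) + 128 * b1 ^ 2 / α) * R1 ^ 2 * (2 * M) + R1 ^ 2 * (2 * M) := by
          have := mul_le_mul_of_nonneg_right hc2 (by positivity : (0:ℝ) ≤ 2 * M)
          linarith
      _ = (b0 * (9 + 32 / α) + 128 * b1 ^ 2 / α + 1) * R1 ^ 2 * (2 * M) := by ring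
      _ ≤ T1 ^ 2 * (e / 2) := hT


end CGL
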