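import Pool.Agent.W_317df6_h83.DataA
import Pool.Agent.W_317df6_h83.DataB
import Pool.Agent.W_317df6_h83.DataC

/-!
# The initial value (umbrella file)
-/
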