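import Pool.Agent.W_317df6_h83.Basic

/-!
# The initial value: a profile with negative energy (task DataA)
-/

set_option autoImplicit false

namespace CGL

open MeasureTheory Set
open scoped ContDiff

variable {N : ℕ}

/-- complex valued version -/
noncomputable def cx (w : E N → ℝ) : E N → ℂ := fun x => ((w x : ℝ) : ℂ)

/-- the bump -/
noncomputable def DataA_psi (x : E N) : ℝ := Real.smoothTransition (1 - ‖x‖ ^ 2)

theorem DataA_smooth : ContDiff ℝ ∞ (DataA_psi (N := N)) :=
  Real.smoothTransition.contDiff.comp (contDiff_const.sub (contDiff_norm_sq ℝ))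

theorem DataA_supp {x : E N} (h : 1 ≤ ‖x‖) : DataA_psi x = 0 := by
  unfold DataA_psi
  apply Real.smoothTransition.zero_of_nonpos
  nlinarith [norm_nonneg x]

theorem DataA_comp : HasCompactSupport (DataA_psi (N := N)) := by
  refine HasCompactSupport.intro (isCompact_closedBall (0 : E N) 1) fun x hx => ?_
  apply DataA_supp
  rw [mem_closedBall_zero_iff, not_le] at hx
  exact hx.le

theorem DataA_zero : DataA_psi (0 : E N) = 1 := by
  unfold DataA_psi
  apply Real.smoothTransition.one_of_one_le
  simp

theorem DataA_pd (k : ℝ) (i : Fin N) (x : E N) :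
    pd i (cx (fun y => k * DataA_psi y)) x = (k : ℂ) * pd i (cx DataA_psi) x := by
  have h1 : DifferentiableAt ℝ (cx (DataA_psi (N := N))) x := by
    have h2 : ContDiff ℝ ∞ (cx (DataA_psi (N := N))) :=
      Complex.ofRealCLM.contDiff.comp DataA_smooth
    exact (h2.differentiable (by simp)) x
  have h3 : cx (fun y => k * DataA_psi y) = fun y : E N => (k : ℂ) * cx DataA_psi y := by
    funext y
    unfold cx
    push_cast
    rfl
  unfold pd
  rw [h3, fderiv_const_mul h1]
  simp

/-- **A radial profile with negative energy** (`ef > 0`): a radial bump `ψ ≥ 0`, `ψ ≠ 0`, e.g.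
`ψ x = Real.smoothTransition (1 - ‖x‖²)` (`‖x‖²` is smooth: `contDiff_norm_sq`), times a large
constant `k`; `ef(kψ) = k^{α+2} P/(α+2) - k² G/2`, `P = Pf α (cx ψ) > 0`, `G = Gf (cx ψ)`,
`Mf (cx (kψ)) = k² Mf (cx ψ) > 0` (integrals of a nonnegative continuous function with compact support
which is positive at `0`); `k^{α+2}P/(α+2) > k² G/2` for `k` large. -/
theorem exists_profile (N : ℕ) {α : ℝ} (hα : 0 < α) : ∃ w : E N → ℝ, ContDiff ℝ ∞ w ∧
    HasCompactSupport w ∧ (∀ x y : E N, ‖x‖ = ‖y‖ → w x = w y) ∧ (∃ x, w x ≠ 0) ∧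
    0 < ef α (cx w) ∧ 0 < Mf (cx w) := by
  have hcont : Continuous (DataA_psi (N := N)) := DataA_smooth.continuous
  have hcc : Continuous (cx (DataA_psi (N := N))) := Complex.continuous_ofReal.comp hcont
  have hz : cx (DataA_psi (N := N)) 0 = 1 := by
    unfold cx
    rw [DataA_zero]
    rfl
  have hsupp : ∀ p : ℝ, p ≠ 0 → HasCompactSupport fun x : E N => ‖cx DataA_psi x‖ ^ p := by
    intro p hp
    refine HasCompactSupport.intro (isCompact_closedBall (0 : E N) 1) fun x hx => ?_
    rw [mem_closedBall_zero_iff, not_le] at hx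
    unfold cx
    rw [DataA_supp hx.le]
    simp [hp]
  have hP : 0 < Pf α (cx (DataA_psi (N := N))) := by
    unfold Pf
    refine Continuous.integral_pos_of_hasCompactSupport_nonneg_nonzero (x := 0)
      (hcc.norm.rpow_const fun x => Or.inr (by linarith)) (hsupp _ (by linarith))
      (fun x => Real.rpow_nonneg (norm_nonneg _) _) ?_
    rw [hz]
    simp
  have hM : 0 < Mf (cx (DataA_psi (N := N))) := by
    unfold Mf
    have h2 := hsupp 2 (by norm_num)
    have h3 : (fun x : E N => ‖cx DataA_psi x‖ ^ (2 : ℝ)) = fun x => ‖cx DataA_psi x‖ ^ 2 := by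
      funext x
      exact Real.rpow_natCast _ 2
    rw [h3] at h2
    refine Continuous.integral_pos_of_hasCompactSupport_nonneg_nonzero (x := 0)
      (hcc.norm.pow 2) h2 (fun x => by positivity) ?_
    rw [hz]
    simp
  have hG : 0 ≤ Gf (cx (DataA_psi (N := N))) := by
    unfold Gf
    refine integral_nonneg fun x => ?_
    unfold gsq
    positivity
  have hA : 0 < Pf α (cx (DataA_psi (N := N))) / (α + 2) := div_pos hP (by linarith)
  set A := Pf α (cx (DataA_psi (N := N))) / (α + 2) with hAd
  set B := Gf (cx (DataA_psi (N := N))) / 2 with hBd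
  have hB : 0 ≤ B := by positivity
  have hBA : 0 < B / A + 1 := by positivity
  set k := (B / A + 1) ^ (1 / α) with hkd
  have hk : 0 < k := Real.rpow_pos_of_pos hBA _
  have hkα : k ^ α = B / A + 1 := by
    rw [hkd, ← Real.rpow_mul hBA.le, one_div_mul_cancel hα.ne', Real.rpow_one]
  have hnorm : ∀ x : E N, ‖cx (fun y => k * DataA_psi y) x‖ = k * ‖cx DataA_psi x‖ := by
    intro x
    unfold cx
    rw [Complex.norm_real, Complex.norm_real, norm_mul, Real.norm_eq_abs k, abs_of_pos hk]
  refine ⟨fun x => k * DataA_psi x, contDiff_const.mul DataA_smooth, ?_, ?_, ?_, ?_, ?_⟩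
  · refine HasCompactSupport.intro (isCompact_closedBall (0 : E N) 1) fun x hx => ?_
    rw [mem_closedBall_zero_iff, not_le] at hx
    rw [DataA_supp hx.le, mul_zero]
  · intro x y hxy
    change k * DataA_psi x = k * DataA_psi y
    unfold DataA_psi
    rw [hxy]
  · refine ⟨0, ?_⟩
    change k * DataA_psi 0 ≠ 0
    rw [DataA_zero, mul_one]
    exact hk.ne'
  · have h1 : Pf α (cx (fun y : E N => k * DataA_psi y)) =
        k ^ (α + 2) * Pf α (cx (DataA_psi (N := N))) := by
      unfold Pf
      rw [← integral_const_mul]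
      refine integral_congr_ae (Filter.Eventually.of_forall fun x => ?_)
      show ‖cx (fun y => k * DataA_psi y) x‖ ^ (α + 2) = k ^ (α + 2) * ‖cx DataA_psi x‖ ^ (α + 2)
      rw [hnorm, Real.mul_rpow hk.le (norm_nonneg _)]
    have h2 : Gf (cx (fun y : E N => k * DataA_psi y)) =
        k ^ 2 * Gf (cx (DataA_psi (N := N))) := by
      unfold Gf
      rw [← integral_const_mul]
      refine integral_congr_ae (Filter.Eventually.of_forall fun x => ?_)
      show gsq (cx (fun y => k * DataA_psi y)) x = k ^ 2 * gsq (cx DataA_psi) x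
      unfold gsq
      rw [Finset.mul_sum]
      refine Finset.sum_congr rfl fun i _ => ?_
      rw [DataA_pd, norm_mul, Complex.norm_real, Real.norm_eq_abs, mul_pow, sq_abs]
    have h3 : ef α (cx (fun y : E N => k * DataA_psi y)) = k ^ 2 * (k ^ α * A - B) := by
      unfold ef
      rw [h1, h2, Real.rpow_add hk, hAd, hBd]
      have h4 : k ^ (2 : ℝ) = k ^ 2 := Real.rpow_natCast _ 2
      rw [h4]
      ring
    have h5 : k ^ α * A - B = A := by
      rw [hkα]
      field_simp
      ring
    rw [h3, h5]
    positivity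
  · have h1 : Mf (cx (fun y : E N => k * DataA_psi y)) =
        k ^ 2 * Mf (cx (DataA_psi (N := N))) := by
      unfold Mf
      rw [← integral_const_mul]
      refine integral_congr_ae (Filter.Eventually.of_forall fun x => ?_)
      show ‖cx (fun y => k * DataA_psi y) x‖ ^ 2 = k ^ 2 * ‖cx DataA_psi x‖ ^ 2
      rw [hnorm, mul_pow]
    rw [h1]
    positivity

end CGL
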