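import Mathlib

/-!
# MP_317df6_an: complex Ginzburg-Landau equation near the Schrodinger limit, definitions

`u_t = e^{iθ}(Δu + |u|^α u) + γ u` on `ℝ^N`, mild solutions in `C_0`.
-/

set_option autoImplicit false

namespace CGL

open MeasureTheory Set
open scoped ContDiff
open scoped ZeroAtInfty ComplexConjugate

/-- `ℝ^N` -/
abbrev E (N : ℕ) : Type := EuclideanSpace ℝ (Fin N)

/-- The Gauss kernel `(4πz)^{-N/2} exp(-|x|²/(4z))`, `Re z > 0` (principal branch).  For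
`z = t e^{iθ}` the convolution with it is the semigroup `T_θ(t)` generated by `e^{iθ}Δ`. -/
noncomputable def K (N : ℕ) (z : ℂ) (x : E N) : ℂ :=
  (1 / (4 * (Real.pi : ℂ) * z)) ^ ((N : ℂ) / 2) * Complex.exp (-((‖x‖ : ℝ) : ℂ) ^ 2 / (4 * z))

/-- the nonlinearity `|z|^α z` -/
noncomputable def nl (α : ℝ) (z : ℂ) : ℂ := ((‖z‖ ^ α : ℝ) : ℂ) * z

/-- `e^{iθ}` -/
noncomputable def eth (θ : ℝ) : ℂ := Complex.exp ((θ : ℂ) * Complex.I)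

/-- the lower order part `e^{iθ}|z|^α z + γ z` of the equation -/
noncomputable def FF (α θ γ : ℝ) (z : ℂ) : ℂ := eth θ * nl α z + (γ : ℂ) * z

/-- `u` is a mild solution on `[0,T]` with initial value `u0`: `u ∈ C([0,T], C_0)` and
`u(t) = T_θ(t) u0 + ∫_0^t T_θ(t-s)[e^{iθ}|u(s)|^α u(s) + γ u(s)] ds`. -/
structure IsMild (N : ℕ) (α θ γ T : ℝ) (u0 : C₀(E N, ℂ)) (u : ℝ → C₀(E N, ℂ)) : Prop where
  cont : ContinuousOn u (Icc 0 T)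
  init : u 0 = u0
  eq : ∀ t ∈ Ioc 0 T, ∀ x : E N,
    u t x = (∫ y, K N ((t : ℂ) * eth θ) (x - y) * u0 y)
      + ∫ s in (0:ℝ)..t, ∫ y, K N (((t - s : ℝ) : ℂ) * eth θ) (x - y) * FF α θ γ (u s y)

/-! ### Derivatives and functionals -/

section
variable {N : ℕ} {F : Type} [NormedAddCommGroup F] [NormedSpace ℝ F]

/-- the partial derivative `∂_i f` -/
noncomputable def pd (i : Fin N) (f : E N → F) (x : E N) : F :=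
  fderiv ℝ f x (EuclideanSpace.single i (1 : ℝ))

/-- the Laplacian -/
noncomputable def lap (f : E N → F) (x : E N) : F := ∑ i, pd i (pd i f) x

/-- exponential decay -/
def ExpDec (f : E N → F) : Prop := ∃ C : ℝ, ∀ x, ‖f x‖ ≤ C * Real.exp (-‖x‖)

/-- smooth with exponential decay of all derivatives up to order 2 -/
structure Dec (v : E N → F) : Prop where
  smooth : ContDiff ℝ 2 v
  d0 : ExpDec v
  d1 : ∀ i, ExpDec (pd i v)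
  d2 : ∀ i j, ExpDec (pd i (pd j v))

end

section
variable {N : ℕ}

/-- `∑ |∂_i v|²` -/
noncomputable def gsq (v : E N → ℂ) (x : E N) : ℝ := ∑ i, ‖pd i v x‖ ^ 2

/-- mass -/
noncomputable def Mf (v : E N → ℂ) : ℝ := ∫ x, ‖v x‖ ^ 2

/-- `∫ |∇v|²` -/
noncomputable def Gf (v : E N → ℂ) : ℝ := ∫ x, gsq v x

/-- `∫ |v|^{α+2}` -/
noncomputable def Pf (α : ℝ) (v : E N → ℂ) : ℝ := ∫ x, ‖v x‖ ^ (α + 2)

/-- minus the energy -/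
noncomputable def ef (α : ℝ) (v : E N → ℂ) : ℝ := Pf α v / (α + 2) - Gf v / 2

/-- `w = Δv + |v|^α v` -/
noncomputable def ww (α : ℝ) (v : E N → ℂ) (x : E N) : ℂ := lap v x + nl α (v x)

/-- `∫ |w|²` -/
noncomputable def Df (α : ℝ) (v : E N → ℂ) : ℝ := ∫ x, ‖ww α v x‖ ^ 2

/-- `∫ φ |v|²` -/
noncomputable def Vf (φ : E N → ℝ) (v : E N → ℂ) : ℝ := ∫ x, φ x * ‖v x‖ ^ 2

/-- `Im ∫ (∇φ·∇v) conj v` -/
noncomputable def Yf (φ : E N → ℝ) (v : E N → ℂ) : ℝ :=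
  (∫ x, (∑ i, ((pd i φ x : ℝ) : ℂ) * pd i v x) * conj (v x)).im

/-- `Δφ conj v + 2 ∇φ·∇(conj v)` -/
noncomputable def zk (φ : E N → ℝ) (v : E N → ℂ) (x : E N) : ℂ :=
  ((lap φ x : ℝ) : ℂ) * conj (v x) + 2 * ∑ i, ((pd i φ x : ℝ) : ℂ) * conj (pd i v x)

/-- `∫ f (Δφ conj v + 2 ∇φ·∇(conj v))` -/
noncomputable def Zf (φ : E N → ℝ) (v f : E N → ℂ) : ℂ := ∫ x, f x * zk φ v x

/-- Truncated variance weights: `φ` is bounded, `D²φ ≤ 2`, `Δφ = 2N` for `|x| ≤ R`. -/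
structure Weight (N : ℕ) (R B0 B1 B2 B3 : ℝ) (φ : E N → ℝ) : Prop where
  smooth : ContDiff ℝ 3 φ
  nonneg : ∀ x, 0 ≤ φ x
  b0 : ∀ x, φ x ≤ B0
  b1 : ∀ x, ∑ i, (pd i φ x) ^ 2 ≤ B1 ^ 2
  b2 : ∀ x, |lap φ x| ≤ B2
  b3 : ∀ x, ∑ i, (pd i (lap φ) x) ^ 2 ≤ B3 ^ 2
  hb : ∃ C : ℝ, ∀ i j x, |pd i (pd j φ) x| ≤ C
  hess : ∀ x (ξ : Fin N → ℝ), ∑ i, ∑ j, pd i (pd j φ) x * ξ i * ξ j ≤ 2 * ∑ i, ξ i ^ 2
  lap_le : ∀ x, lap φ x ≤ 2 * N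
  lap_eq : ∀ x, ‖x‖ ≤ R → lap φ x = 2 * N

/-- Mollifiers -/
structure Moll (N : ℕ) (ε : ℝ) (ρ : E N → ℝ) : Prop where
  smooth : ContDiff ℝ ∞ ρ
  nonneg : ∀ x, 0 ≤ ρ x
  one : ∫ x, ρ x = 1
  supp : ∀ x, ε ≤ ‖x‖ → ρ x = 0
  rad : ∀ x y, ‖x‖ = ‖y‖ → ρ x = ρ y

/-- convolution with `ρ` -/
noncomputable def mol (ρ : E N → ℝ) (f : E N → ℂ) (x : E N) : ℂ := ∫ y, ((ρ (x - y) : ℝ) : ℂ) * f y

/-- A family `v(t)` of smooth functions with time derivative `a(t)` and uniform exponential decay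
on `[0,T]`. -/
structure Fam (N : ℕ) (T : ℝ) (v a : ℝ → E N → ℂ) : Prop where
  smv : ∀ t ∈ Icc 0 T, ContDiff ℝ 2 (v t)
  sma : ∀ t ∈ Icc 0 T, ContDiff ℝ 1 (a t)
  env : ∃ C : ℝ, ∀ t ∈ Icc 0 T, ∀ x, ‖v t x‖ ≤ C * Real.exp (-‖x‖) ∧
    (∀ i, ‖pd i (v t) x‖ ≤ C * Real.exp (-‖x‖)) ∧
    (∀ i j, ‖pd i (pd j (v t)) x‖ ≤ C * Real.exp (-‖x‖)) ∧
    ‖a t x‖ ≤ C * Real.exp (-‖x‖) ∧ (∀ i, ‖pd i (a t) x‖ ≤ C * Real.exp (-‖x‖))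
  c0 : ∀ x, ContinuousOn (fun t => v t x) (Icc 0 T)
  c1 : ∀ i x, ContinuousOn (fun t => pd i (v t) x) (Icc 0 T)
  c2 : ∀ i j x, ContinuousOn (fun t => pd i (pd j (v t)) x) (Icc 0 T)
  dv : ∀ t ∈ Ioo 0 T, ∀ x, HasDerivAt (fun τ => v τ x) (a t x) t
  dv1 : ∀ t ∈ Ioo 0 T, ∀ i x, HasDerivAt (fun τ => pd i (v τ) x) (pd i (a t) x) t

end

end CGL
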