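import Pool.Agent.W_317df6_h83.Basic

/-!
# The complex Gauss kernel (task P1a)
-/

set_option autoImplicit false

namespace CGL

open MeasureTheory Set

variable {N : ℕ}

theorem eth_re (θ : ℝ) : (eth θ).re = Real.cos θ := by
  unfold eth
  rw [Complex.exp_re]
  simp

theorem eth_im (θ : ℝ) : (eth θ).im = Real.sin θ := by
  unfold eth
  rw [Complex.exp_im]
  simp

theorem eth_norm (θ : ℝ) : ‖eth θ‖ = 1 := by
  unfold eth
  exact Complex.norm_exp_ofReal_mul_I θ

theorem zre_pos {θ τ : ℝ} (hθ : 0 < Real.cos θ) (hτ : 0 < τ) : 0 < ((τ : ℂ) * eth θ).re := by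
  simp [eth_re, hτ, hθ]

lemma P1a_ne {z : ℂ} (hz : 0 < z.re) : z ≠ 0 := by
  intro h
  rw [h, Complex.zero_re] at hz
  exact lt_irrefl _ hz

lemma P1a_slit {z : ℂ} (hz : 0 < z.re) : 1 / (4 * (Real.pi : ℂ) * z) ∈ Complex.slitPlane := by
  rw [Complex.mem_slitPlane_iff]
  left
  have h1 : (4 * (Real.pi : ℂ) * z) = (((4 * Real.pi : ℝ) : ℂ) * z) := by
    push_cast
    ring
  rw [h1, one_div, Complex.inv_re]
  have hre : ((((4 * Real.pi : ℝ) : ℂ) * z)).re = 4 * Real.pi * z.re := Complex.re_ofReal_mul _ _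
  have hre' : 0 < ((((4 * Real.pi : ℝ) : ℂ) * z)).re := by
    rw [hre]
    positivity
  have h2 : ((((4 * Real.pi : ℝ) : ℂ) * z)) ≠ 0 := P1a_ne hre'
  exact div_pos hre' (Complex.normSq_pos.mpr h2)

/-- joint continuity of the kernel for `Re z > 0` -/
theorem K_contOn (N : ℕ) : ContinuousOn (fun p : ℂ × E N => K N p.1 p.2) {p | 0 < p.1.re} := by
  have hpi : (4 * (Real.pi : ℂ)) ≠ 0 := by
    simp [Real.pi_ne_zero]
  unfold K
  refine ContinuousOn.mul ?_ ?_
  · refine ContinuousOn.cpow_const ?_ ?_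
    · refine ContinuousOn.div continuousOn_const ?_ ?_
      · have hc : Continuous fun p : ℂ × E N => 4 * (Real.pi : ℂ) * p.1 :=
          continuous_const.mul continuous_fst
        exact hc.continuousOn
      · intro p hp
        exact mul_ne_zero hpi (P1a_ne hp)
    · intro p hp
      exact P1a_slit hp
  · refine Complex.continuous_exp.comp_continuousOn ?_
    refine ContinuousOn.div ?_ ?_ ?_
    · have hc : Continuous fun p : ℂ × E N => -((‖p.2‖ : ℝ) : ℂ) ^ 2 :=
        ((Complex.continuous_ofReal.comp (continuous_norm.comp continuous_snd)).pow 2).neg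
      exact hc.continuousOn
    · have hc : Continuous fun p : ℂ × E N => 4 * p.1 := continuous_const.mul continuous_fst
      exact hc.continuousOn
    · intro p hp
      exact mul_ne_zero (by norm_num) (P1a_ne hp)

theorem K_cont {z : ℂ} (hz : 0 < z.re) : Continuous (K N z) := by
  have h1 := K_contOn N
  have h2 : Continuous (fun x : E N => ((z, x) : ℂ × E N)) :=
    Continuous.prodMk continuous_const continuous_id
  have h4 : ∀ x : E N, ((z, x) : ℂ × E N) ∈ {p : ℂ × E N | 0 < p.1.re} := by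
    intro x
    show 0 < z.re
    exact hz
  have h3 := h1.comp_continuous h2 h4
  exact h3

/-- `K` is even and radial -/
theorem K_radial (z : ℂ) {x y : E N} (h : ‖x‖ = ‖y‖) : K N z x = K N z y := by
  unfold K
  rw [h]

/-- `|K(z,x)| = (4π|z|)^{-N/2} exp(-|x|² Re(1/z)/4)`, for `z = τ e^{iθ}`: `Re(1/z) = cos θ/τ`. -/
theorem K_norm {θ τ : ℝ} (hθ : 0 < Real.cos θ) (hτ : 0 < τ) (x : E N) :
    ‖K N ((τ : ℂ) * eth θ) x‖ =
      (1 / (4 * Real.pi * τ)) ^ ((N : ℝ) / 2) * Real.exp (-(Real.cos θ / (4 * τ)) * ‖x‖ ^ 2) := by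
  have hz := zre_pos hθ hτ
  have hz0 : ((τ : ℂ) * eth θ) ≠ 0 := P1a_ne hz
  have hnz : ‖(τ : ℂ) * eth θ‖ = τ := by
    rw [norm_mul, eth_norm, mul_one, Complex.norm_real, Real.norm_of_nonneg hτ.le]
  unfold K
  rw [norm_mul]
  congr 1
  · have h1 : ((N : ℂ) / 2) = (((N : ℝ) / 2 : ℝ) : ℂ) := by
      push_cast
      rfl
    rw [h1, Complex.norm_cpow_real]
    congr 1
    rw [norm_div, norm_one, norm_mul, hnz, norm_mul, Complex.norm_real,
      Real.norm_of_nonneg Real.pi_pos.le]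
    norm_num
  · rw [Complex.norm_exp]
    congr 1
    have h2 : (-((‖x‖ : ℝ) : ℂ) ^ 2 / (4 * ((τ : ℂ) * eth θ))) =
        ((-(‖x‖ ^ 2 / 4) : ℝ) : ℂ) * ((τ : ℂ) * eth θ)⁻¹ := by
      push_cast
      field_simp
    have h3 : Complex.normSq ((τ : ℂ) * eth θ) = τ ^ 2 := by
      rw [Complex.normSq_eq_norm_sq, hnz]
    rw [h2, Complex.re_ofReal_mul, Complex.inv_re, h3, Complex.re_ofReal_mul, eth_re]
    field_simp

end CGL
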