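import Pool.Agent.W_317df6_h83.Basic

/-!
# Identities in space: truncated variance (task S1b)
-/

set_option autoImplicit false

namespace CGL

open MeasureTheory Set
open scoped ComplexConjugate

variable {N : ℕ}

theorem S1b_conj_dec {f : E N → ℂ} (hf : ExpDec f) : ExpDec (fun x => conj (f x)) := by
  refine hf.mono 1 fun x => ?_
  rw [RCLike.norm_conj, one_mul]

theorem S1b_conj_cont {f : E N → ℂ} (hf : Continuous f) : Continuous (fun x => conj (f x)) :=
  Complex.continuous_conj.comp hf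

theorem S1b_bdd {f : E N → ℝ} {B : ℝ} (hf : ∀ x, |f x| ≤ B) :
    ∃ C, ∀ x, ‖((f x : ℝ) : ℂ)‖ ≤ C :=
  ⟨B, fun x => by rw [Complex.norm_real, Real.norm_eq_abs]; exact hf x⟩

/-- `|z|^α z conj z = |z|^{α+2}` -/
theorem S1b_nl {α : ℝ} (hα : 0 < α) (z : ℂ) : nl α z * conj z = ((‖z‖ ^ (α + 2) : ℝ) : ℂ) := by
  unfold nl
  rw [mul_assoc, Complex.mul_conj, Complex.normSq_eq_norm_sq, ← Complex.ofReal_mul]
  congr 1
  rcases eq_or_ne z 0 with rfl | hz
  · simp only [norm_zero]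
    rw [Real.zero_rpow (by linarith), Real.zero_rpow (by linarith)]
    simp
  · rw [Real.rpow_add (norm_pos_iff.2 hz)]
    norm_num

section
variable {R B0 B1 B2 B3 : ℝ} {φ : E N → ℝ} {w : E N → ℂ}

/-- `∫ φ ∂_ii w conj w = -∫ φ |∂_i w|² - ∫ φ_i ∂_i w conj w` -/
theorem S1b_ibp (hφ : Weight N R B0 B1 B2 B3 φ) (hw : Dec w) (i : Fin N) :
    ∫ x, ((φ x : ℝ) : ℂ) * (pd i (pd i w) x * conj (w x)) =
      -(∫ x, ((φ x * ‖pd i w x‖ ^ 2 : ℝ) : ℂ))
      - ∫ x, (((pd i φ x : ℝ) : ℂ) * pd i w x) * conj (w x) := by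
  have hwi : ContDiff ℝ 1 (pd i w) := hw.contDiff_pd i
  have hw1 : ContDiff ℝ 1 w := hw.smooth.of_le (by norm_num)
  have hφ1 : ContDiff ℝ 1 φ := hφ.smooth.of_le (by norm_num)
  have hφc : ContDiff ℝ 1 (fun x => ((φ x : ℝ) : ℂ)) := Complex.ofRealCLM.contDiff.comp hφ1
  have hφpc : Continuous (fun x => ((pd i φ x : ℝ) : ℂ)) :=
    Complex.continuous_ofReal.comp (hφ.contDiff_pd i).continuous
  have hwc : ContDiff ℝ 1 (fun x => conj (w x)) :=
    Complex.conjCLE.toContinuousLinearMap.contDiff.comp hw1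
  have key : ∀ x, pd i (fun y => ((φ y : ℝ) : ℂ) * (pd i w y * conj (w y))) x =
      (((φ x : ℝ) : ℂ) * (pd i (pd i w) x * conj (w x)) + ((φ x * ‖pd i w x‖ ^ 2 : ℝ) : ℂ))
      + (((pd i φ x : ℝ) : ℂ) * pd i w x) * conj (w x) := by
    intro x
    have d0 : DifferentiableAt ℝ φ x := hφ1.differentiable one_ne_zero x
    have d1 : DifferentiableAt ℝ (fun x => ((φ x : ℝ) : ℂ)) x :=
      hφc.differentiable one_ne_zero x
    have d2 : DifferentiableAt ℝ (pd i w) x := hwi.differentiable one_ne_zero x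
    have d3 : DifferentiableAt ℝ (fun y => conj (w y)) x := hwc.differentiable one_ne_zero x
    have d4 : DifferentiableAt ℝ w x := hw1.differentiable one_ne_zero x
    have d5 : DifferentiableAt ℝ (fun y => pd i w y * conj (w y)) x := d2.mul d3
    rw [pd_mul d1 d5, pd_mul d2 d3, pd_conj d4, pd_ofReal d0, Complex.mul_conj (pd i w x),
      Complex.normSq_eq_norm_sq]
    push_cast
    ring
  have f1 : ExpDec (fun x => ((φ x : ℝ) : ℂ) * (pd i (pd i w) x * conj (w x))) :=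
    ExpDec.bmul (S1b_bdd hφ.bdd) (ExpDec.bmul (hw.d2 i i).bdd (S1b_conj_dec hw.d0))
  have hfe : (fun x => ((φ x * ‖pd i w x‖ ^ 2 : ℝ) : ℂ)) =
      fun x => ((φ x : ℝ) : ℂ) * (pd i w x * conj (pd i w x)) := by
    funext x
    rw [Complex.mul_conj, Complex.normSq_eq_norm_sq, Complex.ofReal_mul]
  have f2 : ExpDec (fun x => ((φ x * ‖pd i w x‖ ^ 2 : ℝ) : ℂ)) := by
    rw [hfe]
    exact ExpDec.bmul (S1b_bdd hφ.bdd) (ExpDec.bmul (hw.d1 i).bdd (S1b_conj_dec (hw.d1 i)))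
  have f30 : ExpDec (fun x => ((pd i φ x : ℝ) : ℂ) * pd i w x) :=
    ExpDec.bmul (S1b_bdd (hφ.bdd_pd i)) (hw.d1 i)
  have f3 : ExpDec (fun x => (((pd i φ x : ℝ) : ℂ) * pd i w x) * conj (w x)) :=
    ExpDec.bmul f30.bdd (S1b_conj_dec hw.d0)
  have i1 : Integrable (fun x => ((φ x : ℝ) : ℂ) * (pd i (pd i w) x * conj (w x))) :=
    f1.integrable (hφc.continuous.mul
      ((hw.continuous_pd2 i i).mul (S1b_conj_cont hw1.continuous)))
  have i2 : Integrable (fun x => ((φ x * ‖pd i w x‖ ^ 2 : ℝ) : ℂ)) :=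
    f2.integrable (Complex.continuous_ofReal.comp
      (hφ1.continuous.mul (hwi.continuous.norm.pow 2)))
  have i3 : Integrable (fun x => (((pd i φ x : ℝ) : ℂ) * pd i w x) * conj (w x)) :=
    f3.integrable ((hφpc.mul hwi.continuous).mul (S1b_conj_cont hw1.continuous))
  have dF : ExpDec (fun x => ((φ x : ℝ) : ℂ) * (pd i w x * conj (w x))) :=
    ExpDec.bmul (S1b_bdd hφ.bdd) (ExpDec.bmul (hw.d1 i).bdd (S1b_conj_dec hw.d0))
  have dF' : ExpDec (pd i (fun y => ((φ y : ℝ) : ℂ) * (pd i w y * conj (w y)))) := by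
    rw [funext key]
    exact (f1.add f2).add f3
  have z := integral_pd_eq_zero (hφc.mul (hwi.mul hwc)) dF i dF'
  have z2 : ∫ x, ((((φ x : ℝ) : ℂ) * (pd i (pd i w) x * conj (w x))
      + ((φ x * ‖pd i w x‖ ^ 2 : ℝ) : ℂ))
      + (((pd i φ x : ℝ) : ℂ) * pd i w x) * conj (w x)) = 0 := by
    rw [← z]
    congr 1
    funext x
    exact (key x).symm
  have i12 : Integrable (fun x => ((φ x : ℝ) : ℂ) * (pd i (pd i w) x * conj (w x))
      + ((φ x * ‖pd i w x‖ ^ 2 : ℝ) : ℂ)) := i1.add i2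
  rw [integral_add i12 i3, integral_add i1 i2] at z2
  linear_combination z2

/-- `Re ∫ φ_i ∂_i w conj w = -(1/2) ∫ φ_ii |w|²` -/
theorem S1b_re (hφ : Weight N R B0 B1 B2 B3 φ) (hw : Dec w) (i : Fin N) :
    ∫ x, ((((pd i φ x : ℝ) : ℂ) * pd i w x) * conj (w x)).re =
      -(1 / 2) * ∫ x, pd i (pd i φ) x * ‖w x‖ ^ 2 := by
  have hw1 : ContDiff ℝ 1 w := hw.smooth.of_le (by norm_num)
  have hwi : ContDiff ℝ 1 (pd i w) := hw.contDiff_pd i
  have hφi : ContDiff ℝ 1 (pd i φ) := (hφ.contDiff_pd i).of_le (by norm_num)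
  have hn : ContDiff ℝ 1 (fun y => ‖w y‖ ^ 2) := hw1.norm_sq ℝ
  obtain ⟨Cb, hCb⟩ := hφ.hb
  have key : ∀ x, pd i (fun y => pd i φ y * ‖w y‖ ^ 2) x =
      pd i (pd i φ) x * ‖w x‖ ^ 2
        + 2 * ((((pd i φ x : ℝ) : ℂ) * pd i w x) * conj (w x)).re := by
    intro x
    have d1 : DifferentiableAt ℝ (pd i φ) x := hφi.differentiable one_ne_zero x
    have d2 : DifferentiableAt ℝ (fun y => ‖w y‖ ^ 2) x := hn.differentiable one_ne_zero x
    have d4 : DifferentiableAt ℝ w x := hw1.differentiable one_ne_zero x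
    rw [pd_mul_real d1 d2, pd_normsq d4]
    have h1 : (((pd i φ x : ℝ) : ℂ) * pd i w x) * conj (w x) =
        ((pd i φ x : ℝ) : ℂ) * (conj (w x) * pd i w x) := by ring
    rw [h1, Complex.re_ofReal_mul]
    ring
  have g1 : ExpDec (fun x => pd i (pd i φ) x * ‖w x‖ ^ 2) := by
    refine hw.expDec_normsq.mono Cb fun x => ?_
    rw [norm_mul, Real.norm_eq_abs]
    exact mul_le_mul_of_nonneg_right (hCb i i x) (norm_nonneg _)
  have f30 : ExpDec (fun x => ((pd i φ x : ℝ) : ℂ) * pd i w x) :=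
    ExpDec.bmul (S1b_bdd (hφ.bdd_pd i)) (hw.d1 i)
  have f3 : ExpDec (fun x => (((pd i φ x : ℝ) : ℂ) * pd i w x) * conj (w x)) :=
    ExpDec.bmul f30.bdd (S1b_conj_dec hw.d0)
  have g2 : ExpDec (fun x => 2 * ((((pd i φ x : ℝ) : ℂ) * pd i w x) * conj (w x)).re) := by
    refine f3.mono 2 fun x => ?_
    rw [Real.norm_eq_abs, abs_mul, abs_two]
    exact mul_le_mul_of_nonneg_left (Complex.abs_re_le_norm _) two_pos.le
  have c2 : Continuous (fun x => ((((pd i φ x : ℝ) : ℂ) * pd i w x) * conj (w x)).re) :=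
    Complex.continuous_re.comp (((Complex.continuous_ofReal.comp hφi.continuous).mul
      hwi.continuous).mul (S1b_conj_cont hw1.continuous))
  have i1 : Integrable (fun x => pd i (pd i φ) x * ‖w x‖ ^ 2) :=
    g1.integrable ((hφ.contDiff_pd2 i i).continuous.mul (hw1.continuous.norm.pow 2))
  have i2 : Integrable (fun x => 2 * ((((pd i φ x : ℝ) : ℂ) * pd i w x) * conj (w x)).re) :=
    g2.integrable (continuous_const.mul c2)
  have dF : ExpDec (fun x => pd i φ x * ‖w x‖ ^ 2) := by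
    refine hw.expDec_normsq.mono |B1| fun x => ?_
    rw [norm_mul, Real.norm_eq_abs]
    exact mul_le_mul_of_nonneg_right (hφ.bdd_pd i x) (norm_nonneg _)
  have dF' : ExpDec (pd i (fun y => pd i φ y * ‖w y‖ ^ 2)) := by
    rw [funext key]
    exact g1.add g2
  have z := integral_pd_eq_zero_real (hφi.mul hn) dF i dF'
  have z2 : ∫ x, (pd i (pd i φ) x * ‖w x‖ ^ 2
        + 2 * ((((pd i φ x : ℝ) : ℂ) * pd i w x) * conj (w x)).re) = 0 := by
    rw [← z]
    congr 1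
    funext x
    exact (key x).symm
  rw [integral_add i1 i2, integral_const_mul] at z2
  linarith

/-- the integral of `φ w conj v` -/
theorem S1b_main {α : ℝ} (hα : 0 < α) (hφ : Weight N R B0 B1 B2 B3 φ) (hw : Dec w) :
    ∫ x, ((φ x : ℝ) : ℂ) * (ww α w x * conj (w x)) =
      ((∫ x, φ x * ‖w x‖ ^ (α + 2) - φ x * gsq w x : ℝ) : ℂ)
      - ∫ x, (∑ i, ((pd i φ x : ℝ) : ℂ) * pd i w x) * conj (w x) := by
  have hwc : Continuous w := hw.smooth.continuous
  have hφc : Continuous (fun x => ((φ x : ℝ) : ℂ)) :=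
    Complex.continuous_ofReal.comp hφ.smooth.continuous
  have hφpc : ∀ i, Continuous (fun x => ((pd i φ x : ℝ) : ℂ)) := fun i =>
    Complex.continuous_ofReal.comp (hφ.contDiff_pd i).continuous
  have j1 : ∀ i, Integrable (fun x => ((φ x : ℝ) : ℂ) * (pd i (pd i w) x * conj (w x))) :=
    fun i => (ExpDec.bmul (S1b_bdd hφ.bdd) (ExpDec.bmul (hw.d2 i i).bdd
      (S1b_conj_dec hw.d0))).integrable (hφc.mul
      ((hw.continuous_pd2 i i).mul (S1b_conj_cont hwc)))
  have j2 : ∀ i, Integrable (fun x => ((φ x * ‖pd i w x‖ ^ 2 : ℝ) : ℂ)) := fun i => by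
    have hfe : (fun x => ((φ x * ‖pd i w x‖ ^ 2 : ℝ) : ℂ)) =
        fun x => ((φ x : ℝ) : ℂ) * (pd i w x * conj (pd i w x)) := by
      funext x
      rw [Complex.mul_conj, Complex.normSq_eq_norm_sq, Complex.ofReal_mul]
    rw [hfe]
    exact (ExpDec.bmul (S1b_bdd hφ.bdd) (ExpDec.bmul (hw.d1 i).bdd
      (S1b_conj_dec (hw.d1 i)))).integrable (hφc.mul ((hw.contDiff_pd i).continuous.mul
      (S1b_conj_cont (hw.contDiff_pd i).continuous)))
  have j3 : ∀ i, Integrable (fun x => (((pd i φ x : ℝ) : ℂ) * pd i w x) * conj (w x)) :=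
    fun i => by
    have f30 : ExpDec (fun x => ((pd i φ x : ℝ) : ℂ) * pd i w x) :=
      ExpDec.bmul (S1b_bdd (hφ.bdd_pd i)) (hw.d1 i)
    exact (ExpDec.bmul f30.bdd (S1b_conj_dec hw.d0)).integrable
      (((hφpc i).mul (hw.contDiff_pd i).continuous).mul (S1b_conj_cont hwc))
  have i1 : Integrable (fun x => ((φ x : ℝ) : ℂ) * (lap w x * conj (w x))) :=
    (ExpDec.bmul (S1b_bdd hφ.bdd) (ExpDec.bmul hw.expDec_lap.bdd
      (S1b_conj_dec hw.d0))).integrable (hφc.mul (hw.continuous_lap.mul (S1b_conj_cont hwc)))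
  have i2 : Integrable (fun x => ((φ x : ℝ) : ℂ) * (nl α (w x) * conj (w x))) :=
    (ExpDec.bmul (S1b_bdd hφ.bdd) (ExpDec.bmul (expDec_nl hα hw.d0).bdd
      (S1b_conj_dec hw.d0))).integrable
      (hφc.mul (((continuous_nl hα).comp hwc).mul (S1b_conj_cont hwc)))
  have e1 : ∫ x, ((φ x : ℝ) : ℂ) * (ww α w x * conj (w x)) =
      (∫ x, ((φ x : ℝ) : ℂ) * (lap w x * conj (w x)))
        + ∫ x, ((φ x : ℝ) : ℂ) * (nl α (w x) * conj (w x)) := by
    rw [← integral_add i1 i2]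
    congr 1
    funext x
    unfold ww
    ring
  have r1 : Integrable (fun x => φ x * ‖w x‖ ^ (α + 2)) := by
    have d : ExpDec (fun x => φ x * ‖w x‖ ^ (α + 2)) := by
      refine (expDec_rpow hα hw.d0).mono B0 fun x => ?_
      rw [norm_mul, Real.norm_eq_abs]
      exact mul_le_mul_of_nonneg_right (hφ.bdd x) (norm_nonneg _)
    exact d.integrable (hφ.smooth.continuous.mul
      (hwc.norm.rpow_const fun x => Or.inr (by linarith)))
  have r2 : Integrable (fun x => φ x * gsq w x) := by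
    have d : ExpDec (fun x => φ x * gsq w x) := by
      refine hw.expDec_gsq.mono B0 fun x => ?_
      rw [norm_mul, Real.norm_eq_abs]
      exact mul_le_mul_of_nonneg_right (hφ.bdd x) (norm_nonneg _)
    exact d.integrable (hφ.smooth.continuous.mul hw.continuous_gsq)
  have e2 : ∫ x, ((φ x : ℝ) : ℂ) * (nl α (w x) * conj (w x)) =
      ((∫ x, φ x * ‖w x‖ ^ (α + 2) : ℝ) : ℂ) := by
    rw [← integral_complex_ofReal]
    congr 1
    funext x
    rw [S1b_nl hα, Complex.ofReal_mul]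
  have e3 : ∫ x, ((φ x : ℝ) : ℂ) * (lap w x * conj (w x)) =
      -((∫ x, φ x * gsq w x : ℝ) : ℂ)
      - ∫ x, (∑ i, ((pd i φ x : ℝ) : ℂ) * pd i w x) * conj (w x) := by
    have h1 : (fun x => ((φ x : ℝ) : ℂ) * (lap w x * conj (w x))) =
        fun x => ∑ i, ((φ x : ℝ) : ℂ) * (pd i (pd i w) x * conj (w x)) := by
      funext x
      unfold lap
      rw [Finset.sum_mul, Finset.mul_sum]
    have h2 : ((∫ x, φ x * gsq w x : ℝ) : ℂ) =
        ∑ i, ∫ x, ((φ x * ‖pd i w x‖ ^ 2 : ℝ) : ℂ) := by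
      unfold gsq
      rw [← integral_complex_ofReal, ← integral_finsetSum _ fun i _ => j2 i]
      congr 1
      funext x
      rw [Finset.mul_sum, Complex.ofReal_sum]
    have h3 : ∫ x, (∑ i, ((pd i φ x : ℝ) : ℂ) * pd i w x) * conj (w x) =
        ∑ i, ∫ x, (((pd i φ x : ℝ) : ℂ) * pd i w x) * conj (w x) := by
      rw [← integral_finsetSum _ fun i _ => j3 i]
      congr 1
      funext x
      rw [Finset.sum_mul]
    rw [h1, integral_finsetSum _ fun i _ => j1 i, h2, h3, ← Finset.sum_neg_distrib,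
      ← Finset.sum_sub_distrib]
    exact Finset.sum_congr rfl fun i _ => S1b_ibp hφ hw i
  rw [e1, e2, e3, integral_sub r1 r2]
  push_cast
  ring

end

/-- `∑_i ∂_i(φ ∂_i v conj v) = φ Δv conj v + φ|∇v|² + ∇φ·∇v conj v`; real part: `Re ∇φ·∇v conj v =
(1/2) ∇φ·∇|v|²`, `∑_i ∂_i(∂_iφ |v|²) = Δφ|v|² + ∇φ·∇|v|²`.  So
`Re ∫ φ w conj v = -∫φ|∇v|² + (1/2)∫Δφ|v|² + ∫φ|v|^{α+2}`. -/
theorem int_phi_ww_re {α R B0 B1 B2 B3 : ℝ} (hα : 0 < α) {φ : E N → ℝ}
    (hφ : Weight N R B0 B1 B2 B3 φ) {v : E N → ℂ} (hv : Dec v) :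
    (∫ x, ((φ x : ℝ) : ℂ) * (ww α v x * conj (v x))).re ≤ B2 / 2 * Mf v + B0 * Pf α v := by
  have hvc : Continuous v := hv.smooth.continuous
  obtain ⟨Cb, hCb⟩ := hφ.hb
  have hφpc : ∀ i, Continuous (fun x => ((pd i φ x : ℝ) : ℂ)) := fun i =>
    Complex.continuous_ofReal.comp (hφ.contDiff_pd i).continuous
  have j3 : ∀ i, Integrable (fun x => (((pd i φ x : ℝ) : ℂ) * pd i v x) * conj (v x)) :=
    fun i => by
    have f30 : ExpDec (fun x => ((pd i φ x : ℝ) : ℂ) * pd i v x) :=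
      ExpDec.bmul (S1b_bdd (hφ.bdd_pd i)) (hv.d1 i)
    exact (ExpDec.bmul f30.bdd (S1b_conj_dec hv.d0)).integrable
      (((hφpc i).mul (hv.contDiff_pd i).continuous).mul (S1b_conj_cont hvc))
  have j4 : ∀ i, Integrable (fun x => pd i (pd i φ) x * ‖v x‖ ^ 2) := fun i => by
    have g1 : ExpDec (fun x => pd i (pd i φ) x * ‖v x‖ ^ 2) := by
      refine hv.expDec_normsq.mono Cb fun x => ?_
      rw [norm_mul, Real.norm_eq_abs]
      exact mul_le_mul_of_nonneg_right (hCb i i x) (norm_nonneg _)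
    exact g1.integrable ((hφ.contDiff_pd2 i i).continuous.mul (hvc.norm.pow 2))
  have r0 : Integrable (fun x => ‖v x‖ ^ 2) := hv.expDec_normsq.integrable (hvc.norm.pow 2)
  have r3 : Integrable (fun x => ‖v x‖ ^ (α + 2)) :=
    (expDec_rpow hα hv.d0).integrable (hvc.norm.rpow_const fun x => Or.inr (by linarith))
  have r1 : Integrable (fun x => φ x * ‖v x‖ ^ (α + 2)) := by
    have d : ExpDec (fun x => φ x * ‖v x‖ ^ (α + 2)) := by
      refine (expDec_rpow hα hv.d0).mono B0 fun x => ?_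
      rw [norm_mul, Real.norm_eq_abs]
      exact mul_le_mul_of_nonneg_right (hφ.bdd x) (norm_nonneg _)
    exact d.integrable (hφ.smooth.continuous.mul
      (hvc.norm.rpow_const fun x => Or.inr (by linarith)))
  have r2 : Integrable (fun x => φ x * gsq v x) := by
    have d : ExpDec (fun x => φ x * gsq v x) := by
      refine hv.expDec_gsq.mono B0 fun x => ?_
      rw [norm_mul, Real.norm_eq_abs]
      exact mul_le_mul_of_nonneg_right (hφ.bdd x) (norm_nonneg _)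
    exact d.integrable (hφ.smooth.continuous.mul hv.continuous_gsq)
  have r4 : Integrable (fun x => lap φ x * ‖v x‖ ^ 2) := by
    have d : ExpDec (fun x => lap φ x * ‖v x‖ ^ 2) := by
      refine hv.expDec_normsq.mono B2 fun x => ?_
      rw [norm_mul, Real.norm_eq_abs]
      exact mul_le_mul_of_nonneg_right (hφ.b2 x) (norm_nonneg _)
    exact d.integrable (hφ.contDiff_lap.continuous.mul (hvc.norm.pow 2))
  have e1 : (∫ x, (∑ i, ((pd i φ x : ℝ) : ℂ) * pd i v x) * conj (v x)).re =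
      -(1 / 2) * ∫ x, lap φ x * ‖v x‖ ^ 2 := by
    have h3 : ∫ x, (∑ i, ((pd i φ x : ℝ) : ℂ) * pd i v x) * conj (v x) =
        ∑ i, ∫ x, (((pd i φ x : ℝ) : ℂ) * pd i v x) * conj (v x) := by
      rw [← integral_finsetSum _ fun i _ => j3 i]
      congr 1
      funext x
      rw [Finset.sum_mul]
    have h4 : ∫ x, lap φ x * ‖v x‖ ^ 2 = ∑ i, ∫ x, pd i (pd i φ) x * ‖v x‖ ^ 2 := by
      rw [← integral_finsetSum _ fun i _ => j4 i]
      congr 1
      funext x
      unfold lap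
      rw [Finset.sum_mul]
    rw [h3, h4, Complex.re_sum, Finset.mul_sum]
    refine Finset.sum_congr rfl fun i _ => ?_
    have h5 := integral_re (j3 i)
    simp only [RCLike.re_eq_complex_re] at h5
    rw [← h5, S1b_re hφ hv i]
  rw [S1b_main hα hφ hv, Complex.sub_re, Complex.ofReal_re, e1, integral_sub r1 r2]
  have b1 : ∫ x, φ x * ‖v x‖ ^ (α + 2) ≤ B0 * Pf α v := by
    unfold Pf
    rw [← integral_const_mul]
    refine integral_mono r1 (r3.const_mul _) fun x => ?_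
    exact mul_le_mul_of_nonneg_right (hφ.b0 x) (Real.rpow_nonneg (norm_nonneg _) _)
  have b2 : 0 ≤ ∫ x, φ x * gsq v x :=
    integral_nonneg fun x => mul_nonneg (hφ.nonneg x)
      (Finset.sum_nonneg fun _ _ => sq_nonneg _)
  have b3 : ∫ x, lap φ x * ‖v x‖ ^ 2 ≤ B2 * Mf v := by
    unfold Mf
    rw [← integral_const_mul]
    refine integral_mono r4 (r0.const_mul _) fun x => ?_
    exact mul_le_mul_of_nonneg_right ((le_abs_self _).trans (hφ.b2 x)) (sq_nonneg _)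
  linarith

/-- the imaginary part of the same identity -/
theorem int_phi_ww_im {α R B0 B1 B2 B3 : ℝ} (hα : 0 < α) {φ : E N → ℝ}
    (hφ : Weight N R B0 B1 B2 B3 φ) {v : E N → ℂ} (hv : Dec v) :
    (∫ x, ((φ x : ℝ) : ℂ) * (ww α v x * conj (v x))).im = -Yf φ v := by
  rw [S1b_main hα hφ hv, Complex.sub_im, Complex.ofReal_im, zero_sub]
  rfl

end CGL
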