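import Pool.Agent.W_317df6_h83.S1a
import Pool.Agent.W_317df6_h83.S1b

/-!
# Identities in space
-/

set_option autoImplicit false

namespace CGL

open MeasureTheory Set
open scoped ComplexConjugate

variable {N : ℕ}

theorem j_eq {α : ℝ} (hα : 0 < α) (v : E N → ℂ) :
    Pf α v - Gf v = α / 2 * Gf v + (α + 2) * ef α v := by
  unfold ef
  field_simp
  ring

end CGL
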