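import Pool.Agent.W_317df6_h83.S4a

/-!
# Cauchy-Schwarz estimates, part 2 (task S4b)
-/

set_option autoImplicit false

namespace CGL

open MeasureTheory Set
open scoped ComplexConjugate

variable {N : ℕ}

theorem S4b_lap_cont {R B0 B1 B2 B3 : ℝ} {φ : E N → ℝ} (hφ : Weight N R B0 B1 B2 B3 φ) :
    Continuous (lap φ) := hφ.contDiff_lap.continuous

theorem S4b_g1c {R B0 B1 B2 B3 : ℝ} {φ : E N → ℝ} (hφ : Weight N R B0 B1 B2 B3 φ)
    {v : E N → ℂ} (hv : Dec v) : Continuous fun x => ((lap φ x : ℝ) : ℂ) * conj (v x) :=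
  (Complex.continuous_ofReal.comp (S4b_lap_cont hφ)).mul
    (Complex.continuous_conj.comp hv.smooth.continuous)

theorem S4b_g1d {R B0 B1 B2 B3 : ℝ} {φ : E N → ℝ} (hφ : Weight N R B0 B1 B2 B3 φ)
    {v : E N → ℂ} (hv : Dec v) : ExpDec fun x => ((lap φ x : ℝ) : ℂ) * conj (v x) := by
  refine hv.d0.mono B2 fun x => ?_
  rw [norm_mul, RCLike.norm_conj, Complex.norm_real, Real.norm_eq_abs]
  exact mul_le_mul_of_nonneg_right (hφ.b2 x) (norm_nonneg _)

theorem S4b_g2c {R B0 B1 B2 B3 : ℝ} {φ : E N → ℝ} (hφ : Weight N R B0 B1 B2 B3 φ)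
    {v : E N → ℂ} (hv : Dec v) :
    Continuous fun x => ∑ i, ((pd i φ x : ℝ) : ℂ) * conj (pd i v x) :=
  continuous_finsetSum _ fun i _ =>
    (Complex.continuous_ofReal.comp (hφ.contDiff_pd i).continuous).mul
      (Complex.continuous_conj.comp (hv.contDiff_pd i).continuous)

theorem S4b_g2d {R B0 B1 B2 B3 : ℝ} {φ : E N → ℝ} (hφ : Weight N R B0 B1 B2 B3 φ)
    {v : E N → ℂ} (hv : Dec v) :
    ExpDec fun x => ∑ i, ((pd i φ x : ℝ) : ℂ) * conj (pd i v x) := by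
  refine ExpDec.sum Finset.univ fun i _ => ?_
  refine (hv.d1 i).mono |B1| fun x => ?_
  rw [norm_mul, RCLike.norm_conj, Complex.norm_real, Real.norm_eq_abs]
  exact mul_le_mul_of_nonneg_right (hφ.bdd_pd i x) (norm_nonneg _)

theorem S4b_int {f g : E N → ℂ} (hf : Continuous f) (hf' : ExpDec f) (hg : Continuous g)
    (hg' : ExpDec g) : Integrable fun x => f x * g x :=
  (ExpDec.bmul hf'.bdd hg').integrable (hf.mul hg)

theorem S4b_split {R B0 B1 B2 B3 : ℝ} {φ : E N → ℝ} (hφ : Weight N R B0 B1 B2 B3 φ)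
    {f v : E N → ℂ} (hf : Continuous f) (hf' : ExpDec f) (hv : Dec v) :
    Zf φ v f = (∫ x, f x * (((lap φ x : ℝ) : ℂ) * conj (v x))) +
      2 * ∫ x, f x * ∑ i, ((pd i φ x : ℝ) : ℂ) * conj (pd i v x) := by
  rw [← integral_const_mul, ← integral_add]
  · unfold Zf zk
    refine integral_congr_ae (Filter.Eventually.of_forall fun x => ?_)
    simp only []
    ring
  · exact S4b_int hf hf' (S4b_g1c hφ hv) (S4b_g1d hφ hv)
  · exact (S4b_int hf hf' (S4b_g2c hφ hv) (S4b_g2d hφ hv)).const_mul _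

/-- `|Δφ conj v + 2∇φ·∇conj v| ≤ B2|v| + 2 B1|∇v|`. -/
theorem cs_zf {R B0 B1 B2 B3 : ℝ} (hB1 : 0 ≤ B1) (hB2 : 0 ≤ B2) {φ : E N → ℝ}
    (hφ : Weight N R B0 B1 B2 B3 φ)
    {f v : E N → ℂ} (hf : Continuous f) (hf' : ExpDec f) (hv : Dec v) :
    ‖Zf φ v f‖ ≤ √(∫ x, ‖f x‖ ^ 2) * (B2 * √(Mf v) + 2 * B1 * √(Gf v)) := by
  rw [S4b_split hφ hf hf' hv]
  have h1 := cs_int hf hf' (S4b_g1c hφ hv) (S4b_g1d hφ hv)
  have h2 := cs_int hf hf' (S4b_g2c hφ hv) (S4b_g2d hφ hv)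
  have i0 : Integrable fun x => ‖v x‖ ^ 2 :=
    hv.expDec_normsq.integrable ((hv.smooth.continuous.norm).pow 2)
  have i1 : Integrable (gsq v) := hv.expDec_gsq.integrable hv.continuous_gsq
  have h3 : √(∫ x, ‖((lap φ x : ℝ) : ℂ) * conj (v x)‖ ^ 2) ≤ B2 * √(Mf v) := by
    rw [← Real.sqrt_sq hB2, ← Real.sqrt_mul (sq_nonneg _)]
    apply Real.sqrt_le_sqrt
    unfold Mf
    rw [← integral_const_mul]
    refine integral_mono_of_nonneg (Filter.Eventually.of_forall fun x => sq_nonneg _)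
      (i0.const_mul _) (Filter.Eventually.of_forall fun x => ?_)
    simp only []
    rw [norm_mul, RCLike.norm_conj, Complex.norm_real, Real.norm_eq_abs, mul_pow]
    refine mul_le_mul_of_nonneg_right ?_ (sq_nonneg _)
    exact pow_le_pow_left₀ (abs_nonneg _) (hφ.b2 x) 2
  have h4 : √(∫ x, ‖∑ i, ((pd i φ x : ℝ) : ℂ) * conj (pd i v x)‖ ^ 2) ≤ B1 * √(Gf v) := by
    rw [← Real.sqrt_sq hB1, ← Real.sqrt_mul (sq_nonneg _)]
    apply Real.sqrt_le_sqrt
    unfold Gf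
    rw [← integral_const_mul]
    refine integral_mono_of_nonneg (Filter.Eventually.of_forall fun x => sq_nonneg _)
      (i1.const_mul _) (Filter.Eventually.of_forall fun x => ?_)
    simp only []
    have h5 := sum_cs (fun i => pd i φ x) (fun i => conj (pd i v x))
    simp only [RCLike.norm_conj] at h5
    refine h5.trans ?_
    unfold gsq
    exact mul_le_mul_of_nonneg_right (hφ.b1 x) (Finset.sum_nonneg fun i _ => sq_nonneg _)
  have h5 := Real.sqrt_nonneg (∫ x, ‖f x‖ ^ 2)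
  have h6 := mul_le_mul_of_nonneg_left h3 h5
  have h7 := mul_le_mul_of_nonneg_left h4 h5
  refine (norm_add_le _ _).trans ?_
  rw [norm_mul, Complex.norm_ofNat]
  calc _ ≤ √(∫ x, ‖f x‖ ^ 2) * (B2 * √(Mf v)) + 2 * (√(∫ x, ‖f x‖ ^ 2) * (B1 * √(Gf v))) :=
        add_le_add (h1.trans h6) (mul_le_mul_of_nonneg_left (h2.trans h7) (by norm_num))
    _ = _ := by ring

/-- `Im ∫ v (Δφ conj v + 2∇φ·∇conj v) = -2 Y`. -/
theorem zf_self_im {R B0 B1 B2 B3 : ℝ} {φ : E N → ℝ} (hφ : Weight N R B0 B1 B2 B3 φ)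
    {v : E N → ℂ} (hv : Dec v) : (Zf φ v v).im = -2 * Yf φ v := by
  rw [S4b_split hφ hv.smooth.continuous hv.d0 hv]
  have h1 : (∫ x, v x * (((lap φ x : ℝ) : ℂ) * conj (v x))) =
      ((∫ x, lap φ x * ‖v x‖ ^ 2 : ℝ) : ℂ) := by
    rw [← integral_complex_ofReal]
    refine integral_congr_ae (Filter.Eventually.of_forall fun x => ?_)
    simp only []
    have h2 := Complex.mul_conj (v x)
    rw [Complex.normSq_eq_norm_sq] at h2
    calc v x * (((lap φ x : ℝ) : ℂ) * conj (v x)) = ((lap φ x : ℝ) : ℂ) * (v x * conj (v x)) := by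
          ring
      _ = _ := by rw [h2]; norm_cast
  have h3 : (∫ x, v x * ∑ i, ((pd i φ x : ℝ) : ℂ) * conj (pd i v x)) =
      conj (∫ x, (∑ i, ((pd i φ x : ℝ) : ℂ) * pd i v x) * conj (v x)) := by
    rw [← integral_conj]
    refine integral_congr_ae (Filter.Eventually.of_forall fun x => ?_)
    simp only [map_mul, map_sum, Complex.conj_conj, Complex.conj_ofReal]
    ring
  rw [h1, h3]
  unfold Yf
  rw [Complex.add_im, Complex.ofReal_im, Complex.mul_im]
  simp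

/-- linearity of `Zf` in the last argument -/
theorem zf_add {R B0 B1 B2 B3 : ℝ} {φ : E N → ℝ} (hφ : Weight N R B0 B1 B2 B3 φ)
    {v f g : E N → ℂ} (hf : Continuous f) (hf' : ExpDec f) (hg : Continuous g) (hg' : ExpDec g)
    (hv : Dec v) : Zf φ v (fun x => f x + g x) = Zf φ v f + Zf φ v g := by
  have hz : Continuous (zk φ v) := (S4b_g1c hφ hv).add (continuous_const.mul (S4b_g2c hφ hv))
  have hz' : ExpDec (zk φ v) :=
    (S4b_g1d hφ hv).add (ExpDec.bmul ⟨2, fun x => by simp⟩ (S4b_g2d hφ hv))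
  unfold Zf
  rw [← integral_add (S4b_int hf hf' hz hz') (S4b_int hg hg' hz hz')]
  refine integral_congr_ae (Filter.Eventually.of_forall fun x => ?_)
  simp only []
  ring

end CGL
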