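import Pool.Agent.W_317df6_h83.S4a
import Pool.Agent.W_317df6_h83.S4b

/-!
# Cauchy-Schwarz estimates
-/

set_option autoImplicit false

namespace CGL

open MeasureTheory Set
open scoped ComplexConjugate

variable {N : ℕ}

theorem zf_smul (φ : E N → ℝ) (v f : E N → ℂ) (k : ℂ) :
    Zf φ v (fun x => k * f x) = k * Zf φ v f := by
  unfold Zf
  rw [← integral_const_mul]
  congr 1
  funext x
  ring

theorem Mf_nonneg (v : E N → ℂ) : 0 ≤ Mf v := integral_nonneg fun _ => by positivity
theorem Gf_nonneg (v : E N → ℂ) : 0 ≤ Gf v :=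
  integral_nonneg fun _ => Finset.sum_nonneg fun _ _ => by positivity
theorem Pf_nonneg (α : ℝ) (v : E N → ℂ) : 0 ≤ Pf α v := integral_nonneg fun _ => by positivity
theorem Df_nonneg (α : ℝ) (v : E N → ℂ) : 0 ≤ Df α v := integral_nonneg fun _ => by positivity
theorem Vf_nonneg {φ : E N → ℝ} (hφ : ∀ x, 0 ≤ φ x) (v : E N → ℂ) : 0 ≤ Vf φ v :=
  integral_nonneg fun x => mul_nonneg (hφ x) (by positivity)

end CGL
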