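import Pool.Agent.W_317df6_h83.T1
import Pool.Agent.W_317df6_h83.S1
import Pool.Agent.W_317df6_h83.S4
import Pool.Agent.W_317df6_h83.P1a

/-!
# Mass and energy inequalities (task FlowA)
-/

set_option autoImplicit false

namespace CGL

open MeasureTheory Set
open scoped ComplexConjugate

variable {N : ℕ}

theorem FlowA_conj_dec {f : E N → ℂ} (hf : ExpDec f) : ExpDec (fun x => conj (f x)) := by
  refine hf.mono 1 fun x => ?_
  rw [RCLike.norm_conj, one_mul]

theorem FlowA_conj_cont {f : E N → ℂ} (hf : Continuous f) : Continuous (fun x => conj (f x)) :=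
  Complex.continuous_conj.comp hf

theorem FlowA_mul_int {f g : E N → ℂ} (hf : Continuous f) (hf' : ExpDec f) (hg : Continuous g)
    (hg' : ExpDec g) : Integrable (fun x => f x * g x) :=
  (ExpDec.bmul hf'.bdd hg').integrable (hf.mul hg)

/-- the integral of `a conj h` for `a = e^{iθ}(w + r) - g v` -/
theorem FlowA_split {θ g : ℝ} {a w r v h : E N → ℂ} (hw : Continuous w) (hw' : ExpDec w)
    (hr : Continuous r) (hr' : ExpDec r) (hv : Continuous v) (hv' : ExpDec v)
    (hh : Continuous h) (hh' : ExpDec h)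
    (ha : ∀ x, a x = eth θ * (w x + r x) - (g : ℂ) * v x) :
    ∫ x, a x * conj (h x) = eth θ * ((∫ x, w x * conj (h x)) + ∫ x, r x * conj (h x))
      - (g : ℂ) * ∫ x, v x * conj (h x) := by
  have c1 := FlowA_conj_cont hh
  have c2 := FlowA_conj_dec hh'
  have i1 : Integrable (fun x => w x * conj (h x)) := FlowA_mul_int hw hw' c1 c2
  have i2 : Integrable (fun x => r x * conj (h x)) := FlowA_mul_int hr hr' c1 c2
  have i3 : Integrable (fun x => v x * conj (h x)) := FlowA_mul_int hv hv' c1 c2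
  have e1 : (fun x => a x * conj (h x)) =
      fun x => (eth θ * (w x * conj (h x)) + eth θ * (r x * conj (h x)))
        - (g : ℂ) * (v x * conj (h x)) := by
    funext x
    rw [ha x]
    ring
  have i4 : Integrable (fun x => eth θ * (w x * conj (h x)) + eth θ * (r x * conj (h x))) :=
    (i1.const_mul _).add (i2.const_mul _)
  rw [e1, integral_sub i4 (i3.const_mul _),
    integral_add (i1.const_mul _) (i2.const_mul _), integral_const_mul, integral_const_mul,
    integral_const_mul]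
  ring

theorem FlowA_self {h : E N → ℂ} :
    ∫ x, h x * conj (h x) = ((∫ x, ‖h x‖ ^ 2 : ℝ) : ℂ) := by
  rw [← integral_complex_ofReal]
  congr 1
  funext x
  rw [Complex.mul_conj, Complex.normSq_eq_norm_sq]

theorem FlowA_re_le {θ : ℝ} (z : ℂ) : |(eth θ * z).re| ≤ ‖z‖ := by
  calc |(eth θ * z).re| ≤ ‖eth θ * z‖ := Complex.abs_re_le_norm _
    _ = ‖z‖ := by rw [norm_mul, eth_norm, one_mul]

theorem FlowA_re (θ x : ℝ) : (eth θ * (x : ℂ)).re = Real.cos θ * x := by
  rw [Complex.re_mul_ofReal, eth_re]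

theorem FlowA_sqrt_le {δ s : ℝ} (hδ : 0 ≤ δ) (hs : s ≤ δ ^ 2) : √s ≤ δ := by
  calc √s ≤ √(δ ^ 2) := Real.sqrt_le_sqrt hs
    _ = δ := Real.sqrt_sq hδ

/-- **Mass and energy inequalities** for `a = e^{iθ}(w + r) - g v`, `w = Δv+|v|^αv`,
`∫|r|² ≤ δ²`, `c = cos θ`, `j = P - G`.

Proof.  `Fam.dM`: `M' = 2Re∫a conj v = 2 Re(e^{iθ}(j + ∫r conj v)) - 2gM` (`int_ww_conj`, `j_eq`,
`cs_conj`).  `Fam.de`: `e' = Re∫a conj w = Re(e^{iθ}(D + ∫ r conj w)) - g Re∫v conj w ≥
cD - δ√D - g j`. -/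
theorem flow_Me {α θ g δ T : ℝ} (hα : 0 < α) (hδ : 0 ≤ δ) {v a r : ℝ → E N → ℂ}
    (h : Fam N T v a) (ha : ∀ t ∈ Icc 0 T, ∀ x, a t x =
      eth θ * (ww α (v t) x + r t x) - (g : ℂ) * v t x)
    (hr : ∀ t ∈ Icc 0 T, Continuous (r t) ∧ ExpDec (r t) ∧ ∫ x, ‖r t x‖ ^ 2 ≤ δ ^ 2)
    {t : ℝ} (ht : t ∈ Ioo 0 T) :
    (∃ M' : ℝ, HasDerivAt (fun τ => Mf (v τ)) M' t ∧
      |M' - (2 * Real.cos θ * (α / 2 * Gf (v t) + (α + 2) * ef α (v t)) - 2 * g * Mf (v t))|
        ≤ 2 * δ * √(Mf (v t))) ∧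
    (∃ e' : ℝ, HasDerivAt (fun τ => ef α (v τ)) e' t ∧
      Real.cos θ * Df α (v t) - g * (α / 2 * Gf (v t) + (α + 2) * ef α (v t))
        - δ * √(Df α (v t)) ≤ e') := by
  have htc : t ∈ Icc 0 T := Ioo_subset_Icc_self ht
  have hv : Dec (v t) := h.dec htc
  have hvc : Continuous (v t) := hv.smooth.continuous
  have hwc : Continuous (ww α (v t)) := hv.ww_cont hα
  have hwd : ExpDec (ww α (v t)) := hv.ww_dec hα
  obtain ⟨hrc, hrd, hr2⟩ := hr t htc
  have hat := ha t htc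
  have hj := j_eq hα (v t)
  have hww := int_ww_conj hα hv
  have hs := FlowA_sqrt_le hδ hr2
  constructor
  · refine ⟨_, h.dM ht, ?_⟩
    have e1 := FlowA_split (θ := θ) (g := g) (a := a t) (h := v t) hwc hwd hrc hrd hvc hv.d0 hvc hv.d0 hat
    have e2 : ∫ x, v t x * conj (v t x) = ((Mf (v t) : ℝ) : ℂ) := FlowA_self
    rw [e2, hww, mul_add] at e1
    have e3 : (∫ x, a t x * conj (v t x)).re =
        Real.cos θ * (Pf α (v t) - Gf (v t)) + (eth θ * ∫ x, r t x * conj (v t x)).re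
          - g * Mf (v t) := by
      rw [e1, Complex.sub_re, Complex.add_re, FlowA_re, Complex.re_ofReal_mul, Complex.ofReal_re]
    have e4 : |(eth θ * ∫ x, r t x * conj (v t x)).re| ≤ δ * √(Mf (v t)) :=
      ((FlowA_re_le _).trans (cs_conj hrc hrd hv)).trans
        (mul_le_mul_of_nonneg_right hs (Real.sqrt_nonneg _))
    rw [e3, ← hj]
    have e5 : 2 * (Real.cos θ * (Pf α (v t) - Gf (v t)) + (eth θ * ∫ x, r t x * conj (v t x)).re
          - g * Mf (v t)) - (2 * Real.cos θ * (Pf α (v t) - Gf (v t)) - 2 * g * Mf (v t))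
        = 2 * (eth θ * ∫ x, r t x * conj (v t x)).re := by ring
    rw [e5, abs_mul, abs_two]
    linarith
  · refine ⟨_, h.de hα ht, ?_⟩
    have e1 := FlowA_split (θ := θ) (g := g) (a := a t) (h := ww α (v t)) hwc hwd hrc hrd hvc hv.d0
      hwc hwd hat
    have e2 : ∫ x, ww α (v t) x * conj (ww α (v t) x) = ((Df α (v t) : ℝ) : ℂ) := FlowA_self
    have e6 : ∫ x, v t x * conj (ww α (v t) x) = ((Pf α (v t) - Gf (v t) : ℝ) : ℂ) := by
      have e7 : (fun x => v t x * conj (ww α (v t) x)) =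
          fun x => conj (ww α (v t) x * conj (v t x)) := by
        funext x
        rw [map_mul, Complex.conj_conj]
        ring
      rw [e7, integral_conj, hww, Complex.conj_ofReal]
    rw [e2, e6, mul_add] at e1
    have e3 : (∫ x, a t x * conj (ww α (v t) x)).re =
        Real.cos θ * Df α (v t) + (eth θ * ∫ x, r t x * conj (ww α (v t) x)).re
          - g * (Pf α (v t) - Gf (v t)) := by
      rw [e1, Complex.sub_re, Complex.add_re, FlowA_re, Complex.re_ofReal_mul, Complex.ofReal_re]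
    have e8 : ‖∫ x, r t x * conj (ww α (v t) x)‖ ≤ √(∫ x, ‖r t x‖ ^ 2) * √(Df α (v t)) := by
      have := cs_int hrc hrd (FlowA_conj_cont hwc) (FlowA_conj_dec hwd)
      simpa only [RCLike.norm_conj, Df] using this
    have e4 : |(eth θ * ∫ x, r t x * conj (ww α (v t) x)).re| ≤ δ * √(Df α (v t)) :=
      ((FlowA_re_le _).trans e8).trans
        (mul_le_mul_of_nonneg_right hs (Real.sqrt_nonneg _))
    rw [e3, ← hj]
    have := (abs_le.1 e4).1
    linarith

end CGL
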