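import Pool.Agent.W_317df6_h83.Basic

/-!
# Cauchy-Schwarz estimates, part 1 (task S4a)
-/

set_option autoImplicit false

namespace CGL

open MeasureTheory Set
open scoped ComplexConjugate

variable {N : ℕ}

theorem S4a_memLp {f : E N → ℂ} (hf : Continuous f) (hf' : ExpDec f) :
    MemLp f (ENNReal.ofReal 2) := by
  have e : ENNReal.ofReal 2 = 2 := by norm_num
  rw [e, memLp_two_iff_integrable_sq_norm hf.aestronglyMeasurable]
  exact (BasicD_sq hf').integrable (hf.norm.pow 2)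

/-- Cauchy-Schwarz for continuous exponentially decaying functions
(`integral_mul_norm_le_Lp_mul_Lq` with `p = q = 2`, or: `MemLp 2` and the inner product of `L²`, or
the elementary proof `2ab ≤ εa²+b²/ε`). -/
theorem cs_int {f g : E N → ℂ} (hf : Continuous f) (hf' : ExpDec f) (hg : Continuous g)
    (hg' : ExpDec g) : ‖∫ x, f x * g x‖ ≤ √(∫ x, ‖f x‖ ^ 2) * √(∫ x, ‖g x‖ ^ 2) := by
  have hmf : MemLp f (ENNReal.ofReal 2) := S4a_memLp hf hf'
  have hmg : MemLp g (ENNReal.ofReal 2) := S4a_memLp hg hg'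
  have h1 := integral_mul_norm_le_Lp_mul_Lq (μ := (volume : Measure (E N)))
    Real.HolderConjugate.two_two hmf hmg
  have h2 : ∀ h : E N → ℂ, (∫ x, ‖h x‖ ^ (2 : ℝ)) ^ (1 / (2 : ℝ)) = √(∫ x, ‖h x‖ ^ 2) := by
    intro h
    rw [Real.sqrt_eq_rpow]
    congr 1
    refine integral_congr_ae (Filter.Eventually.of_forall fun x => ?_)
    exact Real.rpow_natCast _ 2
  rw [h2, h2] at h1
  refine le_trans ?_ h1
  refine (norm_integral_le_integral_norm _).trans (le_of_eq ?_)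
  refine integral_congr_ae (Filter.Eventually.of_forall fun x => ?_)
  exact norm_mul _ _

theorem cs_conj {f v : E N → ℂ} (hf : Continuous f) (hf' : ExpDec f) (hv : Dec v) :
    ‖∫ x, f x * conj (v x)‖ ≤ √(∫ x, ‖f x‖ ^ 2) * √(Mf v) := by
  have h := cs_int hf hf' (Complex.continuous_conj.comp hv.smooth.continuous)
    (hv.d0.mono 1 (g := fun x => conj (v x)) fun x => by rw [RCLike.norm_conj, one_mul])
  simp only [Function.comp_apply, RCLike.norm_conj] at h
  exact h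

theorem cs_phi {R B0 B1 B2 B3 : ℝ} {φ : E N → ℝ} (hφ : Weight N R B0 B1 B2 B3 φ)
    {f v : E N → ℂ} (hf : Continuous f) (hf' : ExpDec f) (hv : Dec v) :
    ‖∫ x, ((φ x : ℝ) : ℂ) * (f x * conj (v x))‖ ≤ B0 * (√(∫ x, ‖f x‖ ^ 2) * √(Mf v)) := by
  have hB : 0 ≤ B0 := (hφ.nonneg 0).trans (hφ.b0 0)
  have hn : ∀ x, ‖((φ x : ℝ) : ℂ)‖ ≤ B0 := fun x => by
    rw [Complex.norm_real, Real.norm_eq_abs]
    exact hφ.bdd x
  have hc : Continuous fun x => ((φ x : ℝ) : ℂ) * f x :=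
    (Complex.continuous_ofReal.comp hφ.smooth.continuous).mul hf
  have hd : ExpDec fun x => ((φ x : ℝ) : ℂ) * f x := ExpDec.bmul ⟨B0, hn⟩ hf'
  have h := cs_conj hc hd hv
  have e : (fun x => ((φ x : ℝ) : ℂ) * (f x * conj (v x))) =
      fun x => ((φ x : ℝ) : ℂ) * f x * conj (v x) := by
    funext x
    ring
  rw [e]
  refine h.trans ?_
  rw [← mul_assoc]
  refine mul_le_mul_of_nonneg_right ?_ (Real.sqrt_nonneg _)
  rw [Real.sqrt_le_left (mul_nonneg hB (Real.sqrt_nonneg _)), mul_pow,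
    Real.sq_sqrt (integral_nonneg fun x => sq_nonneg _), ← integral_const_mul]
  refine integral_mono ((BasicD_sq hd).integrable (hc.norm.pow 2))
    (((BasicD_sq hf').integrable (hf.norm.pow 2)).const_mul _) fun x => ?_
  show ‖((φ x : ℝ) : ℂ) * f x‖ ^ 2 ≤ B0 ^ 2 * ‖f x‖ ^ 2
  rw [norm_mul, mul_pow]
  exact mul_le_mul_of_nonneg_right (pow_le_pow_left₀ (norm_nonneg _) (hn x) 2) (sq_nonneg _)

/-- `(P - G)² ≤ D M` (`int_ww_conj` is not needed: it is quoted in the hypothesis). -/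
theorem cs_ww {α : ℝ} (hα : 0 < α) {v : E N → ℂ} (hv : Dec v)
    (h : ∫ x, ww α v x * conj (v x) = ((Pf α v - Gf v : ℝ) : ℂ)) :
    (Pf α v - Gf v) ^ 2 ≤ Df α v * Mf v := by
  have h1 := cs_conj (hv.ww_cont hα) (hv.ww_dec hα) hv
  rw [h, Complex.norm_real, Real.norm_eq_abs] at h1
  have h2 := pow_le_pow_left₀ (abs_nonneg _) h1 2
  rw [sq_abs, mul_pow, Real.sq_sqrt (integral_nonneg fun x => sq_nonneg _)] at h2
  refine h2.trans (le_of_eq ?_)
  rw [Real.sq_sqrt]
  · rfl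
  · exact integral_nonneg fun x => sq_nonneg _

end CGL
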