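import Pool.Agent.W_317df6_h83.Basic
import Pool.Agent.W_317df6_h83.S4a

/-!
# The virial identity in space: nonlinear part, Hessian term (task S3b)
-/

set_option autoImplicit false

namespace CGL

open MeasureTheory Set
open scoped ComplexConjugate

variable {N : ℕ}

/-- bounded times exponentially decaying, real factors -/
theorem S3b_aux1 {f g : E N → ℝ} (hf : ∃ C, ∀ x, |f x| ≤ C) (hg : ExpDec g) :
    ExpDec (fun x => f x * g x) := by
  obtain ⟨C, hC⟩ := hf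
  refine hg.mono C fun x => ?_
  rw [norm_mul, Real.norm_eq_abs]
  exact mul_le_mul_of_nonneg_right (hC x) (norm_nonneg _)

/-- real bounded times complex exponentially decaying -/
theorem S3b_aux2 {f : E N → ℝ} {g : E N → ℂ} (hf : ∃ C, ∀ x, |f x| ≤ C) (hg : ExpDec g) :
    ExpDec (fun x => ((f x : ℝ) : ℂ) * g x) := by
  obtain ⟨C, hC⟩ := hf
  refine hg.mono C fun x => ?_
  rw [norm_mul, Complex.norm_real, Real.norm_eq_abs]
  exact mul_le_mul_of_nonneg_right (hC x) (norm_nonneg _)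

theorem S3b_conj {v : E N → ℂ} (hv : ExpDec v) : ExpDec (fun x => conj (v x)) := by
  refine hv.mono 1 fun x => ?_
  rw [RCLike.norm_conj, one_mul]

theorem S3b_lapb {R B0 B1 B2 B3 : ℝ} {φ : E N → ℝ} (hφ : Weight N R B0 B1 B2 B3 φ) :
    ∃ C, ∀ x, |lap φ x| ≤ C := ⟨B2, hφ.b2⟩

theorem S3b_pdb {R B0 B1 B2 B3 : ℝ} {φ : E N → ℝ} (hφ : Weight N R B0 B1 B2 B3 φ) (i : Fin N) :
    ∃ C, ∀ x, |pd i φ x| ≤ C := ⟨|B1|, hφ.bdd_pd i⟩

theorem S3b_zk_dec {R B0 B1 B2 B3 : ℝ} {φ : E N → ℝ}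
    (hφ : Weight N R B0 B1 B2 B3 φ) {v : E N → ℂ} (hv : Dec v) : ExpDec (zk φ v) := by
  have h1 : ExpDec (fun x => ((lap φ x : ℝ) : ℂ) * conj (v x)) :=
    S3b_aux2 (S3b_lapb hφ) (S3b_conj hv.d0)
  have h2 : ExpDec (fun x => ∑ i, ((pd i φ x : ℝ) : ℂ) * conj (pd i v x)) :=
    ExpDec.sum Finset.univ fun i _ => S3b_aux2 (S3b_pdb hφ i) (S3b_conj (hv.d1 i))
  have h3 : ExpDec (fun x => 2 * ∑ i, ((pd i φ x : ℝ) : ℂ) * conj (pd i v x)) := by
    refine h2.mono 2 fun x => ?_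
    rw [norm_mul]
    simp
  exact h1.add h3

theorem S3b_zk_cont {R B0 B1 B2 B3 : ℝ} {φ : E N → ℝ}
    (hφ : Weight N R B0 B1 B2 B3 φ) {v : E N → ℂ} (hv : Dec v) : Continuous (zk φ v) := by
  have h1 : Continuous (lap φ) := hφ.contDiff_lap.continuous
  have h2 : Continuous v := hv.smooth.continuous
  have h3 : ∀ i, Continuous (pd i φ) := fun i => (hφ.contDiff_pd i).continuous
  have h4 : ∀ i, Continuous (pd i v) := fun i => (hv.contDiff_pd i).continuous
  unfold zk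
  refine Continuous.add ?_ ?_
  · exact (Complex.continuous_ofReal.comp h1).mul (Complex.continuous_conj.comp h2)
  · refine continuous_const.mul (continuous_finsetSum _ fun i _ => ?_)
    exact (Complex.continuous_ofReal.comp (h3 i)).mul (Complex.continuous_conj.comp (h4 i))

/-- the pointwise identity -/
theorem S3b_point {α : ℝ} (hα : 0 < α) {φ : E N → ℝ} {v : E N → ℂ} (hv : Dec v) (x : E N) :
    (nl α (v x) * zk φ v x).re = lap φ x * ‖v x‖ ^ (α + 2) +
      2 / (α + 2) * ∑ i, pd i φ x * pd i (fun y => ‖v y‖ ^ (α + 2)) x := by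
  have hd := hv.differentiable x
  have h1 : ∀ i, pd i φ x * pd i (fun y => ‖v y‖ ^ (α + 2)) x =
      (α + 2) * (pd i φ x * (‖v x‖ ^ α * (conj (v x) * pd i v x).re)) := by
    intro i
    rw [pd_norm_rpow hα hd i]
    ring
  rw [Finset.sum_congr rfl fun i _ => h1 i, ← Finset.mul_sum]
  have h2 : 2 / (α + 2) * ((α + 2) * ∑ i, pd i φ x * (‖v x‖ ^ α * (conj (v x) * pd i v x).re)) =
      2 * ∑ i, pd i φ x * (‖v x‖ ^ α * (conj (v x) * pd i v x).re) := by
    have : α + 2 ≠ 0 := by positivity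
    rw [← mul_assoc, div_mul_cancel₀ _ this]
  rw [h2]
  have h3 : ‖v x‖ ^ (α + 2) = ‖v x‖ ^ α * (v x * conj (v x)).re := by
    rw [Complex.mul_conj, Complex.ofReal_re, Complex.normSq_eq_norm_sq,
      Real.rpow_add_of_nonneg (norm_nonneg _) hα.le (by norm_num : (0 : ℝ) ≤ 2)]
    norm_num
  rw [h3]
  unfold nl zk
  rw [mul_add, Complex.add_re]
  congr 1
  · simp only [Complex.mul_re, Complex.mul_im, Complex.ofReal_re, Complex.ofReal_im,
      Complex.conj_re, Complex.conj_im]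
    ring
  · rw [show ((‖v x‖ ^ α : ℝ) : ℂ) * v x * (2 * ∑ i, ((pd i φ x : ℝ) : ℂ) * conj (pd i v x)) =
      2 * ∑ i, ((‖v x‖ ^ α : ℝ) : ℂ) * v x * (((pd i φ x : ℝ) : ℂ) * conj (pd i v x)) by
        rw [← Finset.mul_sum]
        ring]
    rw [show (2 : ℂ) = ((2 : ℝ) : ℂ) by norm_num, Complex.re_ofReal_mul, Complex.re_sum]
    congr 1
    refine Finset.sum_congr rfl fun i _ => ?_
    simp only [Complex.mul_re, Complex.mul_im, Complex.ofReal_re, Complex.ofReal_im,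
      Complex.conj_re, Complex.conj_im]
    ring

/-- integration by parts -/
theorem S3b_parts {α R B0 B1 B2 B3 : ℝ} (hα : 0 < α) {φ : E N → ℝ}
    (hφ : Weight N R B0 B1 B2 B3 φ) {v : E N → ℂ} (hv : Dec v) :
    Integrable (fun x => ∑ i, pd i φ x * pd i (fun y => ‖v y‖ ^ (α + 2)) x) ∧
    Integrable (fun x => lap φ x * ‖v x‖ ^ (α + 2)) ∧
    ∫ x, ∑ i, pd i φ x * pd i (fun y => ‖v y‖ ^ (α + 2)) x =
      - ∫ x, lap φ x * ‖v x‖ ^ (α + 2) := by
  have hv1 : ContDiff ℝ 1 v := hv.smooth.of_le (by norm_num)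
  set ρ : E N → ℝ := fun y => ‖v y‖ ^ (α + 2) with hρ
  have hρ1 : ContDiff ℝ 1 ρ := contDiff_rpow hα hv1
  have hρ0 : ExpDec ρ := expDec_rpow hα hv.d0
  have hρd : Differentiable ℝ ρ := hρ1.differentiable (by norm_num)
  have hρc : ∀ i, Continuous (pd i ρ) := fun i => by
    have : ContDiff ℝ ((0 : ℕ) + 1 : ℕ) ρ := by simpa using hρ1
    exact (pd_contDiff (n := 0) (by simpa using hρ1) i).continuous
  have hρe : ∀ i, ExpDec (pd i ρ) := by
    intro i
    obtain ⟨C, hC⟩ := (expDec_nl hα hv.d0).bdd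
    refine (hv.d1 i).mono ((α + 2) * C) fun x => ?_
    rw [hρ, pd_norm_rpow hα (hv.differentiable x) i, norm_mul, norm_mul]
    have h1 : ‖(conj (v x) * pd i v x).re‖ ≤ ‖v x‖ * ‖pd i v x‖ := by
      rw [Real.norm_eq_abs]
      refine (Complex.abs_re_le_norm _).trans ?_
      rw [norm_mul, RCLike.norm_conj]
    have h2 : ‖v x‖ ^ α * ‖v x‖ ≤ C := by
      have h3 := hC x
      unfold nl at h3
      rw [norm_mul, Complex.norm_real, Real.norm_eq_abs,
        abs_of_nonneg (Real.rpow_nonneg (norm_nonneg _) _)] at h3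
      exact h3
    have h4 : ‖(α + 2 : ℝ)‖ = α + 2 := by
      rw [Real.norm_eq_abs, abs_of_pos (by positivity)]
    have h5 : ‖(‖v x‖ ^ α : ℝ)‖ = ‖v x‖ ^ α := by
      rw [Real.norm_eq_abs, abs_of_nonneg (Real.rpow_nonneg (norm_nonneg _) _)]
    rw [h4, h5]
    calc (α + 2) * ‖v x‖ ^ α * ‖(conj (v x) * pd i v x).re‖
        ≤ (α + 2) * ‖v x‖ ^ α * (‖v x‖ * ‖pd i v x‖) := by gcongr
      _ = (α + 2) * (‖v x‖ ^ α * ‖v x‖) * ‖pd i v x‖ := by ring
      _ ≤ (α + 2) * C * ‖pd i v x‖ := by gcongr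
  have hφc : ∀ i, Continuous (pd i φ) := fun i => (hφ.contDiff_pd i).continuous
  have hφc2 : ∀ i, Continuous (pd i (pd i φ)) := fun i => (hφ.contDiff_pd2 i i).continuous
  obtain ⟨Cb, hCb⟩ := hφ.hb
  have e1 : ∀ i, ExpDec (fun x => pd i φ x * pd i ρ x) := fun i =>
    S3b_aux1 (S3b_pdb hφ i) (hρe i)
  have e2 : ∀ i, ExpDec (fun x => pd i (pd i φ) x * ρ x) := fun i =>
    S3b_aux1 ⟨Cb, hCb i i⟩ hρ0
  have i1 : ∀ i, Integrable (fun x => pd i φ x * pd i ρ x) := fun i =>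
    (e1 i).integrable ((hφc i).mul (hρc i))
  have i2 : ∀ i, Integrable (fun x => pd i (pd i φ) x * ρ x) := fun i =>
    (e2 i).integrable ((hφc2 i).mul hρ1.continuous)
  have hφd : ∀ i, Differentiable ℝ (pd i φ) := fun i =>
    (hφ.contDiff_pd i).differentiable (by norm_num)
  have hz : ∀ i, ∫ x, pd i φ x * pd i ρ x = - ∫ x, pd i (pd i φ) x * ρ x := by
    intro i
    have hpd : pd i (fun y => pd i φ y * ρ y) =
        fun x => pd i (pd i φ) x * ρ x + pd i φ x * pd i ρ x := by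
      funext x
      exact pd_mul_real (hφd i x) (hρd x) i
    have h1 := integral_pd_eq_zero_real (f := fun y => pd i φ y * ρ y)
      (((hφ.contDiff_pd i).of_le (by norm_num)).mul hρ1) (S3b_aux1 (S3b_pdb hφ i) hρ0) i
      (by rw [hpd]; exact (e2 i).add (e1 i))
    rw [hpd, integral_add (i2 i) (i1 i)] at h1
    linarith
  have hlap : (fun x => lap φ x * ‖v x‖ ^ (α + 2)) = fun x => ∑ i, pd i (pd i φ) x * ρ x := by
    funext x
    unfold lap
    rw [Finset.sum_mul]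
  refine ⟨integrable_finsetSum _ fun i _ => i1 i, ?_, ?_⟩
  · rw [hlap]
    exact integrable_finsetSum _ fun i _ => i2 i
  · rw [hlap, integral_finsetSum _ fun i _ => i1 i, integral_finsetSum _ fun i _ => i2 i,
      ← Finset.sum_neg_distrib]
    exact Finset.sum_congr rfl fun i _ => hz i

/-- **Nonlinear part.**  `Re ∫ |v|^α v (Δφ conj v + 2∇φ·∇conj v) = (α/(α+2)) ∫ Δφ |v|^{α+2}`.
Proof.  `Re(|v|^α v zk) = |v|^{α+2} Δφ + (2/(α+2)) ∑_k φ_k ∂_k|v|^{α+2}` (`pd_norm_rpow`). -/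
theorem virial_nl {α R B0 B1 B2 B3 : ℝ} (hα : 0 < α) {φ : E N → ℝ}
    (hφ : Weight N R B0 B1 B2 B3 φ) {v : E N → ℂ} (hv : Dec v) :
    (∫ x, nl α (v x) * zk φ v x).re = α / (α + 2) * ∫ x, lap φ x * ‖v x‖ ^ (α + 2) := by
  have hcn : Continuous (fun x => nl α (v x)) := (continuous_nl hα).comp hv.smooth.continuous
  have hint : Integrable (fun x => nl α (v x) * zk φ v x) :=
    (ExpDec.bmul (expDec_nl hα hv.d0).bdd (S3b_zk_dec hφ hv)).integrable
      (hcn.mul (S3b_zk_cont hφ hv))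
  have h1 : (∫ x, nl α (v x) * zk φ v x).re = ∫ x, (nl α (v x) * zk φ v x).re :=
    (integral_re hint).symm
  obtain ⟨p1, p2, p3⟩ := S3b_parts hα hφ hv
  rw [h1]
  simp only [S3b_point hα hv]
  rw [integral_add p2 (p1.const_mul _), integral_const_mul, p3]
  have : α + 2 ≠ 0 := by positivity
  field_simp
  ring

/-- Hessian term: `∑_{jk} φ_jk Re(ξ_j conj ξ_k) ≤ 2 |ξ|²`, `∫ ≤ 2 ∫|∇v|²`. -/
theorem hess_term {R B0 B1 B2 B3 : ℝ} {φ : E N → ℝ} (hφ : Weight N R B0 B1 B2 B3 φ)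
    {v : E N → ℂ} (hv : Dec v) :
    ∫ x, ∑ j, ∑ k, pd j (pd k φ) x * (pd j v x * conj (pd k v x)).re ≤ 2 * Gf v := by
  obtain ⟨Cb, hCb⟩ := hφ.hb
  have hc4 : ∀ i, Continuous (pd i v) := fun i => (hv.contDiff_pd i).continuous
  have hi : ∀ j k, Integrable
      (fun x => pd j (pd k φ) x * (pd j v x * conj (pd k v x)).re) := by
    intro j k
    have hc : Continuous (fun x => (pd j v x * conj (pd k v x)).re) :=
      Complex.continuous_re.comp ((hc4 j).mul (Complex.continuous_conj.comp (hc4 k)))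
    have he : ExpDec (fun x => (pd j v x * conj (pd k v x)).re) := by
      have h1 : ExpDec (fun x => pd j v x * conj (pd k v x)) :=
        ExpDec.bmul (hv.d1 j).bdd (S3b_conj (hv.d1 k))
      refine h1.mono 1 fun x => ?_
      rw [one_mul, Real.norm_eq_abs]
      exact Complex.abs_re_le_norm _
    exact (S3b_aux1 ⟨Cb, hCb j k⟩ he).integrable ((hφ.contDiff_pd2 j k).continuous.mul hc)
  unfold Gf
  rw [← integral_const_mul]
  refine integral_mono (integrable_finsetSum _ fun j _ => integrable_finsetSum _ fun k _ =>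
    hi j k) ((hv.expDec_gsq.integrable hv.continuous_gsq).const_mul 2) fun x => ?_
  have h1 := hφ.hess x (fun i => (pd i v x).re)
  have h2 := hφ.hess x (fun i => (pd i v x).im)
  have h3 : ∑ j, ∑ k, pd j (pd k φ) x * (pd j v x * conj (pd k v x)).re =
      (∑ i, ∑ j, pd i (pd j φ) x * (pd i v x).re * (pd j v x).re) +
      ∑ i, ∑ j, pd i (pd j φ) x * (pd i v x).im * (pd j v x).im := by
    rw [← Finset.sum_add_distrib]
    refine Finset.sum_congr rfl fun j _ => ?_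
    rw [← Finset.sum_add_distrib]
    refine Finset.sum_congr rfl fun k _ => ?_
    simp only [Complex.mul_re, Complex.conj_re, Complex.conj_im]
    ring
  have h4 : gsq v x = (∑ i, (pd i v x).re ^ 2) + ∑ i, (pd i v x).im ^ 2 := by
    unfold gsq
    rw [← Finset.sum_add_distrib]
    refine Finset.sum_congr rfl fun i _ => ?_
    rw [← Complex.normSq_eq_norm_sq, Complex.normSq_apply]
    ring
  rw [h3, h4]
  linarith

/-- `|∫ ∇(Δφ)·∇v conj v| ≤ B3 √(M G)` -/
theorem b3_term {R B0 B1 B2 B3 : ℝ} (hB3 : 0 ≤ B3) {φ : E N → ℝ}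
    (hφ : Weight N R B0 B1 B2 B3 φ) {v : E N → ℂ} (hv : Dec v) :
    ‖∫ x, (∑ j, ((pd j (lap φ) x : ℝ) : ℂ) * pd j v x) * conj (v x)‖
      ≤ B3 * √(Mf v * Gf v) := by
  have hc4 : ∀ i, Continuous (pd i v) := fun i => (hv.contDiff_pd i).continuous
  have hfc : Continuous (fun x => ∑ j, ((pd j (lap φ) x : ℝ) : ℂ) * pd j v x) :=
    continuous_finsetSum _ fun j _ =>
      (Complex.continuous_ofReal.comp (hφ.continuous_pd_lap j)).mul (hc4 j)
  have hfe : ExpDec (fun x => ∑ j, ((pd j (lap φ) x : ℝ) : ℂ) * pd j v x) :=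
    ExpDec.sum Finset.univ fun j _ => S3b_aux2 ⟨|B3|, hφ.bdd_pd_lap j⟩ (hv.d1 j)
  have h1 := cs_conj hfc hfe hv
  refine h1.trans ?_
  have hM : 0 ≤ Mf v := integral_nonneg fun x => by positivity
  have h2 : ∫ x, ‖∑ j, ((pd j (lap φ) x : ℝ) : ℂ) * pd j v x‖ ^ 2 ≤ B3 ^ 2 * Gf v := by
    unfold Gf
    rw [← integral_const_mul]
    refine integral_mono_of_nonneg (Filter.Eventually.of_forall fun x => by positivity)
      ((hv.expDec_gsq.integrable hv.continuous_gsq).const_mul _)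
      (Filter.Eventually.of_forall fun x => ?_)
    refine (sum_cs (fun j => pd j (lap φ) x) (fun j => pd j v x)).trans ?_
    exact mul_le_mul_of_nonneg_right (hφ.b3 x) (Finset.sum_nonneg fun i _ => by positivity)
  calc √(∫ x, ‖∑ j, ((pd j (lap φ) x : ℝ) : ℂ) * pd j v x‖ ^ 2) * √(Mf v)
      ≤ √(B3 ^ 2 * Gf v) * √(Mf v) := by gcongr
    _ = B3 * √(Mf v * Gf v) := by
      rw [Real.sqrt_mul (sq_nonneg B3), Real.sqrt_sq hB3, Real.sqrt_mul hM]
      ring

end CGL
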