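import Pool.Agent.W_317df6_h83.S3a
import Pool.Agent.W_317df6_h83.S3b

/-!
# The virial inequality (task S3)
-/

set_option autoImplicit false

namespace CGL

open MeasureTheory Set
open scoped ComplexConjugate

variable {N : ℕ}

/-- **Virial inequality.**
`-Re Zf φ v w ≤ 4G + B3√(MG) - (α/(α+2)) ∫Δφ|v|^{α+2}`, `Δφ = 2N - (2N - Δφ)`,
`0 ≤ 2N - Δφ ≤ 2N + B2`, `= 0` for `|x| ≤ R`, `α/(α+2) ≤ 1`,
`4G - (2Nα/(α+2)) P = -(Nα-4) G - 2Nα e`. -/
theorem virial_space {α R B0 B1 B2 B3 : ℝ} (hα : 0 < α) (hB3 : 0 ≤ B3) {φ : E N → ℝ}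
    (hφ : Weight N R B0 B1 B2 B3 φ) {v : E N → ℂ} (hv : Dec v) :
    -(Zf φ v (ww α v)).re ≤ -(N * α - 4) * Gf v - 2 * N * α * ef α v
      + (2 * N + B2) * (∫ x in {x : E N | R < ‖x‖}, ‖v x‖ ^ (α + 2))
      + B3 * √(Mf v * Gf v) := by
  have hv1 : ContDiff ℝ 1 v := hv.smooth.of_le (by norm_num)
  have i1 : Integrable (fun x => lap v x * zk φ v x) :=
    (ExpDec.bmul hv.expDec_lap.bdd (S3b_zk_dec hφ hv)).integrable
      (hv.continuous_lap.mul (S3b_zk_cont hφ hv))
  have hcn : Continuous (fun x => nl α (v x)) := (continuous_nl hα).comp hv.smooth.continuous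
  have i2 : Integrable (fun x => nl α (v x) * zk φ v x) :=
    (ExpDec.bmul (expDec_nl hα hv.d0).bdd (S3b_zk_dec hφ hv)).integrable
      (hcn.mul (S3b_zk_cont hφ hv))
  have hZ : Zf φ v (ww α v) = (∫ x, lap v x * zk φ v x) + ∫ x, nl α (v x) * zk φ v x := by
    rw [← integral_add i1 i2]
    unfold Zf
    refine integral_congr_ae (Filter.Eventually.of_forall fun x => ?_)
    show ww α v x * zk φ v x = lap v x * zk φ v x + nl α (v x) * zk φ v x
    unfold ww
    ring
  have h1 := virial_lin hφ hv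
  have h2 := virial_nl hα hφ hv
  have h3 := hess_term hφ hv
  have h4 := b3_term hB3 hφ hv
  have h5 := (Complex.re_le_norm
    (∫ x, (∑ j, ((pd j (lap φ) x : ℝ) : ℂ) * pd j v x) * conj (v x))).trans h4
  -- the potential term
  set ρ : E N → ℝ := fun y => ‖v y‖ ^ (α + 2) with hρ
  have hρ0 : ∀ x, 0 ≤ ρ x := fun x => Real.rpow_nonneg (norm_nonneg _) _
  have hρi : Integrable ρ := (expDec_rpow hα hv.d0).integrable (contDiff_rpow hα hv1).continuous
  obtain ⟨p1, p2, p3⟩ := S3b_parts hα hφ hv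
  have hB2 : 0 ≤ B2 := (abs_nonneg _).trans (hφ.b2 0)
  have hms : MeasurableSet {x : E N | R < ‖x‖} :=
    (isOpen_lt continuous_const continuous_norm).measurableSet
  have hIR : (0 : ℝ) ≤ ∫ x in {x : E N | R < ‖x‖}, ρ x := integral_nonneg fun x => hρ0 x
  have hcomp : ∫ x, (2 * N - lap φ x) * ρ x ≤
      (2 * N + B2) * ∫ x in {x : E N | R < ‖x‖}, ρ x := by
    rw [← integral_indicator hms, ← integral_const_mul]
    have hi1 : Integrable (fun x => (2 * N - lap φ x) * ρ x) := by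
      have := (hρi.const_mul (2 * N : ℝ)).sub p2
      refine this.congr (Filter.Eventually.of_forall fun x => ?_)
      show 2 * N * ρ x - lap φ x * ρ x = _
      ring
    refine integral_mono hi1 ((hρi.indicator hms).const_mul _) fun x => ?_
    by_cases hx : R < ‖x‖
    · rw [indicator_of_mem (show x ∈ {x : E N | R < ‖x‖} from hx)]
      refine mul_le_mul_of_nonneg_right ?_ (hρ0 x)
      have := (abs_le.1 (hφ.b2 x)).1
      linarith
    · rw [indicator_of_notMem (show x ∉ {x : E N | R < ‖x‖} from hx),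
        hφ.lap_eq x (not_lt.1 hx)]
      simp
  have hsplit : ∫ x, lap φ x * ρ x = 2 * N * Pf α v - ∫ x, (2 * N - lap φ x) * ρ x := by
    have e1 : ∫ x, (2 * N - lap φ x) * ρ x = 2 * N * Pf α v - ∫ x, lap φ x * ρ x := by
      unfold Pf
      rw [← integral_const_mul, ← integral_sub (hρi.const_mul _) p2]
      refine integral_congr_ae (Filter.Eventually.of_forall fun x => ?_)
      show (2 * N - lap φ x) * ρ x = 2 * N * ρ x - lap φ x * ρ x
      ring
    rw [e1]
    ring
  have hk0 : 0 ≤ α / (α + 2) := by positivity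
  have hk1 : α / (α + 2) ≤ 1 := by
    rw [div_le_one (by positivity)]
    linarith
  have hN : (0 : ℝ) ≤ 2 * N + B2 := by positivity
  have h6 : α / (α + 2) * ∫ x, (2 * N - lap φ x) * ρ x ≤
      (2 * N + B2) * ∫ x in {x : E N | R < ‖x‖}, ρ x := by
    calc α / (α + 2) * ∫ x, (2 * N - lap φ x) * ρ x
        ≤ α / (α + 2) * ((2 * N + B2) * ∫ x in {x : E N | R < ‖x‖}, ρ x) :=
          mul_le_mul_of_nonneg_left hcomp hk0
      _ ≤ 1 * ((2 * N + B2) * ∫ x in {x : E N | R < ‖x‖}, ρ x) :=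
          mul_le_mul_of_nonneg_right hk1 (mul_nonneg hN hIR)
      _ = _ := one_mul _
  have h7 : -(N * α - 4) * Gf v - 2 * N * α * ef α v =
      4 * Gf v - α / (α + 2) * (2 * N * Pf α v) := by
    unfold ef
    have : α + 2 ≠ 0 := by positivity
    field_simp
    ring
  have h8 : (∫ x, nl α (v x) * zk φ v x).re =
      α / (α + 2) * (2 * N * Pf α v) - α / (α + 2) * ∫ x, (2 * N - lap φ x) * ρ x := by
    rw [h2]
    show α / (α + 2) * ∫ x, lap φ x * ρ x = _
    rw [hsplit]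
    ring
  rw [hZ, Complex.add_re, h1, h8, h7]
  linarith

end CGL
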