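import Pool.Agent.W_317df6_h83.Basic

/-!
# Exterior potential energy (task S5b)
-/

set_option autoImplicit false

namespace CGL

open MeasureTheory Set
open scoped ComplexConjugate

variable {N : ℕ}

/-- Exterior potential energy.  `|v|^{α+2} = (|v|²)^{α/2} |v|² ≤ (q√(MG))^{α/2} |v|²` on
`{R < ‖x‖}`; integrate (`setIntegral_mono_on`) and `∫_{R<‖x‖}|v|² ≤ ∫|v|²`
(`setIntegral_le_integral`). -/
theorem ext_bound {α q R : ℝ} (hα : 0 < α) {v : E N → ℂ} (hv : Dec v)
    (h : ∀ x : E N, R ≤ ‖x‖ → ‖v x‖ ^ 2 ≤ q * √(Mf v * Gf v)) (hq : 0 ≤ q) :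
    ∫ x in {x : E N | R < ‖x‖}, ‖v x‖ ^ (α + 2) ≤
      (q * √(Mf v * Gf v)) ^ (α / 2) * Mf v := by
  set K : ℝ := q * √(Mf v * Gf v) with hK
  have hK0 : 0 ≤ K := mul_nonneg hq (Real.sqrt_nonneg _)
  have hi1 : Integrable (fun x => ‖v x‖ ^ (α + 2)) :=
    (expDec_rpow hα hv.d0).integrable (contDiff_rpow hα (hv.smooth.of_le (by norm_num))).continuous
  have hi2 : Integrable (fun x => ‖v x‖ ^ 2) :=
    hv.expDec_normsq.integrable (hv.smooth.continuous.norm.pow 2)
  have hS : MeasurableSet {x : E N | R < ‖x‖} :=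
    measurableSet_lt measurable_const measurable_norm
  have h1 : ∫ x in {x : E N | R < ‖x‖}, ‖v x‖ ^ (α + 2) ≤
      ∫ x in {x : E N | R < ‖x‖}, K ^ (α / 2) * ‖v x‖ ^ 2 := by
    refine setIntegral_mono_on hi1.integrableOn (hi2.const_mul _).integrableOn hS ?_
    intro x hx
    have h2 : ‖v x‖ ^ (α + 2) = (‖v x‖ ^ 2) ^ (α / 2) * ‖v x‖ ^ 2 := by
      rw [Real.rpow_add_of_nonneg (norm_nonneg _) hα.le (by norm_num), ← Real.rpow_natCast,
        ← Real.rpow_mul (norm_nonneg _)]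
      congr 2
      push_cast
      ring
    rw [h2]
    refine mul_le_mul_of_nonneg_right ?_ (sq_nonneg _)
    exact Real.rpow_le_rpow (sq_nonneg _) (h x (le_of_lt hx)) (by linarith)
  refine h1.trans ?_
  rw [integral_const_mul]
  refine mul_le_mul_of_nonneg_left ?_ (Real.rpow_nonneg hK0 _)
  exact setIntegral_le_integral hi2 (Filter.Eventually.of_forall fun x => sq_nonneg _)

end CGL
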