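import Pool.Agent.W_317df6_h83.S5a
import Pool.Agent.W_317df6_h83.S5b

/-!
# Radial functions (umbrella file)
-/
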