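import Pool.Agent.W_317df6_h83.T1
import Pool.Agent.W_317df6_h83.S1
import Pool.Agent.W_317df6_h83.S3
import Pool.Agent.W_317df6_h83.S4
import Pool.Agent.W_317df6_h83.S5
import Pool.Agent.W_317df6_h83.P1a

/-!
# Variance and virial inequalities (task FlowB)
-/

set_option autoImplicit false

namespace CGL

open MeasureTheory Set
open scoped ComplexConjugate

variable {N : ℕ}

theorem FlowB_conj_dec {f : E N → ℂ} (hf : ExpDec f) : ExpDec (fun x => conj (f x)) := by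
  refine hf.mono 1 fun x => ?_
  rw [RCLike.norm_conj, one_mul]

theorem FlowB_conj_cont {f : E N → ℂ} (hf : Continuous f) : Continuous (fun x => conj (f x)) :=
  Complex.continuous_conj.comp hf

theorem FlowB_phi_int {R B0 B1 B2 B3 : ℝ} {φ : E N → ℝ} (hφ : Weight N R B0 B1 B2 B3 φ)
    {f v : E N → ℂ} (hf : Continuous f) (hf' : ExpDec f) (hv : Continuous v) (hv' : ExpDec v) :
    Integrable (fun x => ((φ x : ℝ) : ℂ) * (f x * conj (v x))) := by
  have hcφ : Continuous (fun x => ((φ x : ℝ) : ℂ)) :=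
    Complex.continuous_ofReal.comp hφ.smooth.continuous
  have h1 : ExpDec (fun x => f x * conj (v x)) :=
    ExpDec.bmul hf'.bdd (FlowB_conj_dec hv')
  have h2 : ExpDec (fun x => ((φ x : ℝ) : ℂ) * (f x * conj (v x))) := by
    refine ExpDec.bmul ⟨B0, fun x => ?_⟩ h1
    rw [Complex.norm_real, Real.norm_eq_abs]
    exact hφ.bdd x
  exact h2.integrable (hcφ.mul (hf.mul (FlowB_conj_cont hv)))

/-- the integral of `φ a conj v` for `a = e^{iθ}(w + r) - g v` -/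
theorem FlowB_split {θ g R B0 B1 B2 B3 : ℝ} {φ : E N → ℝ} (hφ : Weight N R B0 B1 B2 B3 φ)
    {a w r v : E N → ℂ} (hw : Continuous w) (hw' : ExpDec w)
    (hr : Continuous r) (hr' : ExpDec r) (hv : Continuous v) (hv' : ExpDec v)
    (ha : ∀ x, a x = eth θ * (w x + r x) - (g : ℂ) * v x) :
    ∫ x, ((φ x : ℝ) : ℂ) * (a x * conj (v x)) =
      eth θ * ((∫ x, ((φ x : ℝ) : ℂ) * (w x * conj (v x)))
        + ∫ x, ((φ x : ℝ) : ℂ) * (r x * conj (v x)))
      - (g : ℂ) * ∫ x, ((φ x : ℝ) : ℂ) * (v x * conj (v x)) := by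
  have i1 := FlowB_phi_int hφ hw hw' hv hv'
  have i2 := FlowB_phi_int hφ hr hr' hv hv'
  have i3 := FlowB_phi_int hφ hv hv' hv hv'
  have e1 : (fun x => ((φ x : ℝ) : ℂ) * (a x * conj (v x))) =
      fun x => (eth θ * (((φ x : ℝ) : ℂ) * (w x * conj (v x)))
        + eth θ * (((φ x : ℝ) : ℂ) * (r x * conj (v x))))
        - (g : ℂ) * (((φ x : ℝ) : ℂ) * (v x * conj (v x))) := by
    funext x
    rw [ha x]
    ring
  have i4 : Integrable (fun x => eth θ * (((φ x : ℝ) : ℂ) * (w x * conj (v x)))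
      + eth θ * (((φ x : ℝ) : ℂ) * (r x * conj (v x)))) :=
    (i1.const_mul _).add (i2.const_mul _)
  rw [e1, integral_sub i4 (i3.const_mul _),
    integral_add (i1.const_mul _) (i2.const_mul _), integral_const_mul, integral_const_mul,
    integral_const_mul]
  ring

theorem FlowB_self {φ : E N → ℝ} {v : E N → ℂ} :
    ∫ x, ((φ x : ℝ) : ℂ) * (v x * conj (v x)) = ((Vf φ v : ℝ) : ℂ) := by
  unfold Vf
  rw [← integral_complex_ofReal]
  congr 1
  funext x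
  rw [Complex.mul_conj, Complex.normSq_eq_norm_sq, Complex.ofReal_mul]

theorem FlowB_re (θ : ℝ) (z : ℂ) :
    (eth θ * z).re = Real.cos θ * z.re - Real.sin θ * z.im := by
  rw [Complex.mul_re, eth_re, eth_im]

theorem FlowB_im (θ : ℝ) (z : ℂ) :
    (eth θ * z).im = Real.cos θ * z.im + Real.sin θ * z.re := by
  rw [Complex.mul_im, eth_re, eth_im]

theorem FlowB_norm (θ : ℝ) (z : ℂ) : ‖eth θ * z‖ = ‖z‖ := by
  rw [norm_mul, eth_norm, one_mul]

theorem FlowB_sqrt_le {δ s : ℝ} (hδ : 0 ≤ δ) (hs : s ≤ δ ^ 2) : √s ≤ δ := by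
  calc √s ≤ √(δ ^ 2) := Real.sqrt_le_sqrt hs
    _ = δ := Real.sqrt_sq hδ

theorem FlowB_P {α : ℝ} (hα : 0 < α) (v : E N → ℂ) :
    (α + 2) * (Gf v / 2 + ef α v) = Pf α v := by
  unfold ef
  field_simp
  ring

/-- decomposition of `Zf(a)` -/
theorem FlowB_zf {θ g R B0 B1 B2 B3 : ℝ} {φ : E N → ℝ} (hφ : Weight N R B0 B1 B2 B3 φ)
    {a w r v : E N → ℂ} (hw : Continuous w) (hw' : ExpDec w)
    (hr : Continuous r) (hr' : ExpDec r) (hv : Dec v)
    (ha : ∀ x, a x = eth θ * (w x + r x) - (g : ℂ) * v x) :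
    Zf φ v a = eth θ * (Zf φ v w) + eth θ * (Zf φ v r) - (g : ℂ) * Zf φ v v := by
  have hvc : Continuous v := hv.smooth.continuous
  have e1 : a = fun x => (eth θ * (w x + r x)) + (-(g : ℂ)) * v x := by
    funext x
    rw [ha x]
    ring
  have hd1 : ExpDec (fun x => w x + r x) := hw'.add hr'
  have hc1 : Continuous (fun x => w x + r x) := hw.add hr
  have hd2 : ExpDec (fun x => eth θ * (w x + r x)) :=
    ExpDec.bmul ⟨‖eth θ‖, fun _ => le_refl _⟩ hd1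
  have hc2 : Continuous (fun x => eth θ * (w x + r x)) := continuous_const.mul hc1
  have hd3 : ExpDec (fun x => (-(g : ℂ)) * v x) :=
    ExpDec.bmul ⟨‖(-(g : ℂ))‖, fun _ => le_refl _⟩ hv.d0
  have hc3 : Continuous (fun x => (-(g : ℂ)) * v x) := continuous_const.mul hvc
  rw [e1, zf_add hφ hc2 hd2 hc3 hd3 hv, zf_smul, zf_smul, zf_add hφ hw hw' hr hr' hv]
  ring

/-- **Variance and virial inequalities.**

Proof.  `Fam.dV`: `V' = 2Re∫φ a conj v = 2 Re(e^{iθ}∫φ(w+r)conj v) - 2gV`,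
`Re(e^{iθ}z) = cos θ Re z - sin θ Im z` with `int_phi_ww_re`, `int_phi_ww_im`, `cs_phi`,
`P = (α+2)(G/2+e)`.  `Fam.dY`: `Y' = -Im Zf(a)`, `Zf(a) = e^{iθ}(Zf(w) + Zf(r)) - g Zf(v)`
(`zf_add`, `zf_smul`), `Im(e^{iθ}z) = cos θ Im z + sin θ Re z`, `virial_space`, `ext_bound`,
`cs_zf`, `zf_self_im`. -/
theorem flow_VY {α θ g δ T R B0 B1 B2 B3 q : ℝ} (hα : 0 < α) (hδ : 0 ≤ δ)
    (hc : 0 < Real.cos θ) (hs : 0 < Real.sin θ) (hB1 : 0 ≤ B1) (hB2 : 0 ≤ B2) (hB3 : 0 ≤ B3)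
    (hq : 0 ≤ q) {φ : E N → ℝ} (hφ : Weight N R B0 B1 B2 B3 φ) {v a r : ℝ → E N → ℂ}
    (h : Fam N T v a) (ha : ∀ t ∈ Icc 0 T, ∀ x, a t x =
      eth θ * (ww α (v t) x + r t x) - (g : ℂ) * v t x)
    (hr : ∀ t ∈ Icc 0 T, Continuous (r t) ∧ ExpDec (r t) ∧ ∫ x, ‖r t x‖ ^ 2 ≤ δ ^ 2)
    (hrad : ∀ t ∈ Icc 0 T, ∀ x : E N, R ≤ ‖x‖ → ‖v t x‖ ^ 2 ≤ q * √(Mf (v t) * Gf (v t)))
    {t : ℝ} (ht : t ∈ Ioo 0 T) :
    (∃ V' : ℝ, HasDerivAt (fun τ => Vf φ (v τ)) V' t ∧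
      V' ≤ 2 * Real.sin θ * Yf φ (v t) - 2 * g * Vf φ (v t)
        + Real.cos θ * (B2 * Mf (v t) + 2 * B0 * ((α + 2) * (Gf (v t) / 2 + ef α (v t))))
        + 2 * B0 * δ * √(Mf (v t))) ∧
    (∃ Y' : ℝ, HasDerivAt (fun τ => Yf φ (v τ)) Y' t ∧
      Y' ≤ -2 * g * Yf φ (v t)
        + Real.sin θ * (-(N * α - 4) * Gf (v t) - 2 * N * α * ef α (v t)
          + (2 * N + B2) * ((q * √(Mf (v t) * Gf (v t))) ^ (α / 2) * Mf (v t))
          + B3 * √(Mf (v t) * Gf (v t)))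
        + (Real.cos θ * √(Df α (v t)) + δ) * (B2 * √(Mf (v t)) + 2 * B1 * √(Gf (v t)))) := by
  have htc : t ∈ Icc 0 T := Ioo_subset_Icc_self ht
  have hv : Dec (v t) := h.dec htc
  have hvc : Continuous (v t) := hv.smooth.continuous
  have hwc : Continuous (ww α (v t)) := hv.ww_cont hα
  have hwd : ExpDec (ww α (v t)) := hv.ww_dec hα
  obtain ⟨hrc, hrd, hr2⟩ := hr t htc
  have hat := ha t htc
  have hs' := FlowB_sqrt_le hδ hr2
  have hB0 : 0 ≤ B0 := (hφ.nonneg 0).trans (hφ.b0 0)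
  constructor
  · refine ⟨_, h.dV hφ ht, ?_⟩
    have e1 := FlowB_split (θ := θ) (g := g) hφ (a := a t) hwc hwd hrc hrd hvc hv.d0 hat
    rw [FlowB_self, mul_add] at e1
    have e3 : (∫ x, ((φ x : ℝ) : ℂ) * (a t x * conj (v t x))).re =
        Real.cos θ * (∫ x, ((φ x : ℝ) : ℂ) * (ww α (v t) x * conj (v t x))).re
          + Real.sin θ * Yf φ (v t)
          + (eth θ * ∫ x, ((φ x : ℝ) : ℂ) * (r t x * conj (v t x))).re
          - g * Vf φ (v t) := by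
      rw [e1, Complex.sub_re, Complex.add_re, FlowB_re, int_phi_ww_im hα hφ hv,
        Complex.re_ofReal_mul, Complex.ofReal_re]
      ring
    have e2 := int_phi_ww_re hα hφ hv
    have e4 : (eth θ * ∫ x, ((φ x : ℝ) : ℂ) * (r t x * conj (v t x))).re
        ≤ B0 * (δ * √(Mf (v t))) := by
      calc (eth θ * ∫ x, ((φ x : ℝ) : ℂ) * (r t x * conj (v t x))).re
          ≤ ‖eth θ * ∫ x, ((φ x : ℝ) : ℂ) * (r t x * conj (v t x))‖ := Complex.re_le_norm _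
        _ = ‖∫ x, ((φ x : ℝ) : ℂ) * (r t x * conj (v t x))‖ := FlowB_norm _ _
        _ ≤ B0 * (√(∫ x, ‖r t x‖ ^ 2) * √(Mf (v t))) := cs_phi hφ hrc hrd hv
        _ ≤ B0 * (δ * √(Mf (v t))) := mul_le_mul_of_nonneg_left
            (mul_le_mul_of_nonneg_right hs' (Real.sqrt_nonneg _)) hB0
    have e5 := mul_le_mul_of_nonneg_left e2 hc.le
    rw [e3, FlowB_P hα]
    nlinarith [e5, e4]
  · refine ⟨_, h.dY hφ ht, ?_⟩
    have e1 := FlowB_zf (θ := θ) (g := g) hφ (a := a t) hwc hwd hrc hrd hv hat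
    have e2 : -(Zf φ (v t) (a t)).im = -2 * g * Yf φ (v t)
        + Real.sin θ * (-(Zf φ (v t) (ww α (v t))).re)
        + Real.cos θ * (-(Zf φ (v t) (ww α (v t))).im)
        - (eth θ * Zf φ (v t) (r t)).im := by
      rw [e1, Complex.sub_im, Complex.add_im, FlowB_im, Complex.im_ofReal_mul, zf_self_im hφ hv]
      ring
    have e3 := virial_space hα hB3 hφ hv
    have e4 := ext_bound hα hv (hrad t htc) hq
    have e5 : (2 * (N : ℝ) + B2) * (∫ x in {x : E N | R < ‖x‖}, ‖v t x‖ ^ (α + 2)) ≤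
        (2 * N + B2) * ((q * √(Mf (v t) * Gf (v t))) ^ (α / 2) * Mf (v t)) :=
      mul_le_mul_of_nonneg_left e4 (by positivity)
    have e6 : -(Zf φ (v t) (ww α (v t))).re ≤ -(N * α - 4) * Gf (v t) - 2 * N * α * ef α (v t)
          + (2 * N + B2) * ((q * √(Mf (v t) * Gf (v t))) ^ (α / 2) * Mf (v t))
          + B3 * √(Mf (v t) * Gf (v t)) := by linarith
    have e7 := mul_le_mul_of_nonneg_left e6 hs.le
    have e8 : -(Zf φ (v t) (ww α (v t))).im ≤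
        √(Df α (v t)) * (B2 * √(Mf (v t)) + 2 * B1 * √(Gf (v t))) := by
      have h1 : -(Zf φ (v t) (ww α (v t))).im ≤ ‖Zf φ (v t) (ww α (v t))‖ :=
        (neg_le_abs _).trans (Complex.abs_im_le_norm _)
      exact h1.trans (cs_zf hB1 hB2 hφ hwc hwd hv)
    have e9 := mul_le_mul_of_nonneg_left e8 hc.le
    have hnn : 0 ≤ B2 * √(Mf (v t)) + 2 * B1 * √(Gf (v t)) := by positivity
    have e10 : -(eth θ * Zf φ (v t) (r t)).im ≤
        δ * (B2 * √(Mf (v t)) + 2 * B1 * √(Gf (v t))) := by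
      calc -(eth θ * Zf φ (v t) (r t)).im ≤ ‖eth θ * Zf φ (v t) (r t)‖ :=
            (neg_le_abs _).trans (Complex.abs_im_le_norm _)
        _ = ‖Zf φ (v t) (r t)‖ := FlowB_norm _ _
        _ ≤ √(∫ x, ‖r t x‖ ^ 2) * (B2 * √(Mf (v t)) + 2 * B1 * √(Gf (v t))) :=
            cs_zf hB1 hB2 hφ hrc hrd hv
        _ ≤ δ * (B2 * √(Mf (v t)) + 2 * B1 * √(Gf (v t))) :=
            mul_le_mul_of_nonneg_right hs' hnn
    rw [e2]
    linarith [e7, e9, e10]

end CGL
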