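import Pool.Agent.W_317df6_h83.OdeDefs
import Pool.Agent.W_317df6_h83.FlowA
import Pool.Agent.W_317df6_h83.FlowB

/-!
# A smooth approximate solution gives a flow
-/

set_option autoImplicit false

namespace CGL

open MeasureTheory Set
open scoped ComplexConjugate

variable {N : ℕ}

/-- assembly -/
theorem flow_of_fam {α θ g δ R B0 B1 B2 B3 q T m e0 CM : ℝ} (hα : 0 < α) (hδ : 0 ≤ δ)
    (hc : 0 < Real.cos θ) (hs : 0 < Real.sin θ) (hB1 : 0 ≤ B1) (hB2 : 0 ≤ B2) (hB3 : 0 ≤ B3)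
    (hq : 0 ≤ q) {φ : E N → ℝ} (hφ : Weight N R B0 B1 B2 B3 φ) {v a r : ℝ → E N → ℂ}
    (hT2 : 0 ≤ T * (1 + 1024 / α))
    (h : Fam N (T * (1 + 1024 / α)) v a)
    (ha : ∀ t ∈ Icc 0 (T * (1 + 1024 / α)), ∀ x, a t x =
      eth θ * (ww α (v t) x + r t x) - (g : ℂ) * v t x)
    (hr : ∀ t ∈ Icc 0 (T * (1 + 1024 / α)),
      Continuous (r t) ∧ ExpDec (r t) ∧ ∫ x, ‖r t x‖ ^ 2 ≤ δ ^ 2)
    (hrad : ∀ t ∈ Icc 0 (T * (1 + 1024 / α)), ∀ x : E N, R ≤ ‖x‖ →
      ‖v t x‖ ^ 2 ≤ q * √(Mf (v t) * Gf (v t)))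
    (hM0 : Mf (v 0) ≤ m) (he0 : e0 ≤ ef α (v 0)) (hY0 : Yf φ (v 0) = 0)
    (hCM : ∀ t ∈ Icc 0 (T * (1 + 1024 / α)), Mf (v t) ≤ CM) :
    Flow ⟨N, α, g, Real.cos θ, Real.sin θ, T, m, e0, B0, B1, B2, B3, 2 * N + B2, q, CM⟩ δ
      (fun t => Mf (v t)) (fun t => Gf (v t)) (fun t => ef α (v t)) (fun t => Df α (v t))
      (fun t => Vf φ (v t)) (fun t => Yf φ (v t)) := by
  obtain ⟨k1, k2, k3, k4, k5, k6⟩ := h.cont hα hφ
  have hme := fun t ht => flow_Me hα hδ h ha hr (t := t) ht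
  have hvy := fun t ht => flow_VY hα hδ hc hs hB1 hB2 hB3 hq hφ h ha hr hrad (t := t) ht
  have h0 : (0:ℝ) ∈ Icc 0 (T * (1 + 1024 / α)) := ⟨le_rfl, hT2⟩
  refine
    { cM := k1, cG := k2, ce := k3, cD := k4, cV := k5, cY := k6
      iM := hM0, ie := he0, iV := ?_, iY := hY0
      Mnn := fun t _ => Mf_nonneg _
      Gnn := fun t _ => Gf_nonneg _
      Dnn := fun t _ => Df_nonneg _ _
      Vnn := fun t _ => Vf_nonneg hφ.nonneg _
      Pnn := fun t _ => ?_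
      CS := fun t ht => ?_
      MC := hCM
      dM := fun t ht => (hme t ht).1
      de := fun t ht => (hme t ht).2
      dV := fun t ht => (hvy t ht).1
      dY := fun t ht => (hvy t ht).2 }
  · -- `V 0 ≤ B0 M 0`
    have hB0 : 0 ≤ B0 := (hφ.nonneg 0).trans (hφ.b0 0)
    have hd := h.dec h0
    have hint : Integrable (fun x => ‖v 0 x‖ ^ 2) := by
      obtain ⟨C, hC⟩ := hd.d0.bdd
      have h1 : ExpDec (fun x => ‖v 0 x‖ ^ 2) := by
        refine hd.d0.mono C fun x => ?_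
        rw [Real.norm_of_nonneg (by positivity), pow_two]
        exact mul_le_mul_of_nonneg_right (hC x) (norm_nonneg _)
      exact h1.integrable (hd.smooth.continuous.norm.pow 2)
    have h1 : Vf φ (v 0) ≤ B0 * Mf (v 0) := by
      unfold Vf Mf
      rw [← integral_const_mul]
      refine integral_mono_of_nonneg (Filter.Eventually.of_forall fun x => ?_)
        (hint.const_mul B0) (Filter.Eventually.of_forall fun x => ?_)
      · exact mul_nonneg (hφ.nonneg x) (by positivity)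
      · exact mul_le_mul_of_nonneg_right (hφ.b0 x) (by positivity)
    exact h1.trans (mul_le_mul_of_nonneg_left hM0 hB0)
  · have h1 := Pf_nonneg α (v t)
    have h2 : Gf (v t) / 2 + ef α (v t) = Pf α (v t) / (α + 2) := by unfold ef; ring
    show 0 ≤ Gf (v t) / 2 + ef α (v t)
    rw [h2]
    positivity
  · have h1 := cs_ww hα (h.dec ht) (int_ww_conj hα (h.dec ht))
    rw [j_eq hα] at h1
    exact h1

end CGL
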