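import Pool.Agent.W_317df6_h83.P1

/-!
# Integrability in time of the Duhamel term (task P3a)
-/

set_option autoImplicit false

namespace CGL

open MeasureTheory Set

variable {N : ℕ}

/-- For `F` bounded and continuous on `[0,T] × ℝ^N` the function
`s ↦ ∫ K((t-s)e^{iθ}, x-y) F(s,y) dy` is integrable on `[0,t]`.

Proof.  `(s,y) ↦ K(((t-s)e), x-y) F(s,y)` is continuous on `[0,t) × ℝ^N` (`K_contOn`), hence
a.e. strongly measurable for `(volume.restrict (Ioo 0 t)).prod volume`
(`ContinuousOn.aestronglyMeasurable`, `Measure.prod_restrict`), so the inner integral is a.e. strongly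
measurable in `s` (`AEStronglyMeasurable.integral_prod_right'`); it is bounded by `C * |B|` with the
constant `C` of `K_l1` (translation invariance: `∫ ‖K(x-y)‖ dy = ∫ ‖K‖`, `integral_sub_left_eq_self`). -/
theorem K_time {θ T B : ℝ} (hθ : 0 < Real.cos θ) {F : ℝ → E N → ℂ}
    (hF : ContinuousOn (fun p : ℝ × E N => F p.1 p.2) (Icc 0 T ×ˢ univ))
    (hB : ∀ s ∈ Icc 0 T, ∀ y, ‖F s y‖ ≤ B) {t : ℝ} (ht : t ∈ Ioc 0 T) (x : E N) :
    IntervalIntegrable (fun s => ∫ y, K N (((t - s : ℝ) : ℂ) * eth θ) (x - y) * F s y)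
      volume 0 t := by
  obtain ⟨ht0, htT⟩ := ht
  have hT : 0 < T := ht0.trans_le htT
  obtain ⟨C, hC, hCK⟩ := K_l1 (N := N) hθ hT
  rw [intervalIntegrable_iff_integrableOn_Ioo_of_le ht0.le]
  have hsub : Ioo (0 : ℝ) t ⊆ Icc 0 T := fun s hs => ⟨hs.1.le, hs.2.le.trans htT⟩
  have hcont : ContinuousOn (fun p : ℝ × E N =>
      K N (((t - p.1 : ℝ) : ℂ) * eth θ) (x - p.2) * F p.1 p.2) (Ioo 0 t ×ˢ univ) := by
    refine ContinuousOn.mul ?_ (hF.mono (prod_mono hsub subset_rfl))
    refine (K_contOn N).comp (f := fun p : ℝ × E N =>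
      ((((t - p.1 : ℝ) : ℂ) * eth θ), x - p.2)) ?_ ?_
    · exact Continuous.continuousOn (by fun_prop)
    · rintro p hp
      exact zre_pos hθ (sub_pos.2 hp.1.2)
  have hmeas : AEStronglyMeasurable (fun s => ∫ y, K N (((t - s : ℝ) : ℂ) * eth θ) (x - y) *
      F s y) (volume.restrict (Ioo 0 t)) := by
    have h1 : AEStronglyMeasurable (fun p : ℝ × E N =>
        K N (((t - p.1 : ℝ) : ℂ) * eth θ) (x - p.2) * F p.1 p.2)
        ((volume.restrict (Ioo 0 t)).prod (volume : Measure (E N))) := by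
      have h2 := hcont.aestronglyMeasurable (μ := (volume : Measure ℝ).prod
        (volume : Measure (E N))) (measurableSet_Ioo.prod MeasurableSet.univ)
      rw [← Measure.prod_restrict, Measure.restrict_univ] at h2
      exact h2
    exact h1.integral_prod_right'
  have hfin : IsFiniteMeasure (volume.restrict (Ioo 0 t)) :=
    ⟨by rw [Measure.restrict_apply_univ]; exact measure_Ioo_lt_top⟩
  refine Integrable.of_bound (μ := volume.restrict (Ioo 0 t)) hmeas (C * |B|) ?_
  refine (ae_restrict_iff' measurableSet_Ioo).2 (Filter.Eventually.of_forall fun s hs => ?_)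
  have hs' : 0 < t - s := sub_pos.2 hs.2
  have hint : Integrable (fun y : E N => ‖K N (((t - s : ℝ) : ℂ) * eth θ) (x - y)‖ * |B|) :=
    ((K_integrable hθ hs').norm.comp_sub_left x).mul_const _
  calc ‖∫ y, K N (((t - s : ℝ) : ℂ) * eth θ) (x - y) * F s y‖
      ≤ ∫ y, ‖K N (((t - s : ℝ) : ℂ) * eth θ) (x - y)‖ * |B| := by
        refine norm_integral_le_of_norm_le hint (Filter.Eventually.of_forall fun y => ?_)
        rw [norm_mul]
        exact mul_le_mul_of_nonneg_left ((hB s (hsub hs) y).trans (le_abs_self B))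
          (norm_nonneg _)
    _ = (∫ y, ‖K N (((t - s : ℝ) : ℂ) * eth θ) y‖) * |B| := by
        rw [integral_mul_const,
          integral_sub_left_eq_self (fun y : E N => ‖K N (((t - s : ℝ) : ℂ) * eth θ) y‖)]
    _ ≤ C * |B| := by
        refine mul_le_mul_of_nonneg_right (hCK (t - s) ⟨hs', ?_⟩) (abs_nonneg B)
        linarith [hs.1]

end CGL
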