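import Pool.Agent.W_317df6_h83.P2a
import Pool.Agent.W_317df6_h83.P3a

/-!
# Uniqueness of mild solutions (task P2c)
-/

set_option autoImplicit false

namespace CGL

open MeasureTheory Set
open scoped ZeroAtInfty

variable {N : ℕ} {α θ γ T : ℝ} {u0 : C₀(E N, ℂ)} {u : ℝ → C₀(E N, ℂ)}

theorem P2c_cont (hα : 0 < α) (θ γ : ℝ) : Continuous (FF α θ γ) := by
  have h1 : Continuous fun z : ℂ => ‖z‖ ^ α :=
    continuous_norm.rpow_const fun _ => Or.inr hα.le
  unfold FF nl
  exact (continuous_const.mul ((Complex.continuous_ofReal.comp h1).mul continuous_id)).add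
    (continuous_const.mul continuous_id)

theorem P2c_zero (α θ γ : ℝ) : FF α θ γ 0 = 0 := by
  unfold FF nl
  simp

theorem P2c_int {τ : ℝ} (hθ : 0 < Real.cos θ) (hτ : 0 < τ) {f : E N → ℂ} (hf : Continuous f)
    {B : ℝ} (hB : ∀ y, ‖f y‖ ≤ B) (x : E N) :
    Integrable (fun y => K N ((τ : ℂ) * eth θ) (x - y) * f y) := by
  have h1 : Integrable (fun y => K N ((τ : ℂ) * eth θ) (x - y)) :=
    (K_integrable (N := N) hθ hτ).comp_sub_left x
  refine Integrable.mono' (h1.norm.mul_const B)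
    (h1.aestronglyMeasurable.mul hf.aestronglyMeasurable) ?_
  refine Filter.Eventually.of_forall fun y => ?_
  rw [norm_mul]
  exact mul_le_mul_of_nonneg_left (hB y) (norm_nonneg _)

/-- the space integral depends Lipschitz continuously on the function -/
theorem P2c_diff {τ C : ℝ} (hθ : 0 < Real.cos θ) (hτ : 0 < τ)
    (hC : ∫ x : E N, ‖K N ((τ : ℂ) * eth θ) x‖ ≤ C) {f g : E N → ℂ}
    (hf : Continuous f) (hg : Continuous g) {B D : ℝ} (hBf : ∀ y, ‖f y‖ ≤ B)
    (hBg : ∀ y, ‖g y‖ ≤ B) (hD0 : 0 ≤ D) (hD : ∀ y, ‖f y - g y‖ ≤ D) (x : E N) :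
    ‖(∫ y, K N ((τ : ℂ) * eth θ) (x - y) * f y) - ∫ y, K N ((τ : ℂ) * eth θ) (x - y) * g y‖ ≤
      C * D := by
  rw [← integral_sub (P2c_int hθ hτ hf hBf x) (P2c_int hθ hτ hg hBg x)]
  have h1 : Integrable (fun y => K N ((τ : ℂ) * eth θ) (x - y)) :=
    (K_integrable (N := N) hθ hτ).comp_sub_left x
  have h2 : ‖∫ y, (K N ((τ : ℂ) * eth θ) (x - y) * f y - K N ((τ : ℂ) * eth θ) (x - y) * g y)‖ ≤
      ∫ y, ‖K N ((τ : ℂ) * eth θ) (x - y)‖ * D := by
    refine norm_integral_le_of_norm_le (h1.norm.mul_const D) ?_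
    refine Filter.Eventually.of_forall fun y => ?_
    rw [← mul_sub, norm_mul]
    exact mul_le_mul_of_nonneg_left (hD y) (norm_nonneg _)
  refine h2.trans ?_
  rw [integral_mul_const]
  refine mul_le_mul_of_nonneg_right ?_ hD0
  rw [integral_sub_left_eq_self (fun y : E N => ‖K N ((τ : ℂ) * eth θ) y‖) volume x]
  exact hC

/-- **Uniqueness.**

Proof.  `t = 0`: both are `u0`; if `T ≤ 0` we are done.  Let `C` be the constant of `K_l1` on
`(0,T]`, `B` a common bound of `‖u t‖`, `‖w t‖`, `A` the constant of `FF_lip`, `λ = 2CA`,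
`S = sup {exp(-λt) ‖u t x - w t x‖ : t ∈ [0,T], x}` (finite, `≤ 2B`).  Subtract the two integral
equations (`K_time` for the integrability in time, needs `IsMild.joint`; for fixed `s < t` the
function `y ↦ K(x-y) FF(u s y)` is integrable: `K_integrable` times bounded):
`‖u t x - w t x‖ ≤ ∫_0^t C A sup_y ‖u s y - w s y‖ ds ≤ C A S ∫_0^t exp(λ s) ds ≤ (S/2) exp(λ t)`.
So `S ≤ S/2`, `S = 0`. -/
theorem IsMild.unique (hα : 0 < α) (hθ : 0 < Real.cos θ) (hu : IsMild N α θ γ T u0 u)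
    {w : ℝ → C₀(E N, ℂ)} (hw : IsMild N α θ γ T u0 w) : ∀ t ∈ Icc 0 T, u t = w t := by
  rcases le_or_gt T 0 with hT | hT
  · intro t ht
    have h0 : t = 0 := le_antisymm (ht.2.trans hT) ht.1
    rw [h0, hu.init, hw.init]
  obtain ⟨C, hC0, hC⟩ := K_l1 (N := N) hθ hT
  obtain ⟨B₁, hB₁0, hB₁⟩ := hu.bdd
  obtain ⟨B₂, hB₂0, hB₂⟩ := hw.bdd
  set B := max B₁ B₂ with hB
  obtain ⟨L, hL0, hL⟩ := FF_lip hα θ γ B
  have hux : ∀ s ∈ Icc 0 T, ∀ y, ‖u s y‖ ≤ B := fun s hs y =>
    ((u s).toBCF.norm_coe_le_norm y).trans ((hB₁ s hs).trans (le_max_left _ _))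
  have hwx : ∀ s ∈ Icc 0 T, ∀ y, ‖w s y‖ ≤ B := fun s hs y =>
    ((w s).toBCF.norm_coe_le_norm y).trans ((hB₂ s hs).trans (le_max_right _ _))
  have hB0 : 0 ≤ B := hB₁0.le.trans (le_max_left _ _)
  have hFb : ∀ z : ℂ, ‖z‖ ≤ B → ‖FF α θ γ z‖ ≤ L * B := by
    intro z hz
    have h1 := hL z 0 hz (by rwa [norm_zero])
    rw [P2c_zero, sub_zero, sub_zero] at h1
    exact h1.trans (mul_le_mul_of_nonneg_left hz hL0.le)
  set lam := 2 * (C * L) with hlam
  have hlam0 : 0 < lam := by positivity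
  -- the maximum of the weighted difference
  have hcont : ContinuousOn (fun t => Real.exp (-(lam * t)) * ‖u t - w t‖) (Icc 0 T) :=
    ContinuousOn.mul (by fun_prop) ((hu.cont.sub hw.cont).norm)
  obtain ⟨t₀, ht₀, hmax⟩ := isCompact_Icc.exists_isMaxOn ⟨0, left_mem_Icc.2 hT.le⟩ hcont
  set S := Real.exp (-(lam * t₀)) * ‖u t₀ - w t₀‖ with hS
  have hS0 : 0 ≤ S := by positivity
  have hle : ∀ s ∈ Icc 0 T, ‖u s - w s‖ ≤ S * Real.exp (lam * s) := by
    intro s hs
    have h1 : Real.exp (-(lam * s)) * ‖u s - w s‖ ≤ S := hmax hs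
    have h2 : ‖u s - w s‖ = (Real.exp (-(lam * s)) * ‖u s - w s‖) * Real.exp (lam * s) := by
      rw [mul_comm (Real.exp (-(lam * s))), mul_assoc, ← Real.exp_add]
      simp
    rw [h2]
    exact mul_le_mul_of_nonneg_right h1 (Real.exp_pos _).le
  have hSle : S ≤ 0 := by
    rcases eq_or_lt_of_le ht₀.1 with h0 | h0
    · rw [hS, ← h0, hu.init, hw.init, sub_self, norm_zero, mul_zero]
    have htm : t₀ ∈ Ioc 0 T := ⟨h0, ht₀.2⟩
    have hFc := P2c_cont hα θ γ
    have hIu : ∀ x, IntervalIntegrable (fun s => ∫ y, K N (((t₀ - s : ℝ) : ℂ) * eth θ) (x - y) *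
        FF α θ γ (u s y)) volume 0 t₀ := fun x =>
      K_time (N := N) (B := L * B) hθ (F := fun s y => FF α θ γ (u s y))
        (hFc.comp_continuousOn hu.joint) (fun s hs y => hFb _ (hux s hs y)) htm x
    have hIw : ∀ x, IntervalIntegrable (fun s => ∫ y, K N (((t₀ - s : ℝ) : ℂ) * eth θ) (x - y) *
        FF α θ γ (w s y)) volume 0 t₀ := fun x =>
      K_time (N := N) (B := L * B) hθ (F := fun s y => FF α θ γ (w s y))
        (hFc.comp_continuousOn hw.joint) (fun s hs y => hFb _ (hwx s hs y)) htm x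
    have hpt : ∀ x, ‖(u t₀ - w t₀) x‖ ≤ S / 2 * Real.exp (lam * t₀) := by
      intro x
      have h1 : (u t₀ - w t₀) x = ∫ s in (0 : ℝ)..t₀,
          ((∫ y, K N (((t₀ - s : ℝ) : ℂ) * eth θ) (x - y) * FF α θ γ (u s y)) -
            ∫ y, K N (((t₀ - s : ℝ) : ℂ) * eth θ) (x - y) * FF α θ γ (w s y)) := by
        rw [intervalIntegral.integral_sub (hIu x) (hIw x)]
        show u t₀ x - w t₀ x = _
        rw [hu.eq t₀ htm x, hw.eq t₀ htm x]
        ring
      have hgi : IntervalIntegrable (fun s => C * (L * (S * Real.exp (lam * s)))) volume 0 t₀ :=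
        Continuous.intervalIntegrable (by fun_prop) _ _
      have h2 : ‖(u t₀ - w t₀) x‖ ≤ ∫ s in (0 : ℝ)..t₀, C * (L * (S * Real.exp (lam * s))) := by
        rw [h1]
        refine intervalIntegral.norm_integral_le_of_norm_le h0.le ?_ hgi
        have hae : ∀ᵐ s : ℝ, s ≠ t₀ := by
          have h3 : ({t₀}ᶜ : Set ℝ) ∈ ae volume := compl_mem_ae_iff.2 (measure_singleton t₀)
          exact h3
        filter_upwards [hae] with s hs hsI
        have hst : s < t₀ := lt_of_le_of_ne hsI.2 hs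
        have hsT : s ∈ Icc 0 T := ⟨hsI.1.le, hsI.2.trans ht₀.2⟩
        have hτ : 0 < t₀ - s := by linarith
        have hτT : t₀ - s ∈ Ioc 0 T := ⟨hτ, by linarith [hsI.1, ht₀.2]⟩
        refine P2c_diff hθ hτ (hC _ hτT) (B := L * B) (hFc.comp (u s).continuous)
          (hFc.comp (w s).continuous) (fun y => hFb _ (hux s hsT y))
          (fun y => hFb _ (hwx s hsT y)) (by positivity) (fun y => ?_) x
        refine (hL _ _ (hux s hsT y) (hwx s hsT y)).trans
          (mul_le_mul_of_nonneg_left ?_ hL0.le)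
        exact ((u s - w s).toBCF.norm_coe_le_norm y).trans (hle s hsT)
      have h3 : ∫ s in (0 : ℝ)..t₀, C * (L * (S * Real.exp (lam * s))) =
          S / 2 * (Real.exp (lam * t₀) - 1) := by
        have h4 : (fun s : ℝ => C * (L * (S * Real.exp (lam * s)))) =
            fun s => (C * L * S) * Real.exp (lam * s) := by
          funext s
          ring
        rw [h4, intervalIntegral.integral_const_mul, intervalIntegral.integral_comp_mul_left
          (fun s => Real.exp s) hlam0.ne', integral_exp]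
        simp only [mul_zero, Real.exp_zero, smul_eq_mul]
        rw [hlam]
        field_simp
      rw [h3] at h2
      refine h2.trans ?_
      nlinarith [Real.exp_pos (lam * t₀)]
    have hnorm : ‖u t₀ - w t₀‖ ≤ S / 2 * Real.exp (lam * t₀) := by
      have h1 : ‖(u t₀ - w t₀).toBCF‖ ≤ S / 2 * Real.exp (lam * t₀) :=
        (BoundedContinuousFunction.norm_le (by positivity)).2 hpt
      exact h1
    have h5 : S ≤ S / 2 := by
      calc S = Real.exp (-(lam * t₀)) * ‖u t₀ - w t₀‖ := hS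
        _ ≤ Real.exp (-(lam * t₀)) * (S / 2 * Real.exp (lam * t₀)) :=
          mul_le_mul_of_nonneg_left hnorm (Real.exp_pos _).le
        _ = S / 2 * (Real.exp (-(lam * t₀)) * Real.exp (lam * t₀)) := by ring
        _ = S / 2 := by
          rw [← Real.exp_add]
          simp
    linarith
  intro t ht
  have h1 := hle t ht
  have h2 : ‖u t - w t‖ ≤ 0 := by
    refine h1.trans ?_
    have hSeq : S = 0 := le_antisymm hSle hS0
    rw [hSeq, zero_mul]
  exact sub_eq_zero.1 (norm_le_zero_iff.1 h2)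

end CGL
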