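import Pool.Agent.W_317df6_h83.P2b
import Pool.Agent.W_317df6_h83.P2c

/-!
# Radial symmetry of mild solutions (task P2)
-/

set_option autoImplicit false

namespace CGL

open MeasureTheory Set
open scoped ZeroAtInfty

variable {N : ℕ} {α θ γ T : ℝ} {u0 : C₀(E N, ℂ)} {u : ℝ → C₀(E N, ℂ)}

theorem P2_exists {x y : E N} (h : ‖x‖ = ‖y‖) : ∃ Q : E N ≃ₗᵢ[ℝ] E N, Q x = y :=
  ⟨(Submodule.span ℝ {x - y})ᗮ.reflection, Submodule.reflection_sub h⟩

theorem P2_cv (Q : E N ≃ₗᵢ[ℝ] E N) (f : E N → ℂ) : ∫ y, f (Q y) = ∫ y, f y :=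
  Q.measurePreserving.integral_comp Q.toHomeomorph.measurableEmbedding f

/-- composition with an isometry -/
noncomputable def P2_cp (Q : E N ≃ₗᵢ[ℝ] E N) (f : C₀(E N, ℂ)) : C₀(E N, ℂ) :=
  f.comp Q.toHomeomorph.toCocompactMap

theorem P2_cp_apply (Q : E N ≃ₗᵢ[ℝ] E N) (f : C₀(E N, ℂ)) (x : E N) : P2_cp Q f x = f (Q x) :=
  rfl

theorem P2_cp_dist (Q : E N ≃ₗᵢ[ℝ] E N) (f g : C₀(E N, ℂ)) :
    dist (P2_cp Q f) (P2_cp Q g) ≤ dist f g := by
  rw [← ZeroAtInftyContinuousMap.dist_toBCF_eq_dist, BoundedContinuousFunction.dist_le dist_nonneg]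
  intro x
  have h := BoundedContinuousFunction.dist_coe_le_dist (f := f.toBCF) (g := g.toBCF) (Q x)
  rw [ZeroAtInftyContinuousMap.dist_toBCF_eq_dist] at h
  exact h

theorem P2_cp_cont (Q : E N ≃ₗᵢ[ℝ] E N) : Continuous (P2_cp Q : C₀(E N, ℂ) → C₀(E N, ℂ)) := by
  refine (LipschitzWith.mk_one fun f g => ?_).continuous
  exact P2_cp_dist Q f g

/-- **Radial symmetry.**

Proof.  For `‖x‖ = ‖y‖` there is a linear isometry `Q : E N ≃ₗᵢ[ℝ] E N` with `Q x = y` (the
reflection in the hyperplane orthogonal to `x - y`, `reflection_sub`).  Put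
`w t = (u t) ∘ Q ∈ C_0` (`ZeroAtInftyContinuousMap.comp` with the cocompact map of the homeomorphism
`Q`, or a direct construction).  `w` is a mild solution with initial value `u0`: continuity in `t`
because `‖f ∘ Q - g ∘ Q‖ = ‖f - g‖`; `u0 ∘ Q = u0` by `h0`; the integral equation by the change of
variables `y ↦ Q y` (`LinearIsometryEquiv.measurePreserving`), `K(z, Qx - Qy) = K(z, x - y)`
(`K_radial`).  By `IsMild.unique`, `u t = w t`, i.e. `u t x = u t (Q x) = u t y`. -/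
theorem IsMild.radial (hα : 0 < α) (hθ : 0 < Real.cos θ) (hu : IsMild N α θ γ T u0 u)
    (h0 : ∀ x y : E N, ‖x‖ = ‖y‖ → u0 x = u0 y) :
    ∀ t ∈ Icc 0 T, ∀ x y : E N, ‖x‖ = ‖y‖ → u t x = u t y := by
  intro t ht x y hxy
  obtain ⟨Q, hQ⟩ := P2_exists hxy
  have hw : IsMild N α θ γ T u0 fun s => P2_cp Q (u s) := by
    refine ⟨(P2_cp_cont Q).comp_continuousOn hu.cont, ?_, ?_⟩
    · ext z
      rw [P2_cp_apply, hu.init]
      exact h0 _ _ (Q.norm_map z)
    · intro s hs z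
      have hK : ∀ (ζ : ℂ) (y' : E N), K N ζ (Q z - Q y') = K N ζ (z - y') := by
        intro ζ y'
        apply K_radial
        rw [← map_sub, Q.norm_map]
      rw [P2_cp_apply, hu.eq s hs (Q z)]
      congr 1
      · rw [← P2_cv Q]
        congr 1
        ext y'
        rw [hK, h0 _ _ (Q.norm_map y')]
      · congr 1
        ext r
        rw [← P2_cv Q]
        congr 1
        ext y'
        rw [hK]
        rfl
  have h1 := IsMild.unique hα hθ hu hw t ht
  have h2 : u t x = P2_cp Q (u t) x := by rw [← h1]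
  rw [h2, P2_cp_apply, hQ]

end CGL
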