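import Pool.Agent.W_317df6_h83.Basic

/-!
# Mollification: derivatives and decay (task P6b)
-/

set_option autoImplicit false

namespace CGL

open MeasureTheory Set
open scoped ContDiff Convolution
open scoped ZeroAtInfty

variable {N : ℕ}

/-- the bilinear map `(z, r) ↦ r • z` -/
private noncomputable def LL : ℂ →L[ℝ] ℝ →L[ℝ] ℂ := (ContinuousLinearMap.lsmul ℝ ℝ).flip

private theorem mol_eq (k : E N → ℝ) (f : E N → ℂ) :
    mol k f = (f ⋆[LL, volume] k) := by
  funext x
  unfold mol
  rw [convolution_def]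
  refine integral_congr_ae (Filter.Eventually.of_forall fun y => ?_)
  simp [LL]

/-- `∂_i (k * f) = (∂_i k) * f` for smooth `k` with compact support and continuous `f`
(`HasCompactSupport.hasFDerivAt_convolution_right`). -/
theorem mol_pd {k : E N → ℝ} (hk : ContDiff ℝ ∞ k) (hc : HasCompactSupport k) {f : E N → ℂ}
    (hf : Continuous f) (i : Fin N) (x : E N) : pd i (mol k f) x = mol (pd i k) f x := by
  have h1 := hc.hasFDerivAt_convolution_right LL (μ := volume) hf.locallyIntegrable
    (hk.of_le (by exact_mod_cast le_top)) x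
  unfold pd
  rw [mol_eq, h1.fderiv]
  rw [convolution_precompR_apply LL hf.locallyIntegrable (hc.fderiv ℝ)
    (hk.continuous_fderiv (by simp))]
  rw [convolution_def]
  unfold mol
  refine integral_congr_ae (Filter.Eventually.of_forall fun y => ?_)
  simp [LL]

/-- `mol k f` is the convolution `f ⋆ k`: `HasCompactSupport.contDiff_convolution_right`. -/
theorem mol_contDiff {k : E N → ℝ} (hk : ContDiff ℝ ∞ k) (hc : HasCompactSupport k)
    {f : E N → ℂ} (hf : Continuous f) : ContDiff ℝ ∞ (mol k f) := by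
  rw [mol_eq]
  exact hc.contDiff_convolution_right LL (n := ⊤) hf.locallyIntegrable hk

theorem pd_smooth {k : E N → ℝ} (hk : ContDiff ℝ ∞ k) (i : Fin N) : ContDiff ℝ ∞ (pd i k) := by
  unfold pd
  exact (hk.fderiv_right (m := ∞) (by simp)).clm_apply contDiff_const

theorem pd_compact {k : E N → ℝ} (hc : HasCompactSupport k) (i : Fin N) :
    HasCompactSupport (pd i k) := by
  exact (hc.fderiv ℝ).comp_left (g := fun L : E N →L[ℝ] ℝ => L (EuclideanSpace.single i 1)) (by simp)

/-- uniform exponential decay of convolutions: if `k(y) = 0` for `‖y‖ > r`,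
`C' = |C| exp(r) ∫|k|` (`exp(-‖y‖) ≤ exp(r) exp(-‖x‖)` for `‖x-y‖ ≤ r`). -/
theorem mol_env {k : E N → ℝ} (hk : Continuous k) (hc : HasCompactSupport k) (C : ℝ) :
    ∃ C' : ℝ, ∀ f : E N → ℂ, Continuous f → (∀ x, ‖f x‖ ≤ C * Real.exp (-‖x‖)) →
      ∀ x, ‖mol k f x‖ ≤ C' * Real.exp (-‖x‖) := by
  obtain ⟨r, hr⟩ := hc.isCompact.isBounded.exists_norm_le
  refine ⟨|C| * Real.exp r * ∫ y, |k y|, fun f hf hb x => ?_⟩
  have hki : Integrable k := hk.integrable_of_hasCompactSupport hc
  have hki2 : Integrable (fun y => |k (x - y)|) := (hki.comp_sub_left x).abs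
  have h0 : ∀ y, ‖((k (x - y) : ℝ) : ℂ) * f y‖ ≤
      |C| * Real.exp r * Real.exp (-‖x‖) * |k (x - y)| := by
    intro y
    rw [norm_mul, Complex.norm_real, Real.norm_eq_abs]
    by_cases hy : k (x - y) = 0
    · simp [hy]
    · have h1 : ‖x - y‖ ≤ r := hr _ (subset_tsupport _ hy)
      have h2 : ‖x‖ ≤ r + ‖y‖ := by
        calc ‖x‖ = ‖(x - y) + y‖ := by simp
          _ ≤ ‖x - y‖ + ‖y‖ := norm_add_le _ _
          _ ≤ r + ‖y‖ := by linarith
      have h3 : ‖f y‖ ≤ |C| * (Real.exp r * Real.exp (-‖x‖)) := by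
        refine (hb y).trans ?_
        refine (mul_le_mul_of_nonneg_right (le_abs_self C) (Real.exp_nonneg _)).trans ?_
        refine mul_le_mul_of_nonneg_left ?_ (abs_nonneg C)
        rw [← Real.exp_add]
        exact Real.exp_le_exp.mpr (by linarith)
      calc |k (x - y)| * ‖f y‖ ≤ |k (x - y)| * (|C| * (Real.exp r * Real.exp (-‖x‖))) :=
            mul_le_mul_of_nonneg_left h3 (abs_nonneg _)
        _ = |C| * Real.exp r * Real.exp (-‖x‖) * |k (x - y)| := by ring
  have h4 : ∫ y, |k (x - y)| = ∫ y, |k y| :=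
    integral_sub_left_eq_self (fun y => |k y|) volume x
  calc ‖mol k f x‖ ≤ ∫ y, |C| * Real.exp r * Real.exp (-‖x‖) * |k (x - y)| :=
        norm_integral_le_of_norm_le (hki2.const_mul _) (Filter.Eventually.of_forall h0)
    _ = |C| * Real.exp r * Real.exp (-‖x‖) * ∫ y, |k y| := by
        rw [integral_const_mul, h4]
    _ = |C| * Real.exp r * (∫ y, |k y|) * Real.exp (-‖x‖) := by ring

theorem mol_lap {k : E N → ℝ} (hk : ContDiff ℝ ∞ k) (hc : HasCompactSupport k) {f : E N → ℂ}
    (hf : Continuous f) (x : E N) : lap (mol k f) x = mol (lap k) f x := by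
  have h1 : ∀ i, pd i (pd i (mol k f)) x = mol (pd i (pd i k)) f x := by
    intro i
    have : pd i (mol k f) = mol (pd i k) f := funext fun y => mol_pd hk hc hf i y
    rw [this]
    exact mol_pd (pd_smooth hk i) (pd_compact hc i) hf i x
  unfold lap
  rw [Finset.sum_congr rfl fun i _ => h1 i]
  unfold mol
  rw [← integral_finsetSum]
  · refine integral_congr_ae (Filter.Eventually.of_forall fun y => ?_)
    simp [Finset.sum_mul]
  · intro i _
    have hs := pd_smooth (pd_smooth hk i) i
    have hcc := pd_compact (pd_compact hc i) i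
    refine Continuous.integrable_of_hasCompactSupport ?_ ?_
    · exact (Complex.continuous_ofReal.comp (hs.continuous.comp (continuous_const.sub continuous_id))).mul hf
    · have h2 : HasCompactSupport (fun y => ((pd i (pd i k) (x - y) : ℝ) : ℂ)) := by
        have h3 : HasCompactSupport (fun y => pd i (pd i k) (x - y)) :=
          hcc.comp_homeomorph (Homeomorph.subLeft x)
        exact h3.comp_left (g := fun r : ℝ => (r : ℂ)) (by simp)
      exact h2.mul_right

end CGL
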