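import Pool.Agent.W_317df6_h83.Basic

/-!
# Integrals depending on time (task T0)
-/

set_option autoImplicit false

namespace CGL

open MeasureTheory Set

variable {N : ℕ} {F : Type} [NormedAddCommGroup F] [NormedSpace ℝ F] [CompleteSpace F]

/-- dominated convergence (`continuousOn_of_dominated`), bound `C * exp(-‖x‖)`, `integrable_exp`. -/
theorem cont_int {T : ℝ} {f : ℝ → E N → F}
    (henv : ∃ C : ℝ, ∀ t ∈ Icc 0 T, ∀ x, ‖f t x‖ ≤ C * Real.exp (-‖x‖))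
    (hm : ∀ t ∈ Icc 0 T, Continuous (f t)) (hc : ∀ x, ContinuousOn (fun t => f t x) (Icc 0 T)) :
    ContinuousOn (fun t => ∫ x, f t x) (Icc 0 T) := by
  obtain ⟨C, hC⟩ := henv
  exact continuousOn_of_dominated (bound := fun x => C * Real.exp (-‖x‖))
    (fun t ht => (hm t ht).aestronglyMeasurable)
    (fun t ht => Filter.Eventually.of_forall (fun x => hC t ht x))
    ((integrable_exp N).const_mul C) (Filter.Eventually.of_forall hc)

/-- `hasDerivAt_integral_of_dominated_loc_of_deriv_le` on a small ball `⊆ Ioo 0 T` around `t`. -/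
theorem deriv_int {T : ℝ} {f f' : ℝ → E N → F}
    (henv : ∃ C : ℝ, ∀ t ∈ Icc 0 T, ∀ x, ‖f t x‖ ≤ C * Real.exp (-‖x‖))
    (henv' : ∃ C : ℝ, ∀ t ∈ Icc 0 T, ∀ x, ‖f' t x‖ ≤ C * Real.exp (-‖x‖))
    (hm : ∀ t ∈ Icc 0 T, Continuous (f t)) (hm' : ∀ t ∈ Icc 0 T, Continuous (f' t))
    (hd : ∀ t ∈ Ioo 0 T, ∀ x, HasDerivAt (fun τ => f τ x) (f' t x) t) {t : ℝ}
    (ht : t ∈ Ioo 0 T) : HasDerivAt (fun τ => ∫ x, f τ x) (∫ x, f' t x) t := by
  obtain ⟨C, hC⟩ := henv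
  obtain ⟨C', hC'⟩ := henv'
  have hs : Ioo 0 T ∈ nhds t := isOpen_Ioo.mem_nhds ht
  have hI := Ioo_subset_Icc_self (a := (0 : ℝ)) (b := T)
  refine (hasDerivAt_integral_of_dominated_loc_of_deriv_le
    (bound := fun x => C' * Real.exp (-‖x‖)) hs ?_ ?_ ?_ ?_ ?_ ?_).2
  · filter_upwards [hs] with τ hτ
    exact (hm τ (hI hτ)).aestronglyMeasurable
  · exact Integrable.mono' ((integrable_exp N).const_mul C) (hm t (hI ht)).aestronglyMeasurable
      (Filter.Eventually.of_forall (fun x => hC t (hI ht) x))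
  · exact (hm' t (hI ht)).aestronglyMeasurable
  · exact Filter.Eventually.of_forall (fun x τ hτ => hC' τ (hI hτ) x)
  · exact (integrable_exp N).const_mul C'
  · exact Filter.Eventually.of_forall (fun x τ hτ => hd τ hτ x)

theorem Fam.dec {T : ℝ} {v a : ℝ → E N → ℂ} (h : Fam N T v a) {t : ℝ} (ht : t ∈ Icc 0 T) :
    Dec (v t) := by
  obtain ⟨C, hC⟩ := h.env
  exact ⟨h.smv t ht, ⟨C, fun x => (hC t ht x).1⟩, fun i => ⟨C, fun x => (hC t ht x).2.1 i⟩,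
    fun i j => ⟨C, fun x => (hC t ht x).2.2.1 i j⟩⟩

theorem Fam.adec {T : ℝ} {v a : ℝ → E N → ℂ} (h : Fam N T v a) {t : ℝ} (ht : t ∈ Icc 0 T) :
    ExpDec (a t) := by
  obtain ⟨C, hC⟩ := h.env
  exact ⟨C, fun x => (hC t ht x).2.2.2.1⟩

theorem Fam.adec1 {T : ℝ} {v a : ℝ → E N → ℂ} (h : Fam N T v a) {t : ℝ} (ht : t ∈ Icc 0 T)
    (i : Fin N) : ExpDec (pd i (a t)) := by
  obtain ⟨C, hC⟩ := h.env
  exact ⟨C, fun x => (hC t ht x).2.2.2.2 i⟩

end CGL
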