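import Pool.Agent.W_317df6_h83.P5
import Pool.Agent.W_317df6_h83.P6b
import Pool.Agent.W_317df6_h83.T0

/-!
# Mollification: time derivative (task P6c)
-/

set_option autoImplicit false

namespace CGL

open MeasureTheory Set
open scoped ContDiff
open scoped ZeroAtInfty

variable {N : ℕ} {α θ γ T : ℝ} {u0 : C₀(E N, ℂ)} {u : ℝ → C₀(E N, ℂ)}

/-- `cont_int` / dominated convergence. -/
theorem P6c_cont {k : E N → ℝ} (hk : Continuous k) (hc : HasCompactSupport k) (x : E N)
    {F : ℝ → E N → ℂ}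
    (hF : ContinuousOn (fun p : ℝ × E N => F p.1 p.2) (Icc 0 T ×ˢ univ))
    (hB : ∃ C : ℝ, ∀ s ∈ Icc 0 T, ∀ y, ‖F s y‖ ≤ C * Real.exp (-‖y‖)) :
    ContinuousOn (fun τ => mol k (F τ) x) (Icc 0 T) := by
  have h1 : Continuous (fun y => ((k (x - y) : ℝ) : ℂ)) :=
    Complex.continuous_ofReal.comp (hk.comp (continuous_const.sub continuous_id))
  obtain ⟨C, hC⟩ := hc.exists_bound_of_continuous hk
  refine P5_cont_pair hF hB h1 ⟨C, fun y => ?_⟩
  rw [Complex.norm_real]
  exact hC _

theorem P6c_pd {k : E N → ℝ} (hk : Differentiable ℝ k) (x : E N) (i : Fin N) (y : E N) :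
    pd i (fun y => ((k (x - y) : ℝ) : ℂ)) y = -((pd i k (x - y) : ℝ) : ℂ) := by
  have h0 : HasFDerivAt (fun y : E N => x - y) (-(ContinuousLinearMap.id ℝ (E N))) y := by
    simpa using (hasFDerivAt_id y).const_sub x
  have h1 : HasFDerivAt (fun y => k (x - y))
      ((fderiv ℝ k (x - y)).comp (-(ContinuousLinearMap.id ℝ (E N)))) y :=
    (hk (x - y)).hasFDerivAt.comp y h0
  have h2 : HasFDerivAt (fun y => ((k (x - y) : ℝ) : ℂ)) (Complex.ofRealCLM.comp
      ((fderiv ℝ k (x - y)).comp (-(ContinuousLinearMap.id ℝ (E N))))) y :=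
    Complex.ofRealCLM.hasFDerivAt.comp y h1
  unfold pd
  rw [h2.fderiv]
  simp

theorem P6c_lap {k : E N → ℝ} (hk : ContDiff ℝ ∞ k) (x : E N) (y : E N) :
    lap (fun y => ((k (x - y) : ℝ) : ℂ)) y = ((lap k (x - y) : ℝ) : ℂ) := by
  unfold lap
  rw [Complex.ofReal_sum]
  refine Finset.sum_congr rfl fun i _ => ?_
  have h1 : pd i (fun y => ((k (x - y) : ℝ) : ℂ)) = fun y => -((pd i k (x - y) : ℝ) : ℂ) :=
    funext fun z => P6c_pd (hk.differentiable (by simp)) x i z
  have h2 : pd i (fun y => -((pd i k (x - y) : ℝ) : ℂ)) y =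
      - pd i (fun y => ((pd i k (x - y) : ℝ) : ℂ)) y := by
    unfold pd
    rw [fderiv_fun_neg]
    rfl
  rw [h1, h2, P6c_pd ((pd_smooth hk i).differentiable (by simp)) x i y, neg_neg]

/-- Time derivative of `k * u(t)`: apply `weak` with `ψ(y) = k(x-y)` (smooth, compact support,
`lap ψ y = (lap k)(x-y)`): for `τ ∈ [0,T]`
`mol k (u τ) x = mol k u0 x + ∫_0^τ (eth θ * mol (lap k) (u s) x + mol k (FF(u s)) x) ds`.  The
integrand is continuous in `s ∈ [0,T]` (`cont_int`, or dominated convergence); fundamental theorem of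
calculus (`intervalIntegral.integral_hasDerivAt_right`). -/
theorem mol_deriv (hα : 0 < α) (hθ : 0 < Real.cos θ) (hu : IsMild N α θ γ T u0 u)
    (hdec : ∃ C : ℝ, ∀ t ∈ Icc 0 T, ∀ x, ‖u t x‖ ≤ C * Real.exp (-‖x‖)) {k : E N → ℝ}
    (hk : ContDiff ℝ ∞ k) (hc : HasCompactSupport k) {t : ℝ} (ht : t ∈ Ioo 0 T) (x : E N) :
    HasDerivAt (fun τ => mol k (u τ) x)
      (eth θ * mol (lap k) (u t) x + mol k (fun y => FF α θ γ (u t y)) x) t := by
  have hlk : Continuous (lap k) := by
    unfold lap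
    exact continuous_finsetSum _ fun i _ => (pd_smooth (pd_smooth hk i) i).continuous
  have hlc : HasCompactSupport (lap k) := by
    classical
    have h1 : ∀ s : Finset (Fin N), HasCompactSupport (fun x => ∑ i ∈ s, pd i (pd i k) x) := by
      intro s
      induction s using Finset.induction_on with
      | empty =>
        simp only [Finset.sum_empty]
        exact HasCompactSupport.zero
      | insert a s ha ih =>
        simp only [Finset.sum_insert ha]
        exact (pd_compact (pd_compact hc a) a).add ih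
    exact h1 Finset.univ
  have hj := hu.joint
  have hFd := P5_FF_dec hα hu hdec
  have hF : ContinuousOn (fun p : ℝ × E N => FF α θ γ (u p.1 p.2)) (Icc 0 T ×ˢ univ) :=
    (P5_FF_cont hα θ γ).comp_continuousOn hj
  have hc1 : ContinuousOn (fun s => mol (lap k) (u s) x) (Icc 0 T) :=
    P6c_cont hlk hlc x (F := fun s y => u s y) hj hdec
  have hc2 : ContinuousOn (fun s => mol k (fun y => FF α θ γ (u s y)) x) (Icc 0 T) :=
    P6c_cont hk.continuous hc x (F := fun s y => FF α θ γ (u s y)) hF hFd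
  obtain ⟨g, hg⟩ : ∃ g : ℝ → ℂ, g = fun s => eth θ * mol (lap k) (u s) x
      + mol k (fun y => FF α θ γ (u s y)) x := ⟨_, rfl⟩
  have hgc : ContinuousOn g (Icc 0 T) := by
    rw [hg]
    exact (continuousOn_const.mul hc1).add hc2
  have hψ : ContDiff ℝ ∞ (fun y => ((k (x - y) : ℝ) : ℂ)) :=
    Complex.ofRealCLM.contDiff.comp (hk.comp (contDiff_const.sub contDiff_id))
  have hψc : HasCompactSupport (fun y => ((k (x - y) : ℝ) : ℂ)) := by
    have h3 : HasCompactSupport (fun y => k (x - y)) :=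
      hc.comp_homeomorph (Homeomorph.subLeft x)
    exact h3.comp_left (g := fun r : ℝ => (r : ℂ)) (by simp)
  have hw : ∀ τ ∈ Icc 0 T, mol k (u τ) x = mol k u0 x + ∫ s in (0:ℝ)..τ, g s := by
    intro τ hτ
    have h1 := weak hα hθ hu hdec hψ hψc hτ
    rw [hg]
    unfold mol
    rw [h1]
    congr 1
    refine intervalIntegral.integral_congr fun s _ => ?_
    simp only [P6c_lap hk]
  have hT : 0 ≤ T := ht.1.le.trans ht.2.le
  have hint : IntervalIntegrable g volume 0 t := by
    refine ContinuousOn.intervalIntegrable (hgc.mono ?_)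
    rw [uIcc_of_le ht.1.le]
    exact Icc_subset_Icc_right ht.2.le
  have hd : HasDerivAt (fun τ => ∫ s in (0:ℝ)..τ, g s) (g t) t := by
    refine intervalIntegral.integral_hasDerivAt_right hint ?_ ?_
    · exact ContinuousOn.stronglyMeasurableAtFilter isOpen_Ioo
        (hgc.mono Ioo_subset_Icc_self) t ht
    · exact hgc.continuousAt (Icc_mem_nhds ht.1 ht.2)
  have hd2 := hd.const_add (mol k u0 x)
  have hgt : g t = eth θ * mol (lap k) (u t) x + mol k (fun y => FF α θ γ (u t y)) x := by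
    rw [hg]
  rw [hgt] at hd2
  refine hd2.congr_of_eventuallyEq ?_
  filter_upwards [Icc_mem_nhds ht.1 ht.2] with τ hτ
  exact hw τ hτ

/-- `cont_int` / dominated convergence. -/
theorem mol_cont (hu : IsMild N α θ γ T u0 u)
    (hdec : ∃ C : ℝ, ∀ t ∈ Icc 0 T, ∀ x, ‖u t x‖ ≤ C * Real.exp (-‖x‖)) {k : E N → ℝ}
    (hk : Continuous k) (hc : HasCompactSupport k) (x : E N) :
    ContinuousOn (fun τ => mol k (u τ) x) (Icc 0 T) :=
  P6c_cont hk hc x (F := fun s y => u s y) hu.joint hdec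

end CGL
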