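import Pool.Agent.W_317df6_h83.P6c

/-!
# The mollified solution (task P6d)
-/

set_option autoImplicit false

namespace CGL

open MeasureTheory Set
open scoped ContDiff
open scoped ZeroAtInfty

variable {N : ℕ} {α θ γ T : ℝ} {u0 : C₀(E N, ℂ)} {u : ℝ → C₀(E N, ℂ)}

theorem P6d_two {F : Type} [NormedAddCommGroup F] [NormedSpace ℝ F] {k : E N → F}
    (hk : ContDiff ℝ ∞ k) : ContDiff ℝ 2 k := by
  exact_mod_cast contDiff_infty.1 hk 2

theorem P6d_lap_smooth {k : E N → ℝ} (hk : ContDiff ℝ ∞ k) : ContDiff ℝ ∞ (lap k) := by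
  unfold lap
  exact ContDiff.sum fun i _ => pd_smooth (pd_smooth hk i) i

theorem P6d_lap_compact {k : E N → ℝ} (hc : HasCompactSupport k) : HasCompactSupport (lap k) := by
  classical
  have h1 : ∀ s : Finset (Fin N), HasCompactSupport (fun x => ∑ i ∈ s, pd i (pd i k) x) := by
    intro s
    induction s using Finset.induction_on with
    | empty =>
      simp only [Finset.sum_empty]
      exact HasCompactSupport.zero
    | insert a s ha ih =>
      simp only [Finset.sum_insert ha]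
      exact (pd_compact (pd_compact hc a) a).add ih
  exact h1 Finset.univ

theorem P6d_lap_pd {k : E N → ℝ} (hk : ContDiff ℝ ∞ k) (i : Fin N) :
    lap (pd i k) = pd i (lap k) := by
  funext x
  have h1 : ∀ j, pd j (pd i k) = pd i (pd j k) := fun j => by
    funext y
    exact pd_comm (P6d_two hk) j i y
  have h2 : pd i (lap k) x = ∑ j, pd i (pd j (pd j k)) x := by
    unfold lap
    refine pd_sum Finset.univ (fun j _ => ?_) i
    exact ((pd_smooth (pd_smooth hk j) j).differentiable (by simp)) x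
  rw [h2]
  unfold lap
  refine Finset.sum_congr rfl fun j _ => ?_
  rw [h1 j]
  exact pd_comm (P6d_two (pd_smooth hk j)) j i x

theorem P6d_all {ι : Type} [Finite ι] (f : ι → ℝ → E N → ℂ)
    (h : ∀ i, ∃ C : ℝ, ∀ t ∈ Icc 0 T, ∀ x, ‖f i t x‖ ≤ C * Real.exp (-‖x‖)) :
    ∃ C : ℝ, ∀ i, ∀ t ∈ Icc 0 T, ∀ x, ‖f i t x‖ ≤ C * Real.exp (-‖x‖) := by
  choose c hc using h
  obtain ⟨M, hM⟩ := (Set.finite_range c).bddAbove
  refine ⟨M, fun i t ht x => (hc i t ht x).trans ?_⟩
  exact mul_le_mul_of_nonneg_right (hM ⟨i, rfl⟩) (Real.exp_pos _).le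

/-- **The mollified solution.**

Proof.  `pd i (mol ρ f) = mol (pd i ρ) f`, `lap (mol ρ f) = mol (lap ρ) f` (`mol_pd`, `mol_lap`),
all kernels are smooth with compact support (`pd_smooth`, `pd_compact`).  Envelopes: `mol_env` with
`‖u t x‖ ≤ C exp(-‖x‖)` and `‖FF(u t x)‖ ≤ A ‖u t x‖` (`IsMild.bdd`, `FF_lip` with `w = 0`); finitely
many kernels, take the maximum of the constants.  Continuity in `t`: `mol_cont` for the kernels `ρ`,
`pd i ρ`, `pd i (pd j ρ)`; time derivatives: `mol_deriv` for the kernels `ρ`, `pd i ρ` (`lap (pd i ρ) =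
pd i (lap ρ)`, `pd_comm`). -/
theorem mild_fam (hα : 0 < α) (hθ : 0 < Real.cos θ) (hu : IsMild N α θ γ T u0 u)
    (hdec : ∃ C : ℝ, ∀ t ∈ Icc 0 T, ∀ x, ‖u t x‖ ≤ C * Real.exp (-‖x‖)) {ρ : E N → ℝ}
    (hρ : ContDiff ℝ ∞ ρ) (hc : HasCompactSupport ρ) :
    Fam N T (fun t => mol ρ (u t))
      (fun t x => eth θ * lap (mol ρ (u t)) x + mol ρ (fun y => FF α θ γ (u t y)) x) := by
  have hut : ∀ t, Continuous (u t) := fun t => (u t).continuous
  have hFt : ∀ t, Continuous (fun y => FF α θ γ (u t y)) := fun t =>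
    (P5_FF_cont hα θ γ).comp (hut t)
  have hL := P6d_lap_smooth hρ
  have hLc := P6d_lap_compact hc
  have hlap : ∀ t, lap (mol ρ (u t)) = mol (lap ρ) (u t) := fun t => by
    funext x
    exact mol_lap hρ hc (hut t) x
  have hpd : ∀ t i, pd i (mol ρ (u t)) = mol (pd i ρ) (u t) := fun t i => by
    funext x
    exact mol_pd hρ hc (hut t) i x
  have hpd2 : ∀ t i j, pd i (pd j (mol ρ (u t))) = mol (pd i (pd j ρ)) (u t) := fun t i j => by
    rw [hpd]
    funext x
    exact mol_pd (pd_smooth hρ j) (pd_compact hc j) (hut t) i x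
  have ha : ∀ t, (fun x => eth θ * lap (mol ρ (u t)) x + mol ρ (fun y => FF α θ γ (u t y)) x) =
      fun x => eth θ * mol (lap ρ) (u t) x + mol ρ (fun y => FF α θ γ (u t y)) x := fun t => by
    rw [hlap]
  have hpa : ∀ t i, pd i (fun x => eth θ * lap (mol ρ (u t)) x +
      mol ρ (fun y => FF α θ γ (u t y)) x) =
      fun x => eth θ * mol (lap (pd i ρ)) (u t) x +
        mol (pd i ρ) (fun y => FF α θ γ (u t y)) x := by
    intro t i
    rw [ha]
    funext x
    have d1 : DifferentiableAt ℝ (mol (lap ρ) (u t)) x :=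
      ((mol_contDiff hL hLc (hut t)).differentiable (by simp)) x
    have d2 : DifferentiableAt ℝ (mol ρ (fun y => FF α θ γ (u t y))) x :=
      ((mol_contDiff hρ hc (hFt t)).differentiable (by simp)) x
    rw [pd_add (f := fun y => eth θ * mol (lap ρ) (u t) y)
      (g := mol ρ (fun y => FF α θ γ (u t y))) (d1.const_mul _) d2,
      pd_mul (f := fun _ => eth θ) (g := mol (lap ρ) (u t)) (differentiableAt_const _) d1,
      mol_pd hL hLc (hut t), mol_pd hρ hc (hFt t), P6d_lap_pd hρ]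
    have : pd i (fun _ : E N => eth θ) x = 0 := by
      unfold pd
      simp
    rw [this, zero_mul, zero_add]
  -- envelopes
  obtain ⟨Cu, hCu⟩ := hdec
  have hdec' : ∃ C : ℝ, ∀ t ∈ Icc 0 T, ∀ x, ‖u t x‖ ≤ C * Real.exp (-‖x‖) := ⟨Cu, hCu⟩
  obtain ⟨CF, hCF⟩ := P5_FF_dec hα hu hdec'
  have envu : ∀ k : E N → ℝ, ContDiff ℝ ∞ k → HasCompactSupport k →
      ∃ C : ℝ, ∀ t ∈ Icc 0 T, ∀ x, ‖mol k (u t) x‖ ≤ C * Real.exp (-‖x‖) := by
    intro k hk hkc
    obtain ⟨C', h'⟩ := mol_env hk.continuous hkc Cu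
    exact ⟨C', fun t ht => h' (u t) (hut t) (hCu t ht)⟩
  have envF : ∀ k : E N → ℝ, ContDiff ℝ ∞ k → HasCompactSupport k →
      ∃ C : ℝ, ∀ t ∈ Icc 0 T, ∀ x, ‖mol k (fun y => FF α θ γ (u t y)) x‖ ≤
        C * Real.exp (-‖x‖) := by
    intro k hk hkc
    obtain ⟨C', h'⟩ := mol_env hk.continuous hkc CF
    exact ⟨C', fun t ht => h' _ (hFt t) (hCF t ht)⟩
  have enva : ∀ k k' : E N → ℝ, ContDiff ℝ ∞ k → HasCompactSupport k → ContDiff ℝ ∞ k' →
      HasCompactSupport k' → ∃ C : ℝ, ∀ t ∈ Icc 0 T, ∀ x,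
        ‖eth θ * mol k (u t) x + mol k' (fun y => FF α θ γ (u t y)) x‖ ≤
          C * Real.exp (-‖x‖) := by
    intro k k' hk hkc hk' hkc'
    obtain ⟨C1, h1⟩ := envu k hk hkc
    obtain ⟨C2, h2⟩ := envF k' hk' hkc'
    refine ⟨C1 + C2, fun t ht x => (norm_add_le _ _).trans ?_⟩
    rw [norm_mul, eth_norm, one_mul, add_mul]
    exact add_le_add (h1 t ht x) (h2 t ht x)
  refine ⟨fun t _ => ?_, fun t _ => ?_, ?_, fun x => ?_, fun i x => ?_, fun i j x => ?_,
    fun t ht x => ?_, fun t ht i x => ?_⟩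
  · exact P6d_two (mol_contDiff hρ hc (hut t))
  · rw [ha]
    exact ((contDiff_const.mul (mol_contDiff hL hLc (hut t))).add
      (mol_contDiff hρ hc (hFt t))).of_le (by exact_mod_cast le_top)
  · obtain ⟨c0, h0⟩ := envu ρ hρ hc
    obtain ⟨c1, h1⟩ := P6d_all (T := T) (fun (i : Fin N) t => mol (pd i ρ) (u t))
      (fun i => envu _ (pd_smooth hρ i) (pd_compact hc i))
    obtain ⟨c2, h2⟩ := P6d_all (T := T) (fun (i : Fin N × Fin N) t =>
      mol (pd i.1 (pd i.2 ρ)) (u t))
      (fun i => envu _ (pd_smooth (pd_smooth hρ i.2) i.1) (pd_compact (pd_compact hc i.2) i.1))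
    obtain ⟨c3, h3⟩ := enva (lap ρ) ρ hL hLc hρ hc
    obtain ⟨c4, h4⟩ := P6d_all (T := T) (fun (i : Fin N) t x => eth θ * mol (lap (pd i ρ)) (u t) x +
        mol (pd i ρ) (fun y => FF α θ γ (u t y)) x)
      (fun i => enva _ _ (P6d_lap_smooth (pd_smooth hρ i)) (P6d_lap_compact (pd_compact hc i))
        (pd_smooth hρ i) (pd_compact hc i))
    set C := max c0 (max c1 (max c2 (max c3 c4))) with hC
    have l0 : c0 ≤ C := le_max_left _ _
    have l1 : c1 ≤ C := (le_max_left _ _).trans (le_max_right _ _)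
    have l2 : c2 ≤ C := ((le_max_left _ _).trans (le_max_right _ _)).trans (le_max_right _ _)
    have l3 : c3 ≤ C := (((le_max_left _ _).trans (le_max_right _ _)).trans
      (le_max_right _ _)).trans (le_max_right _ _)
    have l4 : c4 ≤ C := (((le_max_right _ _).trans (le_max_right _ _)).trans
      (le_max_right _ _)).trans (le_max_right _ _)
    refine ⟨C, fun t ht x => ?_⟩
    have he : 0 ≤ Real.exp (-‖x‖) := (Real.exp_pos _).le
    refine ⟨(h0 t ht x).trans (mul_le_mul_of_nonneg_right l0 he), fun i => ?_, fun i j => ?_, ?_,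
      fun i => ?_⟩
    · simp only [hpd]
      exact (h1 i t ht x).trans (mul_le_mul_of_nonneg_right l1 he)
    · simp only [hpd2]
      exact (h2 (i, j) t ht x).trans (mul_le_mul_of_nonneg_right l2 he)
    · simp only [hlap]
      exact (h3 t ht x).trans (mul_le_mul_of_nonneg_right l3 he)
    · rw [hpa]
      exact (h4 i t ht x).trans (mul_le_mul_of_nonneg_right l4 he)
  · exact mol_cont hu hdec' hρ.continuous hc x
  · simp only [hpd]
    exact mol_cont hu hdec' (pd_smooth hρ i).continuous (pd_compact hc i) x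
  · simp only [hpd2]
    exact mol_cont hu hdec' (pd_smooth (pd_smooth hρ j) i).continuous
      (pd_compact (pd_compact hc j) i) x
  · simp only [hlap]
    exact mol_deriv hα hθ hu hdec' hρ hc ht x
  · rw [hpa]
    simp only [hpd]
    exact mol_deriv hα hθ hu hdec' (pd_smooth hρ i) (pd_compact hc i) ht x

end CGL
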