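import Pool.Agent.W_317df6_h83.Basic

/-!
# Mollification: linearity (task P6e)
-/

set_option autoImplicit false

namespace CGL

open MeasureTheory Set
open scoped ContDiff
open scoped ZeroAtInfty

variable {N : ℕ}

theorem P6e_nl {α : ℝ} (hα : 0 < α) : Continuous (nl α) := by
  have h1 : Continuous fun z : ℂ => (‖z‖ ^ α : ℝ) :=
    continuous_norm.rpow_const fun _ => Or.inr hα.le
  exact (Complex.continuous_ofReal.comp h1).mul continuous_id

theorem P6e_int {ρ : E N → ℝ} (hρ : Continuous ρ) (hc : HasCompactSupport ρ) {f : E N → ℂ}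
    (hf : Continuous f) (x : E N) :
    Integrable (fun y => ((ρ (x - y) : ℝ) : ℂ) * f y) := by
  have h1 : Continuous fun y : E N => ρ (x - y) := hρ.comp (continuous_const.sub continuous_id)
  have h2 : Continuous (fun y => ((ρ (x - y) : ℝ) : ℂ) * f y) :=
    (Complex.continuous_ofReal.comp h1).mul hf
  have h3 : HasCompactSupport fun y : E N => ρ (x - y) :=
    hc.comp_homeomorph (Homeomorph.subLeft x)
  have h4 : HasCompactSupport fun y : E N => ((ρ (x - y) : ℝ) : ℂ) :=
    h3.comp_left (g := fun r : ℝ => (r : ℂ)) Complex.ofReal_zero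
  exact h2.integrable_of_hasCompactSupport h4.mul_right

/-- linearity -/
theorem mol_FF {α θ γ : ℝ} (hα : 0 < α) {ρ : E N → ℝ} (hρ : Continuous ρ)
    (hc : HasCompactSupport ρ) {f : E N → ℂ} (hf : Continuous f) (x : E N) :
    mol ρ (fun y => FF α θ γ (f y)) x =
      eth θ * mol ρ (fun y => nl α (f y)) x + (γ : ℂ) * mol ρ f x := by
  unfold mol
  rw [← integral_const_mul, ← integral_const_mul, ← integral_add]
  · refine integral_congr_ae (Filter.Eventually.of_forall fun y => ?_)
    simp only [FF]
    ring
  · exact (P6e_int hρ hc ((P6e_nl hα).comp hf) x).const_mul _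
  · exact (P6e_int hρ hc hf x).const_mul _

end CGL
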