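import Pool.Agent.W_317df6_h83.P6a
import Pool.Agent.W_317df6_h83.P6b
import Pool.Agent.W_317df6_h83.P6c
import Pool.Agent.W_317df6_h83.P6d
import Pool.Agent.W_317df6_h83.P6e

/-!
# Mollification (umbrella file)
-/
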