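import Pool.Agent.W_317df6_h83.Basic

/-!
# Mass of the mollified solution; initial value of `Y` (task P7b)
-/

set_option autoImplicit false

namespace CGL

open MeasureTheory Set
open scoped ContDiff
open scoped ZeroAtInfty

variable {N : ℕ} {T : ℝ} {u : ℝ → C₀(E N, ℂ)}

theorem P7b_bound {f : E N → ℂ} {C : ℝ} (hf : ∀ x, ‖f x‖ ≤ C * Real.exp (-‖x‖)) {ε : ℝ}
    (hε : ε < 1) {ρ : E N → ℝ} (hρ : Moll N ε ρ) (x : E N) :
    ‖mol ρ f x‖ ≤ |C| * Real.exp 1 * Real.exp (-‖x‖) := by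
  have hi : Integrable ρ := by
    by_contra hcon
    have h1 := hρ.one
    rw [integral_undef hcon] at h1
    exact zero_ne_one h1
  have hi2 : Integrable (fun y => ρ (x - y) * (|C| * Real.exp 1 * Real.exp (-‖x‖))) :=
    (hi.comp_sub_left x).mul_const _
  have h1 : ‖mol ρ f x‖ ≤ ∫ y, ρ (x - y) * (|C| * Real.exp 1 * Real.exp (-‖x‖)) := by
    unfold mol
    refine norm_integral_le_of_norm_le hi2 (Filter.Eventually.of_forall fun y => ?_)
    rw [norm_mul, Complex.norm_real, Real.norm_eq_abs, abs_of_nonneg (hρ.nonneg _)]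
    rcases lt_or_ge ‖x - y‖ ε with hxy | hxy
    · refine mul_le_mul_of_nonneg_left ?_ (hρ.nonneg _)
      have h2 : ‖x‖ ≤ ‖y‖ + 1 := by
        have h3 : ‖x‖ ≤ ‖x - y‖ + ‖y‖ := by
          have := norm_add_le (x - y) y
          rwa [sub_add_cancel] at this
        linarith
      have h4 : Real.exp (-‖y‖) ≤ Real.exp 1 * Real.exp (-‖x‖) := by
        rw [← Real.exp_add]
        exact Real.exp_le_exp.2 (by linarith)
      calc ‖f y‖ ≤ C * Real.exp (-‖y‖) := hf y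
        _ ≤ |C| * Real.exp (-‖y‖) :=
            mul_le_mul_of_nonneg_right (le_abs_self C) (Real.exp_pos _).le
        _ ≤ |C| * (Real.exp 1 * Real.exp (-‖x‖)) :=
            mul_le_mul_of_nonneg_left h4 (abs_nonneg C)
        _ = _ := by ring
    · rw [hρ.supp _ hxy, zero_mul, zero_mul]
  refine h1.trans (le_of_eq ?_)
  rw [integral_mul_const, integral_sub_left_eq_self, hρ.one, one_mul]

/-- the partial derivatives of a real function are real -/
theorem P7b_real (f : E N → ℝ) (i : Fin N) (x : E N) :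
    ∃ r : ℝ, pd i (fun x => ((f x : ℝ) : ℂ)) x = (r : ℂ) := by
  by_cases hd : DifferentiableAt ℝ (fun x => ((f x : ℝ) : ℂ)) x
  · have h1 : DifferentiableAt ℝ f x := by
      have h2 := Complex.reCLM.differentiableAt.comp x hd
      exact h2
    exact ⟨pd i f x, pd_ofReal h1 i⟩
  · refine ⟨0, ?_⟩
    unfold pd
    rw [fderiv_zero_of_not_differentiableAt hd]
    simp

/-- uniform bound for the mass of the mollified solution: `‖mol ρ (u t) x‖ ≤ e C exp(-‖x‖)` for `ε < 1`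
(`∫ρ = 1`, `ρ(x-y) = 0` for `‖x-y‖ ≥ 1`), so `Mf ≤ (eC)² ∫ exp(-2‖x‖)`. -/
theorem moll_mass (hdec : ∃ C : ℝ, ∀ t ∈ Icc 0 T, ∀ x, ‖u t x‖ ≤ C * Real.exp (-‖x‖)) :
    ∃ CM : ℝ, 0 < CM ∧ ∀ ε ∈ Ioo (0:ℝ) 1, ∀ ρ : E N → ℝ, Moll N ε ρ → ∀ t ∈ Icc 0 T,
      Mf (mol ρ (u t)) ≤ CM := by
  obtain ⟨C, hC⟩ := hdec
  have hint := integrable_exp N
  have hI : 0 ≤ ∫ x : E N, Real.exp (-‖x‖) := integral_nonneg fun x => (Real.exp_pos _).le
  refine ⟨(|C| * Real.exp 1) ^ 2 * (∫ x : E N, Real.exp (-‖x‖)) + 1, by positivity, ?_⟩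
  intro ε hε ρ hρ t ht
  have h1 : Mf (mol ρ (u t)) ≤ ∫ x : E N, (|C| * Real.exp 1) ^ 2 * Real.exp (-‖x‖) := by
    unfold Mf
    refine integral_mono_of_nonneg (Filter.Eventually.of_forall fun x => sq_nonneg _)
      (hint.const_mul _) (Filter.Eventually.of_forall fun x => ?_)
    have h2 := P7b_bound (hC t ht) hε.2 hρ x
    have h3 : Real.exp (-‖x‖) ≤ 1 := Real.exp_le_one_iff.2 (by
      have := norm_nonneg x
      linarith)
    have h4 : 0 ≤ Real.exp (-‖x‖) := (Real.exp_pos _).le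
    show ‖mol ρ (u t) x‖ ^ 2 ≤ (|C| * Real.exp 1) ^ 2 * Real.exp (-‖x‖)
    calc ‖mol ρ (u t) x‖ ^ 2 ≤ (|C| * Real.exp 1 * Real.exp (-‖x‖)) ^ 2 :=
          pow_le_pow_left₀ (norm_nonneg _) h2 2
      _ = (|C| * Real.exp 1) ^ 2 * (Real.exp (-‖x‖) * Real.exp (-‖x‖)) := by ring
      _ ≤ (|C| * Real.exp 1) ^ 2 * (Real.exp (-‖x‖) * 1) :=
          mul_le_mul_of_nonneg_left (mul_le_mul_of_nonneg_left h3 h4) (sq_nonneg _)
      _ = _ := by ring
  rw [integral_const_mul] at h1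
  linarith

/-- `mol ρ w` is real for real `w`, so `Y = 0` initially: `mol ρ (w : ℂ) = ((f : ℝ) : ℂ)` with
`f x = ∫ ρ(x-y) w(y) dy` (`integral_ofReal`); `f` is differentiable (convolution), `pd_ofReal`; the
integrand of `Yf` is real. -/
theorem init_Y (φ : E N → ℝ) {w : E N → ℝ} (hw : ContDiff ℝ ∞ w) (hc : HasCompactSupport w)
    {ε : ℝ} {ρ : E N → ℝ} (hρ : Moll N ε ρ) : Yf φ (mol ρ (fun x => ((w x : ℝ) : ℂ))) = 0 := by
  have h1 : mol ρ (fun x => ((w x : ℝ) : ℂ)) =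
      fun x => (((∫ y, ρ (x - y) * w y : ℝ)) : ℂ) := by
    funext x
    unfold mol
    rw [← integral_complex_ofReal]
    refine integral_congr_ae (Filter.Eventually.of_forall fun y => ?_)
    simp only [Complex.ofReal_mul]
  rw [h1]
  unfold Yf
  have h2 : ∀ (f : E N → ℝ) (x : E N), ∃ r : ℝ,
      (∑ i, ((pd i φ x : ℝ) : ℂ) * pd i (fun x => ((f x : ℝ) : ℂ)) x) *
        (starRingEnd ℂ) ((f x : ℝ) : ℂ) = (r : ℂ) := by
    intro f x
    choose r hr using fun i => P7b_real f i x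
    refine ⟨(∑ i, pd i φ x * r i) * f x, ?_⟩
    simp only [hr, Complex.conj_ofReal]
    push_cast
    rfl
  choose r hr using h2 (fun x => ∫ y, ρ (x - y) * w y)
  have h3 : (∫ x, (∑ i, ((pd i φ x : ℝ) : ℂ) *
      pd i (fun x => (((∫ y, ρ (x - y) * w y : ℝ)) : ℂ)) x) *
      (starRingEnd ℂ) ((((∫ y, ρ (x - y) * w y : ℝ)) : ℂ))) = ((∫ x, r x : ℝ) : ℂ) := by
    rw [← integral_complex_ofReal]
    exact integral_congr_ae (Filter.Eventually.of_forall hr)
  rw [h3, Complex.ofReal_im]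

end CGL
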