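import Pool.Agent.W_317df6_h83.P6b

/-!
# Initial values of the mollified solution (task P7c)
-/

set_option autoImplicit false

namespace CGL

open MeasureTheory Set
open scoped ContDiff Convolution
open scoped ZeroAtInfty

variable {N : ℕ}

/-- the bilinear map `(z, r) ↦ r • z` -/
noncomputable def P7c_L : ℂ →L[ℝ] ℝ →L[ℝ] ℂ := (ContinuousLinearMap.lsmul ℝ ℝ).flip

theorem P7c_mol_eq (k : E N → ℝ) (f : E N → ℂ) :
    mol k f = (f ⋆[P7c_L, volume] k) := by
  funext x
  unfold mol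
  rw [convolution_def]
  refine integral_congr_ae (Filter.Eventually.of_forall fun y => ?_)
  simp [P7c_L]

theorem P7c_comp {ε : ℝ} {ρ : E N → ℝ} (h : Moll N ε ρ) : HasCompactSupport ρ := by
  refine HasCompactSupport.intro (isCompact_closedBall (0 : E N) ε) ?_
  intro x hx
  apply h.supp
  rw [mem_closedBall_zero_iff, not_le] at hx
  exact hx.le

/-- the derivative of the mollification falls on the other factor -/
theorem P7c_pd {ε : ℝ} {ρ : E N → ℝ} (h : Moll N ε ρ) {f : E N → ℂ} (hf : ContDiff ℝ 1 f)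
    (hc : HasCompactSupport f) (i : Fin N) (x : E N) : pd i (mol ρ f) x = mol ρ (pd i f) x := by
  have h1 := hc.hasFDerivAt_convolution_left P7c_L (μ := volume) hf
    (h.smooth.continuous.locallyIntegrable) x
  unfold pd
  rw [P7c_mol_eq, h1.fderiv, convolution_def]
  unfold mol
  rw [ContinuousLinearMap.integral_apply]
  · refine integral_congr_ae (Filter.Eventually.of_forall fun y => ?_)
    simp [P7c_L, ContinuousLinearMap.precompL_apply]
  · have h2 := (hc.fderiv ℝ).convolutionExists_left (P7c_L.precompL (E N)) (μ := volume)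
      (hf.continuous_fderiv (by simp)) (h.smooth.continuous.locallyIntegrable) x
    exact h2

theorem P7c_close {f : E N → ℂ} (hf : Continuous f) {ε δ : ℝ} {ρ : E N → ℝ} (h : Moll N ε ρ)
    (hu : ∀ x y, ‖x - y‖ < ε → ‖f y - f x‖ ≤ δ) (x : E N) : ‖mol ρ f x - f x‖ ≤ δ := by
  have hki : Integrable ρ := h.smooth.continuous.integrable_of_hasCompactSupport (P7c_comp h)
  have hki2 : Integrable (fun y => ρ (x - y)) := hki.comp_sub_left x
  have hone : ∫ y, ρ (x - y) = 1 := by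
    rw [integral_sub_left_eq_self (fun y => ρ y) volume x]
    exact h.one
  have hcs : HasCompactSupport (fun y => ρ (x - y)) :=
    (P7c_comp h).comp_homeomorph (Homeomorph.subLeft x)
  have hcsc : HasCompactSupport (fun y => ((ρ (x - y) : ℝ) : ℂ)) :=
    hcs.comp_left (g := fun r : ℝ => (r : ℂ)) (by simp)
  have hcont : Continuous (fun y => ((ρ (x - y) : ℝ) : ℂ)) :=
    Complex.continuous_ofReal.comp (h.smooth.continuous.comp (continuous_const.sub continuous_id))
  have hi1 : Integrable (fun y => ((ρ (x - y) : ℝ) : ℂ) * f y) :=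
    (hcont.mul hf).integrable_of_hasCompactSupport hcsc.mul_right
  have hi2 : Integrable (fun y => ((ρ (x - y) : ℝ) : ℂ) * f x) :=
    (hcont.mul continuous_const).integrable_of_hasCompactSupport hcsc.mul_right
  have h2 : ∫ y, ((ρ (x - y) : ℝ) : ℂ) * f x = f x := by
    rw [integral_mul_const, integral_complex_ofReal, hone]
    simp
  have h3 : mol ρ f x - f x = ∫ y, ((ρ (x - y) : ℝ) : ℂ) * (f y - f x) := by
    unfold mol
    conv_lhs => rw [← h2]
    rw [← integral_sub hi1 hi2]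
    refine integral_congr_ae (Filter.Eventually.of_forall fun y => ?_)
    ring
  rw [h3]
  have h4 : ∀ y, ‖((ρ (x - y) : ℝ) : ℂ) * (f y - f x)‖ ≤ ρ (x - y) * δ := by
    intro y
    rw [norm_mul, Complex.norm_real, Real.norm_eq_abs, abs_of_nonneg (h.nonneg _)]
    by_cases hy : ‖x - y‖ < ε
    · exact mul_le_mul_of_nonneg_left (hu x y hy) (h.nonneg _)
    · rw [h.supp _ (not_lt.1 hy)]
      simp
  refine (norm_integral_le_of_norm_le (hki2.mul_const δ)
    (Filter.Eventually.of_forall h4)).trans ?_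
  rw [integral_mul_const, hone, one_mul]

theorem P7c_zero {f : E N → ℂ} {r ε : ℝ} {ρ : E N → ℝ} (h : Moll N ε ρ) (hε : ε ≤ 1)
    (hr : ∀ x, r < ‖x‖ → f x = 0) (x : E N) (hx : r + 1 < ‖x‖) : mol ρ f x = 0 := by
  unfold mol
  rw [← integral_zero (E N) ℂ]
  refine integral_congr_ae (Filter.Eventually.of_forall fun y => ?_)
  by_cases hy : ‖x - y‖ < ε
  · have h1 : ‖x‖ ≤ ‖x - y‖ + ‖y‖ := by
      calc ‖x‖ = ‖(x - y) + y‖ := by simp
        _ ≤ ‖x - y‖ + ‖y‖ := norm_add_le _ _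
    have h2 : f y = 0 := hr y (by linarith)
    simp [h2]
  · simp [h.supp _ (not_lt.1 hy)]

theorem P7c_int {V : Type*} [NormedAddCommGroup V] [ProperSpace V] (G : V → ℝ)
    (hG : Continuous G) (hG0 : G 0 = 0) (R M η : ℝ) (hη : 0 < η) :
    ∃ δ > 0, ∀ a b : E N → V, Continuous a → Continuous b → (∀ x, R < ‖x‖ → a x = 0) →
      (∀ x, R < ‖x‖ → b x = 0) → (∀ x, ‖a x‖ ≤ M) → (∀ x, ‖b x‖ ≤ M) →
      (∀ x, ‖a x - b x‖ ≤ δ) → |(∫ x, G (a x)) - ∫ x, G (b x)| ≤ η := by
  have hv : volume (Metric.closedBall (0 : E N) R) < ⊤ := measure_closedBall_lt_top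
  set vB : ℝ := (volume (Metric.closedBall (0 : E N) R)).toReal with hvB
  have hvB0 : 0 ≤ vB := ENNReal.toReal_nonneg
  have huc : UniformContinuousOn G (Metric.closedBall (0 : V) M) :=
    (isCompact_closedBall (0 : V) M).uniformContinuousOn_of_continuous hG.continuousOn
  rw [Metric.uniformContinuousOn_iff] at huc
  obtain ⟨δ, hδ, hd⟩ := huc (η / (vB + 1)) (by positivity)
  refine ⟨δ / 2, by positivity, ?_⟩
  intro a b ha hb ha0 hb0 haM hbM hab
  have hcs : ∀ c : E N → V, (∀ x, R < ‖x‖ → c x = 0) → HasCompactSupport (fun x => G (c x)) := by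
    intro c hc
    refine HasCompactSupport.intro (isCompact_closedBall (0 : E N) R) ?_
    intro x hx
    rw [mem_closedBall_zero_iff, not_le] at hx
    simp [hc x hx, hG0]
  have hia := (hG.comp ha).integrable_of_hasCompactSupport (μ := volume) (hcs a ha0)
  have hib := (hG.comp hb).integrable_of_hasCompactSupport (μ := volume) (hcs b hb0)
  have h1 : (∫ x, G (a x)) - ∫ x, G (b x) = ∫ x, (G (a x) - G (b x)) :=
    (integral_sub hia hib).symm
  rw [h1]
  have h2 : ∫ x, (G (a x) - G (b x)) =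
      ∫ x in Metric.closedBall (0 : E N) R, (G (a x) - G (b x)) := by
    symm
    apply setIntegral_eq_integral_of_forall_compl_eq_zero
    intro x hx
    rw [mem_closedBall_zero_iff, not_le] at hx
    rw [ha0 x hx, hb0 x hx, sub_self]
  rw [h2, ← Real.norm_eq_abs]
  have h3 := norm_setIntegral_le_of_norm_le_const (μ := volume) (f := fun x => G (a x) - G (b x))
    (C := η / (vB + 1)) hv (fun x _ => by
      rw [← dist_eq_norm]
      refine (hd (a x) ?_ (b x) ?_ ?_).le
      · rw [mem_closedBall_zero_iff]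
        exact haM x
      · rw [mem_closedBall_zero_iff]
        exact hbM x
      · rw [dist_eq_norm]
        have := hab x
        linarith)
  refine h3.trans ?_
  have h4 : η / (vB + 1) * (volume.real (Metric.closedBall (0 : E N) R)) ≤ η := by
    change η / (vB + 1) * vB ≤ η
    rw [div_mul_eq_mul_div, div_le_iff₀ (by positivity)]
    nlinarith
  exact h4

theorem P7c_unif {f : E N → ℂ} (hf : Continuous f) (hc : HasCompactSupport f) {δ : ℝ}
    (hδ : 0 < δ) : ∃ ε > 0, ∀ x y, ‖x - y‖ < ε → ‖f y - f x‖ ≤ δ := by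
  have huc := hf.uniformContinuous_of_tendsto_cocompact hc.is_zero_at_infty
  rw [Metric.uniformContinuous_iff] at huc
  obtain ⟨ε, hε, h⟩ := huc δ hδ
  refine ⟨ε, hε, fun x y hxy => ?_⟩
  rw [← dist_eq_norm]
  refine (h (a := y) (b := x) ?_).le
  rw [dist_comm, dist_eq_norm]
  exact hxy

/-- **Initial values.**

Proof.  Let `f = cx w`-like function `x ↦ (w x : ℂ)`, supported in the ball of radius `r`; for `ε ≤ 1`
the functions `mol ρ f` and `pd i (mol ρ f) = mol ρ (pd i f)` (differentiate the other factor: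
`HasCompactSupport.hasFDerivAt_convolution_left`, or integrate by parts) vanish outside the ball of
radius `r+1`, are bounded by the sup norms of `f`, `pd i f`, and converge uniformly to `f`, `pd i f`
(uniform continuity, `∫ρ = 1`, support in the `ε`-ball).  Hence `Mf`, `Gf`, `Pf` converge
(`|a|²-|b|²`, `|a|^{α+2}-|b|^{α+2}` are uniformly small: uniform continuity on a compact set) and
`ef = Pf/(α+2) - Gf/2`. -/
theorem init_conv {α : ℝ} (hα : 0 < α) {w : E N → ℝ} (hw : ContDiff ℝ ∞ w) (hc : HasCompactSupport w)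
    {η : ℝ} (hη : 0 < η) : ∃ ε0 > 0, ∀ ε ∈ Ioo 0 ε0, ∀ ρ : E N → ℝ, Moll N ε ρ →
      |Mf (mol ρ (fun x => ((w x : ℝ) : ℂ))) - Mf (fun x : E N => ((w x : ℝ) : ℂ))| ≤ η ∧
      |ef α (mol ρ (fun x => ((w x : ℝ) : ℂ))) - ef α (fun x : E N => ((w x : ℝ) : ℂ))| ≤ η := by
  set f : E N → ℂ := fun x => ((w x : ℝ) : ℂ) with hfdef
  have hf : ContDiff ℝ ∞ f := Complex.ofRealCLM.contDiff.comp hw
  have hf1 : ContDiff ℝ 1 f := hf.of_le (by exact_mod_cast le_top)
  have hfc : HasCompactSupport f := hc.comp_left (g := fun r : ℝ => (r : ℂ)) (by simp)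
  have hpc : ∀ i, Continuous (pd i f) := fun i =>
    (hf1.continuous_fderiv (by simp)).clm_apply continuous_const
  have hps : ∀ i, HasCompactSupport (pd i f) := fun i =>
    (hfc.fderiv ℝ).comp_left (g := fun L : E N →L[ℝ] ℂ => L (EuclideanSpace.single i 1)) (by simp)
  -- common radius
  obtain ⟨r, hr⟩ : ∃ r : ℝ, ∀ x, r < ‖x‖ → f x = 0 ∧ ∀ i, pd i f x = 0 := by
    obtain ⟨r, hr⟩ := hfc.isCompact.isBounded.exists_norm_le
    refine ⟨r, fun x hx => ?_⟩
    have hx' : x ∉ tsupport f := fun h => absurd (hr x h) (not_le.2 hx)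
    refine ⟨image_eq_zero_of_notMem_tsupport hx', fun i => ?_⟩
    unfold pd
    rw [fderiv_of_notMem_tsupport (𝕜 := ℝ) hx']
    simp
  -- bounds
  obtain ⟨M0, hM0⟩ := hf.continuous.bounded_above_of_compact_support hfc
  have hMi : ∀ i, ∃ C, ∀ x, ‖pd i f x‖ ≤ C := fun i =>
    (hpc i).bounded_above_of_compact_support (hps i)
  choose Mi hMi using hMi
  have hM0' : 0 ≤ M0 := (norm_nonneg _).trans (hM0 0)
  set M : ℝ := M0 + ∑ i, |Mi i| + 1 with hM
  have hsum0 : 0 ≤ ∑ i, |Mi i| := Finset.sum_nonneg fun i _ => abs_nonneg _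
  -- the three functionals
  obtain ⟨δ1, hδ1, h1⟩ := P7c_int (N := N) (fun z : ℂ => ‖z‖ ^ 2) (by fun_prop) (by simp) (r + 1) M η hη
  obtain ⟨δ2, hδ2, h2⟩ := P7c_int (N := N) (fun z : ℂ => ‖z‖ ^ (α + 2))
    (continuous_norm.rpow_const fun z => Or.inr (by linarith))
    (by
      simp only [norm_zero]
      exact Real.zero_rpow (by linarith)) (r + 1) M η hη
  obtain ⟨δ3, hδ3, h3⟩ := P7c_int (N := N) (fun z : Fin N → ℂ => ∑ i, ‖z i‖ ^ 2) (by fun_prop) (by simp)
    (r + 1) M η hη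
  set δ : ℝ := min (min δ1 δ2) (min δ3 1) with hδ
  have hδ0 : 0 < δ := by
    rw [hδ]
    exact lt_min (lt_min hδ1 hδ2) (lt_min hδ3 one_pos)
  obtain ⟨e0, he0, hu0⟩ := P7c_unif hf.continuous hfc hδ0
  have hui : ∀ i, ∃ ε > 0, ∀ x y, ‖x - y‖ < ε → ‖pd i f y - pd i f x‖ ≤ δ := fun i =>
    P7c_unif (hpc i) (hps i) hδ0
  choose e he hu using hui
  obtain ⟨e1, he1, he1'⟩ : ∃ e1 : ℝ, 0 < e1 ∧ ∀ i, e1 ≤ e i := by
    rcases isEmpty_or_nonempty (Fin N) with hE | hE
    · exact ⟨1, one_pos, fun i => hE.elim i⟩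
    · refine ⟨Finset.univ.inf' Finset.univ_nonempty e, ?_, fun i => Finset.inf'_le _ (Finset.mem_univ i)⟩
      rw [Finset.lt_inf'_iff]
      exact fun i _ => he i
  refine ⟨min (min e0 e1) 1, lt_min (lt_min he0 he1) one_pos, ?_⟩
  rintro ε ⟨hε0, hε⟩ ρ hρ
  have hεe0 : ε ≤ e0 := hε.le.trans ((min_le_left _ _).trans (min_le_left _ _))
  have hεe1 : ε ≤ e1 := hε.le.trans ((min_le_left _ _).trans (min_le_right _ _))
  have hε1 : ε ≤ 1 := hε.le.trans (min_le_right _ _)
  have hcl0 : ∀ x, ‖mol ρ f x - f x‖ ≤ δ := fun x =>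
    P7c_close hf.continuous hρ (fun x y hxy => hu0 x y (hxy.trans_le hεe0)) x
  have hcli : ∀ i x, ‖pd i (mol ρ f) x - pd i f x‖ ≤ δ := fun i x => by
    rw [P7c_pd hρ hf1 hfc]
    exact P7c_close (hpc i) hρ
      (fun x y hxy => hu i x y (hxy.trans_le (hεe1.trans (he1' i)))) x
  have hδ1' : δ ≤ 1 := (min_le_right _ _).trans (min_le_right _ _)
  have hmc : Continuous (mol ρ f) := (mol_contDiff hρ.smooth (P7c_comp hρ) hf.continuous).continuous
  have hmpc : ∀ i, Continuous (pd i (mol ρ f)) := fun i =>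
    ((mol_contDiff hρ.smooth (P7c_comp hρ) hf.continuous).continuous_fderiv (by simp)).clm_apply
      continuous_const
  have hz0 : ∀ x, r + 1 < ‖x‖ → mol ρ f x = 0 := fun x hx =>
    P7c_zero hρ hε1 (fun y hy => (hr y hy).1) x hx
  have hzi : ∀ i x, r + 1 < ‖x‖ → pd i (mol ρ f) x = 0 := fun i x hx => by
    rw [P7c_pd hρ hf1 hfc]
    exact P7c_zero hρ hε1 (fun y hy => (hr y hy).2 i) x hx
  have hfz : ∀ x, r + 1 < ‖x‖ → f x = 0 := fun x hx => (hr x (by linarith)).1
  have hfzi : ∀ i x, r + 1 < ‖x‖ → pd i f x = 0 := fun i x hx => (hr x (by linarith)).2 i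
  have hb : ∀ x, ‖f x‖ ≤ M := fun x => (hM0 x).trans (by rw [hM]; linarith)
  have hb' : ∀ x, ‖mol ρ f x‖ ≤ M := fun x => by
    have h5 := hcl0 x
    have h6 : ‖mol ρ f x‖ ≤ ‖mol ρ f x - f x‖ + ‖f x‖ := by
      calc ‖mol ρ f x‖ = ‖(mol ρ f x - f x) + f x‖ := by simp
        _ ≤ _ := norm_add_le _ _
    have h7 := hM0 x
    rw [hM]
    linarith
  have hMiM : ∀ i, Mi i ≤ ∑ i, |Mi i| := fun i =>
    (le_abs_self _).trans (Finset.single_le_sum (f := fun i => |Mi i|)
      (fun j _ => abs_nonneg _) (Finset.mem_univ i))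
  have hbi : ∀ i x, ‖pd i f x‖ ≤ M := fun i x => by
    have h5 := hMi i x
    have h6 := hMiM i
    rw [hM]
    linarith
  have hbi' : ∀ i x, ‖pd i (mol ρ f) x‖ ≤ M := fun i x => by
    have h5 := hcli i x
    have h6 : ‖pd i (mol ρ f) x‖ ≤ ‖pd i (mol ρ f) x - pd i f x‖ + ‖pd i f x‖ := by
      calc ‖pd i (mol ρ f) x‖ = ‖(pd i (mol ρ f) x - pd i f x) + pd i f x‖ := by simp
        _ ≤ _ := norm_add_le _ _
    have h7 := hMi i x
    have h8 := hMiM i
    rw [hM]
    linarith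
  have hMpos : 0 ≤ M := by
    rw [hM]
    linarith
  have r1 : |Mf (mol ρ f) - Mf f| ≤ η :=
    h1 (mol ρ f) f hmc hf.continuous hz0 hfz hb' hb
      (fun x => (hcl0 x).trans ((min_le_left _ _).trans (min_le_left _ _)))
  have r2 : |Pf α (mol ρ f) - Pf α f| ≤ η :=
    h2 (mol ρ f) f hmc hf.continuous hz0 hfz hb' hb
      (fun x => (hcl0 x).trans ((min_le_left _ _).trans (min_le_right _ _)))
  have r3 : |Gf (mol ρ f) - Gf f| ≤ η := by
    refine h3 (fun x i => pd i (mol ρ f) x) (fun x i => pd i f x)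
      (continuous_pi hmpc) (continuous_pi hpc) (fun x hx => funext fun i => hzi i x hx)
      (fun x hx => funext fun i => hfzi i x hx) (fun x => ?_) (fun x => ?_) (fun x => ?_)
    · exact (pi_norm_le_iff_of_nonneg hMpos).2 fun i => hbi' i x
    · exact (pi_norm_le_iff_of_nonneg hMpos).2 fun i => hbi i x
    · have hδ3' : δ ≤ δ3 := (min_le_right _ _).trans (min_le_left _ _)
      exact (pi_norm_le_iff_of_nonneg hδ3.le).2 fun i => (hcli i x).trans hδ3'
  refine ⟨r1, ?_⟩
  unfold ef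
  have h9 : Pf α (mol ρ f) / (α + 2) - Gf (mol ρ f) / 2 - (Pf α f / (α + 2) - Gf f / 2) =
      (Pf α (mol ρ f) - Pf α f) / (α + 2) - (Gf (mol ρ f) - Gf f) / 2 := by ring
  rw [h9]
  have h10 : |(Pf α (mol ρ f) - Pf α f) / (α + 2)| ≤ η / 2 := by
    rw [abs_div, abs_of_pos (by linarith : (0:ℝ) < α + 2)]
    exact div_le_div₀ hη.le r2 (by norm_num) (by linarith)
  have h11 : |(Gf (mol ρ f) - Gf f) / 2| ≤ η / 2 := by
    rw [abs_div, abs_of_pos (by norm_num : (0:ℝ) < 2)]
    exact div_le_div_of_nonneg_right r3 (by norm_num)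
  refine (abs_sub _ _).trans ?_
  linarith

end CGL
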