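import Pool.Agent.W_317df6_h83.P7a
import Pool.Agent.W_317df6_h83.P7b
import Pool.Agent.W_317df6_h83.P7c

/-!
# The mollification error (umbrella file)
-/
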