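import Pool.Agent.W_317df6_h83.Basic

/-!
# Scaling of weights (task Wtb)
-/

set_option autoImplicit false

namespace CGL

open MeasureTheory Set

variable {N : ℕ}

theorem Wtb_pd {f : E N → ℝ} (hf : Differentiable ℝ f) (c a : ℝ) (i : Fin N) :
    pd i (fun x => c * f (a • x)) = fun x => c * a * pd i f (a • x) := by
  funext x
  have h1 : HasFDerivAt (fun y : E N => a • y) (a • ContinuousLinearMap.id ℝ (E N)) x :=
    (hasFDerivAt_id x).const_smul a
  have h2 : HasFDerivAt (fun y : E N => f (a • y))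
      ((fderiv ℝ f (a • x)).comp (a • ContinuousLinearMap.id ℝ (E N))) x :=
    (hf (a • x)).hasFDerivAt.comp x h1
  have h3 := h2.const_mul c
  unfold pd
  rw [h3.fderiv]
  simp only [smul_apply, ContinuousLinearMap.comp_apply,
    ContinuousLinearMap.id_apply, map_smul, smul_eq_mul]
  ring

/-- Scaling: `φ_R(x) = R² φ(x/R)`: `∂_iφ_R(x) = R ∂_iφ(x/R)`, `∂_ijφ_R(x) = ∂_ijφ(x/R)`,
`Δφ_R(x) = Δφ(x/R)`, `∂_iΔφ_R(x) = R^{-1} ∂_iΔφ(x/R)` (first prove
`pd i (fun x => c * f (R⁻¹ • x)) x = c * R⁻¹ * pd i f (R⁻¹ • x)` for differentiable `f`). -/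
theorem weight_scale {b0 b1 b2 b3 : ℝ} {φ : E N → ℝ} (hφ : Weight N 1 b0 b1 b2 b3 φ)
    {R : ℝ} (hR : 0 < R) :
    Weight N R (b0 * R ^ 2) (b1 * R) b2 (b3 / R) (fun x => R ^ 2 * φ (R⁻¹ • x)) := by
  have hRi : R * R⁻¹ = 1 := mul_inv_cancel₀ hR.ne'
  have hd0 : Differentiable ℝ φ := hφ.smooth.differentiable (by norm_num)
  have hd1 : ∀ i, Differentiable ℝ (pd i φ) := fun i =>
    (hφ.contDiff_pd i).differentiable (by norm_num)
  have hdl : Differentiable ℝ (lap φ) := hφ.contDiff_lap.differentiable (by norm_num)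
  have e1 : ∀ i, pd i (fun x => R ^ 2 * φ (R⁻¹ • x)) = fun x => R * pd i φ (R⁻¹ • x) := by
    intro i
    rw [Wtb_pd hd0]
    funext x
    have : R ^ 2 * R⁻¹ = R := by
      rw [sq, mul_assoc, hRi, mul_one]
    rw [this]
  have e2 : ∀ i j, pd i (pd j (fun x => R ^ 2 * φ (R⁻¹ • x))) =
      fun x => pd i (pd j φ) (R⁻¹ • x) := by
    intro i j
    rw [e1, Wtb_pd (hd1 j)]
    funext x
    rw [hRi, one_mul]
  have e3 : lap (fun x => R ^ 2 * φ (R⁻¹ • x)) = fun x => 1 * lap φ (R⁻¹ • x) := by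
    funext x
    unfold lap
    rw [one_mul]
    refine Finset.sum_congr rfl fun i _ => ?_
    rw [e2]
  have e4 : ∀ i, pd i (lap (fun x => R ^ 2 * φ (R⁻¹ • x))) =
      fun x => R⁻¹ * pd i (lap φ) (R⁻¹ • x) := by
    intro i
    rw [e3, Wtb_pd hdl]
    funext x
    rw [one_mul]
  constructor
  · exact contDiff_const.mul (hφ.smooth.comp (contDiff_const_smul R⁻¹))
  · intro x
    exact mul_nonneg (sq_nonneg R) (hφ.nonneg _)
  · intro x
    rw [mul_comm b0]
    exact mul_le_mul_of_nonneg_left (hφ.b0 _) (sq_nonneg R)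
  · intro x
    simp only [e1, mul_pow]
    rw [← Finset.mul_sum, mul_comm (b1 ^ 2)]
    exact mul_le_mul_of_nonneg_left (hφ.b1 _) (sq_nonneg R)
  · intro x
    rw [e3]
    simp only [one_mul]
    exact hφ.b2 _
  · intro x
    simp only [e4, mul_pow, div_eq_mul_inv]
    rw [← Finset.mul_sum, mul_comm (b3 ^ 2)]
    exact mul_le_mul_of_nonneg_left (hφ.b3 _) (sq_nonneg _)
  · obtain ⟨C, hC⟩ := hφ.hb
    refine ⟨C, fun i j x => ?_⟩
    rw [e2]
    exact hC i j _
  · intro x ξ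
    simp only [e2]
    exact hφ.hess _ ξ
  · intro x
    rw [e3]
    simp only [one_mul]
    exact hφ.lap_le _
  · intro x hx
    rw [e3]
    simp only [one_mul]
    refine hφ.lap_eq _ ?_
    rw [norm_smul, norm_inv, Real.norm_eq_abs, abs_of_pos hR, inv_mul_le_iff₀ hR, mul_one]
    exact hx

end CGL
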