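import Pool.Agent.W_317df6_h83.O6
import Pool.Agent.W_317df6_h83.FlowFam
import Pool.Agent.W_317df6_h83.P6
import Pool.Agent.W_317df6_h83.P2
import Pool.Agent.W_317df6_h83.P7
import Pool.Agent.W_317df6_h83.Data
import Pool.Agent.W_317df6_h83.Wt

/-!
# Main theorem (assembly)
-/

set_option autoImplicit false

namespace CGL

open MeasureTheory Set
open scoped ZeroAtInfty ContDiff

variable {N : ℕ}

/-- the initial value as an element of `C_0` -/
noncomputable def mkC0 (w : E N → ℝ) (hw : Continuous w) (hc : HasCompactSupport w) :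
    C₀(E N, ℂ) where
  toFun := fun x => ((w x : ℝ) : ℂ)
  continuous_toFun := Complex.continuous_ofReal.comp hw
  zero_at_infty' := by
    have h := (hc.comp_left (g := fun y : ℝ => (y : ℂ)) Complex.ofReal_zero)
    exact h.is_zero_at_infty

/-- **Blow-up in finite time, uniformly for `θ` near `π/2`.** -/
theorem blowup {α γ : ℝ} (hN : 2 ≤ N) (hα : 4 / (N : ℝ) < α) (hα4 : α ≤ 4) (hγ : γ < 0) :
    ∃ u0 : C₀(E N, ℂ), u0 ≠ 0 ∧ ContDiff ℝ ∞ u0 ∧ HasCompactSupport u0 ∧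
      ∃ θ0 : ℝ, 0 ≤ θ0 ∧ θ0 < Real.pi / 2 ∧ ∃ Tb : ℝ, 0 < Tb ∧
        ∀ θ : ℝ, θ0 ≤ θ → θ < Real.pi / 2 → ∀ u : ℝ → C₀(E N, ℂ),
          ¬ IsMild N α θ γ Tb u0 u := by
  have hN0 : (0:ℝ) < N := by
    have : 0 < N := by omega
    exact_mod_cast this
  have hα0 : 0 < α := lt_trans (by positivity) hα
  have hNα : 4 < (N:ℝ) * α := by
    rw [div_lt_iff₀ hN0] at hα
    linarith
  obtain ⟨g, hg⟩ : ∃ g, g = -γ := ⟨_, rfl⟩
  have hg0 : 0 < g := by linarith
  obtain ⟨b0, b1, b2, b3, hb0, hb1, hb2, hb3, φ1, hφ1⟩ := weight_one N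
  obtain ⟨C, hC, hstr⟩ := strauss (N := N) hN
  obtain ⟨w, hw, hwc, hwr, ⟨x0, hx0⟩, hwe, hwM⟩ := exists_profile N hα0
  obtain ⟨lam, R, T, c0, hlam, hR, hT, hc0, hc02, hH1, hH2, hH3, hH4, hH5⟩ :=
    exists_params (M := Mf (cx w)) (e := ef α (cx w)) hN hα0 hNα hα4 hg0 hb0 hb1 hb2 hb3 hC
      hwM hwe
  obtain ⟨hsM, hse⟩ := profile_scale hα0 hlam hw hwc
  obtain ⟨W, hW⟩ : ∃ W : E N → ℝ, W = fun x => lam ^ (2 / α) * w (lam • x) := ⟨_, rfl⟩
  rw [← hW] at hsM hse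
  have hWs : ContDiff ℝ ∞ W := by
    rw [hW]
    exact contDiff_const.mul (hw.comp (contDiff_const_smul lam))
  have hlp : 0 < lam ^ (2 / α) := Real.rpow_pos_of_pos hlam _
  have hWc : HasCompactSupport W := by
    rw [hW]
    have h1 : HasCompactSupport (fun x : E N => w (lam • x)) :=
      hwc.comp_homeomorph (Homeomorph.smulOfNeZero lam hlam.ne')
    exact h1.mul_left
  have hWr : ∀ x y : E N, ‖x‖ = ‖y‖ → W x = W y := by
    intro x y hxy
    rw [hW]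
    simp only
    rw [hwr (lam • x) (lam • y) (by rw [norm_smul, norm_smul, hxy])]
  have hW0 : W (lam⁻¹ • x0) ≠ 0 := by
    rw [hW]
    simp only [smul_smul, mul_inv_cancel₀ hlam.ne', one_smul]
    exact mul_ne_zero hlp.ne' hx0
  have hM0 : 0 < Mf (cx W) := by
    rw [hsM]
    exact mul_pos (Real.rpow_pos_of_pos hlam _) hwM
  have he0 : 0 < ef α (cx W) := by
    rw [hse]
    exact mul_pos (Real.rpow_pos_of_pos hlam _) hwe
  rw [← hsM, ← hse] at hH3 hH4
  have hH5' : ∀ c : ℝ, 0 < c → c ≤ c0 →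
      (b0 * R ^ 2) * (2 * Mf (cx W)) * (9 + 32 / α)
        + 128 * (b1 * R) ^ 2 * (2 * Mf (cx W)) / α
        + 4 * c * (2 * Mf (cx W)) * T * (b2 + 2 * b2 ^ 2) ≤ (ef α (cx W) / 2) * T ^ 2 := by
    rw [hsM, hse]
    exact hH5
  obtain ⟨c1, hc1⟩ : ∃ c1, c1 = min c0 1 := ⟨_, rfl⟩
  have hc1pos : 0 < c1 := by rw [hc1]; exact lt_min hc0 one_pos
  refine ⟨mkC0 W hWs.continuous hWc, ?_, ?_, ?_, Real.arccos c1, Real.arccos_nonneg _, ?_,
    T * (1 + 1024 / α), by positivity, ?_⟩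
  · intro h
    have h1 : (mkC0 W hWs.continuous hWc) (lam⁻¹ • x0) = 0 := by rw [h]; rfl
    have h2 : ((W (lam⁻¹ • x0) : ℝ) : ℂ) = 0 := h1
    exact hW0 (by exact_mod_cast h2)
  · have h1 : ContDiff ℝ ∞ (fun x => ((W x : ℝ) : ℂ)) := Complex.ofRealCLM.contDiff.comp hWs
    exact h1
  · have h1 : HasCompactSupport (fun x => ((W x : ℝ) : ℂ)) :=
      hWc.comp_left (g := fun y : ℝ => (y : ℂ)) Complex.ofReal_zero
    exact h1
  · exact Real.arccos_lt_pi_div_two.2 hc1pos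
  intro θ hθ0 hθ1 u hu
  have hθnn : 0 ≤ θ := (Real.arccos_nonneg _).trans hθ0
  have hcos : 0 < Real.cos θ := Real.cos_pos_of_mem_Ioo ⟨by linarith [Real.pi_pos], hθ1⟩
  have hcosle : Real.cos θ ≤ c0 := by
    have h1 : Real.cos θ ≤ Real.cos (Real.arccos c1) :=
      Real.cos_le_cos_of_nonneg_of_le_pi (Real.arccos_nonneg _)
        (by linarith [Real.pi_pos]) hθ0
    rw [Real.cos_arccos (by linarith) (by rw [hc1]; exact min_le_right _ _)] at h1
    exact h1.trans (by rw [hc1]; exact min_le_left _ _)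
  have hsin : 0 < Real.sin θ := by
    have h2 : 0 < θ := by
      have h3 : Real.arccos c1 ≤ θ := hθ0
      rcases lt_or_eq_of_le hθnn with h | h
      · exact h
      · exfalso
        rw [← h] at hcosle
        rw [Real.cos_zero] at hcosle
        nlinarith
    exact Real.sin_pos_of_pos_of_lt_pi h2 (by linarith [Real.pi_pos])
  obtain ⟨T2, hT2⟩ : ∃ T2, T2 = T * (1 + 1024 / α) := ⟨_, rfl⟩
  have hT2pos : 0 < T2 := by rw [hT2]; positivity
  have hcompu0 : HasCompactSupport (mkC0 W hWs.continuous hWc : E N → ℂ) := by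
    have h1 : HasCompactSupport (fun x => ((W x : ℝ) : ℂ)) :=
      hWc.comp_left (g := fun y : ℝ => (y : ℂ)) Complex.ofReal_zero
    exact h1
  have hdec := hu.decay hα0 hcos hcompu0
  have hrad := hu.radial hα0 hcos (fun x y hxy => by
    show ((W x : ℝ) : ℂ) = ((W y : ℝ) : ℂ)
    rw [hWr x y hxy])
  obtain ⟨CM, hCM0, hCM⟩ := moll_mass hdec
  have hφ := weight_scale hφ1 hR
  -- parameters
  obtain ⟨p, hp⟩ : ∃ p : Par, p = ⟨N, α, g, Real.cos θ, Real.sin θ, T, 2 * Mf (cx W),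
    ef α (cx W) / 2, b0 * R ^ 2, b1 * R, b2, b3 / R, 2 * N + b2, C / R ^ (N - 1), CM⟩ := ⟨_, rfl⟩
  have hOK : p.OK := by
    subst hp
    refine
      { hn := ?_, hα0 := hα0, hα := hNα, hα4 := hα4, hg := hg0, hc := hcos, hc2 := ?_
        hs := hsin, hcs := Real.cos_sq_add_sin_sq θ, hT := hT, hm := by positivity
        he := by positivity, hB0 := by positivity, hB1 := by positivity, hB2 := hb2.le
        hB3 := by positivity, hB4 := by positivity, hq := by positivity, H1 := hH1, H2 := hH2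
        H3 := ?_, H4 := ?_, H5 := hH5' _ hcos hcosle }
    · show (2:ℝ) ≤ N
      exact_mod_cast hN
    · show 2 * Real.cos θ ^ 2 ≤ 1
      nlinarith
    · exact hH3
    · exact hH4
  obtain ⟨δ, hδ, hno⟩ := no_flow hOK
  -- the mollifier
  obtain ⟨ε1, hε1, hε1'⟩ := moll_error hα0 hu hdec hδ
  obtain ⟨ε2, hε2, hε2'⟩ := init_conv (α := α) hα0 hWs hWc
    (η := min (Mf (cx W)) (ef α (cx W) / 2)) (by positivity)
  obtain ⟨ε, hεdef⟩ : ∃ ε, ε = min (min ε1 ε2) 1 / 2 := ⟨_, rfl⟩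
  have hmpos : 0 < min (min ε1 ε2) 1 := by positivity
  have hε : 0 < ε := by rw [hεdef]; linarith
  have hεlt : ε < min (min ε1 ε2) 1 := by rw [hεdef]; linarith
  have hεa : ε ∈ Ioo 0 ε1 := ⟨hε, hεlt.trans_le ((min_le_left _ _).trans (min_le_left _ _))⟩
  have hεb : ε ∈ Ioo 0 ε2 := ⟨hε, hεlt.trans_le ((min_le_left _ _).trans (min_le_right _ _))⟩
  have hεc : ε ∈ Ioo (0:ℝ) 1 := ⟨hε, hεlt.trans_le (min_le_right _ _)⟩
  obtain ⟨ρ, hρ⟩ := exists_moll N hε
  have hρc := hρ.compact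
  have hfam := mild_fam hα0 hcos hu hdec hρ.smooth hρc
  have hinit := hε2' ε hεb ρ hρ
  have hu0 : (u 0 : E N → ℂ) = fun x => ((W x : ℝ) : ℂ) := by
    rw [hu.init]
    rfl
  refine hno δ hδ le_rfl _ _ _ _ _ _ (hp ▸ flow_of_fam (r := fun t x =>
      mol ρ (fun y => nl α (u t y)) x - nl α (mol ρ (u t) x)) hα0 hδ.le hcos hsin
      (by positivity) hb2.le (by positivity) (by positivity) hφ
      (by positivity) hfam ?_ (hε1' ε hεa ρ hρ) ?_ ?_ ?_ ?_ (hCM ε hεc ρ hρ))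
  · intro t ht x
    have hmf := mol_FF (θ := θ) (γ := γ) hα0 hρ.smooth.continuous hρc (f := fun y => u t y)
      (map_continuous (u t)) x
    rw [hmf]
    unfold ww
    rw [hg]
    push_cast
    ring
  · intro t ht x hx
    have hd := hfam.dec ht
    exact hstr _ hd (mol_radial hρ (u t).continuous (hrad t ht)) R hR x hx
  · show Mf (mol ρ (u 0)) ≤ 2 * Mf (cx W)
    rw [hu0]
    have h1 := (abs_le.1 hinit.1).2
    have h2 : min (Mf (cx W)) (ef α (cx W) / 2) ≤ Mf (cx W) := min_le_left _ _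
    have h3 : Mf (fun x : E N => ((W x : ℝ) : ℂ)) = Mf (cx W) := rfl
    linarith
  · show ef α (cx W) / 2 ≤ ef α (mol ρ (u 0))
    rw [hu0]
    have h1 := (abs_le.1 hinit.2).1
    have h2 : min (Mf (cx W)) (ef α (cx W) / 2) ≤ ef α (cx W) / 2 := min_le_right _ _
    have h3 : ef α (fun x : E N => ((W x : ℝ) : ℂ)) = ef α (cx W) := rfl
    linarith
  · show Yf _ (mol ρ (u 0)) = 0
    rw [hu0]
    exact init_Y _ hWs hWc hρ

end CGL
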