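import Pool.Agent.W_317df6_h83.OdeDefs

/-!
# Lower bound for the energy variable `e` (task O1)
-/

set_option autoImplicit false

namespace CGL

open MeasureTheory Set

theorem O1_amgm {c δ D : ℝ} (hc : 0 < c) (hD : 0 ≤ D) :
    δ * √D ≤ c / 2 * D + δ ^ 2 / (2 * c) := by
  have h1 : √D ^ 2 = D := Real.sq_sqrt hD
  have h2 : c / 2 * D + δ ^ 2 / (2 * c) - δ * √D = (c * √D - δ) ^ 2 / (2 * c) := by
    nth_rewrite 1 [← h1]
    field_simp
    ring
  have h3 : 0 ≤ (c * √D - δ) ^ 2 / (2 * c) := by positivity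
  linarith

theorem O1_exp {x : ℝ} (hx : 0 ≤ x) (hx' : x ≤ 1 / 2) :
    1 ≤ Real.exp x ∧ Real.exp x ≤ 2 ∧ 1 / 2 ≤ Real.exp (-x) ∧ Real.exp (-x) ≤ 1 := by
  have h1 : 1 / 2 ≤ Real.exp (-x) := by linarith [Real.add_one_le_exp (-x)]
  have h2 : Real.exp x * Real.exp (-x) = 1 := by
    rw [← Real.exp_add, add_neg_cancel, Real.exp_zero]
  refine ⟨Real.one_le_exp hx, ?_, h1, Real.exp_le_one_iff.2 (by linarith)⟩
  nlinarith [Real.exp_pos x]

/-- **Lower bound for `e`.**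

Proof.  `δ √D ≤ (c/2) D + δ²/(2c)`, so with `k = α + 2`, `e' ≥ (c/2) D - g (α/2) G - g k e -
δ²/(2c)`.  For `ê(t) = exp(g k t) e(t)` we get `ê' ≥ exp(g k t)((c/2) D - g(α/2) G - δ²/(2c)) ≥
(c/2) D - g α G - δ²/c` because `1 ≤ exp(g k t) ≤ 2` for `0 ≤ t ≤ T` (`g k T ≤ 6/4096` by `H1`).
Integrate (`intervalIntegral.integral_le_sub_of_hasDeriv_right_of_le`):
`ê(t) ≥ e0 + (c/2)∫D - gα∫G - δ² T/c`; multiply by `exp(-g k t) ∈ [1/2, 1]`. -/
theorem e_lower {p : Par} (hp : p.OK) {δ : ℝ} (hδ : 0 ≤ δ) {M G e D V Y : ℝ → ℝ}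
    (h : Flow p δ M G e D V Y) {t : ℝ} (ht : t ∈ Icc 0 p.T) :
    p.e0 / 2 + p.c / 4 * (∫ τ in (0:ℝ)..t, D τ) - p.g * p.α * (∫ τ in (0:ℝ)..t, G τ)
      - δ ^ 2 * p.T / p.c ≤ e t := by
  have hα := hp.hα0
  have hg := hp.hg
  have hc := hp.hc
  have hT := hp.hT
  have hT2 : p.T ≤ p.T2 := by
    unfold Par.T2
    have : 0 < 1024 / p.α := by positivity
    nlinarith
  have hsub : Icc 0 t ⊆ Icc 0 p.T2 := Icc_subset_Icc_right (ht.2.trans hT2)
  set k : ℝ := p.α + 2 with hk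
  have hk0 : 0 < k := by positivity
  have hx : ∀ τ ∈ Icc 0 t, 0 ≤ p.g * k * τ ∧ p.g * k * τ ≤ 1 / 2 := by
    intro τ hτ
    refine ⟨mul_nonneg (mul_nonneg hg.le hk0.le) hτ.1, ?_⟩
    have h1 : p.g * τ ≤ p.g * p.T := mul_le_mul_of_nonneg_left (hτ.2.trans ht.2) hg.le
    have h2 : p.g * τ ≤ p.α / 16384 := h1.trans hp.H1
    have h3 : 0 ≤ p.g * τ := mul_nonneg hg.le hτ.1
    have h4 : k ≤ 6 := by
      have := hp.hα4
      linarith
    have h5 := hp.hα4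
    calc p.g * k * τ = (p.g * τ) * k := by ring
      _ ≤ (p.α / 16384) * 6 := mul_le_mul h2 h4 hk0.le (by positivity)
      _ ≤ 1 / 2 := by linarith
  set F : ℝ → ℝ := fun τ => Real.exp (p.g * k * τ) * e τ with hF
  set ψ : ℝ → ℝ := fun τ => p.c / 2 * D τ - p.g * p.α * G τ - δ ^ 2 / p.c with hψ
  have hcE : Continuous fun τ : ℝ => Real.exp (p.g * k * τ) := by fun_prop
  have hFc : ContinuousOn F (Icc 0 t) := hcE.continuousOn.mul (h.ce.mono hsub)
  have hDc : ContinuousOn D (Icc 0 t) := h.cD.mono hsub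
  have hGc : ContinuousOn G (Icc 0 t) := h.cG.mono hsub
  have hψc : ContinuousOn ψ (Icc 0 t) :=
    ((continuousOn_const.mul hDc).sub (continuousOn_const.mul hGc)).sub continuousOn_const
  have hd : ∀ τ ∈ Ioo 0 t, ∃ F' : ℝ, HasDerivAt F F' τ ∧ ψ τ ≤ F' := by
    intro τ hτ
    have hτ2 : τ ∈ Ioo 0 p.T2 := ⟨hτ.1, hτ.2.trans_le (ht.2.trans hT2)⟩
    have hτ3 : τ ∈ Icc 0 p.T2 := Ioo_subset_Icc_self hτ2
    obtain ⟨e', he1, he2⟩ := h.de τ hτ2
    have hE : HasDerivAt (fun τ : ℝ => Real.exp (p.g * k * τ))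
        (Real.exp (p.g * k * τ) * (p.g * k)) τ := by
      have := ((hasDerivAt_id τ).const_mul (p.g * k)).exp
      simpa using this
    refine ⟨_, hE.mul he1, ?_⟩
    obtain ⟨hx0, hx1⟩ := hx τ (Ioo_subset_Icc_self hτ)
    obtain ⟨h1, h2, _, _⟩ := O1_exp hx0 hx1
    have hD0 := h.Dnn τ hτ3
    have hG0 := h.Gnn τ hτ3
    have h3 := O1_amgm (δ := δ) hc hD0
    set X := Real.exp (p.g * k * τ) with hX
    have h4 : p.c / 2 * D τ - p.g * (p.α / 2) * G τ - δ ^ 2 / (2 * p.c) ≤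
        e' + p.g * k * e τ := by
      have h5 : p.g * (p.α / 2 * G τ + k * e τ) =
          p.g * (p.α / 2) * G τ + p.g * k * e τ := by ring
      rw [h5] at he2
      linarith
    have h6 : X * (p.c / 2 * D τ - p.g * (p.α / 2) * G τ - δ ^ 2 / (2 * p.c)) ≤
        X * (e' + p.g * k * e τ) := mul_le_mul_of_nonneg_left h4 (by linarith)
    have h7 : ψ τ ≤ X * (p.c / 2 * D τ - p.g * (p.α / 2) * G τ - δ ^ 2 / (2 * p.c)) := by
      have a1 : 0 ≤ (X - 1) * (p.c / 2 * D τ) := mul_nonneg (by linarith) (by positivity)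
      have a2 : 0 ≤ (2 - X) * (p.g * (p.α / 2) * G τ) := mul_nonneg (by linarith) (by positivity)
      have a3 : 0 ≤ (2 - X) * (δ ^ 2 / (2 * p.c)) := mul_nonneg (by linarith) (by positivity)
      have a4 : δ ^ 2 / p.c = 2 * (δ ^ 2 / (2 * p.c)) := by
        field_simp
      simp only [hψ]
      rw [a4]
      nlinarith
    calc ψ τ ≤ X * (e' + p.g * k * e τ) := h7.trans h6
      _ = X * (p.g * k) * e τ + X * e' := by ring
  have hint : ∫ τ in (0:ℝ)..t, ψ τ ≤ F t - F 0 := by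
    refine intervalIntegral.integral_le_sub_of_hasDeriv_right_of_le ht.1 hFc
      (g' := fun τ => deriv F τ) (fun τ hτ => ?_) hψc.integrableOn_Icc (fun τ hτ => ?_)
    · obtain ⟨F', h1, _⟩ := hd τ hτ
      rw [h1.deriv]
      exact h1.hasDerivWithinAt
    · obtain ⟨F', h1, h2⟩ := hd τ hτ
      rw [h1.deriv]
      exact h2
  have hDi : IntervalIntegrable D volume 0 t := by
    rw [← uIcc_of_le ht.1] at hDc
    exact hDc.intervalIntegrable
  have hGi : IntervalIntegrable G volume 0 t := by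
    rw [← uIcc_of_le ht.1] at hGc
    exact hGc.intervalIntegrable
  have hψi : ∫ τ in (0:ℝ)..t, ψ τ = p.c / 2 * (∫ τ in (0:ℝ)..t, D τ) -
      p.g * p.α * (∫ τ in (0:ℝ)..t, G τ) - δ ^ 2 / p.c * t := by
    simp only [hψ]
    rw [intervalIntegral.integral_sub ((hDi.const_mul _).sub (hGi.const_mul _))
      intervalIntegrable_const, intervalIntegral.integral_sub (hDi.const_mul _)
      (hGi.const_mul _), intervalIntegral.integral_const_mul, intervalIntegral.integral_const_mul,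
      intervalIntegral.integral_const]
    simp
    ring
  have hD0 : 0 ≤ ∫ τ in (0:ℝ)..t, D τ :=
    intervalIntegral.integral_nonneg ht.1 fun τ hτ => h.Dnn τ (hsub hτ)
  have hG0 : 0 ≤ ∫ τ in (0:ℝ)..t, G τ :=
    intervalIntegral.integral_nonneg ht.1 fun τ hτ => h.Gnn τ (hsub hτ)
  have hF0 : p.e0 ≤ F 0 := by
    simp only [hF]
    rw [mul_zero, Real.exp_zero, one_mul]
    exact h.ie
  rw [hψi] at hint
  obtain ⟨hx0, hx1⟩ := hx t ⟨ht.1, le_rfl⟩
  obtain ⟨_, _, h3, h4⟩ := O1_exp hx0 hx1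
  set ID := ∫ τ in (0:ℝ)..t, D τ with hID
  set IG := ∫ τ in (0:ℝ)..t, G τ with hIG
  set Z := Real.exp (-(p.g * k * t)) with hZ
  have hZF : Z * F t = e t := by
    simp only [hF, hZ]
    rw [← mul_assoc, ← Real.exp_add, neg_add_cancel, Real.exp_zero, one_mul]
  have h5 : p.e0 + (p.c / 2 * ID - p.g * p.α * IG - δ ^ 2 / p.c * t) ≤ F t := by linarith
  have h6 : Z * (p.e0 + (p.c / 2 * ID - p.g * p.α * IG - δ ^ 2 / p.c * t)) ≤ e t := by
    rw [← hZF]
    exact mul_le_mul_of_nonneg_left h5 (by linarith)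
  have he0 := hp.he
  have b1 : 0 ≤ (Z - 1 / 2) * (p.e0 + p.c / 2 * ID) :=
    mul_nonneg (by linarith) (by positivity)
  have b2 : 0 ≤ (1 - Z) * (p.g * p.α * IG) := mul_nonneg (by linarith) (by positivity)
  have b3 : 0 ≤ (1 - Z) * (δ ^ 2 / p.c * t) :=
    mul_nonneg (by linarith) (mul_nonneg (by positivity) ht.1)
  have b4 : δ ^ 2 / p.c * t ≤ δ ^ 2 * p.T / p.c := by
    have : δ ^ 2 * p.T / p.c = δ ^ 2 / p.c * p.T := by ring
    rw [this]
    exact mul_le_mul_of_nonneg_left ht.2 (by positivity)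
  nlinarith

end CGL
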