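import Pool.Agent.W_317df6_h83.O1

/-!
# Bounds from the mass balance (task O2)
-/

set_option autoImplicit false

namespace CGL

open MeasureTheory Set

theorem O2_T2 {p : Par} (hp : p.OK) : p.T < p.T2 := by
  have h1 := hp.hT
  have h2 := hp.hα0
  unfold Par.T2
  have h3 : 0 < 1024 / p.α := by positivity
  nlinarith

theorem O2_sub {p : Par} (hp : p.OK) {τ : ℝ} (hτ : τ ∈ Icc 0 p.T) :
    Icc 0 τ ⊆ Icc 0 p.T2 ∧ Ioo 0 τ ⊆ Ioo 0 p.T2 :=
  ⟨Icc_subset_Icc le_rfl (hτ.2.trans (O2_T2 hp).le),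
    Ioo_subset_Ioo le_rfl (hτ.2.trans (O2_T2 hp).le)⟩

theorem O2_gT {p : Par} (hp : p.OK) : p.g * p.T ≤ 1 / 4096 := by
  have h1 := hp.H1
  have h2 := hp.hα4
  linarith

theorem O2_cj {p : Par} {δ : ℝ} {M G e D V Y : ℝ → ℝ} (h : Flow p δ M G e D V Y) :
    ContinuousOn (fun t => p.α / 2 * G t + (p.α + 2) * e t) (Icc 0 p.T2) :=
  (continuousOn_const.mul h.cG).add (continuousOn_const.mul h.ce)

theorem O2_upper {p : Par} (hp : p.OK) {δ : ℝ} (hδ : 0 ≤ δ) {M G e D V Y : ℝ → ℝ}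
    (h : Flow p δ M G e D V Y) {τ : ℝ} (hτ : τ ∈ Icc 0 p.T) (hM : ∀ t ∈ Icc 0 τ, M t ≤ 2 * p.m) :
    2 * p.c * (∫ t in (0:ℝ)..τ, (p.α / 2 * G t + (p.α + 2) * e t)) -
      (4 * p.g * p.m + 2 * δ * √(2 * p.m)) * τ ≤ M τ - M 0 := by
  obtain ⟨hs1, hs2⟩ := O2_sub hp hτ
  have hj := (O2_cj h).mono hs1
  have hg := hp.hg
  have h1 := intervalIntegral.integral_le_sub_of_hasDeriv_right_of_le (g := M) (g' := deriv M)
    (φ := fun t => 2 * p.c * (p.α / 2 * G t + (p.α + 2) * e t) -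
      (4 * p.g * p.m + 2 * δ * √(2 * p.m))) hτ.1 (h.cM.mono hs1)
    (fun t ht => ?_) ?_ (fun t ht => ?_)
  · have h2 : ∫ t in (0:ℝ)..τ, (2 * p.c * (p.α / 2 * G t + (p.α + 2) * e t) -
        (4 * p.g * p.m + 2 * δ * √(2 * p.m))) =
        2 * p.c * (∫ t in (0:ℝ)..τ, (p.α / 2 * G t + (p.α + 2) * e t)) -
        (4 * p.g * p.m + 2 * δ * √(2 * p.m)) * τ := by
      rw [intervalIntegral.integral_sub, intervalIntegral.integral_const_mul,
        intervalIntegral.integral_const, sub_zero, smul_eq_mul, mul_comm τ]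
      · refine ContinuousOn.intervalIntegrable ?_
        rw [uIcc_of_le hτ.1]
        exact continuousOn_const.mul hj
      · exact intervalIntegrable_const
    rw [← h2]
    exact h1
  · obtain ⟨M', hM', -⟩ := h.dM t (hs2 ht)
    rw [hM'.deriv]
    exact hM'.hasDerivWithinAt
  · exact (((continuousOn_const.mul hj).sub continuousOn_const)).integrableOn_Icc
  · obtain ⟨M', hM', hb⟩ := h.dM t (hs2 ht)
    rw [hM'.deriv]
    have h3 := hM t ⟨ht.1.le, ht.2.le⟩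
    have h4 : √(M t) ≤ √(2 * p.m) := Real.sqrt_le_sqrt h3
    rw [abs_le] at hb
    have h5 : δ * √(M t) ≤ δ * √(2 * p.m) := mul_le_mul_of_nonneg_left h4 hδ
    have h6 : p.g * M t ≤ p.g * (2 * p.m) := mul_le_mul_of_nonneg_left h3 hg.le
    linarith [hb.1]

theorem O2_lower {p : Par} (hp : p.OK) {δ : ℝ} (hδ : 0 ≤ δ) {M G e D V Y : ℝ → ℝ}
    (h : Flow p δ M G e D V Y) {τ : ℝ} (hτ : τ ∈ Icc 0 p.T) (hM : ∀ t ∈ Icc 0 τ, M t ≤ 2 * p.m) :
    M τ - M 0 ≤ 2 * p.c * (∫ t in (0:ℝ)..τ, (p.α / 2 * G t + (p.α + 2) * e t)) +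
      (2 * δ * √(2 * p.m)) * τ := by
  obtain ⟨hs1, hs2⟩ := O2_sub hp hτ
  have hj := (O2_cj h).mono hs1
  have hg := hp.hg
  have h1 := intervalIntegral.sub_le_integral_of_hasDeriv_right_of_le (g := M) (g' := deriv M)
    (φ := fun t => 2 * p.c * (p.α / 2 * G t + (p.α + 2) * e t) +
      (2 * δ * √(2 * p.m))) hτ.1 (h.cM.mono hs1)
    (fun t ht => ?_) ?_ (fun t ht => ?_)
  · have h2 : ∫ t in (0:ℝ)..τ, (2 * p.c * (p.α / 2 * G t + (p.α + 2) * e t) +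
        (2 * δ * √(2 * p.m))) =
        2 * p.c * (∫ t in (0:ℝ)..τ, (p.α / 2 * G t + (p.α + 2) * e t)) +
        (2 * δ * √(2 * p.m)) * τ := by
      rw [intervalIntegral.integral_add, intervalIntegral.integral_const_mul,
        intervalIntegral.integral_const, sub_zero, smul_eq_mul, mul_comm τ]
      · refine ContinuousOn.intervalIntegrable ?_
        rw [uIcc_of_le hτ.1]
        exact continuousOn_const.mul hj
      · exact intervalIntegrable_const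
    rw [← h2]
    exact h1
  · obtain ⟨M', hM', -⟩ := h.dM t (hs2 ht)
    rw [hM'.deriv]
    exact hM'.hasDerivWithinAt
  · exact (((continuousOn_const.mul hj).add continuousOn_const)).integrableOn_Icc
  · obtain ⟨M', hM', hb⟩ := h.dM t (hs2 ht)
    rw [hM'.deriv]
    have h3 := hM t ⟨ht.1.le, ht.2.le⟩
    have h4 : √(M t) ≤ √(2 * p.m) := Real.sqrt_le_sqrt h3
    rw [abs_le] at hb
    have h5 : δ * √(M t) ≤ δ * √(2 * p.m) := mul_le_mul_of_nonneg_left h4 hδ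
    have h6 : 0 ≤ p.g * M t := mul_nonneg hg.le (h.Mnn t (hs1 ⟨ht.1.le, ht.2.le⟩))
    linarith [hb.2]

/-- **Mass balance.**  `j = (α/2) G + (α+2) e`.  From `dM`: `2c j ≤ M' + 2gM + 2δ√M` and
`2c j ≥ M' + 2gM - 2δ√M`; integrate over `[0,τ]` (`M ≤ 2m` there, `gT ≤ 1/4096` by `H1`, `0 ≤ M 0 ≤ m`),
`δ` so small that `2 δ √(2m) T ≤ m/4`. -/
theorem mass_balance {p : Par} (hp : p.OK) : ∃ δ0 > 0, ∀ δ, 0 < δ → δ ≤ δ0 →
    ∀ M G e D V Y : ℝ → ℝ, Flow p δ M G e D V Y → ∀ τ ∈ Icc 0 p.T,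
    (∀ t ∈ Icc 0 τ, M t ≤ 2 * p.m) →
    p.c * (∫ t in (0:ℝ)..τ, (p.α / 2 * G t + (p.α + 2) * e t)) ≤ 5 / 4 * p.m ∧
    (M τ = 2 * p.m →
      p.m / 4 ≤ p.c * (∫ t in (0:ℝ)..τ, (p.α / 2 * G t + (p.α + 2) * e t))) := by
  have hm := hp.hm
  have hT := hp.hT
  have hg := hp.hg
  have hsq : 0 < √(2 * p.m) := Real.sqrt_pos.2 (by linarith)
  refine ⟨p.m / (8 * √(2 * p.m) * p.T), by positivity, ?_⟩
  intro δ hδ hδ0 M G e D V Y h τ hτ hM
  rw [le_div_iff₀ (by positivity)] at hδ0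
  have h1 := O2_upper hp hδ.le h hτ hM
  have h2 := O2_lower hp hδ.le h hτ hM
  have hgT := O2_gT hp
  have h3 : δ * √(2 * p.m) * τ ≤ δ * √(2 * p.m) * p.T :=
    mul_le_mul_of_nonneg_left hτ.2 (by positivity)
  have h4 : p.g * p.m * τ ≤ p.g * p.m * p.T := mul_le_mul_of_nonneg_left hτ.2 (by positivity)
  have h5 : p.g * p.T * p.m ≤ 1 / 4096 * p.m := mul_le_mul_of_nonneg_right hgT hm.le
  have h6 : 0 ≤ M 0 := h.Mnn 0 ⟨le_rfl, (hT.trans (O2_T2 hp)).le⟩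
  have h7 := hM τ ⟨hτ.1, le_rfl⟩
  constructor
  · nlinarith
  · intro h8
    have h9 := h.iM
    nlinarith

/-- **Gradient bound.**  `(α/2) c ∫G = c∫j - (α+2) c ∫e`, and by `e_lower`
`-∫_0^τ e ≤ g α T ∫_0^τ G + δ² T²/c`; with `(α+2) g T ≤ 1/4` (from `H1`, `α ≤ 4`) this gives
`(α/4) c ∫ G ≤ 5m/4 + (α+2) δ² T² ≤ 2m` for `δ` small. -/
theorem grad_bound {p : Par} (hp : p.OK) : ∃ δ0 > 0, ∀ δ, 0 < δ → δ ≤ δ0 →
    ∀ M G e D V Y : ℝ → ℝ, Flow p δ M G e D V Y → ∀ τ ∈ Icc 0 p.T,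
    (∀ t ∈ Icc 0 τ, M t ≤ 2 * p.m) →
    p.c * (∫ t in (0:ℝ)..τ, G t) ≤ 8 * p.m / p.α := by
  obtain ⟨δ1, hδ1, hmass⟩ := mass_balance hp
  have hm := hp.hm
  have hT := hp.hT
  have hg := hp.hg
  have hc := hp.hc
  have hα := hp.hα0
  have hα4 := hp.hα4
  have hsq : 0 < √(p.m / 8) := Real.sqrt_pos.2 (by linarith)
  refine ⟨min δ1 (√(p.m / 8) / p.T), lt_min hδ1 (by positivity), ?_⟩
  intro δ hδ hδ0 M G e D V Y h τ hτ hM
  have h1 := (hmass δ hδ (hδ0.trans (min_le_left _ _)) M G e D V Y h τ hτ hM).1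
  have h2 : δ * p.T ≤ √(p.m / 8) := by
    have h3 := hδ0.trans (min_le_right _ _)
    rwa [le_div_iff₀ hT] at h3
  have h3 : (δ * p.T) ^ 2 ≤ p.m / 8 := by
    have h4 := pow_le_pow_left₀ (by positivity : 0 ≤ δ * p.T) h2 2
    rwa [Real.sq_sqrt (by linarith)] at h4
  obtain ⟨hs1, hs2⟩ := O2_sub hp hτ
  have hGc := h.cG.mono hs1
  have hec := h.ce.mono hs1
  have hGi : IntervalIntegrable G volume 0 τ := by
    refine ContinuousOn.intervalIntegrable ?_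
    rwa [uIcc_of_le hτ.1]
  have hei : IntervalIntegrable e volume 0 τ := by
    refine ContinuousOn.intervalIntegrable ?_
    rwa [uIcc_of_le hτ.1]
  set IG : ℝ := ∫ t in (0:ℝ)..τ, G t with hIG
  have hIG0 : 0 ≤ IG := intervalIntegral.integral_nonneg hτ.1 fun t ht => h.Gnn t (hs1 ht)
  have hsplit : ∫ t in (0:ℝ)..τ, (p.α / 2 * G t + (p.α + 2) * e t) =
      p.α / 2 * IG + (p.α + 2) * ∫ t in (0:ℝ)..τ, e t := by
    rw [intervalIntegral.integral_add (hGi.const_mul _) (hei.const_mul _),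
      intervalIntegral.integral_const_mul, intervalIntegral.integral_const_mul]
  rw [hsplit] at h1
  set κ : ℝ := p.g * p.α * IG + δ ^ 2 * p.T / p.c with hκ
  have hκ0 : 0 ≤ κ := by positivity
  have hlow : ∀ t ∈ Icc 0 τ, -κ ≤ e t := by
    intro t ht
    have ht' : t ∈ Icc 0 p.T := ⟨ht.1, ht.2.trans hτ.2⟩
    have h5 := e_lower hp hδ.le h ht'
    have h6 : 0 ≤ ∫ τ in (0:ℝ)..t, D τ := intervalIntegral.integral_nonneg ht.1 fun u hu =>
      h.Dnn u (hs1 ⟨hu.1, hu.2.trans ht.2⟩)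
    have h7 : ∫ τ in (0:ℝ)..t, G τ ≤ IG := by
      have hG1 : IntervalIntegrable G volume 0 t := by
        refine ContinuousOn.intervalIntegrable ?_
        rw [uIcc_of_le ht.1]
        exact hGc.mono (Icc_subset_Icc le_rfl ht.2)
      have hG2 : IntervalIntegrable G volume t τ := by
        refine ContinuousOn.intervalIntegrable ?_
        rw [uIcc_of_le ht.2]
        exact hGc.mono (Icc_subset_Icc ht.1 le_rfl)
      rw [hIG, ← intervalIntegral.integral_add_adjacent_intervals hG1 hG2]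
      have h8 : 0 ≤ ∫ u in t..τ, G u := intervalIntegral.integral_nonneg ht.2 fun u hu =>
        h.Gnn u (hs1 ⟨ht.1.trans hu.1, hu.2⟩)
      linarith
    have h8 : p.g * p.α * (∫ τ in (0:ℝ)..t, G τ) ≤ p.g * p.α * IG :=
      mul_le_mul_of_nonneg_left h7 (by positivity)
    have h9 := hp.he
    have h10 : 0 ≤ p.c / 4 * (∫ τ in (0:ℝ)..t, D τ) := by positivity
    linarith
  have hint : -(κ * τ) ≤ ∫ t in (0:ℝ)..τ, e t := by
    have h5 := intervalIntegral.integral_mono_on hτ.1 (intervalIntegrable_const (c := -κ)) hei hlow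
    rw [intervalIntegral.integral_const, sub_zero, smul_eq_mul] at h5
    linarith
  have h5 : κ * τ ≤ κ * p.T := mul_le_mul_of_nonneg_left hτ.2 hκ0
  have hgT := O2_gT hp
  have h6 : p.c * (κ * p.T) = (p.g * p.T) * (p.α * (p.c * IG)) + (δ * p.T) ^ 2 := by
    rw [hκ]
    field_simp
  have h7 : p.c * -(κ * p.T) ≤ p.c * ∫ t in (0:ℝ)..τ, e t :=
    mul_le_mul_of_nonneg_left (by linarith) hc.le
  have h8 : (p.α + 2) * (p.c * -(κ * p.T)) ≤ (p.α + 2) * (p.c * ∫ t in (0:ℝ)..τ, e t) :=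
    mul_le_mul_of_nonneg_left h7 (by linarith)
  have hcI : 0 ≤ p.α * (p.c * IG) := by positivity
  have h9 : (p.g * p.T) * (p.α * (p.c * IG)) ≤ 1 / 4096 * (p.α * (p.c * IG)) :=
    mul_le_mul_of_nonneg_right hgT hcI
  have h10 : (p.α + 2) * ((p.g * p.T) * (p.α * (p.c * IG)) + (δ * p.T) ^ 2) ≤
      6 * (1 / 4096 * (p.α * (p.c * IG)) + p.m / 8) := by
    have h11 : 0 ≤ (p.g * p.T) * (p.α * (p.c * IG)) + (δ * p.T) ^ 2 := by positivity
    calc (p.α + 2) * ((p.g * p.T) * (p.α * (p.c * IG)) + (δ * p.T) ^ 2) ≤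
        6 * ((p.g * p.T) * (p.α * (p.c * IG)) + (δ * p.T) ^ 2) :=
          mul_le_mul_of_nonneg_right (by linarith) h11
      _ ≤ _ := mul_le_mul_of_nonneg_left (by linarith) (by norm_num)
  rw [le_div_iff₀ hα]
  have h12 : p.c * (p.α / 2 * IG + (p.α + 2) * ∫ t in (0:ℝ)..τ, e t) =
      1 / 2 * (p.α * (p.c * IG)) + (p.α + 2) * (p.c * ∫ t in (0:ℝ)..τ, e t) := by ring
  rw [h12] at h1
  have h13 : (p.α + 2) * (p.c * -(κ * p.T)) = -((p.α + 2) * (p.c * (κ * p.T))) := by ring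
  rw [h13, h6] at h8
  have h14 : p.c * IG * p.α = p.α * (p.c * IG) := by ring
  rw [h14]
  linarith

end CGL
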