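import Pool.Agent.W_317df6_h83.O3a

/-!
# The virial argument: integrated inequality (task O3)
-/

set_option autoImplicit false

namespace CGL

open MeasureTheory Set

/-- **Integrated virial inequality.**  `A(t) = exp(2 g t) ∈ [1,2]` on `[0,T]`.

Proof.  `Θ(t) = A V + 2 s (T-t) A Y`.  By `dV`, `dY`, `virial_rhs` (the terms `2 s A Y` cancel, also
`-2gV`, `-2gY` cancel with `A'`):
`Θ' ≤ A (c (B2 M + 2 B0 P) + 2 B0 δ √M) + 2 s (T-t) A [ s(-(13/16) a G - 2nα e + (nα/8) e0)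
  + (c√D+δ)(B2√M + 2B1√G) ]`, `P = (α+2)(G/2+e)`.
Integrate over `[0,T]`: `Θ(T) = A(T) V(T) ≥ 0`, `Θ(0) = V(0) ≤ B0 m` (`Y 0 = 0`). -/
theorem virial_int {p : Par} (hp : p.OK) {δ : ℝ} (hδ : 0 ≤ δ) {M G e D V Y : ℝ → ℝ}
    (h : Flow p δ M G e D V Y) (hM : ∀ t ∈ Icc 0 p.T, M t ≤ 2 * p.m) :
    0 ≤ p.B0 * p.m + ∫ t in (0:ℝ)..p.T,
      (Real.exp (2 * p.g * t) * (p.c * (p.B2 * M t + 2 * p.B0 * ((p.α + 2) * (G t / 2 + e t)))
          + 2 * p.B0 * δ * √(M t))
        + 2 * p.s * (p.T - t) * Real.exp (2 * p.g * t) *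
          (p.s * (-(13 / 16) * (p.n * p.α - 4) * G t - 2 * p.n * p.α * e t
              + p.n * p.α / 8 * p.e0)
            + (p.c * √(D t) + δ) * (p.B2 * √(M t) + 2 * p.B1 * √(G t)))) := by
  have hT := hp.hT
  have hs := hp.hs
  have hα := hp.hα0
  have hTT2 : p.T ≤ p.T2 := by
    unfold Par.T2
    have : 0 ≤ p.T * (1024 / p.α) := by positivity
    nlinarith
  have hsub : Icc 0 p.T ⊆ Icc 0 p.T2 := Icc_subset_Icc le_rfl hTT2
  have cM := h.cM.mono hsub
  have cG := h.cG.mono hsub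
  have ce := h.ce.mono hsub
  have cD := h.cD.mono hsub
  have cV := h.cV.mono hsub
  have cY := h.cY.mono hsub
  have cA : ContinuousOn (fun t : ℝ => Real.exp (2 * p.g * t)) (Icc 0 p.T) := by fun_prop
  have cI : ContinuousOn (fun t : ℝ => t) (Icc 0 p.T) := continuousOn_id
  -- the function `Θ`
  have hΘc : ContinuousOn (fun t => Real.exp (2 * p.g * t) * V t +
      2 * p.s * (p.T - t) * Real.exp (2 * p.g * t) * Y t) (Icc 0 p.T) := by
    fun_prop
  have hφc : ContinuousOn (fun t => Real.exp (2 * p.g * t) *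
        (p.c * (p.B2 * M t + 2 * p.B0 * ((p.α + 2) * (G t / 2 + e t)))
          + 2 * p.B0 * δ * √(M t))
        + 2 * p.s * (p.T - t) * Real.exp (2 * p.g * t) *
          (p.s * (-(13 / 16) * (p.n * p.α - 4) * G t - 2 * p.n * p.α * e t
              + p.n * p.α / 8 * p.e0)
            + (p.c * √(D t) + δ) * (p.B2 * √(M t) + 2 * p.B1 * √(G t)))) (Icc 0 p.T) := by
    fun_prop
  have hder : ∀ t ∈ Ioo 0 p.T, ∃ d : ℝ, HasDerivAt (fun t => Real.exp (2 * p.g * t) * V t +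
      2 * p.s * (p.T - t) * Real.exp (2 * p.g * t) * Y t) d t ∧
      d ≤ Real.exp (2 * p.g * t) *
        (p.c * (p.B2 * M t + 2 * p.B0 * ((p.α + 2) * (G t / 2 + e t)))
          + 2 * p.B0 * δ * √(M t))
        + 2 * p.s * (p.T - t) * Real.exp (2 * p.g * t) *
          (p.s * (-(13 / 16) * (p.n * p.α - 4) * G t - 2 * p.n * p.α * e t
              + p.n * p.α / 8 * p.e0)
            + (p.c * √(D t) + δ) * (p.B2 * √(M t) + 2 * p.B1 * √(G t))) := by
    intro t ht
    have ht2 : t ∈ Ioo 0 p.T2 := ⟨ht.1, ht.2.trans_le hTT2⟩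
    have htI : t ∈ Icc 0 p.T2 := ⟨ht2.1.le, ht2.2.le⟩
    obtain ⟨V', hV, hV'⟩ := h.dV t ht2
    obtain ⟨Y', hY, hY'⟩ := h.dY t ht2
    have hA : HasDerivAt (fun t : ℝ => Real.exp (2 * p.g * t))
        (Real.exp (2 * p.g * t) * (2 * p.g)) t := by
      have h1 : HasDerivAt (fun t : ℝ => 2 * p.g * t) (2 * p.g) t := by
        simpa using (hasDerivAt_id t).const_mul (2 * p.g)
      exact h1.exp
    have hL : HasDerivAt (fun t : ℝ => 2 * p.s * (p.T - t)) (-(2 * p.s)) t := by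
      have h1 : HasDerivAt (fun t : ℝ => p.T - t) (-1) t := by
        simpa using (hasDerivAt_id t).const_sub p.T
      simpa using h1.const_mul (2 * p.s)
    have hd := (hA.mul hV).add ((hL.mul hA).mul hY)
    refine ⟨_, hd, ?_⟩
    have hr := virial_rhs hp (M := M t) (G := G t) (e := e t) (h.Mnn t htI)
      (hM t ⟨ht.1.le, ht.2.le⟩) (h.Gnn t htI)
    set A := Real.exp (2 * p.g * t) with hAdef
    have hA0 : 0 < A := Real.exp_pos _
    have hTt : 0 < p.T - t := by linarith [ht.2]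
    have h1 := mul_le_mul_of_nonneg_left hV' hA0.le
    have h2 : Y' ≤ -2 * p.g * Y t
        + p.s * (-(13 / 16) * (p.n * p.α - 4) * G t - 2 * p.n * p.α * e t
              + p.n * p.α / 8 * p.e0)
        + (p.c * √(D t) + δ) * (p.B2 * √(M t) + 2 * p.B1 * √(G t)) := by
      have h3 := mul_le_mul_of_nonneg_left hr hs.le
      linarith
    have h4 : 0 ≤ 2 * p.s * (p.T - t) * A := by positivity
    have h5 := mul_le_mul_of_nonneg_left h2 h4
    simp only [Pi.mul_apply]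
    nlinarith [h1, h5]
  choose! d hd hd' using hder
  have key := intervalIntegral.sub_le_integral_of_hasDeriv_right_of_le hT.le hΘc
    (fun x hx => (hd x hx).hasDerivWithinAt) (hφc.integrableOn_Icc) hd'
  have hVT : 0 ≤ Real.exp (2 * p.g * p.T) * V p.T :=
    mul_nonneg (Real.exp_pos _).le (h.Vnn _ ⟨hT.le, hTT2⟩)
  have hiV := h.iV
  have hiY := h.iY
  simp only [sub_self, mul_zero, zero_mul, add_zero, Real.exp_zero, one_mul, hiY] at key
  linarith

end CGL
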