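import Pool.Agent.W_317df6_h83.OdeDefs

/-!
# The virial argument: pointwise estimate (task O3a)
-/

set_option autoImplicit false

namespace CGL

open MeasureTheory Set

/-- pointwise estimate of the right side of `dY` when `M ≤ 2m`.

Proof.  `(q√(MG))^{α/2} M ≤ (q √(2m))^{α/2} 2m G^{α/4}` and `G^{α/4} ≤ e0^{α/4-1}(e0 + G)`
(as `α/4 ≤ 1`; cases `G ≤ e0`, `G ≥ e0`), so the third term is `≤ κ(e0+G)` with
`κ ≤ a/16 ≤ nα/16`, `a = nα-4` (`H3`).  `B3√(MG) ≤ (a/8)G + (2/a)B3² M ≤ (a/8) G + (4/a) B3² m ≤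
(a/8) G + (nα/16) e0` (`H4`). -/
theorem virial_rhs {p : Par} (hp : p.OK) {M G e : ℝ} (hM : 0 ≤ M) (hM' : M ≤ 2 * p.m)
    (hG : 0 ≤ G) :
    -(p.n * p.α - 4) * G - 2 * p.n * p.α * e
        + p.B4 * ((p.q * √(M * G)) ^ (p.α / 2) * M) + p.B3 * √(M * G) ≤
    -(13 / 16) * (p.n * p.α - 4) * G - 2 * p.n * p.α * e + p.n * p.α / 8 * p.e0 := by
  obtain ⟨a, ha⟩ : ∃ a : ℝ, a = p.n * p.α - 4 := ⟨_, rfl⟩
  have ha0 : 0 < a := by have := hp.hα; linarith
  have hna : p.n * p.α = a + 4 := by linarith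
  have he := hp.he
  have hm := hp.hm
  have hα0 := hp.hα0
  have hα4 := hp.hα4
  have hq := hp.hq
  -- first term
  have h1 : p.B4 * ((p.q * √(M * G)) ^ (p.α / 2) * M) ≤ a / 16 * (p.e0 + G) := by
    have hsq : √(M * G) ≤ √(2 * p.m) * √G := by
      rw [← Real.sqrt_mul (by linarith)]
      exact Real.sqrt_le_sqrt (mul_le_mul_of_nonneg_right hM' hG)
    have h2 : (p.q * √(M * G)) ^ (p.α / 2) ≤
        (p.q * √(2 * p.m)) ^ (p.α / 2) * G ^ (p.α / 4) := by
      have h3 : (p.q * √(M * G)) ^ (p.α / 2) ≤ (p.q * √(2 * p.m) * √G) ^ (p.α / 2) := by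
        apply Real.rpow_le_rpow (by positivity) _ (by positivity)
        rw [mul_assoc]
        exact mul_le_mul_of_nonneg_left hsq hq
      refine h3.trans (le_of_eq ?_)
      rw [Real.mul_rpow (by positivity) (Real.sqrt_nonneg _), Real.sqrt_eq_rpow G,
        ← Real.rpow_mul hG]
      congr 2
      ring
    have h4 : G ^ (p.α / 4) ≤ p.e0 ^ (p.α / 4 - 1) * (p.e0 + G) := by
      have h5 := Real.geom_mean_le_arith_mean2_weighted (w₁ := p.α / 4) (w₂ := 1 - p.α / 4)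
        (p₁ := G) (p₂ := p.e0) (by positivity) (by linarith) hG he.le (by ring)
      have h6 : p.α / 4 * G + (1 - p.α / 4) * p.e0 ≤ p.e0 + G := by
        nlinarith [mul_nonneg (by linarith : 0 ≤ 1 - p.α / 4) hG,
          mul_nonneg (by positivity : 0 ≤ p.α / 4) he.le]
      have h7 : p.e0 ^ (p.α / 4 - 1) * p.e0 ^ (1 - p.α / 4) = 1 := by
        rw [← Real.rpow_add he]
        have : p.α / 4 - 1 + (1 - p.α / 4) = 0 := by ring
        rw [this, Real.rpow_zero]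
      have h8 : 0 < p.e0 ^ (p.α / 4 - 1) := Real.rpow_pos_of_pos he _
      calc G ^ (p.α / 4) = p.e0 ^ (p.α / 4 - 1) * (G ^ (p.α / 4) * p.e0 ^ (1 - p.α / 4)) := by
            linear_combination (-(G ^ (p.α / 4))) * h7
        _ ≤ p.e0 ^ (p.α / 4 - 1) * (p.e0 + G) :=
            mul_le_mul_of_nonneg_left (h5.trans h6) h8.le
    have hX : 0 ≤ (p.q * √(2 * p.m)) ^ (p.α / 2) := Real.rpow_nonneg (by positivity) _
    have hY : 0 ≤ G ^ (p.α / 4) := Real.rpow_nonneg hG _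
    calc p.B4 * ((p.q * √(M * G)) ^ (p.α / 2) * M)
        ≤ p.B4 * (((p.q * √(2 * p.m)) ^ (p.α / 2) * G ^ (p.α / 4)) * (2 * p.m)) := by
          apply mul_le_mul_of_nonneg_left _ hp.hB4
          exact mul_le_mul h2 hM' hM (mul_nonneg hX hY)
      _ = p.B4 * (2 * p.m) * (p.q * √(2 * p.m)) ^ (p.α / 2) * G ^ (p.α / 4) := by ring
      _ ≤ p.B4 * (2 * p.m) * (p.q * √(2 * p.m)) ^ (p.α / 2) *
          (p.e0 ^ (p.α / 4 - 1) * (p.e0 + G)) := by
          apply mul_le_mul_of_nonneg_left h4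
          have := hp.hB4
          positivity
      _ = p.B4 * (2 * p.m) * (p.q * √(2 * p.m)) ^ (p.α / 2) * p.e0 ^ (p.α / 4 - 1) *
          (p.e0 + G) := by ring
      _ ≤ a / 16 * (p.e0 + G) := by
          apply mul_le_mul_of_nonneg_right _ (by linarith)
          rw [ha]
          exact hp.H3
  have h9 : p.B3 * √(M * G) ≤ a / 8 * G + p.n * p.α / 16 * p.e0 := by
    have h10 : (√(M * G)) ^ 2 = M * G := Real.sq_sqrt (mul_nonneg hM hG)
    have h11 : √(M * G) = √M * √G := Real.sqrt_mul hM G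
    have hM2 : (√M) ^ 2 = M := Real.sq_sqrt hM
    have hG2 : (√G) ^ 2 = G := Real.sq_sqrt hG
    have h12 : a * (p.B3 * (√M * √G)) ≤ a * (a / 8 * G) + 2 * p.B3 ^ 2 * M := by
      have h13 := sq_nonneg (a * √G - 4 * (p.B3 * √M))
      have h14 : (a * √G - 4 * (p.B3 * √M)) ^ 2 =
          a ^ 2 * G - 8 * (a * (p.B3 * (√M * √G))) + 16 * p.B3 ^ 2 * M := by
        rw [← hM2, ← hG2]
        simp only [Real.sqrt_sq (Real.sqrt_nonneg _)]
        ring
      rw [h14] at h13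
      linarith
    have h15 : 2 * p.B3 ^ 2 * M ≤ 4 * p.B3 ^ 2 * p.m := by
      have := mul_le_mul_of_nonneg_left hM' (by positivity : 0 ≤ 2 * p.B3 ^ 2)
      linarith
    have h16 := hp.H4
    rw [← ha] at h16
    rw [h11]
    have h17 : a * (p.B3 * (√M * √G)) ≤ a * (a / 8 * G + p.n * p.α / 16 * p.e0) := by
      have h18 : a * (p.n * p.α / 16 * p.e0) = a * p.n * p.α * p.e0 / 16 := by ring
      rw [mul_add, h18]
      linarith
    exact le_of_mul_le_mul_left h17 ha0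
  have h19 : a / 16 * p.e0 ≤ p.n * p.α / 16 * p.e0 :=
    mul_le_mul_of_nonneg_right (by linarith) he.le
  rw [← ha]
  linarith

end CGL
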