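import Pool.Agent.W_317df6_h83.O3
import Pool.Agent.W_317df6_h83.O2

/-!
# The virial argument: contradiction (task O3c)
-/

set_option autoImplicit false

namespace CGL

open MeasureTheory Set

theorem O3c_i {c B0 B2 m A M P : ℝ} (hc : 0 ≤ c) (hB0 : 0 ≤ B0) (hB2 : 0 ≤ B2)
    (hA2 : A ≤ 2) (hM0 : 0 ≤ M) (hM : M ≤ 2 * m) (hP : 0 ≤ P) :
    A * (c * (B2 * M + 2 * B0 * P)) ≤ 4 * c * B2 * m + 4 * c * B0 * P := by
  have h1 : 0 ≤ c * (B2 * M + 2 * B0 * P) := by positivity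
  have h2 : A * (c * (B2 * M + 2 * B0 * P)) ≤ 2 * (c * (B2 * M + 2 * B0 * P)) :=
    mul_le_mul_of_nonneg_right hA2 h1
  have h3 : c * B2 * M ≤ c * B2 * (2 * m) := mul_le_mul_of_nonneg_left hM (by positivity)
  nlinarith

theorem O3c_i' {B0 m A M δ : ℝ} (hB0 : 0 ≤ B0) (hδ : 0 ≤ δ) (hA2 : A ≤ 2)
    (hM : M ≤ 2 * m) : A * (2 * B0 * δ * √M) ≤ 4 * B0 * δ * √(2 * m) := by
  have h1 : √M ≤ √(2 * m) := Real.sqrt_le_sqrt hM
  have h2 : 0 ≤ 2 * B0 * δ * √M := by positivity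
  have h3 : A * (2 * B0 * δ * √M) ≤ 2 * (2 * B0 * δ * √M) := mul_le_mul_of_nonneg_right hA2 h2
  have h4 : (4 * B0 * δ) * √M ≤ (4 * B0 * δ) * √(2 * m) :=
    mul_le_mul_of_nonneg_left h1 (by positivity)
  nlinarith

theorem O3c_ii {s a A G τ : ℝ} (ha : 0 ≤ a) (hA1 : 1 ≤ A) (hG : 0 ≤ G)
    (hτ : 0 ≤ τ) :
    2 * s * τ * A * (s * (-(13 / 16) * a * G)) ≤ -(13 / 8) * a * s ^ 2 * (τ * G) := by
  have h1 : 0 ≤ a * s ^ 2 * (τ * G) := by positivity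
  nlinarith [mul_le_mul_of_nonneg_right hA1 h1]

theorem O3c_iii {s k A e0 τ : ℝ} (hk : 0 ≤ k) (hA2 : A ≤ 2) (he0 : 0 ≤ e0)
    (hτ : 0 ≤ τ) :
    2 * s * τ * A * (s * (k / 8 * e0)) ≤ k / 2 * s ^ 2 * e0 * τ := by
  have h1 : 0 ≤ k * s ^ 2 * e0 * τ := by positivity
  nlinarith [mul_le_mul_of_nonneg_right hA2 h1]

theorem O3c_iv {c s g α k A e e0 δ T ID IG τ : ℝ} (hc : 0 < c) (hg : 0 ≤ g) (hα : 0 ≤ α)
    (hk : 0 ≤ k) (hT : 0 ≤ T) (he0 : 0 ≤ e0)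
    (hA1 : 1 ≤ A) (hA2 : A ≤ 2) (hID : 0 ≤ ID) (hIG : 0 ≤ IG) (hτ : 0 ≤ τ)
    (he : e0 / 2 + c / 4 * ID - g * α * IG - δ ^ 2 * T / c ≤ e) :
    2 * s * τ * A * (s * (-2 * k * e)) ≤
      -2 * s ^ 2 * k * e0 * τ - s ^ 2 * k * c * (τ * ID) + 8 * s ^ 2 * k * g * α * (τ * IG)
        + 8 * s ^ 2 * k * δ ^ 2 * T / c * τ := by
  obtain ⟨x, hx⟩ : ∃ x, x = δ ^ 2 * T / c := ⟨_, rfl⟩
  have hx0 : 0 ≤ x := by rw [hx]; positivity
  rw [← hx] at he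
  have h0 : 8 * s ^ 2 * k * δ ^ 2 * T / c * τ = 8 * s ^ 2 * k * x * τ := by
    rw [hx]; ring
  rw [h0]
  have h1 : e0 / 2 + c / 4 * ID - 2 * (g * α * IG + x) ≤ A * e := by
    have h2 : A * (e0 / 2 + c / 4 * ID - g * α * IG - x) ≤ A * e :=
      mul_le_mul_of_nonneg_left he (by linarith)
    have h3 : 0 ≤ e0 / 2 + c / 4 * ID := by positivity
    have h4 : 0 ≤ g * α * IG + x := by positivity
    have h5 := mul_le_mul_of_nonneg_right hA1 h3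
    have h6 := mul_le_mul_of_nonneg_right hA2 h4
    nlinarith
  have h7 : 0 ≤ 4 * s ^ 2 * k * τ := by positivity
  have h8 := mul_le_mul_of_nonneg_left h1 h7
  nlinarith

theorem O3c_zsq {B1 B2 m M G : ℝ} (hM0 : 0 ≤ M) (hM : M ≤ 2 * m) (hG : 0 ≤ G) :
    (B2 * √M + 2 * B1 * √G) ^ 2 ≤ 4 * B2 ^ 2 * m + 8 * B1 ^ 2 * G := by
  have h1 : √M ^ 2 = M := Real.sq_sqrt hM0
  have h2 : √G ^ 2 = G := Real.sq_sqrt hG
  have h3 : (B2 * √M + 2 * B1 * √G) ^ 2 ≤ 2 * (B2 * √M) ^ 2 + 2 * (2 * B1 * √G) ^ 2 := by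
    nlinarith [sq_nonneg (B2 * √M - 2 * B1 * √G)]
  have h4 : 2 * (B2 * √M) ^ 2 + 2 * (2 * B1 * √G) ^ 2 = 2 * B2 ^ 2 * M + 8 * B1 ^ 2 * G := by
    rw [mul_pow, mul_pow, h1, h2]
    ring
  have h5 : B2 ^ 2 * M ≤ B2 ^ 2 * (2 * m) := mul_le_mul_of_nonneg_left hM (sq_nonneg _)
  linarith

theorem O3c_v {c s k A D τ B1 B2 m M G : ℝ} (hc : 0 < c) (hs : 0 < s) (hk : 4 ≤ k)
    (hA2 : A ≤ 2) (hD : 0 ≤ D) (hτ : 0 ≤ τ) (hB1 : 0 ≤ B1) (hB2 : 0 ≤ B2)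
    (hM0 : 0 ≤ M) (hM : M ≤ 2 * m) (hG : 0 ≤ G) :
    2 * s * τ * A * (c * √D * (B2 * √M + 2 * B1 * √G)) ≤
      s ^ 2 * k * c / 2 * (τ ^ 2 * D) + 8 * c * B2 ^ 2 * m + 16 * c * B1 ^ 2 * G := by
  obtain ⟨Z, hZ⟩ : ∃ Z, Z = B2 * √M + 2 * B1 * √G := ⟨_, rfl⟩
  have hZ0 : 0 ≤ Z := by rw [hZ]; positivity
  have hZ2 : Z ^ 2 ≤ 4 * B2 ^ 2 * m + 8 * B1 ^ 2 * G := by
    rw [hZ]; exact O3c_zsq hM0 hM hG
  rw [← hZ]
  have h1 : 0 ≤ 2 * s * τ * (c * √D * Z) := by positivity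
  have h2 := mul_le_mul_of_nonneg_left hA2 h1
  have h3 : √D ^ 2 = D := Real.sq_sqrt hD
  -- `4 s c τ √D Z ≤ 2 c s² τ² D + 2 c Z²`
  have h4 : 4 * s * c * (τ * √D) * Z ≤ 2 * c * (s ^ 2 * (τ ^ 2 * D)) + 2 * c * Z ^ 2 := by
    have h5 : 0 ≤ 2 * c * (s * (τ * √D) - Z) ^ 2 := by positivity
    have h6 : 2 * c * (s * (τ * √D) - Z) ^ 2 =
        2 * c * (s ^ 2 * (τ ^ 2 * √D ^ 2)) - 4 * s * c * (τ * √D) * Z + 2 * c * Z ^ 2 := by ring
    rw [h3] at h6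
    linarith
  have h7 : 0 ≤ c * (s ^ 2 * (τ ^ 2 * D)) := by positivity
  have h8 := mul_le_mul_of_nonneg_left hk h7
  have h9 := mul_le_mul_of_nonneg_left hZ2 (by positivity : 0 ≤ 2 * c)
  nlinarith

theorem O3c_vi {s a A δ τ T B1 B2 m M G : ℝ} (hs : 0 < s) (hs1 : s ≤ 1)
    (hA2 : A ≤ 2) (hδ : 0 ≤ δ) (hτ : 0 ≤ τ) (hτT : τ ≤ T) (hB1 : 0 ≤ B1) (hB2 : 0 ≤ B2)
    (hM : M ≤ 2 * m) (hG : 0 ≤ G) (hδB : 4 * δ * B1 ≤ a / 4 * s ^ 2) :
    2 * s * τ * A * (δ * (B2 * √M + 2 * B1 * √G)) ≤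
      a / 4 * s ^ 2 * (τ * G) + 4 * δ * T * (B2 * √(2 * m) + B1) := by
  have h1 : √M ≤ √(2 * m) := Real.sqrt_le_sqrt hM
  have h2 : 2 * √G ≤ 1 + G := by
    nlinarith [Real.sq_sqrt hG, sq_nonneg (√G - 1)]
  have hZ : B2 * √M + 2 * B1 * √G ≤ B2 * √(2 * m) + B1 + B1 * G := by
    have h3 := mul_le_mul_of_nonneg_left h1 hB2
    have h4 := mul_le_mul_of_nonneg_left h2 hB1
    linarith
  have hZ0 : 0 ≤ B2 * √M + 2 * B1 * √G := by positivity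
  have h5 : 0 ≤ 2 * τ * (δ * (B2 * √M + 2 * B1 * √G)) := by positivity
  have h6 : s * A ≤ 2 := by
    nlinarith
  have h7 := mul_le_mul_of_nonneg_right h6 h5
  have h8 : (4 * δ * τ) * (B2 * √M + 2 * B1 * √G) ≤
      (4 * δ * τ) * (B2 * √(2 * m) + B1 + B1 * G) := mul_le_mul_of_nonneg_left hZ (by positivity)
  have h9 : 4 * δ * B1 * (τ * G) ≤ a / 4 * s ^ 2 * (τ * G) :=
    mul_le_mul_of_nonneg_right hδB (by positivity)
  have h10 : 4 * δ * (B2 * √(2 * m) + B1) * τ ≤ 4 * δ * (B2 * √(2 * m) + B1) * T :=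
    mul_le_mul_of_nonneg_left hτT (by positivity)
  nlinarith

theorem O3c_point {c s g α n B0 B1 B2 T m e0 δ A M G e D ID IG τ : ℝ} (hc : 0 < c) (hs : 0 < s)
    (hs1 : s ≤ 1) (hg : 0 ≤ g) (hα : 0 < α) (hnα : 4 < n * α) (hB0 : 0 ≤ B0) (hB1 : 0 ≤ B1)
    (hB2 : 0 ≤ B2) (hT : 0 ≤ T) (he0 : 0 < e0) (hδ : 0 ≤ δ) (hA1 : 1 ≤ A)
    (hA2 : A ≤ 2) (hM0 : 0 ≤ M) (hM : M ≤ 2 * m) (hG : 0 ≤ G) (hD : 0 ≤ D)
    (hP : 0 ≤ G / 2 + e) (hID : 0 ≤ ID) (hIG : 0 ≤ IG) (hτ : 0 ≤ τ) (hτT : τ ≤ T)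
    (he : e0 / 2 + c / 4 * ID - g * α * IG - δ ^ 2 * T / c ≤ e)
    (hδB : 4 * δ * B1 ≤ (n * α - 4) / 4 * s ^ 2) :
    A * (c * (B2 * M + 2 * B0 * ((α + 2) * (G / 2 + e))) + 2 * B0 * δ * √M)
        + 2 * s * τ * A *
          (s * (-(13 / 16) * (n * α - 4) * G - 2 * n * α * e + n * α / 8 * e0)
            + (c * √D + δ) * (B2 * √M + 2 * B1 * √G)) ≤
      (4 * c * B0 + 16 * c * B1 ^ 2) * G + 4 * c * B0 * (α / 2 * G + (α + 2) * e)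
      + (-(13 / 8) * (n * α - 4) * s ^ 2 + (n * α - 4) / 4 * s ^ 2) * (τ * G)
      + s ^ 2 * (n * α) * c / 2 * (τ ^ 2 * D) + -(s ^ 2 * (n * α) * c) * (τ * ID)
      + 8 * s ^ 2 * (n * α) * g * α * (τ * IG)
      + (n * α / 2 * s ^ 2 * e0 - 2 * s ^ 2 * (n * α) * e0 + 8 * s ^ 2 * (n * α) * δ ^ 2 * T / c) * τ
      + (4 * c * B2 * m + 4 * B0 * δ * √(2 * m) + 8 * c * B2 ^ 2 * m
        + 4 * δ * T * (B2 * √(2 * m) + B1)) := by
  have hk : 0 ≤ n * α := by linarith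
  have hP' : 0 ≤ (α + 2) * (G / 2 + e) := by positivity
  have h1 := O3c_i (c := c) (B0 := B0) (B2 := B2) (m := m) hc.le hB0 hB2 hA2 hM0 hM hP'
  have h1' := O3c_i' (B0 := B0) (m := m) (M := M) hB0 hδ hA2 hM
  have h2 := O3c_ii (s := s) (a := n * α - 4) (by linarith) hA1 hG hτ
  have h3 := O3c_iii (s := s) (k := n * α) hk hA2 he0.le hτ
  have h4 := O3c_iv (s := s) (k := n * α) hc hg hα.le hk hT he0.le hA1 hA2 hID hIG hτ he
  have h5 := O3c_v (c := c) (s := s) (k := n * α) (B1 := B1) (B2 := B2) (m := m) hc hs hnα.le hA2 hD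
    hτ hB1 hB2 hM0 hM hG
  have h6 := O3c_vi (s := s) (a := n * α - 4) (m := m) (M := M) hs hs1 hA2 hδ hτ hτT hB1 hB2 hM hG
    hδB
  nlinarith

/-- integration by parts for primitives -/
theorem O3c_ibp {T : ℝ} (hT : 0 < T) {f : ℝ → ℝ} (hf : ContinuousOn f (Icc 0 T)) :
    ∫ t in (0:ℝ)..T, (T - t) * (∫ τ in (0:ℝ)..t, f τ) =
      1 / 2 * ∫ t in (0:ℝ)..T, (T - t) ^ 2 * f t := by
  have hu : uIcc 0 T = Icc 0 T := uIcc_of_le hT.le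
  have hfi : IntervalIntegrable f volume 0 T := by
    apply ContinuousOn.intervalIntegrable
    rwa [hu]
  have hc : ContinuousOn (fun x => ∫ τ in (0:ℝ)..x, f τ) (Icc 0 T) := by
    have h1 := intervalIntegral.continuousOn_primitive_interval' (f := f) (μ := volume) hfi
      left_mem_uIcc
    rwa [hu] at h1
  have hd : ∀ x ∈ Ioo 0 T, HasDerivAt (fun x => ∫ τ in (0:ℝ)..x, f τ) (f x) x := by
    intro x hx
    refine intervalIntegral.integral_hasDerivAt_right (hfi.mono_set ?_) ?_ ?_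
    · rw [hu, uIcc_of_le hx.1.le]
      exact Icc_subset_Icc_right hx.2.le
    · exact ContinuousOn.stronglyMeasurableAtFilter isOpen_Ioo
        (hf.mono Ioo_subset_Icc_self) x hx
    · exact hf.continuousAt (Icc_mem_nhds hx.1 hx.2)
  have hH : ∀ x ∈ Ioo 0 T, HasDerivAt (fun x => -((T - x) ^ 2 / 2) * ∫ τ in (0:ℝ)..x, f τ)
      ((T - x) * (∫ τ in (0:ℝ)..x, f τ) - 1 / 2 * ((T - x) ^ 2 * f x)) x := by
    intro x hx
    have h1 : HasDerivAt (fun x : ℝ => -((T - x) ^ 2 / 2)) (T - x) x := by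
      have h2 : HasDerivAt (fun x : ℝ => T - x) (-1) x := by
        simpa using (hasDerivAt_id x).const_sub T
      have h3 := ((h2.pow 2).div_const 2).neg
      refine h3.congr_deriv ?_
      simp only [Nat.cast_ofNat, Nat.add_one_sub_one, pow_one]
      ring
    refine (h1.mul (hd x hx)).congr_deriv ?_
    ring
  have hpc : ContinuousOn (fun t : ℝ => (T - t)) (Icc 0 T) := by fun_prop
  have hi1 : IntervalIntegrable (fun t => (T - t) * ∫ τ in (0:ℝ)..t, f τ) volume 0 T := by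
    apply ContinuousOn.intervalIntegrable
    rw [hu]
    exact hpc.mul hc
  have hi2 : IntervalIntegrable (fun t => (T - t) ^ 2 * f t) volume 0 T := by
    apply ContinuousOn.intervalIntegrable
    rw [hu]
    exact (hpc.pow 2).mul hf
  have hcont : ContinuousOn (fun x => -((T - x) ^ 2 / 2) * ∫ τ in (0:ℝ)..x, f τ) (Icc 0 T) :=
    (((hpc.pow 2).div_const 2).neg).mul hc
  have h := intervalIntegral.integral_eq_sub_of_hasDerivAt_of_le hT.le hcont hH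
    (hi1.sub (hi2.const_mul (1 / 2)))
  rw [intervalIntegral.integral_sub hi1 (hi2.const_mul (1 / 2)),
    intervalIntegral.integral_const_mul] at h
  simp only [sub_self, intervalIntegral.integral_same, mul_zero] at h
  norm_num at h
  linarith

/-- **If the mass stays below `2m` on `[0,T]` there is a contradiction.**

Proof.  Write `a = nα-4`, `GW = ∫_0^T (T-t) G`, `DW = ∫_0^T (T-t)² D`, `A = exp(2gt) ∈ [1,2]`.
In `virial_int`: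
(1) `∫ A c (B2 M + 2B0 P) ≤ 2c B2 2m T + 4 B0 c ∫P`, `P = G + j`, `c∫P ≤ 8m/α + 5m/4`
(`mass_balance`, `grad_bound`);  `∫ A 2B0 δ√M ≤ 4 B0 δ √(2m) T`.
(2) `-(13/8) a s² ∫(T-t) A G ≤ -(13/8) a s² GW`; `(nα/8) e0`: `≤ (nα/4) s² e0 ∫ (T-t) A ≤
(nα/4) s² e0 T²`.
(3) by `e_lower`, `A e ≥ e0/2 + (c/4)∫_0^t D - 2gα ∫_0^t G - 2δ²T/c`, and
`∫_0^T (T-t)∫_0^t f = ∫_0^T ((T-t)²/2) f`, `(T-t)² ≤ T (T-t)`:
`-4 s² nα ∫ (T-t) A e ≤ -s² nα e0 T² - (s² nα c/2) DW + 4 s² nα² g T GW + 4 s² nα δ² T³/c`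
and `4 nα² g T ≤ a/4` (`H2`).
(4) `2s (T-t) A c √D (B2√M + 2B1√G) ≤ 4 s c (T-t)√D (…) ≤ (s² nα c/2)(T-t)² D
+ (8/(nα)) c (B2√M+2B1√G)²`, `(8/(nα)) ≤ 2`, `(x+y)² ≤ 2x²+2y²`: total
`≤ (s² nα c/2) DW + 4c (B2² 2m T + 4 B1² ∫G) ≤ … + 8 c B2² m T + 128 B1² m/α`.
(5) `2 s (T-t) A δ (B2√M + 2B1√G) ≤ 4 δ (T-t)(B2 √(2m) + B1(1+G))`, for `δ` small
`≤ (a/4) s² GW + small`.
Sum: coefficient of `a s² GW`: `-13/8 + 1/4 + 1/4 ≤ 0`; `e0`: `-(3/4) s² nα e0 T² ≤ -(3/2) e0 T²`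
(`s² ≥ 1/2`, `nα ≥ 4`).  The rest is `≤ B0 m (1 + 4(5/4+8/α)) + 128 B1² m/α + 4 c m T (B2+2B2²)
+ small ≤ e0 T² + small` by `H5`.  Contradiction for `δ` small (`small ≤ e0 T²/4`). -/
theorem virial_contra {p : Par} (hp : p.OK) : ∃ δ0 > 0, ∀ δ, 0 < δ → δ ≤ δ0 →
    ∀ M G e D V Y : ℝ → ℝ, Flow p δ M G e D V Y →
    ¬ (∀ t ∈ Icc 0 p.T, M t ≤ 2 * p.m) := by
  obtain ⟨δ1, hδ1, hmb⟩ := mass_balance hp
  obtain ⟨δ2, hδ2, hgb⟩ := grad_bound hp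
  have hn := hp.hn
  have hα0 := hp.hα0
  have hα := hp.hα
  have hα4 := hp.hα4
  have hg := hp.hg
  have hc := hp.hc
  have hs := hp.hs
  have hT := hp.hT
  have hm := hp.hm
  have he := hp.he
  have hB0 := hp.hB0
  have hB1 := hp.hB1
  have hB2 := hp.hB2
  have hs2 : 1 / 2 ≤ p.s ^ 2 := by
    have h1 := hp.hc2
    have h2 := hp.hcs
    linarith
  have hs1 : p.s ≤ 1 := by
    have h2 := hp.hcs
    exact (sq_le_one_iff₀ hs.le).1 (by linarith [sq_nonneg p.c])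
  have ha : 0 < p.n * p.α - 4 := by linarith
  obtain ⟨K, hK⟩ : ∃ K, K = 4 * p.B0 * √(2 * p.m) * p.T + 4 * p.s ^ 2 * (p.n * p.α) * p.T ^ 3 / p.c
    + 4 * p.T ^ 2 * (p.B2 * √(2 * p.m) + p.B1) := ⟨_, rfl⟩
  have hnα0 : 0 ≤ p.n * p.α := by linarith
  have hK0 : 0 ≤ K := by
    rw [hK]
    positivity
  obtain ⟨δ3, hδ3⟩ : ∃ δ3, δ3 = (p.n * p.α - 4) * p.s ^ 2 / (16 * (p.B1 + 1)) := ⟨_, rfl⟩
  obtain ⟨δ4, hδ4⟩ : ∃ δ4, δ4 = p.e0 * p.T ^ 2 / (4 * (K + 1)) := ⟨_, rfl⟩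
  have hδ3p : 0 < δ3 := by rw [hδ3]; positivity
  have hδ4p : 0 < δ4 := by rw [hδ4]; positivity
  refine ⟨min (min δ1 δ2) (min (min δ3 δ4) 1), by positivity, ?_⟩
  intro δ hδ hδle M G e D V Y hF hM
  have hδ1' : δ ≤ δ1 := hδle.trans ((min_le_left _ _).trans (min_le_left _ _))
  have hδ2' : δ ≤ δ2 := hδle.trans ((min_le_left _ _).trans (min_le_right _ _))
  have hδ3' : δ ≤ δ3 :=
    hδle.trans ((min_le_right _ _).trans ((min_le_left _ _).trans (min_le_left _ _)))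
  have hδ4' : δ ≤ δ4 :=
    hδle.trans ((min_le_right _ _).trans ((min_le_left _ _).trans (min_le_right _ _)))
  have hδ5' : δ ≤ 1 := hδle.trans ((min_le_right _ _).trans (min_le_right _ _))
  have hδB : 4 * δ * p.B1 ≤ (p.n * p.α - 4) / 4 * p.s ^ 2 := by
    rw [hδ3, le_div_iff₀ (by positivity)] at hδ3'
    linarith
  have hδK : δ * K ≤ p.e0 * p.T ^ 2 / 4 := by
    rw [hδ4, le_div_iff₀ (by positivity)] at hδ4'
    linarith
  have hTT : p.T ∈ Icc 0 p.T := ⟨hT.le, le_rfl⟩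
  have hj1 := (hmb δ hδ hδ1' M G e D V Y hF p.T hTT hM).1
  have hg1 := hgb δ hδ hδ2' M G e D V Y hF p.T hTT hM
  have hvi := virial_int hp hδ.le hF hM
  have hsub : Icc 0 p.T ⊆ Icc 0 p.T2 := by
    apply Icc_subset_Icc_right
    unfold Par.T2
    have : 0 ≤ p.T * (1024 / p.α) := by positivity
    linarith
  have hu : uIcc 0 p.T = Icc 0 p.T := uIcc_of_le hT.le
  have cM := hF.cM.mono hsub
  have cG := hF.cG.mono hsub
  have ce := hF.ce.mono hsub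
  have cD := hF.cD.mono hsub
  have cP : ContinuousOn (fun t => p.T - t) (Icc 0 p.T) := by fun_prop
  have prim : ∀ f : ℝ → ℝ, ContinuousOn f (Icc 0 p.T) →
      ContinuousOn (fun x => ∫ τ in (0:ℝ)..x, f τ) (Icc 0 p.T) := by
    intro f hf
    have hfi : IntervalIntegrable f volume 0 p.T := by
      apply ContinuousOn.intervalIntegrable
      rwa [hu]
    have h1 := intervalIntegral.continuousOn_primitive_interval' (f := f) (μ := volume) hfi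
      left_mem_uIcc
    rwa [hu] at h1
  have cID := prim D cD
  have cIG := prim G cG
  have ii : ∀ f : ℝ → ℝ, ContinuousOn f (Icc 0 p.T) → IntervalIntegrable f volume 0 p.T := by
    intro f hf
    apply ContinuousOn.intervalIntegrable
    rwa [hu]
  have cj : ContinuousOn (fun t => p.α / 2 * G t + (p.α + 2) * e t) (Icc 0 p.T) :=
    (continuousOn_const.mul cG).add (continuousOn_const.mul ce)
  -- integrals
  obtain ⟨I1, hI1⟩ : ∃ I1, I1 = ∫ t in (0:ℝ)..p.T, G t := ⟨_, rfl⟩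
  obtain ⟨I2, hI2⟩ : ∃ I2, I2 = ∫ t in (0:ℝ)..p.T, (p.α / 2 * G t + (p.α + 2) * e t) := ⟨_, rfl⟩
  obtain ⟨I3, hI3⟩ : ∃ I3, I3 = ∫ t in (0:ℝ)..p.T, (p.T - t) * G t := ⟨_, rfl⟩
  obtain ⟨I4, hI4⟩ : ∃ I4, I4 = ∫ t in (0:ℝ)..p.T, (p.T - t) ^ 2 * D t := ⟨_, rfl⟩
  have hI5 : ∫ t in (0:ℝ)..p.T, (p.T - t) * (∫ τ in (0:ℝ)..t, D τ) = 1 / 2 * I4 := by
    rw [hI4]; exact O3c_ibp hT cD
  obtain ⟨I6, hI6⟩ : ∃ I6, I6 = ∫ t in (0:ℝ)..p.T, (p.T - t) * (∫ τ in (0:ℝ)..t, G τ) := ⟨_, rfl⟩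
  have hI6' : I6 ≤ p.T / 2 * I3 := by
    rw [hI6, O3c_ibp hT cG, hI3]
    have h1 : ∫ t in (0:ℝ)..p.T, (p.T - t) ^ 2 * G t ≤
        ∫ t in (0:ℝ)..p.T, p.T * ((p.T - t) * G t) := by
      refine intervalIntegral.integral_mono_on hT.le (ii _ ((cP.pow 2).mul cG))
        (ii _ (continuousOn_const.mul (cP.mul cG))) fun t ht => ?_
      have h2 : 0 ≤ (p.T - t) * G t := mul_nonneg (by linarith [ht.2]) (hF.Gnn t (hsub ht))
      have h3 : p.T - t ≤ p.T := by linarith [ht.1]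
      have h4 := mul_le_mul_of_nonneg_right h3 h2
      calc (p.T - t) ^ 2 * G t = (p.T - t) * ((p.T - t) * G t) := by ring
        _ ≤ _ := h4
    rw [intervalIntegral.integral_const_mul] at h1
    linarith
  have hI3n : 0 ≤ I3 := by
    rw [hI3]
    exact intervalIntegral.integral_nonneg hT.le fun t ht =>
      mul_nonneg (by linarith [ht.2]) (hF.Gnn t (hsub ht))
  have hI7 : ∫ t in (0:ℝ)..p.T, (p.T - t) = p.T ^ 2 / 2 := by
    rw [intervalIntegral.integral_sub (by simp) (by simp)]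
    simp
    ring
  obtain ⟨k1, hk1⟩ : ∃ k, k = 4 * p.c * p.B0 + 16 * p.c * p.B1 ^ 2 := ⟨_, rfl⟩
  obtain ⟨k2, hk2⟩ : ∃ k, k = 4 * p.c * p.B0 := ⟨_, rfl⟩
  obtain ⟨k3, hk3⟩ : ∃ k, k = -(13 / 8) * (p.n * p.α - 4) * p.s ^ 2
    + (p.n * p.α - 4) / 4 * p.s ^ 2 := ⟨_, rfl⟩
  obtain ⟨k4, hk4⟩ : ∃ k, k = p.s ^ 2 * (p.n * p.α) * p.c / 2 := ⟨_, rfl⟩
  obtain ⟨k5, hk5⟩ : ∃ k, k = -(p.s ^ 2 * (p.n * p.α) * p.c) := ⟨_, rfl⟩
  obtain ⟨k6, hk6⟩ : ∃ k, k = 8 * p.s ^ 2 * (p.n * p.α) * p.g * p.α := ⟨_, rfl⟩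
  obtain ⟨k7, hk7⟩ : ∃ k, k = p.n * p.α / 2 * p.s ^ 2 * p.e0 - 2 * p.s ^ 2 * (p.n * p.α) * p.e0
    + 8 * p.s ^ 2 * (p.n * p.α) * δ ^ 2 * p.T / p.c := ⟨_, rfl⟩
  obtain ⟨k8, hk8⟩ : ∃ k, k = 4 * p.c * p.B2 * p.m + 4 * p.B0 * δ * √(2 * p.m)
    + 8 * p.c * p.B2 ^ 2 * p.m + 4 * δ * p.T * (p.B2 * √(2 * p.m) + p.B1) := ⟨_, rfl⟩
  have hmono : (∫ t in (0:ℝ)..p.T,
      (Real.exp (2 * p.g * t) * (p.c * (p.B2 * M t + 2 * p.B0 * ((p.α + 2) * (G t / 2 + e t)))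
          + 2 * p.B0 * δ * √(M t))
        + 2 * p.s * (p.T - t) * Real.exp (2 * p.g * t) *
          (p.s * (-(13 / 16) * (p.n * p.α - 4) * G t - 2 * p.n * p.α * e t
              + p.n * p.α / 8 * p.e0)
            + (p.c * √(D t) + δ) * (p.B2 * √(M t) + 2 * p.B1 * √(G t))))) ≤
      ∫ t in (0:ℝ)..p.T, (k1 * G t + k2 * (p.α / 2 * G t + (p.α + 2) * e t)
        + k3 * ((p.T - t) * G t) + k4 * ((p.T - t) ^ 2 * D t)
        + k5 * ((p.T - t) * ∫ τ in (0:ℝ)..t, D τ) + k6 * ((p.T - t) * ∫ τ in (0:ℝ)..t, G τ)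
        + k7 * (p.T - t) + k8) := by
    refine intervalIntegral.integral_mono_on hT.le (ii _ ?_) (ii _ ?_) fun t ht => ?_
    · have hexp : ContinuousOn (fun t : ℝ => Real.exp (2 * p.g * t)) (Icc 0 p.T) := by fun_prop
      have hsM : ContinuousOn (fun t => √(M t)) (Icc 0 p.T) := cM.sqrt
      have hsG : ContinuousOn (fun t => √(G t)) (Icc 0 p.T) := cG.sqrt
      have hsD : ContinuousOn (fun t => √(D t)) (Icc 0 p.T) := cD.sqrt
      fun_prop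
    · fun_prop
    · have hgT : p.g * p.T ≤ 1 / 4096 := by
        have h1 := hp.H1
        linarith
      have hgt : p.g * t ≤ 1 / 4096 := by
        have h1 : p.g * t ≤ p.g * p.T := mul_le_mul_of_nonneg_left ht.2 hg.le
        linarith
      have hgt0 : 0 ≤ p.g * t := mul_nonneg hg.le ht.1
      have hA1 : 1 ≤ Real.exp (2 * p.g * t) := Real.one_le_exp (by linarith)
      have hA2 : Real.exp (2 * p.g * t) ≤ 2 := by
        have h1 : Real.exp (2 * p.g * t) ≤ Real.exp (1 / 2) := Real.exp_le_exp.2 (by linarith)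
        have h2 : Real.exp (1 / 2) ≤ 2 := by
          have h3 : Real.exp (1 / 2) ^ 2 ≤ 2 ^ 2 := by
            rw [← Real.exp_nat_mul]
            norm_num
            have := Real.exp_one_lt_d9
            linarith
          exact le_of_sq_le_sq h3 (by norm_num)
        exact h1.trans h2
      have hIDn : 0 ≤ ∫ τ in (0:ℝ)..t, D τ := intervalIntegral.integral_nonneg ht.1 fun x hx =>
        hF.Dnn x (hsub ⟨hx.1, hx.2.trans ht.2⟩)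
      have hIGn : 0 ≤ ∫ τ in (0:ℝ)..t, G τ := intervalIntegral.integral_nonneg ht.1 fun x hx =>
        hF.Gnn x (hsub ⟨hx.1, hx.2.trans ht.2⟩)
      have h := O3c_point (c := p.c) (s := p.s) (g := p.g) (α := p.α) (n := p.n) (B0 := p.B0)
        (B1 := p.B1) (B2 := p.B2) (T := p.T) (m := p.m) (e0 := p.e0) (δ := δ)
        (A := Real.exp (2 * p.g * t)) (M := M t) (G := G t) (e := e t) (D := D t)
        (ID := ∫ τ in (0:ℝ)..t, D τ) (IG := ∫ τ in (0:ℝ)..t, G τ) (τ := p.T - t)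
        hc hs hs1 hg.le hα0 hα hB0 hB1 hB2 hT.le he hδ.le hA1 hA2 (hF.Mnn t (hsub ht)) (hM t ht)
        (hF.Gnn t (hsub ht)) (hF.Dnn t (hsub ht)) (hF.Pnn t (hsub ht)) hIDn hIGn
        (by linarith [ht.2]) (by linarith [ht.1]) (e_lower hp hδ.le hF ht) hδB
      rw [hk1, hk2, hk3, hk4, hk5, hk6, hk7, hk8]
      exact h
  have hint : (∫ t in (0:ℝ)..p.T, (k1 * G t + k2 * (p.α / 2 * G t + (p.α + 2) * e t)
        + k3 * ((p.T - t) * G t) + k4 * ((p.T - t) ^ 2 * D t)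
        + k5 * ((p.T - t) * ∫ τ in (0:ℝ)..t, D τ) + k6 * ((p.T - t) * ∫ τ in (0:ℝ)..t, G τ)
        + k7 * (p.T - t) + k8)) =
      k1 * I1 + k2 * I2 + k3 * I3 + k4 * I4 + k5 * (1 / 2 * I4) + k6 * I6 + k7 * (p.T ^ 2 / 2)
        + k8 * p.T := by
    have i1 : IntervalIntegrable (fun t => k1 * G t) volume 0 p.T := ii _ (by fun_prop)
    have i2 : IntervalIntegrable (fun t => k2 * (p.α / 2 * G t + (p.α + 2) * e t)) volume 0 p.T :=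
      ii _ (by fun_prop)
    have i3 : IntervalIntegrable (fun t => k3 * ((p.T - t) * G t)) volume 0 p.T :=
      ii _ (by fun_prop)
    have i4 : IntervalIntegrable (fun t => k4 * ((p.T - t) ^ 2 * D t)) volume 0 p.T :=
      ii _ (by fun_prop)
    have i5 : IntervalIntegrable (fun t => k5 * ((p.T - t) * ∫ τ in (0:ℝ)..t, D τ)) volume 0 p.T :=
      ii _ (by fun_prop)
    have i6 : IntervalIntegrable (fun t => k6 * ((p.T - t) * ∫ τ in (0:ℝ)..t, G τ)) volume 0 p.T :=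
      ii _ (by fun_prop)
    have i7 : IntervalIntegrable (fun t => k7 * (p.T - t)) volume 0 p.T := ii _ (by fun_prop)
    have i8 : IntervalIntegrable (fun _ : ℝ => k8) volume 0 p.T := ii _ (by fun_prop)
    rw [intervalIntegral.integral_add ((((((i1.add i2).add i3).add i4).add i5).add i6).add i7) i8,
      intervalIntegral.integral_add (((((i1.add i2).add i3).add i4).add i5).add i6) i7,
      intervalIntegral.integral_add ((((i1.add i2).add i3).add i4).add i5) i6,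
      intervalIntegral.integral_add (((i1.add i2).add i3).add i4) i5,
      intervalIntegral.integral_add ((i1.add i2).add i3) i4,
      intervalIntegral.integral_add (i1.add i2) i3,
      intervalIntegral.integral_add i1 i2]
    simp only [intervalIntegral.integral_const_mul, intervalIntegral.integral_const, smul_eq_mul,
      sub_zero]
    rw [← hI1, ← hI2, ← hI3, ← hI4, hI5, ← hI6, hI7]
    ring
  rw [hint] at hmono
  rw [← hI1] at hg1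
  rw [← hI2] at hj1
  -- the final computation
  have hfin : 0 ≤ p.B0 * p.m + (k1 * I1 + k2 * I2 + k3 * I3 + k4 * I4 + k5 * (1 / 2 * I4) + k6 * I6
      + k7 * (p.T ^ 2 / 2) + k8 * p.T) := hvi.trans (by linarith)
  -- term with `I1`
  have t1 : k1 * I1 ≤ (4 * p.B0 + 16 * p.B1 ^ 2) * (8 * p.m / p.α) := by
    have h1 : k1 * I1 = (4 * p.B0 + 16 * p.B1 ^ 2) * (p.c * I1) := by rw [hk1]; ring
    rw [h1]
    exact mul_le_mul_of_nonneg_left hg1 (by positivity)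
  have t2 : k2 * I2 ≤ 4 * p.B0 * (5 / 4 * p.m) := by
    have h1 : k2 * I2 = 4 * p.B0 * (p.c * I2) := by rw [hk2]; ring
    rw [h1]
    exact mul_le_mul_of_nonneg_left hj1 (by positivity)
  have t36 : k3 * I3 + k6 * I6 ≤ 0 := by
    have h1 : k6 * I6 ≤ k6 * (p.T / 2 * I3) :=
      mul_le_mul_of_nonneg_left hI6' (by rw [hk6]; positivity)
    have h2 : k6 * (p.T / 2 * I3) = 4 * p.s ^ 2 * (p.n * p.α ^ 2 * (p.g * p.T)) * I3 := by
      rw [hk6]; ring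
    have h3 : 4 * p.s ^ 2 * (p.n * p.α ^ 2 * (p.g * p.T)) * I3 ≤
        (p.n * p.α - 4) / 4 * p.s ^ 2 * I3 := by
      refine mul_le_mul_of_nonneg_right ?_ hI3n
      have h4 := hp.H2
      have h5 : 0 ≤ p.s ^ 2 / 4 := by positivity
      have h7 := mul_le_mul_of_nonneg_left h4 h5
      linarith
    have h6 : 0 ≤ (p.n * p.α - 4) * p.s ^ 2 * I3 := by positivity
    rw [hk3]
    linarith
  have t45 : k4 * I4 + k5 * (1 / 2 * I4) = 0 := by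
    rw [hk4, hk5]; ring
  have t78 : k7 * (p.T ^ 2 / 2) + k8 * p.T = -(3 / 4) * (p.s ^ 2 * (p.n * p.α)) * (p.e0 * p.T ^ 2)
      + 4 * p.c * p.B2 * p.m * p.T + 8 * p.c * p.B2 ^ 2 * p.m * p.T
      + (δ * (4 * p.B0 * √(2 * p.m) * p.T + 4 * p.T ^ 2 * (p.B2 * √(2 * p.m) + p.B1))
        + δ ^ 2 * (4 * p.s ^ 2 * (p.n * p.α) * p.T ^ 3 / p.c)) := by
    rw [hk7, hk8]; ring
  have hsm : δ * (4 * p.B0 * √(2 * p.m) * p.T + 4 * p.T ^ 2 * (p.B2 * √(2 * p.m) + p.B1))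
        + δ ^ 2 * (4 * p.s ^ 2 * (p.n * p.α) * p.T ^ 3 / p.c) ≤ p.e0 * p.T ^ 2 / 4 := by
    have h1 : 0 ≤ 4 * p.s ^ 2 * (p.n * p.α) * p.T ^ 3 / p.c := by positivity
    have h2 : δ ^ 2 ≤ δ := by
      rw [sq]
      exact mul_le_of_le_one_left hδ.le hδ5'
    have h3 := mul_le_mul_of_nonneg_right h2 h1
    rw [hK] at hδK
    linarith
  have hse : 3 / 2 * (p.e0 * p.T ^ 2) ≤ 3 / 4 * (p.s ^ 2 * (p.n * p.α)) * (p.e0 * p.T ^ 2) := by
    refine mul_le_mul_of_nonneg_right ?_ (by positivity)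
    have h1 : 1 / 2 * 4 ≤ p.s ^ 2 * (p.n * p.α) :=
      mul_le_mul hs2 hα.le (by norm_num) (by positivity)
    linarith
  have hH5 := hp.H5
  have heT : 0 < p.e0 * p.T ^ 2 := by positivity
  have hBm : 0 ≤ p.B0 * p.m := by positivity
  have hx1 : (4 * p.B0 + 16 * p.B1 ^ 2) * (8 * p.m / p.α) =
      p.B0 * p.m * (32 / p.α) + 128 * p.B1 ^ 2 * p.m / p.α := by ring
  rw [hx1] at t1
  linarith

end CGL
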