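import Pool.Agent.W_317df6_h83.O2

/-!
# The energy when the mass has doubled (task O4)
-/

set_option autoImplicit false

namespace CGL

open MeasureTheory Set

/-- Proof.  `j² ≤ D M ≤ 2m D` and Cauchy-Schwarz on `[0,τ]`, `τ ≤ T`:
`∫D ≥ (1/(2m)) ∫j² ≥ (1/(2mT)) (∫j)² ≥ (1/(2mT)) (m/(4c))² = m/(32 T c²)` (`mass_balance`).
`e_lower` and `grad_bound` (`c∫G ≤ 8m/α`):
`c e τ ≥ c e0/2 + m/(128 T) - 8 g m - δ² T ≥ m/(128T) - m/(512T) ≥ m/(256T)`
(`8gT ≤ 8/4096 = 1/512` by `H1`, `α ≤ 4`; `δ² T ≤ c e0/2` for `δ` small). -/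
theorem energy_at_doubling {p : Par} (hp : p.OK) : ∃ δ0 > 0, ∀ δ, 0 < δ → δ ≤ δ0 →
    ∀ M G e D V Y : ℝ → ℝ, Flow p δ M G e D V Y → ∀ τ ∈ Ioc 0 p.T,
    (∀ t ∈ Icc 0 τ, M t ≤ 2 * p.m) → M τ = 2 * p.m →
    p.m / (256 * p.T) ≤ p.c * e τ := by
  obtain ⟨δ1, hδ1, H1'⟩ := mass_balance hp
  obtain ⟨δ2, hδ2, H2'⟩ := grad_bound hp
  have hT := hp.hT
  have hm := hp.hm
  have hc := hp.hc
  have hg := hp.hg
  have hα := hp.hα0
  have he := hp.he
  have hq : 0 < p.c * p.e0 / (2 * p.T) := by positivity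
  refine ⟨min (min δ1 δ2) (√(p.c * p.e0 / (2 * p.T))), by positivity, ?_⟩
  intro δ hδ hδ0 M G e D V Y h τ hτ hM hMτ
  have hd1 : δ ≤ δ1 := le_trans hδ0 (le_trans (min_le_left _ _) (min_le_left _ _))
  have hd2 : δ ≤ δ2 := le_trans hδ0 (le_trans (min_le_left _ _) (min_le_right _ _))
  have hd3 : δ ≤ √(p.c * p.e0 / (2 * p.T)) := le_trans hδ0 (min_le_right _ _)
  have hτ' : τ ∈ Icc 0 p.T := ⟨hτ.1.le, hτ.2⟩
  have hJ := (H1' δ hδ hd1 M G e D V Y h τ hτ' hM).2 hMτ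
  have hG := H2' δ hδ hd2 M G e D V Y h τ hτ' hM
  have hE := e_lower hp hδ.le h hτ'
  have hTT2 : p.T ≤ p.T2 := by
    unfold Par.T2
    have : 0 ≤ p.T * (1024 / p.α) := by positivity
    nlinarith
  have hsub : Icc 0 τ ⊆ Icc 0 p.T2 := Icc_subset_Icc le_rfl (hτ.2.trans hTT2)
  -- the Cauchy-Schwarz step
  set J := ∫ t in (0:ℝ)..τ, (p.α / 2 * G t + (p.α + 2) * e t) with hJdef
  set ID := ∫ t in (0:ℝ)..τ, D t with hIDdef
  set IG := ∫ t in (0:ℝ)..τ, G t with hIGdef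
  set l : ℝ := 1 / (8 * p.c * p.T) with hl
  have hlpos : 0 < l := by positivity
  have hcj : ContinuousOn (fun t => p.α / 2 * G t + (p.α + 2) * e t) (Icc 0 τ) :=
    ((h.cG.mono hsub).const_mul _ |>.add ((h.ce.mono hsub).const_mul _) :)
  have hiD : IntervalIntegrable D volume 0 τ := by
    apply ContinuousOn.intervalIntegrable
    rw [uIcc_of_le hτ.1.le]
    exact h.cD.mono hsub
  have hij : IntervalIntegrable (fun t => p.α / 2 * G t + (p.α + 2) * e t) volume 0 τ := by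
    apply ContinuousOn.intervalIntegrable
    rw [uIcc_of_le hτ.1.le]
    exact hcj
  have hpt : ∀ t ∈ Icc 0 τ, 2 * l * (p.α / 2 * G t + (p.α + 2) * e t)
      ≤ 2 * p.m * l ^ 2 + D t := by
    intro t ht
    have h1 := h.CS t (hsub ht)
    have h2 := hM t ht
    have h3 := h.Dnn t (hsub ht)
    set j := p.α / 2 * G t + (p.α + 2) * e t
    have h4 : j ^ 2 ≤ D t * (2 * p.m) := le_trans h1 (mul_le_mul_of_nonneg_left h2 h3)
    have h5 : 0 ≤ (2 * p.m * l - j) ^ 2 := sq_nonneg _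
    have h6 : 2 * p.m * (2 * l * j) ≤ 2 * p.m * (2 * p.m * l ^ 2 + D t) := by nlinarith
    exact le_of_mul_le_mul_left h6 (by positivity)
  have hint : 2 * l * J ≤ 2 * p.m * l ^ 2 * τ + ID := by
    have := intervalIntegral.integral_mono_on hτ.1.le (hij.const_mul (2 * l))
      (intervalIntegrable_const.add hiD) hpt
    rw [intervalIntegral.integral_const_mul, intervalIntegral.integral_add
      intervalIntegrable_const hiD, intervalIntegral.integral_const] at this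
    simp only [smul_eq_mul, sub_zero] at this
    rw [hJdef, hIDdef]
    linarith
  have hID : p.m / (32 * p.c ^ 2 * p.T) ≤ ID := by
    have h1 : p.m / (16 * p.c ^ 2 * p.T) ≤ 2 * l * J := by
      have : p.m / (16 * p.c ^ 2 * p.T) = 2 * l / p.c * (p.m / 4) := by
        rw [hl]; field_simp; norm_num
      rw [this]
      have h2 : 2 * l * J = 2 * l / p.c * (p.c * J) := by field_simp
      rw [h2]
      exact mul_le_mul_of_nonneg_left hJ (by positivity)
    have h2 : 2 * p.m * l ^ 2 * τ ≤ p.m / (32 * p.c ^ 2 * p.T) := by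
      have h3 : 2 * p.m * l ^ 2 * τ ≤ 2 * p.m * l ^ 2 * p.T :=
        mul_le_mul_of_nonneg_left hτ.2 (by positivity)
      have h4 : 2 * p.m * l ^ 2 * p.T = p.m / (32 * p.c ^ 2 * p.T) := by
        rw [hl]; field_simp; norm_num
      linarith
    have h3 : p.m / (16 * p.c ^ 2 * p.T) = 2 * (p.m / (32 * p.c ^ 2 * p.T)) := by
      field_simp; norm_num
    linarith
  have hδT : δ ^ 2 * p.T ≤ p.c * p.e0 / 2 := by
    have h1 : δ ^ 2 ≤ p.c * p.e0 / (2 * p.T) := by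
      have := Real.sq_sqrt hq.le
      rw [← this]
      exact pow_le_pow_left₀ hδ.le hd3 2
    calc δ ^ 2 * p.T ≤ p.c * p.e0 / (2 * p.T) * p.T := mul_le_mul_of_nonneg_right h1 hT.le
      _ = p.c * p.e0 / 2 := by field_simp
  have hg8 : p.g * p.α * (p.c * IG) ≤ p.m / (512 * p.T) := by
    have h1 : p.g * p.α * (p.c * IG) ≤ p.g * p.α * (8 * p.m / p.α) :=
      mul_le_mul_of_nonneg_left hG (by positivity)
    have h2 : p.g * p.α * (8 * p.m / p.α) = 8 * p.m * (p.g * p.T) / p.T := by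
      field_simp
    have h3 : p.g * p.T ≤ 4 / 16384 := le_trans hp.H1 (by linarith [hp.hα4])
    have h4 : 8 * p.m * (p.g * p.T) / p.T ≤ 8 * p.m * (4 / 16384) / p.T :=
      div_le_div_of_nonneg_right (mul_le_mul_of_nonneg_left h3 (by positivity)) hT.le
    have h5 : 8 * p.m * (4 / 16384) / p.T = p.m / (512 * p.T) := by
      field_simp; norm_num
    linarith
  have hmain : p.c * (p.e0 / 2 + p.c / 4 * ID - p.g * p.α * IG - δ ^ 2 * p.T / p.c)
      ≤ p.c * e τ := mul_le_mul_of_nonneg_left hE hc.le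
  have hex : p.c * (p.e0 / 2 + p.c / 4 * ID - p.g * p.α * IG - δ ^ 2 * p.T / p.c)
      = p.c * p.e0 / 2 + p.c ^ 2 / 4 * ID - p.g * p.α * (p.c * IG) - δ ^ 2 * p.T := by
    field_simp
  have hID2 : p.m / (128 * p.T) ≤ p.c ^ 2 / 4 * ID := by
    have h1 : p.m / (128 * p.T) = p.c ^ 2 / 4 * (p.m / (32 * p.c ^ 2 * p.T)) := by
      field_simp; norm_num
    rw [h1]
    exact mul_le_mul_of_nonneg_left hID (by positivity)
  have hfin : p.m / (256 * p.T) ≤ p.m / (128 * p.T) - p.m / (512 * p.T) := by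
    have h0 : 0 < p.m / p.T := by positivity
    have h1 : p.m / (256 * p.T) = (p.m / p.T) / 256 := by field_simp
    have h2 : p.m / (128 * p.T) = (p.m / p.T) / 128 := by field_simp
    have h3 : p.m / (512 * p.T) = (p.m / p.T) / 512 := by field_simp
    rw [h1, h2, h3]
    linarith
  linarith

end CGL
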