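import Pool.Agent.W_317df6_h83.O5a

/-!
# Levine argument after the mass has doubled (task O5)
-/

set_option autoImplicit false

namespace CGL

open MeasureTheory Set

/-- **Levine.**  With `β = 1 + α/4`, `η = α/(24+10α)`, `j ≥ (α+2)e`:
`e'M - β e M' ≥ j[(1-2η)cj - gM - 2βc(1+η)e] + 2βg e M ≥ j[c e α/4 - gM] ≥ 0`
(`(1-2η)(α+2) - 2β(1+η) = α/4`, `g ≤ bα/4`), so `e M^{-β}` is nondecreasing on `[τ,T2]`:
`e ≥ e(τ)(M/(2m))^β`.  `M' ≥ 2c(1-η)(α+2)e - 2gM ≥ 2 c e`.  So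
`(M^{-α/4})' = -(α/4) M^{-β} M' ≤ -(α/2) c e(τ)(2m)^{-β}` and over `[τ,T2]`, of length
`≥ 1024T/α`: `0 < M(T2)^{-α/4} ≤ (2m)^{-α/4} - 512 T c e(τ) (2m)^{-β} ≤ 0`. -/
theorem levine {p : Par} (hp : p.OK) : ∃ δ0 > 0, ∀ δ, 0 < δ → δ ≤ δ0 →
    ∀ M G e D V Y : ℝ → ℝ, Flow p δ M G e D V Y → ∀ τ ∈ Ioc 0 p.T, M τ = 2 * p.m →
    ¬ p.m / (256 * p.T) ≤ p.c * e τ := by
  obtain ⟨δ0, hδ0, hstep⟩ := levine_step hp
  refine ⟨δ0, hδ0, ?_⟩
  intro δ hδ hδ' M G e D V Y F τ hτ hMτ heτ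
  have hst := hstep δ hδ hδ' M G e D V Y F τ hτ hMτ heτ
  have hα := hp.hα0
  have hc := hp.hc
  have hg := hp.hg
  have hT := hp.hT
  have hm := hp.hm
  set η : ℝ := p.α / (24 + 10 * p.α) with hη
  set b : ℝ := 1 / (1024 * p.T) with hb
  have hb0 : 0 < b := by positivity
  have hgb : p.g ≤ b * p.α / 16 := by
    have h := hp.H1
    have : b * p.α / 16 = (p.α / 16384) / p.T := by
      rw [hb]; field_simp; norm_num
    rw [this, le_div_iff₀ hT]
    exact h
  have hTT : p.T < p.T2 := by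
    unfold Par.T2
    have : 0 < p.T * (1024 / p.α) := by positivity
    nlinarith
  have hτT2 : τ ≤ p.T2 := hτ.2.trans hTT.le
  have hsub : Icc τ p.T2 ⊆ Icc 0 p.T2 := fun y hy => ⟨hτ.1.le.trans hy.1, hy.2⟩
  have hMp : ∀ t ∈ Icc τ p.T2, 0 < M t := fun t ht => lt_of_lt_of_le (by linarith) (hst t ht).1
  have hcM := F.cM.mono hsub
  have hce := F.ce.mono hsub
  -- derivatives
  have hder : ∀ t ∈ Ioo τ p.T2, ∃ M' e' : ℝ, HasDerivAt M M' t ∧ HasDerivAt e e' t ∧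
      2 * (p.c * e t) ≤ M' ∧ 0 ≤ e' * M t - (1 + p.α / 4) * e t * M' := by
    intro t ht
    have htI : t ∈ Icc τ p.T2 := ⟨ht.1.le, ht.2.le⟩
    obtain ⟨-, h2, h3⟩ := hst t htI
    obtain ⟨M', e', hM', he', i1, i2, i3⟩ := h3 ht.2
    obtain ⟨s1, -, s3⟩ := O5a_sign hα hη hc hb0 hg hgb rfl (hMp t htI) h2
      (F.Gnn t (hsub htI)) i1 i2 i3
    exact ⟨M', e', hM', he', s1, s3⟩
  set β : ℝ := 1 + p.α / 4 with hβ
  -- `e M^{-β}` is nondecreasing
  have hmono : MonotoneOn (fun t => e t * M t ^ (-β)) (Icc τ p.T2) := by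
    refine monotoneOn_of_deriv_nonneg (convex_Icc _ _)
      (hce.mul (hcM.rpow_const fun y hy => Or.inl (hMp y hy).ne')) ?_ ?_
    · intro t ht
      rw [interior_Icc] at ht
      obtain ⟨M', e', hM', he', -⟩ := hder t ht
      exact (he'.mul (hM'.rpow_const (Or.inl (hMp t ⟨ht.1.le, ht.2.le⟩).ne'))).differentiableAt.differentiableWithinAt
    · intro t ht
      rw [interior_Icc] at ht
      obtain ⟨M', e', hM', he', -, s3⟩ := hder t ht
      have hMt := hMp t ⟨ht.1.le, ht.2.le⟩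
      have hd : HasDerivAt (fun t => e t * M t ^ (-β)) _ t :=
        he'.mul (hM'.rpow_const (p := -β) (Or.inl hMt.ne'))
      rw [hd.deriv]
      have e1 : M t ^ (-β) = M t ^ (-β - 1) * M t := by
        rw [← Real.rpow_add_one hMt.ne']; congr 1; ring
      have e2 : e' * M t ^ (-β) + e t * (M' * -β * M t ^ (-β - 1))
          = M t ^ (-β - 1) * (e' * M t - β * e t * M') := by
        rw [e1]; ring
      rw [e2]
      exact mul_nonneg (Real.rpow_nonneg hMt.le _) s3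
  set C : ℝ := p.α / 2 * (p.c * (e τ * (2 * p.m) ^ (-β))) with hC
  have hanti : AntitoneOn (fun t => M t ^ (-(p.α / 4)) + C * t) (Icc τ p.T2) := by
    refine antitoneOn_of_deriv_nonpos (convex_Icc _ _)
      ((hcM.rpow_const fun y hy => Or.inl (hMp y hy).ne').add
        (continuousOn_const.mul continuousOn_id)) ?_ ?_
    · intro t ht
      rw [interior_Icc] at ht
      obtain ⟨M', e', hM', he', -⟩ := hder t ht
      exact ((hM'.rpow_const (Or.inl (hMp t ⟨ht.1.le, ht.2.le⟩).ne')).add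
        ((hasDerivAt_id t).const_mul C)).differentiableAt.differentiableWithinAt
    · intro t ht
      rw [interior_Icc] at ht
      obtain ⟨M', e', hM', he', s1, -⟩ := hder t ht
      have hMt := hMp t ⟨ht.1.le, ht.2.le⟩
      have hd : HasDerivAt (fun t => M t ^ (-(p.α / 4)) + C * t) _ t :=
        (hM'.rpow_const (p := -(p.α / 4)) (Or.inl hMt.ne')).add ((hasDerivAt_id t).const_mul C)
      rw [hd.deriv]
      have e1 : -(p.α / 4) - 1 = -β := by rw [hβ]; ring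
      rw [e1, mul_one]
      have h1 : e τ * (2 * p.m) ^ (-β) ≤ e t * M t ^ (-β) := by
        have := hmono ⟨le_rfl, hτT2⟩ ⟨ht.1.le, ht.2.le⟩ ht.1.le
        simpa [hMτ] using this
      have hr : 0 ≤ M t ^ (-β) := Real.rpow_nonneg hMt.le _
      have h2 : 2 * (p.c * e t) * M t ^ (-β) ≤ M' * M t ^ (-β) :=
        mul_le_mul_of_nonneg_right s1 hr
      have h3 : C ≤ p.α / 2 * (p.c * (e t * M t ^ (-β))) := by
        rw [hC]
        exact mul_le_mul_of_nonneg_left (mul_le_mul_of_nonneg_left h1 hc.le) (by positivity)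
      have h4 : p.α / 4 * (2 * (p.c * e t) * M t ^ (-β)) ≤ p.α / 4 * (M' * M t ^ (-β)) :=
        mul_le_mul_of_nonneg_left h2 (by positivity)
      linarith
  have hfin := hanti ⟨le_rfl, hτT2⟩ ⟨hτT2, le_rfl⟩ hτT2
  simp only [hMτ] at hfin
  have hpos : 0 < M p.T2 ^ (-(p.α / 4)) := Real.rpow_pos_of_pos (hMp _ ⟨hτT2, le_rfl⟩) _
  have h2m : 0 < 2 * p.m := by positivity
  have hlen : 1024 * p.T / p.α ≤ p.T2 - τ := by
    have : p.T2 = p.T + 1024 * p.T / p.α := by unfold Par.T2; ring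
    rw [this]; linarith [hτ.2]
  have hlow : (2 * p.m) ^ (-(p.α / 4)) ≤ C * (p.T2 - τ) := by
    have h1 : 2 * p.m / (512 * p.T) ≤ p.c * e τ := by
      have : 2 * p.m / (512 * p.T) = p.m / (256 * p.T) := by field_simp; norm_num
      rw [this]; exact heτ
    have hr : 0 < (2 * p.m) ^ (-β) := Real.rpow_pos_of_pos h2m _
    have h2 : p.α / 2 * (2 * p.m / (512 * p.T)) * (2 * p.m) ^ (-β) ≤ C := by
      rw [hC]
      have := mul_le_mul_of_nonneg_right h1 hr.le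
      have := mul_le_mul_of_nonneg_left this (by positivity : 0 ≤ p.α / 2)
      linarith
    have hC0 : 0 ≤ C := le_trans (by positivity) h2
    have h3 : (2 * p.m) ^ (-(p.α / 4)) = 2 * p.m * (2 * p.m) ^ (-β) := by
      rw [mul_comm (2 * p.m) ((2 * p.m) ^ (-β)), ← Real.rpow_add_one h2m.ne']
      congr 1
      rw [hβ]; ring
    calc (2 * p.m) ^ (-(p.α / 4))
        = p.α / 2 * (2 * p.m / (512 * p.T)) * (2 * p.m) ^ (-β) * (1024 * p.T / p.α) := by
          rw [h3]; field_simp; norm_num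
      _ ≤ C * (1024 * p.T / p.α) := mul_le_mul_of_nonneg_right h2 (by positivity)
      _ ≤ C * (p.T2 - τ) := mul_le_mul_of_nonneg_left hlen hC0
  linarith

end CGL
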