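import Pool.Agent.W_317df6_h83.OdeDefs

/-!
# Levine argument, step 1 (task O5a)
-/

set_option autoImplicit false

namespace CGL

open MeasureTheory Set

/-- the three differential inequalities with relative errors -/
lemma O5a_loc {α c g b m CM δ η M G e D M' e' j : ℝ} (hα : 0 < α) (hη : η = α / (24 + 10 * α))
    (hc : 0 < c) (hb : 0 < b) (hm : 0 < m) (hj : j = α / 2 * G + (α + 2) * e)
    (hδ0 : 0 < δ) (hδ : δ * (√|CM| + 1) ≤ η * (α + 2) * m * b) (hM : m ≤ M) (hMC : M ≤ CM)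
    (hbM : b * M ≤ c * e) (hG : 0 ≤ G) (hD : 0 ≤ D) (hCS : j ^ 2 ≤ D * M)
    (h1 : |M' - (2 * c * j - 2 * g * M)| ≤ 2 * δ * √M)
    (h2 : c * D - g * j - δ * √D ≤ e') :
    2 * c * (1 - η) * j - 2 * g * M ≤ M' ∧ M' ≤ 2 * c * (1 + η) * j - 2 * g * M ∧
      (1 - 2 * η) * c * j ^ 2 / M - g * j ≤ e' := by
  have hη0 : 0 < η := by rw [hη]; positivity
  have hη1 : η ≤ 1 / 10 := by
    rw [hη, div_le_div_iff₀ (by positivity) (by norm_num)]; nlinarith
  have hMpos : 0 < M := lt_of_lt_of_le hm hM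
  have hcj : (α + 2) * (c * e) ≤ c * j := by
    rw [hj]; nlinarith [mul_nonneg hc.le (mul_nonneg hα.le hG)]
  have hce : 0 < c * e := lt_of_lt_of_le (mul_pos hb hMpos) hbM
  have hcj0 : 0 < c * j := lt_of_lt_of_le (by positivity) hcj
  have hj0 : 0 < j := by
    by_contra h
    push Not at h
    exact absurd hcj0 (not_lt.mpr (mul_nonpos_of_nonneg_of_nonpos hc.le h))
  have hsM : √M ≤ √|CM| := Real.sqrt_le_sqrt (hMC.trans (le_abs_self _))
  have hkey : δ * √M ≤ η * (c * j) := by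
    calc δ * √M ≤ δ * (√|CM| + 1) := by
          apply mul_le_mul_of_nonneg_left _ hδ0.le
          linarith
      _ ≤ η * (α + 2) * m * b := hδ
      _ ≤ η * ((α + 2) * (b * M)) := by
          have h3 : η * (α + 2) * (m * b) ≤ η * (α + 2) * (M * b) :=
            mul_le_mul_of_nonneg_left (mul_le_mul_of_nonneg_right hM hb.le) (by positivity)
          linarith
      _ ≤ η * (c * j) := by
          apply mul_le_mul_of_nonneg_left _ hη0.le
          have : (α + 2) * (b * M) ≤ (α + 2) * (c * e) :=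
            mul_le_mul_of_nonneg_left hbM (by positivity)
          linarith
  rw [abs_le] at h1
  refine ⟨by linarith [h1.1], by linarith [h1.2], ?_⟩
  have hsq : 0 < √M := Real.sqrt_pos.mpr hMpos
  set r := j / √M with hr
  have hr2 : r ^ 2 = j ^ 2 / M := by
    rw [hr, div_pow, Real.sq_sqrt hMpos.le]
  have hδr : δ ≤ η * c * r := by
    rw [hr, mul_div_assoc', le_div_iff₀ hsq]
    linarith
  have hr0 : 0 < r := div_pos hj0 hsq
  have hDr : r ^ 2 ≤ D := by
    rw [hr2, div_le_iff₀ hMpos]; exact hCS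
  have hsD : √D ^ 2 = D := Real.sq_sqrt hD
  have hsD0 : 0 ≤ √D := Real.sqrt_nonneg _
  have h4 : δ * √D ≤ η * c * D + η * c * r ^ 2 := by
    have h5 : δ * √D ≤ η * c * r * √D := mul_le_mul_of_nonneg_right hδr hsD0
    have h6 : 0 ≤ η * c * ((√D - r) ^ 2) := by positivity
    have h7 : 0 ≤ η * c * (r * √D) := by positivity
    have h6' : η * c * ((√D - r) ^ 2)
        = η * c * √D ^ 2 - 2 * (η * c * (r * √D)) + η * c * r ^ 2 := by ring
    rw [hsD] at h6'
    linarith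
  have h8 : (1 - 2 * η) * c * j ^ 2 / M = (1 - 2 * η) * c * r ^ 2 := by
    rw [hr2]; ring
  rw [h8]
  have h9 : (1 - η) * c * r ^ 2 ≤ (1 - η) * c * D :=
    mul_le_mul_of_nonneg_left hDr (mul_nonneg (by linarith) hc.le)
  linarith

/-- signs of the derivatives of `M` and `e / M` -/
lemma O5a_sign {α c g b η M G e M' e' j : ℝ} (hα : 0 < α) (hη : η = α / (24 + 10 * α))
    (hc : 0 < c) (hb : 0 < b) (hg : 0 < g) (hgb : g ≤ b * α / 16)
    (hj : j = α / 2 * G + (α + 2) * e)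
    (hM : 0 < M) (hbM : b * M ≤ c * e) (hG : 0 ≤ G)
    (h1 : 2 * c * (1 - η) * j - 2 * g * M ≤ M') (h2 : M' ≤ 2 * c * (1 + η) * j - 2 * g * M)
    (h3 : (1 - 2 * η) * c * j ^ 2 / M - g * j ≤ e') :
    2 * (c * e) ≤ M' ∧ 0 ≤ e' * M - e * M' ∧ 0 ≤ e' * M - (1 + α / 4) * e * M' := by
  have hη0 : 0 < η := by rw [hη]; positivity
  have hη1 : η ≤ 1 / 10 := by
    rw [hη, div_le_div_iff₀ (by positivity) (by norm_num)]; nlinarith
  have hηα : η * (24 + 10 * α) = α := by
    rw [hη]; field_simp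
  have hce : 0 < c * e := lt_of_lt_of_le (mul_pos hb hM) hbM
  have he : 0 < e := by
    by_contra h
    push Not at h
    exact absurd hce (not_lt.mpr (mul_nonpos_of_nonneg_of_nonpos hc.le h))
  have hje : (α + 2) * e ≤ j := by
    rw [hj]; nlinarith [mul_nonneg hα.le hG]
  have hj0 : 0 < j := lt_of_lt_of_le (by positivity) hje
  have hgM : g * M ≤ α / 16 * (c * e) := by
    calc g * M ≤ b * α / 16 * M := mul_le_mul_of_nonneg_right hgb hM.le
      _ = α / 16 * (b * M) := by ring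
      _ ≤ α / 16 * (c * e) := mul_le_mul_of_nonneg_left hbM (by positivity)
  have hcje : (α + 2) * (c * e) ≤ c * j := by nlinarith
  have hM'1 : 2 * (c * e) ≤ M' := by
    have h4 : (1 - η) * (c * j) ≥ (9 / 10) * ((α + 2) * (c * e)) := by
      have : 0 < (α + 2) * (c * e) := by positivity
      nlinarith
    have : 0 < α * (c * e) := by positivity
    nlinarith
  have h3' : (1 - 2 * η) * c * j ^ 2 - g * j * M ≤ e' * M := by
    have := mul_le_mul_of_nonneg_right h3 hM.le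
    rw [sub_mul, div_mul_cancel₀ _ hM.ne'] at this
    exact this
  have h5 : e * M' ≤ e * (2 * c * (1 + η) * j - 2 * g * M) := mul_le_mul_of_nonneg_left h2 he.le
  have h6 : (1 - 2 * η) * ((α + 2) * (c * e)) ≤ (1 - 2 * η) * (c * j) :=
    mul_le_mul_of_nonneg_left hcje (by linarith)
  have hcea : 0 < α * (c * e) := by positivity
  have hgeM : 0 < g * e * M := by positivity
  -- the bracket
  have hbr : 0 ≤ (1 - 2 * η) * (c * j) - g * M - 2 * (1 + α / 4) * (1 + η) * (c * e) := by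
    have e1 : (1 - 2 * η) * (α + 2) - 2 * (1 + α / 4) * (1 + η) = α / 4 := by
      linear_combination (-1 / 4 : ℝ) * hηα
    have : (1 - 2 * η) * ((α + 2) * (c * e)) - 2 * (1 + α / 4) * (1 + η) * (c * e)
        = α / 4 * (c * e) := by
      calc _ = ((1 - 2 * η) * (α + 2) - 2 * (1 + α / 4) * (1 + η)) * (c * e) := by ring
        _ = _ := by rw [e1]
    linarith
  have hbr2 : 0 ≤ (1 - 2 * η) * (c * j) - g * M - 2 * (1 + η) * (c * e) := by
    have : 0 ≤ α / 4 * (1 + η) * (c * e) := by positivity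
    nlinarith
  refine ⟨hM'1, ?_, ?_⟩
  · have := mul_nonneg hj0.le hbr2
    nlinarith
  · have := mul_nonneg hj0.le hbr
    have h7 : (1 + α / 4) * (e * M') ≤ (1 + α / 4) * (e * (2 * c * (1 + η) * j - 2 * g * M)) :=
      mul_le_mul_of_nonneg_left h5 (by positivity)
    have h8 : 0 < α * (g * e * M) := by positivity
    nlinarith

/-- Levine part, first step: on `[τ,T2]` the mass is `≥ 2m` and `c e ≥ b M`, `b = 1/(1024T)`, and
the differential inequalities hold with relative errors `η = α/(24+10α)`.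

Proof.  Continuous induction (`IsClosed.Icc_subset_of_forall_exists_gt`) for the set of all `t`
such that `M ≥ 2m` and `c e ≥ b M` on `[τ,t]`.  At `τ`: `c e τ ≥ m/(256T) = 4 b m = 2 b M(τ)`.
As long as `M ≥ 2m`, `c e ≥ b M` we have `j ≥ (α+2) e ≥ j0 := (α+2) 2 m b/c > 0`, so for `δ` small
(depending on `CM`): `2δ√M ≤ 2cηj`, and, if also `D ≥ j²/M` (`CS`), `δ√D ≤ η c D + δ²/(4ηc)`,
`δ²/(4ηc) ≤ η c j²/M`.  This gives the three inequalities of the conclusion.  Then
`e'M - eM' ≥ j[(1-2η) c j - gM - 2c(1+η)e] ≥ j[c e((1-2η)(α+2) - 2(1+η)) - gM] ≥ 0`, since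
`(1-2η)(α+2)-2(1+η) ≥ α/2` and `g ≤ bα/4` (`H1`); and
`M' ≥ 2c(1-η)(α+2)e - 2gM > 0`.  So `M` and `e/M` are nondecreasing on `[τ,t]`, hence
`c e ≥ 2 b M > b M` at `t` and (as `M' > 0`) both conditions continue to hold a little longer. -/
theorem levine_step {p : Par} (hp : p.OK) : ∃ δ0 > 0, ∀ δ, 0 < δ → δ ≤ δ0 →
    ∀ M G e D V Y : ℝ → ℝ, Flow p δ M G e D V Y → ∀ τ ∈ Ioc 0 p.T, M τ = 2 * p.m →
    p.m / (256 * p.T) ≤ p.c * e τ →
    ∀ t ∈ Icc τ p.T2, 2 * p.m ≤ M t ∧ 1 / (1024 * p.T) * M t ≤ p.c * e t ∧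
      (t < p.T2 → ∃ M' e' : ℝ, HasDerivAt M M' t ∧ HasDerivAt e e' t ∧
        2 * p.c * (1 - p.α / (24 + 10 * p.α)) * (p.α / 2 * G t + (p.α + 2) * e t)
          - 2 * p.g * M t ≤ M' ∧
        M' ≤ 2 * p.c * (1 + p.α / (24 + 10 * p.α)) * (p.α / 2 * G t + (p.α + 2) * e t)
          - 2 * p.g * M t ∧
        (1 - 2 * (p.α / (24 + 10 * p.α))) * p.c * (p.α / 2 * G t + (p.α + 2) * e t) ^ 2 / M t
          - p.g * (p.α / 2 * G t + (p.α + 2) * e t) ≤ e') := by
  have hα := hp.hα0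
  have hc := hp.hc
  have hg := hp.hg
  have hT := hp.hT
  have hm := hp.hm
  set η : ℝ := p.α / (24 + 10 * p.α) with hη
  set b : ℝ := 1 / (1024 * p.T) with hb
  have hb0 : 0 < b := by positivity
  have hη0 : 0 < η := by positivity
  have hgb : p.g ≤ b * p.α / 16 := by
    have h := hp.H1
    have : b * p.α / 16 = (p.α / 16384) / p.T := by
      rw [hb]; field_simp; norm_num
    rw [this, le_div_iff₀ hT]
    exact h
  refine ⟨η * (p.α + 2) * p.m * b / (√|p.CM| + 1), by positivity, ?_⟩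
  intro δ hδ0 hδ M G e D V Y F τ hτ hMτ heτ
  have hδ' : δ * (√|p.CM| + 1) ≤ η * (p.α + 2) * p.m * b := by
    rwa [le_div_iff₀ (by positivity)] at hδ
  have hTT : p.T < p.T2 := by
    unfold Par.T2
    have : 0 < p.T * (1024 / p.α) := by positivity
    nlinarith
  have hτT2 : τ ≤ p.T2 := hτ.2.trans hTT.le
  -- local statement
  have hloc : ∀ t ∈ Ico τ p.T2, p.m ≤ M t → b * M t ≤ p.c * e t →
      ∃ M' e' : ℝ, HasDerivAt M M' t ∧ HasDerivAt e e' t ∧
        2 * p.c * (1 - η) * (p.α / 2 * G t + (p.α + 2) * e t) - 2 * p.g * M t ≤ M' ∧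
        M' ≤ 2 * p.c * (1 + η) * (p.α / 2 * G t + (p.α + 2) * e t) - 2 * p.g * M t ∧
        (1 - 2 * η) * p.c * (p.α / 2 * G t + (p.α + 2) * e t) ^ 2 / M t
          - p.g * (p.α / 2 * G t + (p.α + 2) * e t) ≤ e' := by
    intro t ht hMt hbt
    have ht0 : 0 < t := lt_of_lt_of_le hτ.1 ht.1
    have htI : t ∈ Icc 0 p.T2 := ⟨ht0.le, ht.2.le⟩
    obtain ⟨M', hM', h1⟩ := F.dM t ⟨ht0, ht.2⟩
    obtain ⟨e', he', h2⟩ := F.de t ⟨ht0, ht.2⟩
    exact ⟨M', e', hM', he', O5a_loc hα hη hc hb0 hm rfl hδ0 hδ' hMt (F.MC t htI) hbt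
      (F.Gnn t htI) (F.Dnn t htI) (F.CS t htI) h1 h2⟩
  -- propagation
  have hprop : ∀ x ∈ Icc τ p.T2, (∀ r ∈ Ioo τ x, p.m ≤ M r ∧ b * M r ≤ p.c * e r) →
      2 * p.m ≤ M x ∧ 2 * b * M x ≤ p.c * e x := by
    intro x hx hr
    have hsub : Icc τ x ⊆ Icc 0 p.T2 := fun y hy => ⟨hτ.1.le.trans hy.1, hy.2.trans hx.2⟩
    have hMmono : MonotoneOn M (Icc τ x) := by
      refine monotoneOn_of_deriv_nonneg (convex_Icc τ x) (F.cM.mono hsub) ?_ ?_
      · intro t ht
        rw [interior_Icc] at ht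
        obtain ⟨M', e', hM', -⟩ := hloc t ⟨ht.1.le, ht.2.trans_le hx.2⟩ (hr t ht).1 (hr t ht).2
        exact hM'.differentiableAt.differentiableWithinAt
      · intro t ht
        rw [interior_Icc] at ht
        obtain ⟨M', e', hM', he', i1, i2, i3⟩ :=
          hloc t ⟨ht.1.le, ht.2.trans_le hx.2⟩ (hr t ht).1 (hr t ht).2
        rw [hM'.deriv]
        have hMt : 0 < M t := lt_of_lt_of_le hm (hr t ht).1
        obtain ⟨s1, -, -⟩ := O5a_sign hα hη hc hb0 hg hgb rfl hMt (hr t ht).2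
          (F.Gnn t (hsub ⟨ht.1.le, ht.2.le⟩)) i1 i2 i3
        have : 0 < b * M t := by positivity
        linarith [(hr t ht).2]
    have hM2 : ∀ y ∈ Icc τ x, 2 * p.m ≤ M y := by
      intro y hy
      rw [← hMτ]
      exact hMmono ⟨le_rfl, hx.1⟩ hy hy.1
    have hMp : ∀ y ∈ Icc τ x, 0 < M y := fun y hy => lt_of_lt_of_le (by linarith) (hM2 y hy)
    have hQmono : MonotoneOn (fun t => e t / M t) (Icc τ x) := by
      refine monotoneOn_of_deriv_nonneg (convex_Icc τ x)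
        ((F.ce.mono hsub).div (F.cM.mono hsub) fun y hy => (hMp y hy).ne') ?_ ?_
      · intro t ht
        rw [interior_Icc] at ht
        obtain ⟨M', e', hM', he', -⟩ :=
          hloc t ⟨ht.1.le, ht.2.trans_le hx.2⟩ (hr t ht).1 (hr t ht).2
        exact (he'.div hM' (hMp t ⟨ht.1.le, ht.2.le⟩).ne').differentiableAt.differentiableWithinAt
      · intro t ht
        rw [interior_Icc] at ht
        obtain ⟨M', e', hM', he', i1, i2, i3⟩ :=
          hloc t ⟨ht.1.le, ht.2.trans_le hx.2⟩ (hr t ht).1 (hr t ht).2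
        have hMt : 0 < M t := hMp t ⟨ht.1.le, ht.2.le⟩
        have hd : HasDerivAt (fun t => e t / M t) _ t := he'.div hM' hMt.ne'
        rw [hd.deriv]
        obtain ⟨-, s2, -⟩ := O5a_sign hα hη hc hb0 hg hgb rfl hMt (hr t ht).2
          (F.Gnn t (hsub ⟨ht.1.le, ht.2.le⟩)) i1 i2 i3
        exact div_nonneg s2 (by positivity)
    refine ⟨hM2 x ⟨hx.1, le_rfl⟩, ?_⟩
    have h1 : e τ / M τ ≤ e x / M x := hQmono ⟨le_rfl, hx.1⟩ ⟨hx.1, le_rfl⟩ hx.1
    rw [hMτ, div_le_div_iff₀ (by positivity) (hMp x ⟨hx.1, le_rfl⟩)] at h1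
    have h2 : 2 * b * (2 * p.m) ≤ p.c * e τ := by
      have : 2 * b * (2 * p.m) = p.m / (256 * p.T) := by rw [hb]; field_simp; norm_num
      rw [this]; exact heτ
    have h3 : p.c * (e τ * M x) ≤ p.c * (e x * (2 * p.m)) := mul_le_mul_of_nonneg_left h1 hc.le
    have h4 : 2 * b * (2 * p.m) * M x ≤ p.c * e τ * M x :=
      mul_le_mul_of_nonneg_right h2 (hMp x ⟨hx.1, le_rfl⟩).le
    have h5 : (2 * p.m) * (2 * b * M x) ≤ (2 * p.m) * (p.c * e x) := by nlinarith
    exact le_of_mul_le_mul_left h5 (by positivity)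
  -- first exit
  have hall : ∀ t ∈ Icc τ p.T2, p.m < M t ∧ b * M t < p.c * e t := by
    by_contra hcon
    push Not at hcon
    obtain ⟨t0, ht0, hbad⟩ := hcon
    have hsub : Icc τ p.T2 ⊆ Icc 0 p.T2 := fun y hy => ⟨hτ.1.le.trans hy.1, hy.2⟩
    let f : ℝ → ℝ := fun t => min (M t - p.m) (p.c * e t - b * M t)
    have hf : ContinuousOn f (Icc τ p.T2) := by
      have h1 := F.cM.mono hsub
      have h2 := F.ce.mono hsub
      exact ContinuousOn.inf (h1.sub continuousOn_const) ((continuousOn_const.mul h2).sub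
        (continuousOn_const.mul h1))
    have hcl : IsCompact (Icc τ p.T2 ∩ f ⁻¹' Iic 0) :=
      isCompact_Icc.of_isClosed_subset (hf.preimage_isClosed_of_isClosed isClosed_Icc isClosed_Iic)
        inter_subset_left
    have hne : (Icc τ p.T2 ∩ f ⁻¹' Iic 0).Nonempty := by
      refine ⟨t0, ht0, ?_⟩
      simp only [f, mem_preimage, mem_Iic, min_le_iff]
      by_cases h : p.m < M t0
      · right; linarith [hbad h]
      · left; push Not at h; linarith
    obtain ⟨x, hx, hmin⟩ := hcl.exists_isLeast hne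
    have hr : ∀ r ∈ Ioo τ x, p.m ≤ M r ∧ b * M r ≤ p.c * e r := by
      intro r hr
      by_contra hcon
      have hle : x ≤ r := by
        apply hmin
        refine ⟨⟨hr.1.le, hr.2.le.trans hx.1.2⟩, ?_⟩
        simp only [f, mem_preimage, mem_Iic, min_le_iff]
        by_contra hn
        push Not at hn
        exact hcon ⟨by linarith [hn.1], by linarith [hn.2]⟩
      exact absurd hr.2 (not_lt.mpr hle)
    obtain ⟨h1, h2⟩ := hprop x hx.1 hr
    have h3 := hx.2
    simp only [f, mem_preimage, mem_Iic, min_le_iff] at h3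
    have h4 : 0 < b * M x := mul_pos hb0 (by linarith)
    rcases h3 with h3 | h3
    · linarith
    · linarith
  intro t ht
  obtain ⟨h1, h2⟩ := hprop t ht fun r hr =>
    ⟨(hall r ⟨hr.1.le, hr.2.le.trans ht.2⟩).1.le, (hall r ⟨hr.1.le, hr.2.le.trans ht.2⟩).2.le⟩
  exact ⟨h1, (hall t ht).2.le, fun h => hloc t ⟨ht.1, h⟩ (hall t ht).1.le (hall t ht).2.le⟩

end CGL
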