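import Pool.Agent.W_317df6_h83.O3c
import Pool.Agent.W_317df6_h83.O4
import Pool.Agent.W_317df6_h83.O5

/-!
# No flow exists (task O6)
-/

set_option autoImplicit false

namespace CGL

open MeasureTheory Set

/-- Proof.  `δ0` the minimum of the three.  `virial_contra`: some `t ∈ [0,T]` has `M t > 2m`;
`M 0 ≤ m < 2m`; let `τ` be the infimum of the compact set `{t ∈ [0,T] : M t ≥ 2m}`; then
`0 < τ ≤ T`, `M τ = 2m`, `M ≤ 2m` on `[0,τ]`.  `energy_at_doubling` and `levine`. -/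
theorem no_flow {p : Par} (hp : p.OK) : ∃ δ0 > 0, ∀ δ, 0 < δ → δ ≤ δ0 →
    ∀ M G e D V Y : ℝ → ℝ, ¬ Flow p δ M G e D V Y := by
  obtain ⟨d1, hd1, h1⟩ := virial_contra hp
  obtain ⟨d2, hd2, h2⟩ := energy_at_doubling hp
  obtain ⟨d3, hd3, h3⟩ := levine hp
  refine ⟨min d1 (min d2 d3), lt_min hd1 (lt_min hd2 hd3), ?_⟩
  intro δ hδ hδ0 M G e D V Y F
  have hT := hp.hT
  have hm := hp.hm
  have hα := hp.hα0
  have hTT2 : p.T ≤ p.T2 := by
    unfold Par.T2
    have : 0 ≤ p.T * (1024 / p.α) := by positivity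
    nlinarith
  have hcont : ContinuousOn M (Icc 0 p.T) := F.cM.mono (Icc_subset_Icc le_rfl hTT2)
  have hv := h1 δ hδ (hδ0.trans (min_le_left _ _)) M G e D V Y F
  push Not at hv
  obtain ⟨t, ht, hMt⟩ := hv
  set S : Set ℝ := Icc 0 p.T ∩ M ⁻¹' Ici (2 * p.m) with hS
  have hclosed : IsClosed S := hcont.preimage_isClosed_of_isClosed isClosed_Icc isClosed_Ici
  have hcomp : IsCompact S :=
    isCompact_Icc.of_isClosed_subset hclosed inter_subset_left
  have hne : S.Nonempty := ⟨t, ht, hMt.le⟩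
  have hτS : sInf S ∈ S := hcomp.sInf_mem hne
  set τ := sInf S with hτdef
  obtain ⟨hτI, hτM⟩ := hτS
  have hlt : ∀ u ∈ Icc 0 p.T, u < τ → M u < 2 * p.m := by
    intro u hu hut
    by_contra hcon
    push Not at hcon
    have : τ ≤ u := csInf_le hcomp.bddBelow ⟨hu, hcon⟩
    linarith
  have hτpos : 0 < τ := by
    rcases hτI.1.lt_or_eq with h | h
    · exact h
    · exfalso
      have hh : 2 * p.m ≤ M τ := hτM
      rw [← h] at hh
      have := F.iM
      linarith
  -- the value at `τ`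
  have hle : M τ ≤ 2 * p.m := by
    have hcw : ContinuousWithinAt M (Icc 0 τ) τ :=
      (hcont.mono (Icc_subset_Icc le_rfl hτI.2)) τ ⟨hτpos.le, le_rfl⟩
    have hcw' : ContinuousWithinAt M (Ico 0 τ) τ := hcw.mono Ico_subset_Icc_self
    have hmem : τ ∈ closure (Ico 0 τ) := by
      rw [closure_Ico hτpos.ne]
      exact ⟨hτpos.le, le_rfl⟩
    have hmaps : MapsTo M (Ico 0 τ) (Iic (2 * p.m)) := by
      intro u hu
      exact (hlt u ⟨hu.1, hu.2.le.trans hτI.2⟩ hu.2).le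
    have := hcw'.mem_closure hmem hmaps
    rw [closure_Iic] at this
    exact this
  have heq : M τ = 2 * p.m := le_antisymm hle hτM
  have hall : ∀ u ∈ Icc 0 τ, M u ≤ 2 * p.m := by
    intro u hu
    rcases hu.2.lt_or_eq with h | h
    · exact (hlt u ⟨hu.1, hu.2.trans hτI.2⟩ h).le
    · rw [h]; exact hle
  have hτIoc : τ ∈ Ioc 0 p.T := ⟨hτpos, hτI.2⟩
  have he := h2 δ hδ (hδ0.trans ((min_le_right _ _).trans (min_le_left _ _))) M G e D V Y F τ
    hτIoc hall heq
  exact h3 δ hδ (hδ0.trans ((min_le_right _ _).trans (min_le_right _ _))) M G e D V Y F τ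
    hτIoc heq he

end CGL
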