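import Pool.Agent.W_317df6_h83.Defs

/-!
# The ordinary differential inequalities: definitions

`M` mass, `G = ∫|∇v|²`, `e` minus the energy, `D = ∫|w|²`, `V` truncated variance,
`Y = Im ∫ ∇φ·∇v conj v`; `j = (α/2) G + (α+2) e = ∫|v|^{α+2} - G`,
`(α+2)(G/2+e) = ∫|v|^{α+2}`; `c = cos θ`, `s = sin θ`, `g = -γ`.
-/

set_option autoImplicit false

namespace CGL

open MeasureTheory Set

/-- parameters -/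
structure Par where
  (n α g c s T m e0 B0 B1 B2 B3 B4 q CM : ℝ)

/-- the final time -/
noncomputable def Par.T2 (p : Par) : ℝ := p.T * (1 + 1024 / p.α)

/-- conditions on the parameters -/
structure Par.OK (p : Par) : Prop where
  hn : 2 ≤ p.n
  hα0 : 0 < p.α
  hα : 4 < p.n * p.α
  hα4 : p.α ≤ 4
  hg : 0 < p.g
  hc : 0 < p.c
  hc2 : 2 * p.c ^ 2 ≤ 1
  hs : 0 < p.s
  hcs : p.c ^ 2 + p.s ^ 2 = 1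
  hT : 0 < p.T
  hm : 0 < p.m
  he : 0 < p.e0
  hB0 : 0 ≤ p.B0
  hB1 : 0 ≤ p.B1
  hB2 : 0 ≤ p.B2
  hB3 : 0 ≤ p.B3
  hB4 : 0 ≤ p.B4
  hq : 0 ≤ p.q
  H1 : p.g * p.T ≤ p.α / 16384
  H2 : 16 * p.n * p.α ^ 2 * (p.g * p.T) ≤ p.n * p.α - 4
  H3 : p.B4 * (2 * p.m) * (p.q * √(2 * p.m)) ^ (p.α / 2) * p.e0 ^ (p.α / 4 - 1)
    ≤ (p.n * p.α - 4) / 16
  H4 : 64 * p.B3 ^ 2 * p.m ≤ (p.n * p.α - 4) * p.n * p.α * p.e0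
  H5 : p.B0 * p.m * (9 + 32 / p.α) + 128 * p.B1 ^ 2 * p.m / p.α
    + 4 * p.c * p.m * p.T * (p.B2 + 2 * p.B2 ^ 2) ≤ p.e0 * p.T ^ 2

/-- the functions on `[0,T2]` with an error `δ` -/
structure Flow (p : Par) (δ : ℝ) (M G e D V Y : ℝ → ℝ) : Prop where
  cM : ContinuousOn M (Icc 0 p.T2)
  cG : ContinuousOn G (Icc 0 p.T2)
  ce : ContinuousOn e (Icc 0 p.T2)
  cD : ContinuousOn D (Icc 0 p.T2)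
  cV : ContinuousOn V (Icc 0 p.T2)
  cY : ContinuousOn Y (Icc 0 p.T2)
  iM : M 0 ≤ p.m
  ie : p.e0 ≤ e 0
  iV : V 0 ≤ p.B0 * p.m
  iY : Y 0 = 0
  Mnn : ∀ t ∈ Icc 0 p.T2, 0 ≤ M t
  Gnn : ∀ t ∈ Icc 0 p.T2, 0 ≤ G t
  Dnn : ∀ t ∈ Icc 0 p.T2, 0 ≤ D t
  Vnn : ∀ t ∈ Icc 0 p.T2, 0 ≤ V t
  Pnn : ∀ t ∈ Icc 0 p.T2, 0 ≤ G t / 2 + e t
  CS : ∀ t ∈ Icc 0 p.T2, (p.α / 2 * G t + (p.α + 2) * e t) ^ 2 ≤ D t * M t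
  MC : ∀ t ∈ Icc 0 p.T2, M t ≤ p.CM
  dM : ∀ t ∈ Ioo 0 p.T2, ∃ M' : ℝ, HasDerivAt M M' t ∧
    |M' - (2 * p.c * (p.α / 2 * G t + (p.α + 2) * e t) - 2 * p.g * M t)| ≤ 2 * δ * √(M t)
  de : ∀ t ∈ Ioo 0 p.T2, ∃ e' : ℝ, HasDerivAt e e' t ∧
    p.c * D t - p.g * (p.α / 2 * G t + (p.α + 2) * e t) - δ * √(D t) ≤ e'
  dV : ∀ t ∈ Ioo 0 p.T2, ∃ V' : ℝ, HasDerivAt V V' t ∧
    V' ≤ 2 * p.s * Y t - 2 * p.g * V t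
      + p.c * (p.B2 * M t + 2 * p.B0 * ((p.α + 2) * (G t / 2 + e t))) + 2 * p.B0 * δ * √(M t)
  dY : ∀ t ∈ Ioo 0 p.T2, ∃ Y' : ℝ, HasDerivAt Y Y' t ∧
    Y' ≤ -2 * p.g * Y t
      + p.s * (-(p.n * p.α - 4) * G t - 2 * p.n * p.α * e t
        + p.B4 * ((p.q * √(M t * G t)) ^ (p.α / 2) * M t) + p.B3 * √(M t * G t))
      + (p.c * √(D t) + δ) * (p.B2 * √(M t) + 2 * p.B1 * √(G t))

end CGL
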