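import Pool.Agent.W_317df6_h83.P1a

/-!
# The complex Gauss kernel: weighted bounds (task P1)
-/

set_option autoImplicit false

namespace CGL

open MeasureTheory Set

variable {N : ℕ}

/-- the Gauss function is integrable (its integral is not zero) -/
theorem P1_aux_gauss {b : ℝ} (hb : 0 < b) :
    Integrable (fun x : E N => Real.exp (-b * ‖x‖ ^ 2)) := by
  by_contra h
  have h1 := integral_undef h
  rw [GaussianFourier.integral_rexp_neg_mul_sq_norm (V := E N) hb] at h1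
  have h2 : 0 < (Real.pi / b) ^ ((Module.finrank ℝ (E N) : ℝ) / 2) := by
    have := Real.pi_pos
    positivity
  rw [h1] at h2
  exact lt_irrefl _ h2

/-- the Gauss integral -/
theorem P1_aux_gauss_int {b : ℝ} (hb : 0 < b) :
    ∫ x : E N, Real.exp (-b * ‖x‖ ^ 2) = (Real.pi / b) ^ ((N : ℝ) / 2) := by
  rw [GaussianFourier.integral_rexp_neg_mul_sq_norm (V := E N) hb]
  simp

/-- the elementary inequality -/
theorem P1_aux_ineq {c τ r : ℝ} (hc : 0 < c) (hτ : 0 < τ) :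
    r ≤ (c / (8 * τ)) * r ^ 2 + 2 * τ / c := by
  have h1 : (c / (8 * τ)) * r ^ 2 + 2 * τ / c - r = (c * r - 4 * τ) ^ 2 / (8 * τ * c) := by
    field_simp
    ring
  have h2 : 0 ≤ (c * r - 4 * τ) ^ 2 / (8 * τ * c) := by positivity
  linarith

theorem P1_aux_bound {θ τ : ℝ} (hθ : 0 < Real.cos θ) (hτ : 0 < τ) (x : E N) :
    ‖K N ((τ : ℂ) * eth θ) x‖ * Real.exp ‖x‖ ≤
      ((1 / (4 * Real.pi * τ)) ^ ((N : ℝ) / 2) * Real.exp (2 * τ / Real.cos θ)) *
        Real.exp (-(Real.cos θ / (8 * τ)) * ‖x‖ ^ 2) := by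
  rw [K_norm hθ hτ x]
  have hpi := Real.pi_pos
  have h0 : 0 ≤ (1 / (4 * Real.pi * τ)) ^ ((N : ℝ) / 2) := by positivity
  rw [mul_assoc ((1 / (4 * Real.pi * τ)) ^ ((N : ℝ) / 2)),
    mul_assoc ((1 / (4 * Real.pi * τ)) ^ ((N : ℝ) / 2)), ← Real.exp_add, ← Real.exp_add]
  refine mul_le_mul_of_nonneg_left (Real.exp_le_exp.2 ?_) h0
  have h1 := P1_aux_ineq (r := ‖x‖) hθ hτ
  have h2 : Real.cos θ / (4 * τ) = 2 * (Real.cos θ / (8 * τ)) := by
    field_simp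
    ring
  rw [h2]
  linarith

/-- **Uniform weighted bound.**  `|x| ≤ (cos θ/(8τ))|x|² + 2τ/cos θ`, so by `K_norm` the integrand is
`≤ (4πτ)^{-N/2} exp(2τ/cos θ) exp(-(cos θ/(8τ))|x|²)`; the Gauss integral
(`GaussianFourier.integral_rexp_neg_mul_sq_norm`) is `(8πτ/cos θ)^{N/2}`:
`C = exp(2T/cos θ) (2/cos θ)^{N/2}`. -/
theorem K_weight {θ T : ℝ} (hθ : 0 < Real.cos θ) (hT : 0 < T) : ∃ C : ℝ, 0 < C ∧
    ∀ τ ∈ Ioc 0 T, Integrable (fun x : E N => ‖K N ((τ : ℂ) * eth θ) x‖ * Real.exp ‖x‖) ∧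
      ∫ x : E N, ‖K N ((τ : ℂ) * eth θ) x‖ * Real.exp ‖x‖ ≤ C := by
  have hpi := Real.pi_pos
  refine ⟨Real.exp (2 * T / Real.cos θ) * (2 / Real.cos θ) ^ ((N : ℝ) / 2), by positivity, ?_⟩
  intro τ hτ
  have hτ0 : 0 < τ := hτ.1
  have hb : 0 < Real.cos θ / (8 * τ) := by positivity
  have hdom : Integrable (fun x : E N =>
      ((1 / (4 * Real.pi * τ)) ^ ((N : ℝ) / 2) * Real.exp (2 * τ / Real.cos θ)) *
        Real.exp (-(Real.cos θ / (8 * τ)) * ‖x‖ ^ 2)) := (P1_aux_gauss hb).const_mul _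
  have hcont : Continuous (fun x : E N => ‖K N ((τ : ℂ) * eth θ) x‖ * Real.exp ‖x‖) :=
    (K_cont (zre_pos hθ hτ0)).norm.mul (Real.continuous_exp.comp continuous_norm)
  have hint : Integrable (fun x : E N => ‖K N ((τ : ℂ) * eth θ) x‖ * Real.exp ‖x‖) := by
    refine hdom.mono' hcont.aestronglyMeasurable (Filter.Eventually.of_forall fun x => ?_)
    rw [Real.norm_of_nonneg (by positivity)]
    exact P1_aux_bound hθ hτ0 x
  refine ⟨hint, ?_⟩
  calc ∫ x : E N, ‖K N ((τ : ℂ) * eth θ) x‖ * Real.exp ‖x‖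
      ≤ ∫ x : E N, ((1 / (4 * Real.pi * τ)) ^ ((N : ℝ) / 2) * Real.exp (2 * τ / Real.cos θ)) *
        Real.exp (-(Real.cos θ / (8 * τ)) * ‖x‖ ^ 2) :=
        integral_mono hint hdom fun x => P1_aux_bound hθ hτ0 x
    _ = ((1 / (4 * Real.pi * τ)) ^ ((N : ℝ) / 2) * Real.exp (2 * τ / Real.cos θ)) *
        (Real.pi / (Real.cos θ / (8 * τ))) ^ ((N : ℝ) / 2) := by
        rw [integral_const_mul, P1_aux_gauss_int hb]
    _ = Real.exp (2 * τ / Real.cos θ) * (2 / Real.cos θ) ^ ((N : ℝ) / 2) := by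
        have h1 : (2 / Real.cos θ : ℝ) =
            (1 / (4 * Real.pi * τ)) * (Real.pi / (Real.cos θ / (8 * τ))) := by
          field_simp
          ring
        rw [h1, Real.mul_rpow (by positivity) (by positivity)]
        ring
    _ ≤ Real.exp (2 * T / Real.cos θ) * (2 / Real.cos θ) ^ ((N : ℝ) / 2) := by
        refine mul_le_mul_of_nonneg_right (Real.exp_le_exp.2 ?_) (by positivity)
        have := hτ.2
        gcongr

theorem P1_aux_int_norm {θ τ : ℝ} (hθ : 0 < Real.cos θ) (hτ : 0 < τ) :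
    Integrable (fun x : E N => ‖K N ((τ : ℂ) * eth θ) x‖) := by
  have hb : 0 < Real.cos θ / (4 * τ) := by positivity
  have h := (P1_aux_gauss (N := N) hb).const_mul ((1 / (4 * Real.pi * τ)) ^ ((N : ℝ) / 2))
  refine h.congr (Filter.Eventually.of_forall fun x => ?_)
  exact (K_norm hθ hτ x).symm

theorem K_integrable {θ τ : ℝ} (hθ : 0 < Real.cos θ) (hτ : 0 < τ) :
    Integrable (K N ((τ : ℂ) * eth θ)) :=
  (integrable_norm_iff (K_cont (zre_pos hθ hτ)).aestronglyMeasurable).1 (P1_aux_int_norm hθ hτ)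

theorem K_l1 {θ T : ℝ} (hθ : 0 < Real.cos θ) (hT : 0 < T) : ∃ C : ℝ, 0 < C ∧
    ∀ τ ∈ Ioc 0 T, ∫ x : E N, ‖K N ((τ : ℂ) * eth θ) x‖ ≤ C := by
  obtain ⟨C, hC, h⟩ := K_weight (N := N) hθ hT
  refine ⟨C, hC, fun τ hτ => le_trans ?_ (h τ hτ).2⟩
  refine integral_mono (P1_aux_int_norm hθ hτ.1) (h τ hτ).1 fun x => ?_
  exact le_mul_of_one_le_right (norm_nonneg _) (Real.one_le_exp (norm_nonneg _))

end CGL
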