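import Pool.Agent.W_317df6_h83.P1

/-!
# Mild solutions: boundedness, continuity, Lipschitz bound (task P2a)
-/

set_option autoImplicit false

namespace CGL

open MeasureTheory Set
open scoped ZeroAtInfty

variable {N : ℕ} {α θ γ T : ℝ} {u0 : C₀(E N, ℂ)} {u : ℝ → C₀(E N, ℂ)}

/-- `u` is continuous on the compact interval `[0,T]`. -/
theorem IsMild.bdd (hu : IsMild N α θ γ T u0 u) : ∃ B : ℝ, 0 < B ∧ ∀ t ∈ Icc 0 T, ‖u t‖ ≤ B := by
  obtain ⟨C, hC⟩ := isCompact_Icc.exists_bound_of_continuousOn hu.cont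
  exact ⟨max C 1, lt_of_lt_of_le one_pos (le_max_right _ _),
    fun t ht => (hC t ht).trans (le_max_left _ _)⟩

/-- the map `(t,x) ↦ u t x` is continuous on `[0,T] × ℝ^N`:
`|u t x - u s y| ≤ ‖u t - u s‖ + |u s x - u s y|`. -/
theorem IsMild.joint (hu : IsMild N α θ γ T u0 u) :
    ContinuousOn (fun p : ℝ × E N => u p.1 p.2) (Icc 0 T ×ˢ univ) := by
  have h1 : ContinuousOn (fun p : ℝ × E N => (u p.1).toBCF) (Icc 0 T ×ˢ univ) :=
    ZeroAtInftyContinuousMap.isometry_toBCF.continuous.comp_continuousOn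
      (hu.cont.comp continuousOn_fst fun p hp => hp.1)
  have h2 : Continuous fun p : BoundedContinuousFunction (E N) ℂ × E N => p.1 p.2 :=
    continuous_eval
  exact h2.comp_continuousOn (h1.prodMk continuousOn_snd)

/-- restriction to a shorter interval -/
theorem IsMild.mono (hu : IsMild N α θ γ T u0 u) {T' : ℝ} (hT : T' ≤ T) :
    IsMild N α θ γ T' u0 u :=
  ⟨hu.cont.mono (Icc_subset_Icc_right hT), hu.init,
    fun t ht x => hu.eq t ⟨ht.1, ht.2.trans hT⟩ x⟩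

theorem P2a_real {a b : ℝ} (hb : 0 ≤ b) (hab : b ≤ a) :
    (a ^ α - b ^ α) * a ≤ max 1 α * a ^ α * (a - b) := by
  rcases (hb.trans hab).eq_or_lt with h0 | ha
  · have hb0 : b = 0 := le_antisymm (by rw [h0]; exact hab) hb
    rw [← h0, hb0]
    simp
  have hr0 : 0 ≤ b / a := by positivity
  have hr1 : b / a ≤ 1 := by rwa [div_le_one ha]
  have h1 : 1 - (b / a) ^ α ≤ max 1 α * (1 - b / a) := by
    rcases le_total α 1 with h | h
    · have h2 : b / a ≤ (b / a) ^ α := by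
        rcases hr0.eq_or_lt with h3 | h3
        · rw [← h3]
          exact Real.rpow_nonneg le_rfl _
        · have := Real.rpow_le_rpow_of_exponent_ge h3 hr1 h
          rwa [Real.rpow_one] at this
      rw [max_eq_left h, one_mul]
      linarith
    · have h2 := one_add_mul_self_le_rpow_one_add (s := b / a - 1) (by linarith) h
      rw [add_sub_cancel] at h2
      rw [max_eq_right h]
      linarith
  have h2 : b = a * (b / a) := by field_simp
  have h3 : b ^ α = a ^ α * (b / a) ^ α := by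
    nth_rewrite 1 [h2]
    rw [Real.mul_rpow ha.le hr0]
  have h4 : 0 ≤ a ^ α * a := by positivity
  have h5 := mul_le_mul_of_nonneg_left h1 h4
  have h6 : (a ^ α - b ^ α) * a = a ^ α * a * (1 - (b / a) ^ α) := by
    rw [h3]
    ring
  have h7 : max 1 α * a ^ α * (a - b) = a ^ α * a * (max 1 α * (1 - b / a)) := by
    nth_rewrite 1 [h2]
    ring
  rw [h6, h7]
  exact h5

theorem P2a_nl (hα : 0 < α) {B : ℝ} {z w : ℂ} (hz : ‖z‖ ≤ B) (hwz : ‖w‖ ≤ ‖z‖) :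
    ‖nl α z - nl α w‖ ≤ B ^ α * (1 + max 1 α) * ‖z - w‖ := by
  have h0 := norm_nonneg w
  have h0' := norm_nonneg z
  have e1 : nl α z - nl α w = ((‖w‖ ^ α : ℝ) : ℂ) * (z - w) +
      ((‖z‖ ^ α - ‖w‖ ^ α : ℝ) : ℂ) * z := by
    unfold nl
    push_cast
    ring
  have h1 : ‖w‖ ^ α ≤ ‖z‖ ^ α := Real.rpow_le_rpow h0 hwz hα.le
  have h2 : ‖z‖ ^ α ≤ B ^ α := Real.rpow_le_rpow h0' hz hα.le
  have h3 := P2a_real (α := α) h0 hwz
  have h4 : ‖z‖ - ‖w‖ ≤ ‖z - w‖ := norm_sub_norm_le z w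
  have h5 : 0 ≤ ‖w‖ ^ α := Real.rpow_nonneg h0 _
  have h6 : 0 ≤ max 1 α := zero_le_one.trans (le_max_left _ _)
  calc ‖nl α z - nl α w‖ ≤ ‖((‖w‖ ^ α : ℝ) : ℂ) * (z - w)‖ +
        ‖((‖z‖ ^ α - ‖w‖ ^ α : ℝ) : ℂ) * z‖ := by
        rw [e1]
        exact norm_add_le _ _
    _ = ‖w‖ ^ α * ‖z - w‖ + (‖z‖ ^ α - ‖w‖ ^ α) * ‖z‖ := by
        rw [norm_mul, norm_mul, Complex.norm_real, Complex.norm_real,
          Real.norm_of_nonneg h5, Real.norm_of_nonneg (sub_nonneg.2 h1)]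
    _ ≤ B ^ α * ‖z - w‖ + max 1 α * B ^ α * ‖z - w‖ := by
        refine add_le_add (mul_le_mul_of_nonneg_right (h1.trans h2) (norm_nonneg _)) ?_
        refine h3.trans ?_
        exact mul_le_mul (mul_le_mul_of_nonneg_left h2 h6) h4 (sub_nonneg.2 hwz)
          (mul_nonneg h6 (h5.trans (h1.trans h2)))
    _ = B ^ α * (1 + max 1 α) * ‖z - w‖ := by ring

/-- Lipschitz bound for the lower order part on bounded sets; in particular
`|FF z| ≤ L |z|` for `|z| ≤ B`.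
For `|w| ≤ |z|`: `|z|^α z - |w|^α w = |w|^α (z-w) + (|z|^α-|w|^α) z` and
`(|z|^α-|w|^α)|z| ≤ max(1,α) |z|^α (|z|-|w|)` (with `r = |w|/|z| ∈ [0,1]`: `1 - r^α ≤ max(1,α)(1-r)`,
Bernoulli `one_add_mul_self_le_rpow_one_add` for `α ≥ 1`, `r ≤ r^α` for `α ≤ 1`).
`L = B^α (1 + max(1,α)) + |γ| + 1` (`B ≥ 0`, else nothing to show). -/
theorem FF_lip (hα : 0 < α) (θ γ : ℝ) (B : ℝ) : ∃ L : ℝ, 0 < L ∧ ∀ z w : ℂ, ‖z‖ ≤ B → ‖w‖ ≤ B →
    ‖FF α θ γ z - FF α θ γ w‖ ≤ L * ‖z - w‖ := by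
  rcases lt_or_ge B 0 with hB | hB
  · exact ⟨1, one_pos, fun z w hz _ => absurd ((norm_nonneg z).trans hz) (not_le.2 hB)⟩
  have h6 : 0 ≤ max 1 α := zero_le_one.trans (le_max_left _ _)
  have hBα : 0 ≤ B ^ α := Real.rpow_nonneg hB _
  refine ⟨B ^ α * (1 + max 1 α) + |γ| + 1, by positivity, fun z w hz hw => ?_⟩
  have h1 : ‖nl α z - nl α w‖ ≤ B ^ α * (1 + max 1 α) * ‖z - w‖ := by
    rcases le_total ‖w‖ ‖z‖ with h | h
    · exact P2a_nl hα hz h
    · rw [norm_sub_rev, norm_sub_rev z]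
      exact P2a_nl hα hw h
  have h2 : ‖eth θ‖ = 1 := by
    unfold eth
    exact Complex.norm_exp_ofReal_mul_I θ
  have e1 : FF α θ γ z - FF α θ γ w = eth θ * (nl α z - nl α w) + (γ : ℂ) * (z - w) := by
    unfold FF
    ring
  calc ‖FF α θ γ z - FF α θ γ w‖ ≤ ‖eth θ * (nl α z - nl α w)‖ + ‖(γ : ℂ) * (z - w)‖ := by
        rw [e1]
        exact norm_add_le _ _
    _ = ‖nl α z - nl α w‖ + |γ| * ‖z - w‖ := by
        rw [norm_mul, norm_mul, h2, one_mul, Complex.norm_real, Real.norm_eq_abs]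
    _ ≤ (B ^ α * (1 + max 1 α) + |γ| + 1) * ‖z - w‖ := by
        have := norm_nonneg (z - w)
        nlinarith

end CGL
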