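import Pool.Agent.W_317df6_h83.P2a

/-!
# Decay of mild solutions (task P2b)
-/

set_option autoImplicit false

namespace CGL

open MeasureTheory Set
open scoped ZeroAtInfty

variable {N : ℕ} {α θ γ T : ℝ} {u0 : C₀(E N, ℂ)} {u : ℝ → C₀(E N, ℂ)}

theorem P2b_eta {L : ℝ} (hL : 0 < L) (x y : E N) :
    min (Real.exp ‖x‖) L ≤ Real.exp ‖x - y‖ * min (Real.exp ‖y‖) L := by
  have h1 : Real.exp ‖x‖ ≤ Real.exp ‖x - y‖ * Real.exp ‖y‖ := by
    rw [← Real.exp_add]
    apply Real.exp_le_exp.2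
    have := norm_add_le (x - y) y
    rwa [sub_add_cancel] at this
  have h2 : L ≤ Real.exp ‖x - y‖ * L := by
    have h3 : 1 ≤ Real.exp ‖x - y‖ := Real.one_le_exp (norm_nonneg _)
    nlinarith
  rcases le_total (Real.exp ‖y‖) L with h | h
  · rw [min_eq_left h]
    exact (min_le_left _ _).trans h1
  · rw [min_eq_right h]
    exact (min_le_right _ _).trans h2

theorem P2b_eta_pos {L : ℝ} (hL : 0 < L) (x : E N) : 0 < min (Real.exp ‖x‖) L :=
  lt_min (Real.exp_pos _) hL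

/-- the bound of one convolution -/
theorem P2b_conv {C τ L b : ℝ} (hL : 0 < L) (hb : 0 ≤ b) (k : E N → ℂ) (f : E N → ℂ)
    (hk : Integrable (fun x : E N => ‖k x‖ * Real.exp ‖x‖))
    (hC : ∫ x : E N, ‖k x‖ * Real.exp ‖x‖ ≤ C)
    (hf : ∀ y, min (Real.exp ‖y‖) L * ‖f y‖ ≤ b) (x : E N) :
    ‖∫ y, k (x - y) * f y‖ ≤ C * b / min (Real.exp ‖x‖) L := by
  have hx := P2b_eta_pos hL x
  have h1 : Integrable (fun y : E N => (b / min (Real.exp ‖x‖) L) *
      (‖k (x - y)‖ * Real.exp ‖x - y‖)) := (hk.comp_sub_left x).const_mul _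
  have h2 : ∫ y, ‖k (x - y) * f y‖ ≤ ∫ y, (b / min (Real.exp ‖x‖) L) *
      (‖k (x - y)‖ * Real.exp ‖x - y‖) := by
    refine integral_mono_of_nonneg (Filter.Eventually.of_forall fun y => norm_nonneg _) h1
      (Filter.Eventually.of_forall fun y => ?_)
    show ‖k (x - y) * f y‖ ≤ _
    rw [norm_mul]
    have hy := P2b_eta_pos hL y
    have h3 : ‖f y‖ ≤ b / min (Real.exp ‖x‖) L * Real.exp ‖x - y‖ := by
      rw [div_mul_eq_mul_div, le_div_iff₀ hx]
      have h4 := mul_le_mul_of_nonneg_left (P2b_eta hL x y) (norm_nonneg (f y))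
      have h5 := mul_le_mul_of_nonneg_left (hf y) (Real.exp_pos ‖x - y‖).le
      nlinarith
    have h6 := mul_le_mul_of_nonneg_left h3 (norm_nonneg (k (x - y)))
    linarith
  refine (norm_integral_le_integral_norm _).trans (h2.trans ?_)
  rw [integral_const_mul, integral_sub_left_eq_self (fun z : E N => ‖k z‖ * Real.exp ‖z‖)]
  have h7 : 0 ≤ b / min (Real.exp ‖x‖) L := div_nonneg hb hx.le
  have h8 := mul_le_mul_of_nonneg_left hC h7
  refine h8.trans (le_of_eq ?_)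
  ring

/-- one step of the bootstrap -/
theorem P2b_step (hθ : 0 < Real.cos θ) (hu : IsMild N α θ γ T u0 u) {C A B U L S : ℝ}
    (hC0 : 0 < C) (hA0 : 0 < A) (hL : 0 < L) (hU : 0 ≤ U) (hS : 0 ≤ S)
    (hC : ∀ τ ∈ Ioc 0 T, Integrable (fun x : E N => ‖K N ((τ : ℂ) * eth θ) x‖ * Real.exp ‖x‖) ∧
      ∫ x : E N, ‖K N ((τ : ℂ) * eth θ) x‖ * Real.exp ‖x‖ ≤ C)
    (hB : ∀ t ∈ Icc 0 T, ‖u t‖ ≤ B)
    (hA : ∀ z : ℂ, ‖z‖ ≤ B → ‖FF α θ γ z‖ ≤ A * ‖z‖)
    (hU0 : ∀ y, Real.exp ‖y‖ * ‖u0 y‖ ≤ U)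
    (hSb : ∀ t ∈ Icc 0 T, ∀ x,
      Real.exp (-(2 * C * A) * t) * (min (Real.exp ‖x‖) L * ‖u t x‖) ≤ S) :
    ∀ t ∈ Icc 0 T, ∀ x,
      Real.exp (-(2 * C * A) * t) * (min (Real.exp ‖x‖) L * ‖u t x‖) ≤ (C + 1) * U + S / 2 := by
  intro t ht x
  have hx := P2b_eta_pos hL x
  have hlam : 0 < 2 * C * A := by positivity
  rcases ht.1.eq_or_lt with h0 | h0
  · rw [← h0, mul_zero, Real.exp_zero, one_mul, hu.init]
    have h1 : min (Real.exp ‖x‖) L * ‖u0 x‖ ≤ U :=
      (mul_le_mul_of_nonneg_right (min_le_left _ _) (norm_nonneg _)).trans (hU0 x)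
    have h2 : 0 ≤ C * U := mul_nonneg hC0.le hU
    linarith
  · have heq := hu.eq t ⟨h0, ht.2⟩ x
    have h1 : ‖∫ y, K N ((t : ℂ) * eth θ) (x - y) * u0 y‖ ≤ C * U / min (Real.exp ‖x‖) L := by
      obtain ⟨hk, hk'⟩ := hC t ⟨h0, ht.2⟩
      refine P2b_conv (τ := t) hL hU _ _ hk hk' (fun y => ?_) x
      exact (mul_le_mul_of_nonneg_right (min_le_left _ _) (norm_nonneg _)).trans (hU0 y)
    have h2 : ‖∫ s in (0:ℝ)..t, ∫ y, K N (((t - s : ℝ) : ℂ) * eth θ) (x - y) *
        FF α θ γ (u s y)‖ ≤ ∫ s in (0:ℝ)..t, (C * (A * S) / min (Real.exp ‖x‖) L) *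
          Real.exp ((2 * C * A) * s) := by
      refine intervalIntegral.norm_integral_le_of_norm_le h0.le ?_ ?_
      · have hne : ∀ᵐ s : ℝ, s ≠ t := by
          rw [ae_iff]
          simp
        filter_upwards [hne] with s hst hs
        have hst' : s < t := lt_of_le_of_ne hs.2 hst
        obtain ⟨hk, hk'⟩ := hC (t - s) ⟨by linarith, by linarith [hs.1, ht.2]⟩
        have hsI : s ∈ Icc 0 T := ⟨hs.1.le, by linarith [ht.2]⟩
        have hb : 0 ≤ A * S * Real.exp ((2 * C * A) * s) := by positivity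
        refine (P2b_conv (τ := t) hL hb _ _ hk hk' (fun y => ?_) x).trans (le_of_eq (by ring))
        have h3 : ‖u s y‖ ≤ B := (BoundedContinuousFunction.norm_coe_le_norm (u s).toBCF y).trans
          (hB s hsI)
        have h4 := hA (u s y) h3
        have h5 := hSb s hsI y
        have h6 := P2b_eta_pos hL y
        have h7 : min (Real.exp ‖y‖) L * ‖u s y‖ ≤ S * Real.exp ((2 * C * A) * s) := by
          have h8 := mul_le_mul_of_nonneg_right h5 (Real.exp_pos ((2 * C * A) * s)).le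
          have h9 : Real.exp (-(2 * C * A) * s) * Real.exp ((2 * C * A) * s) = 1 := by
            rw [← Real.exp_add, neg_mul, neg_add_cancel, Real.exp_zero]
          calc min (Real.exp ‖y‖) L * ‖u s y‖
              = (Real.exp (-(2 * C * A) * s) * Real.exp ((2 * C * A) * s)) *
                  (min (Real.exp ‖y‖) L * ‖u s y‖) := by rw [h9, one_mul]
            _ = Real.exp (-(2 * C * A) * s) * (min (Real.exp ‖y‖) L * ‖u s y‖) *
                  Real.exp ((2 * C * A) * s) := by ring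
            _ ≤ _ := h8
        calc min (Real.exp ‖y‖) L * ‖FF α θ γ (u s y)‖
            ≤ min (Real.exp ‖y‖) L * (A * ‖u s y‖) := mul_le_mul_of_nonneg_left h4 h6.le
          _ = A * (min (Real.exp ‖y‖) L * ‖u s y‖) := by ring
          _ ≤ A * (S * Real.exp ((2 * C * A) * s)) := mul_le_mul_of_nonneg_left h7 hA0.le
          _ = A * S * Real.exp ((2 * C * A) * s) := by ring
      · exact (by fun_prop : Continuous fun s : ℝ => (C * (A * S) / min (Real.exp ‖x‖) L) *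
          Real.exp ((2 * C * A) * s)).intervalIntegrable _ _
    have h3 : ∫ s in (0:ℝ)..t, (C * (A * S) / min (Real.exp ‖x‖) L) *
        Real.exp ((2 * C * A) * s) ≤ S / 2 * Real.exp ((2 * C * A) * t) /
          min (Real.exp ‖x‖) L := by
      rw [intervalIntegral.integral_const_mul, intervalIntegral.integral_comp_mul_left
        (f := fun s => Real.exp s) hlam.ne', integral_exp]
      rw [mul_zero, Real.exp_zero, smul_eq_mul]
      have h4 : C * (A * S) / min (Real.exp ‖x‖) L * ((2 * C * A)⁻¹ *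
          (Real.exp (2 * C * A * t) - 1)) = S / 2 * (Real.exp (2 * C * A * t) - 1) /
          min (Real.exp ‖x‖) L := by
        field_simp
      rw [h4]
      apply div_le_div_of_nonneg_right _ hx.le
      apply mul_le_mul_of_nonneg_left _ (by positivity)
      linarith
    have h4 : ‖u t x‖ ≤ (C * U + S / 2 * Real.exp ((2 * C * A) * t)) /
        min (Real.exp ‖x‖) L := by
      rw [heq, add_div]
      exact (norm_add_le _ _).trans (add_le_add h1 (h2.trans h3))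
    have h5 : min (Real.exp ‖x‖) L * ‖u t x‖ ≤
        C * U + S / 2 * Real.exp ((2 * C * A) * t) := by
      rw [le_div_iff₀ hx] at h4
      linarith
    have h6 := mul_le_mul_of_nonneg_left h5 (Real.exp_pos (-(2 * C * A) * t)).le
    have h7 : Real.exp (-(2 * C * A) * t) * Real.exp ((2 * C * A) * t) = 1 := by
      rw [← Real.exp_add, neg_mul, neg_add_cancel, Real.exp_zero]
    have h8 : Real.exp (-(2 * C * A) * t) ≤ 1 := by
      apply Real.exp_le_one_iff.2
      nlinarith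
    have h9 : 0 ≤ C * U := mul_nonneg hC0.le hU
    calc _ ≤ _ := h6
      _ = Real.exp (-(2 * C * A) * t) * (C * U) +
          S / 2 * (Real.exp (-(2 * C * A) * t) * Real.exp ((2 * C * A) * t)) := by ring
      _ ≤ 1 * (C * U) + S / 2 * 1 := by
          rw [h7]
          exact add_le_add (mul_le_mul_of_nonneg_right h8 h9) le_rfl
      _ ≤ (C + 1) * U + S / 2 := by linarith

/-- **Exponential decay.**

Proof.  If `T < 0` nothing is to be shown; `t = 0` is clear (`u 0 = u0` has compact support), so let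
`T > 0`.  Let `C` be the constant of `K_weight` on `(0,T]`, `B` that of `IsMild.bdd`, `A` that of
`FF_lip` for this `B` (with `w = 0`: `‖FF z‖ ≤ A‖z‖` for `‖z‖ ≤ B`), `U` a bound for
`exp‖y‖ ‖u0 y‖` (continuous with compact support), `λ = 2CA`.
For `L > 0` let `η(x) = min (exp ‖x‖) L`; then `0 < η ≤ L` and `η(x) ≤ exp‖x-y‖ η(y)`.
Let `S = sup {exp(-λt) η(x) ‖u t x‖ : t ∈ [0,T], x}`, finite (`≤ L B`), `S ≥ 0`.
By the integral equation and `∫ ‖K(te, x-y)‖ exp‖x-y‖ dy ≤ C` (`K_weight`, translation),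
`exp(-λt) η(x)‖u t x‖ ≤ C U + C A ∫_0^t exp(-λ(t-s)) S ds ≤ C U + C A S/λ = C U + S/2`
(for the time integral: `intervalIntegral.norm_integral_le_of_norm_le`, the bound of the inner
integral for `s ∈ (0,t)` is `A C S exp(λs)/η(x)`; no integrability of the inner integral is needed).
So `S ≤ 2CU`.  For given `x` take `L = exp‖x‖`: `exp‖x‖ ‖u t x‖ ≤ 2 C U exp(λT)`. -/
theorem IsMild.decay (hα : 0 < α) (hθ : 0 < Real.cos θ) (hu : IsMild N α θ γ T u0 u)
    (hc : HasCompactSupport u0) :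
    ∃ C : ℝ, ∀ t ∈ Icc 0 T, ∀ x, ‖u t x‖ ≤ C * Real.exp (-‖x‖) := by
  obtain ⟨U, hU⟩ := (by fun_prop : Continuous fun y : E N =>
    Real.exp ‖y‖ * ‖u0 y‖).bounded_above_of_compact_support (hc.norm.mul_left)
  have hU' : ∀ y, Real.exp ‖y‖ * ‖u0 y‖ ≤ U := fun y => (le_abs_self _).trans (hU y)
  have hU0 : 0 ≤ U := (norm_nonneg _).trans (hU 0)
  have hexp : ∀ x : E N, ∀ c M : ℝ, Real.exp ‖x‖ * c ≤ M → c ≤ M * Real.exp (-‖x‖) := by
    intro x c M h
    have h1 := mul_le_mul_of_nonneg_right h (Real.exp_pos (-‖x‖)).le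
    have h2 : Real.exp ‖x‖ * Real.exp (-‖x‖) = 1 := by
      rw [← Real.exp_add, add_neg_cancel, Real.exp_zero]
    calc c = Real.exp ‖x‖ * Real.exp (-‖x‖) * c := by rw [h2, one_mul]
      _ = Real.exp ‖x‖ * c * Real.exp (-‖x‖) := by ring
      _ ≤ _ := h1
  rcases le_or_gt T 0 with hT | hT
  · refine ⟨U, fun t ht x => ?_⟩
    have h0 : t = 0 := le_antisymm (ht.2.trans hT) ht.1
    rw [h0, hu.init]
    exact hexp x _ _ (hU' x)
  obtain ⟨C, hC0, hC⟩ := K_weight (N := N) hθ hT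
  obtain ⟨B, hB0, hB⟩ := hu.bdd
  obtain ⟨A, hA0, hA⟩ := FF_lip hα θ γ B
  have hA' : ∀ z : ℂ, ‖z‖ ≤ B → ‖FF α θ γ z‖ ≤ A * ‖z‖ := by
    intro z hz
    have h1 := hA z 0 hz (by rw [norm_zero]; exact hB0.le)
    have h2 : FF α θ γ 0 = 0 := by simp [FF, nl]
    rwa [h2, sub_zero, sub_zero] at h1
  refine ⟨2 * ((C + 1) * U) * Real.exp (2 * C * A * T), fun t ht x => ?_⟩
  apply hexp
  set L : ℝ := Real.exp ‖x‖ with hL
  have hL0 : 0 < L := Real.exp_pos _
  set G : Set ℝ := {r | ∃ s ∈ Icc 0 T, ∃ y : E N,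
    r = Real.exp (-(2 * C * A) * s) * (min (Real.exp ‖y‖) L * ‖u s y‖)} with hG
  have hlam : 0 < 2 * C * A := by positivity
  have hbd : ∀ r ∈ G, r ≤ L * B := by
    rintro r ⟨s, hs, y, rfl⟩
    have h1 : Real.exp (-(2 * C * A) * s) ≤ 1 := by
      apply Real.exp_le_one_iff.2
      nlinarith [hs.1]
    have h2 : ‖u s y‖ ≤ B := (BoundedContinuousFunction.norm_coe_le_norm (u s).toBCF y).trans
      (hB s hs)
    have h3 : min (Real.exp ‖y‖) L * ‖u s y‖ ≤ L * B :=
      mul_le_mul (min_le_right _ _) h2 (norm_nonneg _) hL0.le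
    have h4 : 0 ≤ min (Real.exp ‖y‖) L * ‖u s y‖ :=
      mul_nonneg (P2b_eta_pos hL0 y).le (norm_nonneg _)
    calc _ ≤ 1 * (min (Real.exp ‖y‖) L * ‖u s y‖) := mul_le_mul_of_nonneg_right h1 h4
      _ ≤ L * B := by rw [one_mul]; exact h3
  have hbdd : BddAbove G := ⟨L * B, hbd⟩
  have hmem : ∀ s ∈ Icc 0 T, ∀ y : E N,
      Real.exp (-(2 * C * A) * s) * (min (Real.exp ‖y‖) L * ‖u s y‖) ≤ sSup G :=
    fun s hs y => le_csSup hbdd ⟨s, hs, y, rfl⟩
  have hS0 : 0 ≤ sSup G := by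
    refine le_trans ?_ (hmem t ht x)
    have := P2b_eta_pos hL0 x
    positivity
  have hstep := P2b_step hθ hu hC0 hA0 hL0 hU0 hS0 hC hB hA' hU' hmem
  have hS : sSup G ≤ (C + 1) * U + sSup G / 2 := by
    refine csSup_le ⟨_, t, ht, x, rfl⟩ ?_
    rintro r ⟨s, hs, y, rfl⟩
    exact hstep s hs y
  have hfin := hmem t ht x
  rw [← hL, min_self] at hfin
  have h1 : Real.exp (-(2 * C * A) * t) * (L * ‖u t x‖) ≤ 2 * ((C + 1) * U) := by linarith
  have h2 := mul_le_mul_of_nonneg_right h1 (Real.exp_pos ((2 * C * A) * t)).le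
  have h3 : Real.exp (-(2 * C * A) * t) * Real.exp ((2 * C * A) * t) = 1 := by
    rw [← Real.exp_add, neg_mul, neg_add_cancel, Real.exp_zero]
  calc L * ‖u t x‖ = (Real.exp (-(2 * C * A) * t) * Real.exp ((2 * C * A) * t)) *
        (L * ‖u t x‖) := by rw [h3, one_mul]
    _ = Real.exp (-(2 * C * A) * t) * (L * ‖u t x‖) * Real.exp ((2 * C * A) * t) := by ring
    _ ≤ 2 * ((C + 1) * U) * Real.exp ((2 * C * A) * t) := h2
    _ ≤ 2 * ((C + 1) * U) * Real.exp ((2 * C * A) * T) := by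
        apply mul_le_mul_of_nonneg_left _ (by positivity)
        apply Real.exp_le_exp.2
        exact mul_le_mul_of_nonneg_left ht.2 hlam.le

end CGL
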