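import Pool.Agent.W_317df6_h83.P1

/-!
# Duality for the complex heat semigroup: initial value term (task P3b)
-/

set_option autoImplicit false

namespace CGL

open MeasureTheory Set
open scoped SchwartzMap

variable {N : ℕ}

private theorem P3b_int {θ t B : ℝ} (hθ : 0 < Real.cos θ) (ht : 0 < t) {g : E N → ℂ}
    (hg : Continuous g) (hB : ∀ y, ‖g y‖ ≤ B) (ψ : 𝓢(E N, ℂ)) :
    Integrable (fun p : E N × E N => ψ p.1 * (K N ((t : ℂ) * eth θ) (p.1 - p.2) * g p.2))
      (volume.prod volume) := by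
  have hk : Continuous (K N ((t : ℂ) * eth θ)) := K_cont (zre_pos hθ ht)
  have h1 : Integrable (fun p : E N × E N => ψ p.2 * K N ((t : ℂ) * eth θ) (p.1 - p.2))
      (volume.prod volume) :=
    (ψ.integrable (μ := volume)).convolution_integrand (ContinuousLinearMap.mul ℝ ℂ)
      (K_integrable hθ ht)
  have h2 : Integrable (fun p : E N × E N => ψ p.1 * K N ((t : ℂ) * eth θ) (p.1 - p.2))
      (volume.prod volume) := by
    refine (h1.swap).congr (Filter.Eventually.of_forall fun p => ?_)
    show ψ p.1 * K N ((t : ℂ) * eth θ) (p.2 - p.1) = _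
    rw [K_radial _ (norm_sub_rev p.2 p.1)]
  have h3 : Integrable (fun p : E N × E N =>
      (ψ p.1 * K N ((t : ℂ) * eth θ) (p.1 - p.2)) * g p.2) (volume.prod volume) := by
    exact h2.mul_bdd (hg.comp continuous_snd).aestronglyMeasurable
      (Filter.Eventually.of_forall fun p => hB p.2)
  refine h3.congr (Filter.Eventually.of_forall fun p => ?_)
  show _ = _
  ring

/-- `∫ ψ T_θ(t)g = ∫ (T_θ(t)ψ) g` for bounded continuous `g`.

Proof.  `(x,y) ↦ ψ(x) K(te, x-y) g(y)` is continuous, dominated by `|ψ(x)| |K(te,x-y)| B`, which is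
integrable on the product (`Integrable.convolution_integrand` or `integrable_prod_iff`), so Fubini
(`integral_integral_swap`, `Integrable.integral_prod_left`) applies; `K(te, x-y) = K(te, y-x)`
(`K_radial`, `norm_sub_rev`). -/
theorem K_swap0 {θ t B : ℝ} (hθ : 0 < Real.cos θ) (ht : 0 < t) {g : E N → ℂ} (hg : Continuous g)
    (hB : ∀ y, ‖g y‖ ≤ B) (ψ : 𝓢(E N, ℂ)) :
    Integrable (fun x => ψ x * ∫ y, K N ((t : ℂ) * eth θ) (x - y) * g y) ∧
    ∫ x, ψ x * (∫ y, K N ((t : ℂ) * eth θ) (x - y) * g y) =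
      ∫ y, (∫ x, K N ((t : ℂ) * eth θ) (y - x) * ψ x) * g y := by
  have h := P3b_int hθ ht hg hB ψ
  constructor
  · refine h.integral_prod_left.congr (Filter.Eventually.of_forall fun x => ?_)
    exact integral_const_mul (ψ x) (fun y => K N ((t : ℂ) * eth θ) (x - y) * g y)
  · have h1 : ∀ x, ψ x * (∫ y, K N ((t : ℂ) * eth θ) (x - y) * g y) =
        ∫ y, ψ x * (K N ((t : ℂ) * eth θ) (x - y) * g y) := fun x =>
      (integral_const_mul (ψ x) (fun y => K N ((t : ℂ) * eth θ) (x - y) * g y)).symm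
    simp only [h1]
    rw [integral_integral_swap h]
    refine integral_congr_ae (Filter.Eventually.of_forall fun y => ?_)
    show ∫ x, ψ x * (K N ((t : ℂ) * eth θ) (x - y) * g y) =
      (∫ x, K N ((t : ℂ) * eth θ) (y - x) * ψ x) * g y
    rw [← integral_mul_const]
    refine integral_congr_ae (Filter.Eventually.of_forall fun x => ?_)
    show ψ x * (K N ((t : ℂ) * eth θ) (x - y) * g y) = K N ((t : ℂ) * eth θ) (y - x) * ψ x * g y
    rw [K_radial _ (norm_sub_rev x y)]
    ring

end CGL
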