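import Pool.Agent.W_317df6_h83.P1
import Pool.Agent.W_317df6_h83.P3b

/-!
# Duality for the complex heat semigroup: Duhamel term (task P3c)
-/

set_option autoImplicit false

namespace CGL

open MeasureTheory Set
open scoped SchwartzMap

variable {N : ℕ}

/-- `∫ ψ ∫_0^t T_θ(t-s)F(s) ds = ∫_0^t ∫ (T_θ(t-s)ψ) F(s) ds`, `F` bounded and continuous on
`[0,T] × ℝ^N`.

Proof.  `H(s,x,y) = ψ(x) K((t-s)e, x-y) F(s,y)` is continuous on `[0,t) × ℝ^N × ℝ^N` (`K_contOn`),
hence a.e. strongly measurable for the product of `volume.restrict (Ioo 0 t)` and `volume.prod volume`.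
It is integrable there: `∫∫ |H(s,x,y)| dy dx ≤ B C ∫|ψ|`, `C` of `K_l1`
(`integrable_prod_iff`; for fixed `s` the function `|ψ(x)||K((t-s)e,x-y)|` is integrable on the
product).  Then Fubini (`integral_integral_swap`) twice, and `K(z, x-y) = K(z, y-x)` (`K_radial`).
It may be convenient to work with `volume.restrict (Ioc 0 t)` and the null set `{t}`. -/
theorem K_swap {θ T B : ℝ} (hθ : 0 < Real.cos θ) {F : ℝ → E N → ℂ}
    (hF : ContinuousOn (fun p : ℝ × E N => F p.1 p.2) (Icc 0 T ×ˢ univ))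
    (hB : ∀ s ∈ Icc 0 T, ∀ y, ‖F s y‖ ≤ B) {t : ℝ} (ht : t ∈ Ioc 0 T) (ψ : 𝓢(E N, ℂ)) :
    Integrable (fun x => ψ x *
      ∫ s in (0:ℝ)..t, ∫ y, K N (((t - s : ℝ) : ℂ) * eth θ) (x - y) * F s y) ∧
    ∫ x, ψ x * (∫ s in (0:ℝ)..t, ∫ y, K N (((t - s : ℝ) : ℂ) * eth θ) (x - y) * F s y) =
      ∫ s in (0:ℝ)..t, ∫ y, (∫ x, K N (((t - s : ℝ) : ℂ) * eth θ) (y - x) * ψ x) * F s y := by
  have ht0 : 0 < t := ht.1
  have hB0 : 0 ≤ B := (norm_nonneg _).trans (hB t ⟨ht.1.le, ht.2⟩ 0)
  obtain ⟨C, hC0, hC⟩ := K_l1 (N := N) hθ ht0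
  have hsub : Ioo 0 t ⊆ Icc 0 T := fun s hs => ⟨hs.1.le, hs.2.le.trans ht.2⟩
  have hFs : ∀ s ∈ Ioo 0 t, Continuous (F s) := by
    intro s hs
    have h1 : ContinuousOn (fun y : E N => F s y) univ :=
      hF.comp (f := fun y : E N => ((s, y) : ℝ × E N)) (by fun_prop)
        (fun y _ => ⟨hsub hs, mem_univ _⟩)
    exact continuousOn_univ.1 h1
  -- the inner integral
  set G : ℝ × E N → ℂ := fun q => ∫ y, K N (((t - q.1 : ℝ) : ℂ) * eth θ) (q.2 - y) * F q.1 y
    with hG
  have hGb : ∀ s ∈ Ioo 0 t, ∀ x, ‖G (s, x)‖ ≤ C * B := by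
    intro s hs x
    have hts : 0 < t - s := sub_pos.2 hs.2
    have hi : Integrable (fun y => ‖K N (((t - s : ℝ) : ℂ) * eth θ) (x - y)‖ * B) :=
      ((K_integrable hθ hts).comp_sub_left x).norm.mul_const B
    have h1 : ‖G (s, x)‖ ≤ ∫ y, ‖K N (((t - s : ℝ) : ℂ) * eth θ) (x - y)‖ * B := by
      refine norm_integral_le_of_norm_le hi (Filter.Eventually.of_forall fun y => ?_)
      rw [norm_mul]
      exact mul_le_mul_of_nonneg_left (hB s (hsub hs) y) (norm_nonneg _)
    refine h1.trans ?_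
    rw [integral_mul_const, integral_sub_left_eq_self
      (fun z : E N => ‖K N (((t - s : ℝ) : ℂ) * eth θ) z‖) volume x]
    exact mul_le_mul_of_nonneg_right (hC (t - s) ⟨hts, by linarith [hs.1]⟩) hB0
  -- measurability
  have hGm : AEStronglyMeasurable G ((volume.restrict (Ioo 0 t)).prod volume) := by
    have h1 : ContinuousOn (fun q : (ℝ × E N) × E N =>
        K N (((t - q.1.1 : ℝ) : ℂ) * eth θ) (q.1.2 - q.2) * F q.1.1 q.2)
        ((Ioo 0 t ×ˢ univ) ×ˢ univ) := by
      refine ContinuousOn.mul ?_ ?_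
      · refine (K_contOn N).comp (f := fun q : (ℝ × E N) × E N =>
          ((((t - q.1.1 : ℝ) : ℂ) * eth θ, q.1.2 - q.2) : ℂ × E N)) (by fun_prop) ?_
        rintro ⟨⟨s, x⟩, y⟩ hq
        exact zre_pos hθ (sub_pos.2 hq.1.1.2)
      · refine hF.comp (f := fun q : (ℝ × E N) × E N => ((q.1.1, q.2) : ℝ × E N))
          (by fun_prop) ?_
        rintro ⟨⟨s, x⟩, y⟩ hq
        exact ⟨hsub hq.1.1, mem_univ _⟩
    have h2 : AEStronglyMeasurable (fun q : (ℝ × E N) × E N =>
        K N (((t - q.1.1 : ℝ) : ℂ) * eth θ) (q.1.2 - q.2) * F q.1.1 q.2)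
        (((volume.restrict (Ioo 0 t)).prod volume).prod volume) := by
      have h3 := h1.aestronglyMeasurable (μ := ((volume.prod volume).prod volume :
        Measure ((ℝ × E N) × E N))) ((measurableSet_Ioo.prod MeasurableSet.univ).prod
          MeasurableSet.univ)
      have h4 : ((volume.prod volume).prod volume : Measure ((ℝ × E N) × E N)).restrict
          ((Ioo 0 t ×ˢ univ) ×ˢ univ) =
          ((volume.restrict (Ioo 0 t)).prod volume).prod volume := by
        rw [← Measure.prod_restrict, ← Measure.prod_restrict, Measure.restrict_univ]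
      rwa [h4] at h3
    exact h2.integral_prod_right'
  have hψG : Integrable (fun q : ℝ × E N => ψ q.2 * G q) ((volume.restrict (Ioo 0 t)).prod volume) := by
    have h1 : Integrable (fun q : ℝ × E N => (C * B : ℝ) * ‖ψ q.2‖)
        ((volume.restrict (Ioo 0 t)).prod volume) := by
      have h2 : Integrable (fun _ : ℝ => (C * B : ℝ)) (volume.restrict (Ioo 0 t)) :=
        integrable_const _
      exact h2.mul_prod (ψ.integrable (μ := volume)).norm
    refine h1.mono' ?_ ?_
    · exact ((ψ.continuous.comp continuous_snd).aestronglyMeasurable).mul hGm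
    · have h3 : ∀ᵐ q : ℝ × E N ∂((volume.restrict (Ioo 0 t)).prod volume), q.1 ∈ Ioo 0 t :=
        Measure.quasiMeasurePreserving_fst.ae (ae_restrict_mem measurableSet_Ioo)
      filter_upwards [h3] with q hq
      rw [norm_mul, mul_comm]
      exact mul_le_mul_of_nonneg_right (hGb q.1 hq q.2) (norm_nonneg _)
  have hint : ∀ f : ℝ → ℂ, ∫ s in (0:ℝ)..t, f s = ∫ s in Ioo 0 t, f s := by
    intro f
    rw [intervalIntegral.integral_of_le ht0.le, integral_Ioc_eq_integral_Ioo]
  have hx : ∀ x, ψ x * (∫ s in (0:ℝ)..t, ∫ y, K N (((t - s : ℝ) : ℂ) * eth θ) (x - y) * F s y) =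
      ∫ s in Ioo 0 t, ψ x * G (s, x) := by
    intro x
    rw [hint, integral_const_mul]
  constructor
  · refine hψG.integral_prod_right.congr (Filter.Eventually.of_forall fun x => ?_)
    exact (hx x).symm
  · simp only [hx]
    have h1 := integral_integral_swap (f := fun (s : ℝ) (x : E N) => ψ x * G (s, x))
      (μ := volume.restrict (Ioo 0 t)) (ν := volume) hψG
    rw [← h1, hint]
    refine setIntegral_congr_fun measurableSet_Ioo fun s hs => ?_
    exact (K_swap0 hθ (sub_pos.2 hs.2) (hFs s hs) (hB s (hsub hs)) ψ).2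

end CGL
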