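import Pool.Agent.W_317df6_h83.Basic

/-!
# Fourier transform of the Laplacian (task P4b)
-/

set_option autoImplicit false

namespace CGL

open MeasureTheory Set
open scoped FourierTransform SchwartzMap

variable {N : ℕ}

open LineDeriv in
theorem P4b_one (f : 𝓢(E N, ℂ)) (m : E N) (ξ : E N) :
    (𝓕 (∂_{m} f : 𝓢(E N, ℂ))) ξ = (2 * Real.pi * Complex.I) * ((inner ℝ ξ m : ℝ) : ℂ) * (𝓕 f) ξ := by
  have : (fun x : E N => inner ℝ x m).HasTemperateGrowth :=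
    ((innerSL ℝ).flip m).hasTemperateGrowth
  rw [SchwartzMap.fourier_lineDerivOp_eq, smul_apply,
    SchwartzMap.smulLeftCLM_apply_apply this, smul_eq_mul, Complex.real_smul]
  ring

open LineDeriv in
theorem P4b_pd (i : Fin N) (f : 𝓢(E N, ℂ)) :
    pd i (⇑f) = ⇑(∂_{EuclideanSpace.single i (1 : ℝ)} f : 𝓢(E N, ℂ)) := by
  funext x
  rw [SchwartzMap.lineDerivOp_apply_eq_fderiv]
  rfl

/-- `𝓕(Δψ)(ξ) = -4π²|ξ|² 𝓕ψ(ξ)`.

Proof.  `𝓕(∂_iψ)(ξ) = 2πi ξ_i 𝓕ψ(ξ)` (e.g. `Real.fourier_fderiv` or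
`Real.fourierIntegral_fderiv`, evaluated at `EuclideanSpace.single i 1`, or the Schwartz space
versions), applied twice, `∑ ξ_i² = |ξ|²`.  The derivatives of `ψ` are integrable (Schwartz).
Or `SchwartzMap.fourier_laplacian`/`laplacian` in Mathlib if present. -/
theorem fourier_lap (ψ : 𝓢(E N, ℂ)) (ψ' : 𝓢(E N, ℂ)) (h : ∀ x, ψ' x = lap ψ x) (ξ : E N) :
    (𝓕 ψ') ξ = -(4 * (Real.pi : ℂ) ^ 2 * ((‖ξ‖ : ℝ) : ℂ) ^ 2) * (𝓕 ψ) ξ := by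
  have h1 : ψ' = ∑ i : Fin N, (LineDeriv.lineDerivOp (EuclideanSpace.single i (1 : ℝ))
      (LineDeriv.lineDerivOp (EuclideanSpace.single i (1 : ℝ)) ψ : 𝓢(E N, ℂ)) : 𝓢(E N, ℂ)) := by
    ext x
    rw [h x, sum_apply]
    unfold lap
    refine Finset.sum_congr rfl fun i _ => ?_
    rw [P4b_pd, P4b_pd]
  have h2 : (𝓕 ψ') ξ = ∑ i : Fin N, (𝓕 (LineDeriv.lineDerivOp (EuclideanSpace.single i (1 : ℝ))
      (LineDeriv.lineDerivOp (EuclideanSpace.single i (1 : ℝ)) ψ : 𝓢(E N, ℂ)) :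
        𝓢(E N, ℂ))) ξ := by
    have h3 : 𝓕 ψ' = (FourierTransform.fourierCLM ℂ 𝓢(E N, ℂ)) ψ' := rfl
    rw [h3, h1, map_sum, sum_apply]
    rfl
  rw [h2]
  have h4 : ∀ i : Fin N, (𝓕 (LineDeriv.lineDerivOp (EuclideanSpace.single i (1 : ℝ))
      (LineDeriv.lineDerivOp (EuclideanSpace.single i (1 : ℝ)) ψ : 𝓢(E N, ℂ)) :
        𝓢(E N, ℂ))) ξ = -(4 * (Real.pi : ℂ) ^ 2) * ((ξ i : ℝ) : ℂ) ^ 2 * (𝓕 ψ) ξ := by
    intro i
    rw [P4b_one, P4b_one]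
    have h5 : (inner ℝ ξ (EuclideanSpace.single i (1 : ℝ)) : ℝ) = ξ i := by
      simp [EuclideanSpace.inner_single_right]
    rw [h5]
    linear_combination (4 * (Real.pi : ℂ) ^ 2 * ((ξ i : ℝ) : ℂ) ^ 2 * (𝓕 ψ) ξ) * Complex.I_sq
  rw [Finset.sum_congr rfl fun i _ => h4 i, ← Finset.sum_mul, ← Finset.mul_sum]
  have h6 : ((‖ξ‖ : ℝ) : ℂ) ^ 2 = ∑ i : Fin N, ((ξ i : ℝ) : ℂ) ^ 2 := by
    have h7 : ‖ξ‖ ^ 2 = ∑ i : Fin N, (ξ i) ^ 2 := by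
      rw [EuclideanSpace.norm_sq_eq]
      refine Finset.sum_congr rfl fun i _ => ?_
      rw [Real.norm_eq_abs, sq_abs]
    rw [← Complex.ofReal_pow, h7]
    push_cast
    rfl
  rw [h6]
  ring

end CGL
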