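import Pool.Agent.W_317df6_h83.P4a
import Pool.Agent.W_317df6_h83.P4b

/-!
# The heat identity for test functions (task P4)
-/

set_option autoImplicit false

namespace CGL

open MeasureTheory Set
open scoped FourierTransform SchwartzMap

variable {N : ℕ}

theorem P4_re {θ : ℝ} : (eth θ).re = Real.cos θ := by
  unfold eth
  exact Complex.exp_ofReal_mul_I_re θ

theorem P4_norm {θ : ℝ} : ‖eth θ‖ = 1 := by
  unfold eth
  exact Complex.norm_exp_ofReal_mul_I θ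

theorem P4_normE (x ξ : E N) :
    ‖Complex.exp (2 * Real.pi * Complex.I * ((inner ℝ x ξ : ℝ) : ℂ))‖ = 1 := by
  have h : (2 * Real.pi * Complex.I * ((inner ℝ x ξ : ℝ) : ℂ)) =
      ((2 * Real.pi * inner ℝ x ξ : ℝ) : ℂ) * Complex.I := by
    push_cast
    ring
  rw [h]
  exact Complex.norm_exp_ofReal_mul_I _

theorem P4_normG {θ : ℝ} (hθ : 0 < Real.cos θ) {τ : ℝ} (hτ : 0 ≤ τ) (ξ : E N) :
    ‖Complex.exp (-(4 * (Real.pi : ℂ) ^ 2 * ((τ : ℂ) * eth θ) * ((‖ξ‖ : ℝ) : ℂ) ^ 2))‖ ≤ 1 := by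
  rw [Complex.norm_exp]
  have h : (-(4 * (Real.pi : ℂ) ^ 2 * ((τ : ℂ) * eth θ) * ((‖ξ‖ : ℝ) : ℂ) ^ 2)) =
      ((-(4 * Real.pi ^ 2 * τ * ‖ξ‖ ^ 2) : ℝ) : ℂ) * eth θ := by
    push_cast
    ring
  rw [h, Complex.re_ofReal_mul, P4_re]
  refine Real.exp_le_one_iff.2 ?_
  have h1 : 0 ≤ 4 * Real.pi ^ 2 * τ * ‖ξ‖ ^ 2 := by positivity
  nlinarith

/-- the fundamental theorem of calculus for the exponential -/
theorem P4_ftc (a : ℂ) (t : ℝ) :
    Complex.exp ((t : ℂ) * a) - 1 = ∫ τ in (0:ℝ)..t, a * Complex.exp ((τ : ℂ) * a) := by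
  have h1 : ∀ τ : ℝ, HasDerivAt (fun τ : ℝ => Complex.exp ((τ : ℂ) * a))
      (a * Complex.exp ((τ : ℂ) * a)) τ := by
    intro τ
    have h2 : HasDerivAt (fun τ : ℝ => ((τ : ℂ) * a)) (1 * a) τ :=
      (Complex.ofRealCLM.hasDerivAt (x := τ)).mul_const a
    have h3 := h2.cexp
    rw [one_mul, mul_comm] at h3
    exact h3
  have h4 := intervalIntegral.integral_eq_sub_of_hasDerivAt (a := 0) (b := t)
    (fun τ _ => h1 τ) (Continuous.intervalIntegrable (by fun_prop) _ _)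
  rw [h4]
  simp

/-- Fourier inversion -/
theorem P4_inv (ψ : 𝓢(E N, ℂ)) (x : E N) :
    ψ x = ∫ ξ : E N, Complex.exp (2 * Real.pi * Complex.I * ((inner ℝ x ξ : ℝ) : ℂ))
      * (𝓕 ψ) ξ := by
  have h1 : (𝓕⁻ (𝓕 ψ) : 𝓢(E N, ℂ)) = ψ := FourierTransform.fourierInv_fourier_eq ψ
  have h2 : ψ x = (𝓕⁻ (𝓕 ψ) : 𝓢(E N, ℂ)) x := by rw [h1]
  rw [h2, SchwartzMap.fourierInv_coe, Real.fourierInv_eq']
  refine integral_congr_ae (Filter.Eventually.of_forall fun ξ => ?_)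
  simp only [smul_eq_mul]
  congr 2
  rw [real_inner_comm]
  push_cast
  ring

/-- the integrand -/
theorem P4_int {θ : ℝ} (hθ : 0 < Real.cos θ) (ψ : 𝓢(E N, ℂ)) {t : ℝ} (ht : 0 < t) (x : E N) :
    Integrable (Function.uncurry fun (τ : ℝ) (ξ : E N) =>
      Complex.exp (2 * Real.pi * Complex.I * ((inner ℝ x ξ : ℝ) : ℂ)) *
        (-(4 * (Real.pi : ℂ) ^ 2 * eth θ * ((‖ξ‖ : ℝ) : ℂ) ^ 2) *
          Complex.exp (-(4 * (Real.pi : ℂ) ^ 2 * ((τ : ℂ) * eth θ) * ((‖ξ‖ : ℝ) : ℂ) ^ 2))) *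
        (𝓕 ψ) ξ)
      ((volume.restrict (Set.uIoc 0 t)).prod volume) := by
  have h1 : Integrable (fun ξ : E N => 4 * Real.pi ^ 2 * (‖ξ‖ ^ 2 * ‖(𝓕 ψ) ξ‖)) volume :=
    (SchwartzMap.integrable_pow_mul volume (𝓕 ψ) 2).const_mul _
  have h2 : Integrable (fun _ : ℝ => (1 : ℝ)) (volume.restrict (Set.uIoc 0 t)) := by
    rw [Set.uIoc_of_le ht.le]
    exact integrable_const _
  have h3 := h2.mul_prod h1
  refine h3.mono' ?_ ?_
  · refine Continuous.aestronglyMeasurable ?_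
    have hc : Continuous fun ξ : E N => (𝓕 ψ) ξ := (𝓕 ψ).continuous
    have hi : Continuous fun p : ℝ × E N => (inner ℝ x p.2 : ℝ) :=
      continuous_const.inner continuous_snd
    have hn : Continuous fun p : ℝ × E N => ‖p.2‖ := continuous_norm.comp continuous_snd
    refine Continuous.mul (Continuous.mul ?_ (Continuous.mul ?_ ?_)) (hc.comp continuous_snd)
    · exact (continuous_const.mul (Complex.continuous_ofReal.comp hi)).cexp
    · exact (continuous_const.mul ((Complex.continuous_ofReal.comp hn).pow 2)).neg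
    · refine Continuous.cexp (Continuous.neg (Continuous.mul ?_
        ((Complex.continuous_ofReal.comp hn).pow 2)))
      exact continuous_const.mul
        ((Complex.continuous_ofReal.comp continuous_fst).mul continuous_const)
  · have hmeas : MeasurableSet {p : ℝ × E N | 0 ≤ p.1} :=
      measurableSet_le measurable_const measurable_fst
    have h4 : ∀ᵐ p : ℝ × E N ∂((volume.restrict (Set.uIoc 0 t)).prod volume), 0 ≤ p.1 := by
      have h5 : ∀ᵐ τ : ℝ ∂(volume.restrict (Set.uIoc 0 t)), 0 ≤ τ := by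
        rw [Set.uIoc_of_le ht.le]
        exact (ae_restrict_mem measurableSet_Ioc).mono fun τ hτ => hτ.1.le
      exact Measure.quasiMeasurePreserving_fst.ae h5
    refine h4.mono ?_
    rintro ⟨τ, ξ⟩ hτ
    have hτ' : 0 ≤ τ := hτ
    simp only [Function.uncurry_apply_pair]
    rw [norm_mul, norm_mul, P4_normE, one_mul, norm_mul, norm_neg, norm_mul, norm_mul, norm_mul,
      P4_norm, norm_pow, norm_pow, Complex.norm_real, Complex.norm_real, norm_norm, one_mul,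
      Real.norm_eq_abs, abs_of_pos Real.pi_pos, mul_one]
    have h6 := P4_normG (N := N) hθ hτ' ξ
    have h7 : ‖(4 : ℂ)‖ = 4 := by simp
    rw [h7]
    have h8 : 0 ≤ 4 * Real.pi ^ 2 * ‖ξ‖ ^ 2 := by positivity
    calc 4 * Real.pi ^ 2 * ‖ξ‖ ^ 2 *
          ‖Complex.exp (-(4 * (Real.pi : ℂ) ^ 2 * ((τ : ℂ) * eth θ) * ((‖ξ‖ : ℝ) : ℂ) ^ 2))‖ *
          ‖(𝓕 ψ) ξ‖
        ≤ 4 * Real.pi ^ 2 * ‖ξ‖ ^ 2 * 1 * ‖(𝓕 ψ) ξ‖ :=
          mul_le_mul_of_nonneg_right (mul_le_mul_of_nonneg_left h6 h8) (norm_nonneg _)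
      _ = 4 * Real.pi ^ 2 * (‖ξ‖ ^ 2 * ‖(𝓕 ψ) ξ‖) := by ring

/-- **Heat identity.**  `T_θ(t)ψ - ψ = ∫_0^t e^{iθ} T_θ(τ) Δψ dτ`.

Proof.  Put `e = eth θ`, `E(ξ) = exp(2πi⟨x,ξ⟩)`.  By `K_conv` and Fourier inversion for the Schwartz
function `ψ` (`ψ x = ∫ E(ξ) 𝓕ψ(ξ) dξ`) the left side is
`∫ E(ξ)(exp(-4π²te|ξ|²) - 1) 𝓕ψ(ξ) dξ` and
`exp(-4π²te|ξ|²) - 1 = ∫_0^t -4π²e|ξ|² exp(-4π²τe|ξ|²) dτ` (fundamental theorem).  By `K_conv` for `ψ'`
and `fourier_lap` the right side is `∫_0^t ∫ e E(ξ) exp(-4π²τe|ξ|²)(-4π²|ξ|²) 𝓕ψ(ξ) dξ dτ`.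
Fubini: the integrand is continuous in `(τ,ξ)` and dominated by `4π²|ξ|²|𝓕ψ(ξ)|` (`|exp(..)| ≤ 1` as
`Re e = cos θ > 0`), integrable since `𝓕ψ` is a Schwartz function. -/
theorem heat_identity {θ : ℝ} (hθ : 0 < Real.cos θ) (ψ ψ' : 𝓢(E N, ℂ))
    (h : ∀ x, ψ' x = lap ψ x) {t : ℝ} (ht : 0 < t) (x : E N) :
    (∫ y, K N ((t : ℂ) * eth θ) (x - y) * ψ y) - ψ x =
      ∫ τ in (0:ℝ)..t, eth θ * ∫ y, K N ((τ : ℂ) * eth θ) (x - y) * ψ' y := by
  have hre : ∀ τ : ℝ, 0 < τ → 0 < ((τ : ℂ) * eth θ).re := by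
    intro τ hτ
    rw [Complex.re_ofReal_mul, P4_re]
    positivity
  -- the two sides
  have hswap := intervalIntegral_integral_swap (P4_int hθ ψ ht x)
  have hR : (∫ τ in (0:ℝ)..t, eth θ * ∫ y, K N ((τ : ℂ) * eth θ) (x - y) * ψ' y) =
      ∫ τ in (0:ℝ)..t, ∫ ξ : E N,
        Complex.exp (2 * Real.pi * Complex.I * ((inner ℝ x ξ : ℝ) : ℂ)) *
        (-(4 * (Real.pi : ℂ) ^ 2 * eth θ * ((‖ξ‖ : ℝ) : ℂ) ^ 2) *
          Complex.exp (-(4 * (Real.pi : ℂ) ^ 2 * ((τ : ℂ) * eth θ) * ((‖ξ‖ : ℝ) : ℂ) ^ 2))) *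
        (𝓕 ψ) ξ := by
    rw [intervalIntegral.integral_of_le ht.le, intervalIntegral.integral_of_le ht.le]
    refine setIntegral_congr_fun measurableSet_Ioc fun τ hτ => ?_
    beta_reduce
    rw [K_conv (hre τ hτ.1), ← integral_const_mul]
    refine integral_congr_ae (Filter.Eventually.of_forall fun ξ => ?_)
    beta_reduce
    rw [fourier_lap ψ ψ' h ξ]
    ring
  rw [hR, hswap, K_conv (hre t ht), P4_inv ψ x, ← integral_sub]
  · refine integral_congr_ae (Filter.Eventually.of_forall fun ξ => ?_)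
    beta_reduce
    have h1 := P4_ftc (-(4 * (Real.pi : ℂ) ^ 2 * eth θ * ((‖ξ‖ : ℝ) : ℂ) ^ 2)) t
    have h2 : ∀ τ : ℝ, (-(4 * (Real.pi : ℂ) ^ 2 * ((τ : ℂ) * eth θ) * ((‖ξ‖ : ℝ) : ℂ) ^ 2)) =
        (τ : ℂ) * (-(4 * (Real.pi : ℂ) ^ 2 * eth θ * ((‖ξ‖ : ℝ) : ℂ) ^ 2)) := fun τ => by ring
    simp only [h2]
    rw [intervalIntegral.integral_mul_const, intervalIntegral.integral_const_mul, ← h1]
    ring
  · have h1 := (𝓕 ψ).integrable (μ := volume)
    refine h1.norm.mono' ?_ ?_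
    · refine Continuous.aestronglyMeasurable ?_
      have hc : Continuous fun ξ : E N => (𝓕 ψ) ξ := (𝓕 ψ).continuous
      have hi : Continuous fun ξ : E N => (inner ℝ x ξ : ℝ) :=
        continuous_const.inner continuous_id
      refine Continuous.mul (Continuous.mul ?_ ?_) hc
      · exact (continuous_const.mul (Complex.continuous_ofReal.comp hi)).cexp
      · exact (continuous_const.mul
          ((Complex.continuous_ofReal.comp continuous_norm).pow 2)).neg.cexp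
    · refine Filter.Eventually.of_forall fun ξ => ?_
      rw [norm_mul, norm_mul, P4_normE, one_mul]
      have h6 := P4_normG (N := N) hθ ht.le ξ
      calc _ ≤ 1 * ‖(𝓕 ψ) ξ‖ := mul_le_mul_of_nonneg_right h6 (norm_nonneg _)
        _ = _ := one_mul _
  · have h1 := (𝓕 ψ).integrable (μ := volume)
    refine h1.norm.mono' ?_ ?_
    · refine Continuous.aestronglyMeasurable ?_
      have hc : Continuous fun ξ : E N => (𝓕 ψ) ξ := (𝓕 ψ).continuous
      have hi : Continuous fun ξ : E N => (inner ℝ x ξ : ℝ) :=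
        continuous_const.inner continuous_id
      exact ((continuous_const.mul (Complex.continuous_ofReal.comp hi)).cexp).mul hc
    · refine Filter.Eventually.of_forall fun ξ => ?_
      rw [norm_mul, P4_normE, one_mul]

end CGL
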