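import Pool.Agent.W_317df6_h83.P1

/-!
# Fourier formula for the complex heat semigroup (task P4a)
-/

set_option autoImplicit false

namespace CGL

open MeasureTheory Set
open scoped FourierTransform SchwartzMap

variable {N : ℕ}

/-- **Fourier formula.**  `K(z,x) = ∫ exp(-2πi⟨ξ,x⟩) exp(-4π² z|ξ|²) dξ`
(`fourier_gaussian_innerProductSpace` with `b = 4π²z`: `(π/b)^{N/2} exp(-π²|w|²/b) = K(z,w)`), i.e.
`K(z,·) = 𝓕 G`, `G(ξ) = exp(-b|ξ|²)` (integrable: `GaussianFourier.integrable_cexp_neg_mul_sq_norm_add`).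
Self-adjointness of the Fourier integral (`VectorFourier.integral_fourierIntegral_smul_eq_flip`, or
`Real.integral_fourier_smul_eq` or the like, for the integrable functions `G` and `w ↦ ψ(x-w)`):
`∫ K(z,x-y)ψ(y)dy = ∫ 𝓕G(w) ψ(x-w) dw = ∫ G(ξ) (∫ exp(-2πi⟨ξ,w⟩) ψ(x-w) dw) dξ` and the inner
integral is `exp(-2πi⟨ξ,x⟩) 𝓕ψ(-ξ)`; substitute `ξ → -ξ`. -/
theorem K_conv {z : ℂ} (hz : 0 < z.re) (ψ : 𝓢(E N, ℂ)) (x : E N) :
    ∫ y, K N z (x - y) * ψ y =
      ∫ ξ : E N, Complex.exp (2 * Real.pi * Complex.I * ((inner ℝ x ξ : ℝ) : ℂ))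
        * Complex.exp (-(4 * (Real.pi : ℂ) ^ 2 * z * ((‖ξ‖ : ℝ) : ℂ) ^ 2)) * (𝓕 ψ) ξ := by
  have hpi : (Real.pi : ℂ) ≠ 0 := by exact_mod_cast Real.pi_ne_zero
  have hz0 : z ≠ 0 := by
    intro h
    rw [h] at hz
    simp at hz
  have hb : 0 < (4 * (Real.pi : ℂ) ^ 2 * z).re := by
    have h1 : (4 * (Real.pi : ℂ) ^ 2 * z) = ((4 * Real.pi ^ 2 : ℝ) : ℂ) * z := by push_cast; ring
    rw [h1, Complex.re_ofReal_mul]
    have := Real.pi_pos
    positivity
  have J : Integrable (fun w : E N => Complex.exp (-(4 * (Real.pi : ℂ) ^ 2 * z) * ‖w‖ ^ 2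
      + 2 * Real.pi * Complex.I * (inner ℝ x w : ℝ))) :=
    GaussianFourier.integrable_cexp_neg_mul_sq_norm_add hb _ _
  have key := (VectorFourier.integral_fourierIntegral_smul_eq_flip (L := innerₗ (E N))
      Real.continuous_fourierChar continuous_inner J (ψ.integrable (μ := volume)))
  have e1 : ∀ y : E N, K N z (x - y) * ψ y =
      (VectorFourier.fourierIntegral Real.fourierChar volume (innerₗ (E N))
        (fun w : E N => Complex.exp (-(4 * (Real.pi : ℂ) ^ 2 * z) * ‖w‖ ^ 2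
      + 2 * Real.pi * Complex.I * (inner ℝ x w : ℝ))) y) • ψ y := by
    intro y
    rw [smul_eq_mul]
    congr 1
    have h2 := fourier_gaussian_innerProductSpace' hb x y
    rw [show VectorFourier.fourierIntegral Real.fourierChar volume (innerₗ (E N))
        (fun w : E N => Complex.exp (-(4 * (Real.pi : ℂ) ^ 2 * z) * ‖w‖ ^ 2
      + 2 * Real.pi * Complex.I * (inner ℝ x w : ℝ))) y = 𝓕 (fun w : E N => Complex.exp (-(4 * (Real.pi : ℂ) ^ 2 * z) * ‖w‖ ^ 2
      + 2 * Real.pi * Complex.I * (inner ℝ x w : ℝ))) y from rfl, h2]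
    unfold K
    congr 1
    · congr 1
      · field_simp
      · simp
    · congr 1
      field_simp
  simp_rw [e1]
  rw [key]
  apply integral_congr_ae
  filter_upwards with ξ
  rw [smul_eq_mul]
  rw [show VectorFourier.fourierIntegral Real.fourierChar volume (innerₗ (E N)).flip
        (fun x => ψ x) ξ = (𝓕 ψ) ξ from ?_]
  · congr 1
    rw [← Complex.exp_add]
    congr 1
    ring
  · rw [flip_innerₗ]
    rfl

end CGL
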