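import Pool.Agent.W_317df6_h83.P4a

/-!
# Continuity and boundedness of `T_θ(σ)ψ` (task P4c)
-/

set_option autoImplicit false

namespace CGL

open MeasureTheory Set
open scoped FourierTransform SchwartzMap

variable {N : ℕ}

/-- `(T_θ(σ)ψ)(y)`, `σ > 0` -/
noncomputable def HX (θ : ℝ) (ψ : 𝓢(E N, ℂ)) (σ : ℝ) (y : E N) : ℂ :=
  ∫ x, K N ((σ : ℂ) * eth θ) (y - x) * ψ x

/-- the integrand on the Fourier side -/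
noncomputable def P4c_g (θ : ℝ) (ψ : 𝓢(E N, ℂ)) (p : ℝ × E N) (ξ : E N) : ℂ :=
  Complex.exp (2 * Real.pi * Complex.I * ((inner ℝ p.2 ξ : ℝ) : ℂ))
    * Complex.exp (-(4 * (Real.pi : ℂ) ^ 2 * ((p.1 : ℂ) * eth θ) * ((‖ξ‖ : ℝ) : ℂ) ^ 2))
    * (𝓕 ψ) ξ

theorem P4c_re (θ σ : ℝ) : ((σ : ℂ) * eth θ).re = σ * Real.cos θ := by
  rw [Complex.re_ofReal_mul]
  unfold eth
  rw [Complex.exp_ofReal_mul_I_re]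

theorem P4c_eq {θ : ℝ} (hθ : 0 < Real.cos θ) (ψ : 𝓢(E N, ℂ)) {σ : ℝ} (hσ : 0 < σ) (y : E N) :
    HX θ ψ σ y = ∫ ξ, P4c_g θ ψ (σ, y) ξ := by
  unfold HX P4c_g
  exact K_conv (by rw [P4c_re]; positivity) ψ y

theorem P4c_le {θ : ℝ} (hθ : 0 < Real.cos θ) (ψ : 𝓢(E N, ℂ)) {p : ℝ × E N} (hp : 0 < p.1)
    (ξ : E N) : ‖P4c_g θ ψ p ξ‖ ≤ ‖(𝓕 ψ) ξ‖ := by
  unfold P4c_g
  rw [norm_mul, norm_mul]
  have h1 : ‖Complex.exp (2 * Real.pi * Complex.I * ((inner ℝ p.2 ξ : ℝ) : ℂ))‖ = 1 := by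
    have : (2 * Real.pi * Complex.I * ((inner ℝ p.2 ξ : ℝ) : ℂ)) =
        ((2 * Real.pi * inner ℝ p.2 ξ : ℝ) : ℂ) * Complex.I := by
      push_cast
      ring
    rw [this, Complex.norm_exp_ofReal_mul_I]
  have h2 : ‖Complex.exp (-(4 * (Real.pi : ℂ) ^ 2 * ((p.1 : ℂ) * eth θ) *
      ((‖ξ‖ : ℝ) : ℂ) ^ 2))‖ ≤ 1 := by
    rw [Complex.norm_exp, Real.exp_le_one_iff]
    have : (-(4 * (Real.pi : ℂ) ^ 2 * ((p.1 : ℂ) * eth θ) * ((‖ξ‖ : ℝ) : ℂ) ^ 2)) =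
        ((-(4 * Real.pi ^ 2 * ‖ξ‖ ^ 2) : ℝ) : ℂ) * ((p.1 : ℂ) * eth θ) := by
      push_cast
      ring
    rw [this, Complex.re_ofReal_mul, P4c_re]
    have h3 : 0 ≤ 4 * Real.pi ^ 2 * ‖ξ‖ ^ 2 := by positivity
    have h4 : 0 ≤ p.1 * Real.cos θ := by positivity
    nlinarith [mul_nonneg h3 h4]
  rw [h1, one_mul]
  calc _ ≤ 1 * ‖(𝓕 ψ) ξ‖ := mul_le_mul_of_nonneg_right h2 (norm_nonneg _)
    _ = _ := one_mul _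

theorem P4c_cont (θ : ℝ) (ψ : 𝓢(E N, ℂ)) (p : ℝ × E N) : Continuous (P4c_g θ ψ p) := by
  unfold P4c_g
  have h : Continuous fun ξ : E N => (𝓕 ψ) ξ := (𝓕 ψ).continuous
  fun_prop

theorem P4c_cont2 (θ : ℝ) (ψ : 𝓢(E N, ℂ)) (ξ : E N) :
    Continuous fun p : ℝ × E N => P4c_g θ ψ p ξ := by
  unfold P4c_g
  fun_prop

theorem P4c_int (ψ : 𝓢(E N, ℂ)) : Integrable fun ξ : E N => ‖(𝓕 ψ) ξ‖ :=
  (𝓕 ψ).integrable.norm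

/-- By `K_conv`, `HX θ ψ σ y = ∫ e^{2πi⟨y,ξ⟩} exp(-4π²σe|ξ|²) 𝓕ψ(ξ) dξ` with
`|exp(-4π²σe|ξ|²)| ≤ 1`; dominated convergence with the integrable bound `|𝓕ψ(ξ)|`
(`continuousOn_of_dominated` or `continuous_of_dominated`). -/
theorem HX_cont {θ : ℝ} (hθ : 0 < Real.cos θ) (ψ : 𝓢(E N, ℂ)) :
    ContinuousOn (fun p : ℝ × E N => HX θ ψ p.1 p.2) (Ioi 0 ×ˢ univ) := by
  have h1 : ContinuousOn (fun p : ℝ × E N => ∫ ξ, P4c_g θ ψ p ξ) (Ioi 0 ×ˢ univ) :=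
    continuousOn_of_dominated (bound := fun ξ => ‖(𝓕 ψ) ξ‖)
      (fun p _ => (P4c_cont θ ψ p).aestronglyMeasurable)
      (fun p hp => Filter.Eventually.of_forall fun ξ => P4c_le hθ ψ hp.1 ξ) (P4c_int ψ)
      (Filter.Eventually.of_forall fun ξ => (P4c_cont2 θ ψ ξ).continuousOn)
  exact h1.congr fun p hp => P4c_eq hθ ψ hp.1 p.2

/-- same formula: `B = ∫ |𝓕ψ|`. -/
theorem HX_bdd {θ : ℝ} (hθ : 0 < Real.cos θ) (ψ : 𝓢(E N, ℂ)) :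
    ∃ B : ℝ, 0 < B ∧ ∀ σ, 0 < σ → ∀ y, ‖HX θ ψ σ y‖ ≤ B := by
  refine ⟨(∫ ξ : E N, ‖(𝓕 ψ) ξ‖) + 1, ?_, fun σ hσ y => ?_⟩
  · have : 0 ≤ ∫ ξ : E N, ‖(𝓕 ψ) ξ‖ := integral_nonneg fun ξ => norm_nonneg _
    linarith
  · rw [P4c_eq hθ ψ hσ y]
    have h1 : ‖∫ ξ, P4c_g θ ψ (σ, y) ξ‖ ≤ ∫ ξ : E N, ‖(𝓕 ψ) ξ‖ :=
      norm_integral_le_of_norm_le (P4c_int ψ)
        (Filter.Eventually.of_forall fun ξ => P4c_le hθ ψ hσ ξ)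
    linarith

end CGL
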