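import Pool.Agent.W_317df6_h83.P4
import Pool.Agent.W_317df6_h83.P4c

/-!
# The heat identity, paired with a function (task P4d)
-/

set_option autoImplicit false

namespace CGL

open MeasureTheory Set
open scoped FourierTransform SchwartzMap

variable {N : ℕ}

/-- `∫ (T_θ(τ)ψ) f = ∫ ψ f + e^{iθ} ∫_0^τ ∫ (T_θ(σ)Δψ) f dσ`.

Proof.  `heat_identity` at every `y`, multiply by `f y`, integrate; Fubini for
`(y,σ) ↦ HX θ ψ' σ y * f y` on `ℝ^N × (0,τ)` (continuous, dominated by `B |f y|`, `HX_cont`,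
`HX_bdd`; `f` is integrable: `ExpDec.integrable`). -/
theorem HX_swap {θ : ℝ} (hθ : 0 < Real.cos θ) (ψ ψ' : 𝓢(E N, ℂ)) (h : ∀ x, ψ' x = lap ψ x)
    {f : E N → ℂ} (hf : Continuous f) (hf' : ExpDec f) {τ : ℝ} (hτ : 0 < τ) :
    ∫ y, HX θ ψ τ y * f y =
      (∫ y, ψ y * f y) + eth θ * ∫ σ in (0:ℝ)..τ, ∫ y, HX θ ψ' σ y * f y := by
  have hfi : Integrable f := hf'.integrable hf
  obtain ⟨B, hB0, hB⟩ := HX_bdd hθ ψ'
  set μ : Measure ℝ := volume.restrict (Ioc 0 τ) with hμ
  have hmeas : AEStronglyMeasurable (fun p : ℝ × E N => HX θ ψ' p.1 p.2 * f p.2)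
      (μ.prod (volume : Measure (E N))) := by
    have h1 : μ.prod (volume : Measure (E N)) =
        ((volume : Measure ℝ).prod (volume : Measure (E N))).restrict (Ioc 0 τ ×ˢ univ) := by
      rw [← Measure.prod_restrict, Measure.restrict_univ]
    rw [h1]
    refine ContinuousOn.aestronglyMeasurable ?_ (measurableSet_Ioc.prod MeasurableSet.univ)
    refine ContinuousOn.mul ((HX_cont hθ ψ').mono ?_) (by fun_prop)
    exact prod_mono (fun x hx => hx.1) le_rfl
  have hint : Integrable (fun p : ℝ × E N => HX θ ψ' p.1 p.2 * f p.2)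
      (μ.prod (volume : Measure (E N))) := by
    have h1 : Integrable (fun p : ℝ × E N => B * ‖f p.2‖) (μ.prod (volume : Measure (E N))) :=
      ((hfi.norm.const_mul B).comp_snd μ)
    refine h1.mono' hmeas ?_
    have h2 : ∀ᵐ p ∂(μ.prod (volume : Measure (E N))), p.1 ∈ Ioc 0 τ := by
      have h3 : ∀ᵐ x ∂μ, x ∈ Ioc 0 τ := ae_restrict_mem measurableSet_Ioc
      exact Measure.quasiMeasurePreserving_fst.ae h3
    filter_upwards [h2] with p hp
    rw [norm_mul]
    exact mul_le_mul_of_nonneg_right (hB p.1 hp.1 p.2) (norm_nonneg _)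
  have hψi : Integrable (fun y => ψ y * f y) := by
    obtain ⟨C, hC⟩ := ψ.decay 0 0
    refine Integrable.mono' (hfi.norm.const_mul C)
      (ψ.continuous.mul hf).aestronglyMeasurable (Filter.Eventually.of_forall fun y => ?_)
    have h1 := hC.2 y
    simp only [pow_zero, one_mul, norm_iteratedFDeriv_zero] at h1
    rw [norm_mul]
    exact mul_le_mul_of_nonneg_right h1 (norm_nonneg _)
  have hpt : ∀ y, HX θ ψ τ y * f y =
      ψ y * f y + eth θ * ∫ σ, HX θ ψ' σ y * f y ∂μ := by
    intro y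
    have h1 := heat_identity hθ ψ ψ' h hτ y
    have h2 : HX θ ψ τ y = ψ y + eth θ * ∫ σ, HX θ ψ' σ y ∂μ := by
      rw [intervalIntegral.integral_const_mul, intervalIntegral.integral_of_le hτ.le] at h1
      have h3 : HX θ ψ τ y - ψ y = eth θ * ∫ σ, HX θ ψ' σ y ∂μ := h1
      rw [← h3]
      ring
    rw [h2, add_mul, mul_assoc, integral_mul_const]
  have hint2 : Integrable (fun y => ∫ σ, HX θ ψ' σ y * f y ∂μ) := hint.integral_prod_right
  rw [integral_congr_ae (Filter.Eventually.of_forall hpt),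
    integral_add hψi (hint2.const_mul _), integral_const_mul,
    intervalIntegral.integral_of_le hτ.le]
  congr 2
  exact (integral_integral_swap hint).symm

end CGL
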