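import Pool.Agent.W_317df6_h83.P4c

/-!
# Pairing of `T_θ(σ)ψ` with a family of functions (task P4e)
-/

set_option autoImplicit false

namespace CGL

open MeasureTheory Set
open scoped FourierTransform SchwartzMap

variable {N : ℕ}

/-- `(σ,s) ↦ ∫ (T_θ(σ)ψ) F(s)` is continuous on `(0,∞) × [0,T]` and bounded (dominated convergence,
`HX_cont`, `HX_bdd`, `integrable_exp`). -/
theorem HX_pair {θ T : ℝ} (hθ : 0 < Real.cos θ) (ψ : 𝓢(E N, ℂ)) {F : ℝ → E N → ℂ}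
    (hF : ContinuousOn (fun p : ℝ × E N => F p.1 p.2) (Icc 0 T ×ˢ univ))
    (hB : ∃ C : ℝ, ∀ s ∈ Icc 0 T, ∀ y, ‖F s y‖ ≤ C * Real.exp (-‖y‖)) :
    ContinuousOn (fun p : ℝ × ℝ => ∫ y, HX θ ψ p.1 y * F p.2 y) (Ioi 0 ×ˢ Icc 0 T) ∧
    ∃ B : ℝ, 0 < B ∧ ∀ σ, 0 < σ → ∀ s ∈ Icc 0 T, ‖∫ y, HX θ ψ σ y * F s y‖ ≤ B := by
  obtain ⟨B, hB0, hBb⟩ := HX_bdd hθ ψ
  obtain ⟨C, hC⟩ := hB
  have hC0 : ∀ s ∈ Icc 0 T, ∀ σ, 0 < σ → ∀ y, ‖HX θ ψ σ y * F s y‖ ≤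
      B * (C * Real.exp (-‖y‖)) := by
    intro s hs σ hσ y
    rw [norm_mul]
    exact mul_le_mul (hBb σ hσ y) (hC s hs y) (norm_nonneg _) hB0.le
  have hint : Integrable (fun y : E N => B * (C * Real.exp (-‖y‖))) :=
    ((integrable_exp N).const_mul C).const_mul B
  have hH := HX_cont hθ ψ
  refine ⟨?_, |∫ y : E N, B * (C * Real.exp (-‖y‖))| + 1, by positivity, ?_⟩
  · refine continuousOn_of_dominated (bound := fun y : E N => B * (C * Real.exp (-‖y‖))) ?_ ?_ hint ?_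
    · rintro ⟨σ, s⟩ ⟨hσ, hs⟩
      refine Continuous.aestronglyMeasurable ?_
      refine Continuous.mul ?_ ?_
      · exact hH.comp_continuous (f := fun y : E N => (σ, y)) (by fun_prop) fun y => ⟨hσ, mem_univ _⟩
      · exact hF.comp_continuous (f := fun y : E N => (s, y)) (by fun_prop) fun y => ⟨hs, mem_univ _⟩
    · rintro ⟨σ, s⟩ ⟨hσ, hs⟩
      exact Filter.Eventually.of_forall fun y => hC0 s hs σ hσ y
    · refine Filter.Eventually.of_forall fun y => ?_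
      refine ContinuousOn.mul ?_ ?_
      · exact hH.comp (f := fun p : ℝ × ℝ => (p.1, y)) (by fun_prop) fun p hp => ⟨hp.1, mem_univ _⟩
      · exact hF.comp (f := fun p : ℝ × ℝ => (p.2, y)) (by fun_prop) fun p hp => ⟨hp.2, mem_univ _⟩
  · intro σ hσ s hs
    calc ‖∫ y, HX θ ψ σ y * F s y‖ ≤ ∫ y : E N, B * (C * Real.exp (-‖y‖)) :=
          norm_integral_le_of_norm_le hint (Filter.Eventually.of_forall fun y => hC0 s hs σ hσ y)
      _ ≤ |∫ y : E N, B * (C * Real.exp (-‖y‖))| + 1 := by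
          linarith [le_abs_self (∫ y : E N, B * (C * Real.exp (-‖y‖)))]

end CGL
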