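import Pool.Agent.W_317df6_h83.Defs

/-!
# Fubini on a triangle (task Tri)
-/

set_option autoImplicit false

namespace CGL

open MeasureTheory Set

/-- the triangle -/
def Tri_T (t : ℝ) : Set (ℝ × ℝ) := {p | 0 < p.1 ∧ p.1 < p.2 ∧ p.2 ≤ t}

theorem Tri_meas (t : ℝ) : MeasurableSet (Tri_T t) :=
  (measurableSet_lt measurable_const measurable_fst).inter
    ((measurableSet_lt measurable_fst measurable_snd).inter
      (measurableSet_le measurable_snd measurable_const))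

theorem Tri_maps {t : ℝ} {p : ℝ × ℝ} (hp : p ∈ Tri_T t) :
    p.2 - p.1 ∈ Ioc 0 t ∧ p.1 ∈ Icc 0 t := by
  obtain ⟨h1, h2, h3⟩ := hp
  exact ⟨⟨by linarith, by linarith⟩, ⟨h1.le, by linarith⟩⟩

/-- the function under the double integral -/
noncomputable def Tri_G (t : ℝ) (a : ℝ → ℝ → ℂ) : ℝ × ℝ → ℂ :=
  (Tri_T t).indicator fun p => a (p.2 - p.1) p.1

theorem Tri_integrable {t B : ℝ} {a : ℝ → ℝ → ℂ}
    (hm : ContinuousOn (fun p : ℝ × ℝ => a p.1 p.2) (Ioc 0 t ×ˢ Icc 0 t))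
    (hb : ∀ σ ∈ Ioc 0 t, ∀ s ∈ Icc 0 t, ‖a σ s‖ ≤ B) :
    Integrable (Tri_G t a) ((volume.restrict (Ioc 0 t)).prod (volume.restrict (Ioc 0 t))) := by
  have hc : ContinuousOn (fun p : ℝ × ℝ => a (p.2 - p.1) p.1) (Tri_T t) := by
    have h1 : ContinuousOn (fun p : ℝ × ℝ => (p.2 - p.1, p.1)) (Tri_T t) := by
      fun_prop
    exact hm.comp h1 fun p hp => ⟨(Tri_maps hp).1, (Tri_maps hp).2⟩
  refine Integrable.mono' (integrable_const |B|) ?_ (ae_of_all _ fun p => ?_)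
  · unfold Tri_G
    exact (aestronglyMeasurable_indicator_iff (Tri_meas t)).2
      (hc.aestronglyMeasurable (Tri_meas t))
  · unfold Tri_G
    by_cases hp : p ∈ Tri_T t
    · rw [indicator_of_mem hp]
      exact (hb _ (Tri_maps hp).1 _ (Tri_maps hp).2).trans (le_abs_self B)
    · rw [indicator_of_notMem hp, norm_zero]
      exact abs_nonneg B

theorem Tri_left {t : ℝ} (a : ℝ → ℝ → ℂ) {s : ℝ} (hs : s ∈ Ioc 0 t) :
    ∫ τ in Ioc 0 t, Tri_G t a (s, τ) = ∫ σ in (0:ℝ)..(t - s), a σ s := by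
  have h1 : ∫ τ in Ioc 0 t, Tri_G t a (s, τ) = ∫ τ in Ioc s t, a (τ - s) s := by
    have h2 : ∀ τ, Tri_G t a (s, τ) = (Ioc s t).indicator (fun τ => a (τ - s) s) τ := by
      intro τ
      unfold Tri_G
      by_cases hτ : τ ∈ Ioc s t
      · rw [indicator_of_mem hτ, indicator_of_mem (show (s, τ) ∈ Tri_T t from
          ⟨hs.1, hτ.1, hτ.2⟩)]
      · rw [indicator_of_notMem hτ, indicator_of_notMem (fun h => hτ ⟨h.2.1, h.2.2⟩)]
    simp_rw [h2]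
    rw [setIntegral_indicator measurableSet_Ioc]
    congr 2
    exact inter_eq_right.2 (Ioc_subset_Ioc_left hs.1.le)
  rw [h1, ← intervalIntegral.integral_of_le hs.2,
    intervalIntegral.integral_comp_sub_right (fun x => a x s) s, sub_self]

theorem Tri_right {t : ℝ} (a : ℝ → ℝ → ℂ) {τ : ℝ} (hτ : τ ∈ Ioc 0 t) :
    ∫ s in Ioc 0 t, Tri_G t a (s, τ) = ∫ s in (0:ℝ)..τ, a (τ - s) s := by
  have h1 : ∫ s in Ioc 0 t, Tri_G t a (s, τ) = ∫ s in Ioo 0 τ, a (τ - s) s := by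
    have h2 : ∀ s ∈ Ioc 0 t, Tri_G t a (s, τ) = (Ioo 0 τ).indicator (fun s => a (τ - s) s) s := by
      intro s hs
      unfold Tri_G
      by_cases hs' : s ∈ Ioo 0 τ
      · rw [indicator_of_mem hs', indicator_of_mem (show (s, τ) ∈ Tri_T t from
          ⟨hs'.1, hs'.2, hτ.2⟩)]
      · rw [indicator_of_notMem hs', indicator_of_notMem (fun h => hs' ⟨h.1, h.2.1⟩)]
    rw [setIntegral_congr_fun measurableSet_Ioc h2, setIntegral_indicator measurableSet_Ioo]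
    congr 2
    exact inter_eq_right.2 fun x hx => ⟨hx.1, hx.2.le.trans hτ.2⟩
  rw [h1, intervalIntegral.integral_of_le hτ.1.le, integral_Ioc_eq_integral_Ioo]

/-- inner integrals are integrable -/
theorem tri_int {t B : ℝ} (ht : 0 < t) {a : ℝ → ℝ → ℂ}
    (hm : ContinuousOn (fun p : ℝ × ℝ => a p.1 p.2) (Ioc 0 t ×ˢ Icc 0 t))
    (hb : ∀ σ ∈ Ioc 0 t, ∀ s ∈ Icc 0 t, ‖a σ s‖ ≤ B) :
    IntervalIntegrable (fun s => ∫ σ in (0:ℝ)..(t - s), a σ s) volume 0 t := by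
  rw [intervalIntegrable_iff_integrableOn_Ioc_of_le ht.le]
  have h1 := (Tri_integrable hm hb).integral_prod_left
  refine IntegrableOn.congr_fun (f := fun s => ∫ τ in Ioc 0 t, Tri_G t a (s, τ)) h1
    (fun s hs => ?_) measurableSet_Ioc
  exact Tri_left a hs

/-- `∫_0^t ∫_0^{t-s} a(σ,s) dσ ds = ∫_0^t ∫_0^τ a(τ-s,s) ds dτ`.

Proof.  `∫_0^{t-s} a(σ,s) dσ = ∫_s^t a(τ-s,s) dτ` (`intervalIntegral.integral_comp_sub_right`), and
`∫_0^t ∫_s^t g(τ,s) dτ ds = ∫_0^t ∫_0^τ g(τ,s) ds dτ` by Fubini for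
`(s,τ) ↦ indicator {s < τ} g(τ,s)` on `(0,t)²`, which is bounded and a.e. strongly measurable (`g` is
continuous on the open triangle). -/
theorem tri_swap {t B : ℝ} (ht : 0 < t) {a : ℝ → ℝ → ℂ}
    (hm : ContinuousOn (fun p : ℝ × ℝ => a p.1 p.2) (Ioc 0 t ×ˢ Icc 0 t))
    (hb : ∀ σ ∈ Ioc 0 t, ∀ s ∈ Icc 0 t, ‖a σ s‖ ≤ B) :
    ∫ s in (0:ℝ)..t, ∫ σ in (0:ℝ)..(t - s), a σ s =
      ∫ τ in (0:ℝ)..t, ∫ s in (0:ℝ)..τ, a (τ - s) s := by
  rw [intervalIntegral.integral_of_le ht.le, intervalIntegral.integral_of_le ht.le,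
    ← setIntegral_congr_fun measurableSet_Ioc (fun s hs => Tri_left a hs),
    ← setIntegral_congr_fun measurableSet_Ioc (fun τ hτ => Tri_right a hτ)]
  exact integral_integral_swap (f := fun s τ => Tri_G t a (s, τ)) (Tri_integrable hm hb)

/-- the right side is integrable in `τ` -/
theorem tri_int' {t B : ℝ} (ht : 0 < t) {a : ℝ → ℝ → ℂ}
    (hm : ContinuousOn (fun p : ℝ × ℝ => a p.1 p.2) (Ioc 0 t ×ˢ Icc 0 t))
    (hb : ∀ σ ∈ Ioc 0 t, ∀ s ∈ Icc 0 t, ‖a σ s‖ ≤ B) :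
    IntervalIntegrable (fun τ => ∫ s in (0:ℝ)..τ, a (τ - s) s) volume 0 t := by
  rw [intervalIntegrable_iff_integrableOn_Ioc_of_le ht.le]
  have h1 := (Tri_integrable hm hb).integral_prod_right
  refine IntegrableOn.congr_fun (f := fun τ => ∫ s in Ioc 0 t, Tri_G t a (s, τ)) h1
    (fun τ hτ => ?_) measurableSet_Ioc
  exact Tri_right a hτ

end CGL
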