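import Pool.Agent.W_317df6_h83.P5a
import Pool.Agent.W_317df6_h83.P4d
import Pool.Agent.W_317df6_h83.P4e
import Pool.Agent.W_317df6_h83.Tri

/-!
# Weak formulation (task P5)
-/

set_option autoImplicit false

namespace CGL

open MeasureTheory Set
open scoped ContDiff
open scoped ZeroAtInfty SchwartzMap

variable {N : ℕ} {α θ γ T : ℝ} {u0 : C₀(E N, ℂ)} {u : ℝ → C₀(E N, ℂ)}

theorem P5_ii {b : ℝ → ℂ} {t B : ℝ} (ht : 0 < t) (hc : ContinuousOn b (Ioi 0))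
    (hb : ∀ σ, 0 < σ → ‖b σ‖ ≤ B) : IntervalIntegrable b volume 0 t := by
  rw [intervalIntegrable_iff_integrableOn_Ioc_of_le ht.le]
  have hm : AEStronglyMeasurable b (volume.restrict (Ioc 0 t)) :=
    (hc.mono fun x hx => hx.1).aestronglyMeasurable measurableSet_Ioc
  have hci : Integrable (fun _ : ℝ => B) (volume.restrict (Ioc 0 t)) := integrable_const B
  exact hci.mono' hm
    ((ae_restrict_iff' measurableSet_Ioc).2 (Filter.Eventually.of_forall fun x hx => hb x hx.1))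

theorem P5_pd_smooth {ψ : E N → ℂ} (hψ : ContDiff ℝ ∞ ψ) (i : Fin N) :
    ContDiff ℝ ∞ (pd i ψ) := by
  have h1 : ContDiff ℝ ∞ (fderiv ℝ ψ) := hψ.fderiv_right (by simp)
  exact h1.clm_apply contDiff_const

theorem P5_pd_compact {ψ : E N → ℂ} (hc : HasCompactSupport ψ) (i : Fin N) :
    HasCompactSupport (pd i ψ) := by
  have h1 : HasCompactSupport (fderiv ℝ ψ) := hc.fderiv ℝ
  exact h1.comp_left (g := fun L : E N →L[ℝ] ℂ => L (EuclideanSpace.single i (1 : ℝ))) rfl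

theorem P5_lap_smooth {ψ : E N → ℂ} (hψ : ContDiff ℝ ∞ ψ) : ContDiff ℝ ∞ (lap ψ) := by
  unfold lap
  exact ContDiff.sum fun i _ => P5_pd_smooth (P5_pd_smooth hψ i) i

theorem P5_lap_compact {ψ : E N → ℂ} (hc : HasCompactSupport ψ) : HasCompactSupport (lap ψ) := by
  classical
  have h1 : ∀ s : Finset (Fin N), HasCompactSupport (fun x => ∑ i ∈ s, pd i (pd i ψ) x) := by
    intro s
    induction s using Finset.induction_on with
    | empty =>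
      simp only [Finset.sum_empty]
      exact HasCompactSupport.zero
    | insert a s ha ih =>
      simp only [Finset.sum_insert ha]
      exact (P5_pd_compact (P5_pd_compact hc a) a).add ih
  exact h1 Finset.univ

theorem P5_FF_cont (hα : 0 < α) (θ γ : ℝ) : Continuous (FF α θ γ) := by
  unfold FF
  exact (continuous_const.mul (continuous_nl hα)).add (continuous_const.mul continuous_id)

theorem P5_FF_dec (hα : 0 < α) (hu : IsMild N α θ γ T u0 u)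
    (hdec : ∃ C : ℝ, ∀ t ∈ Icc 0 T, ∀ x, ‖u t x‖ ≤ C * Real.exp (-‖x‖)) :
    ∃ C : ℝ, ∀ t ∈ Icc 0 T, ∀ x, ‖FF α θ γ (u t x)‖ ≤ C * Real.exp (-‖x‖) := by
  obtain ⟨B, hB0, hB⟩ := hu.bdd
  obtain ⟨L, hL0, hL⟩ := FF_lip hα θ γ B
  obtain ⟨C, hC⟩ := hdec
  refine ⟨L * C, fun t ht x => ?_⟩
  have h1 : ‖u t x‖ ≤ B := by
    refine le_trans ?_ (hB t ht)
    rw [← ZeroAtInftyContinuousMap.norm_toBCF_eq_norm]
    exact (u t).toBCF.norm_coe_le_norm x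
  have h2 := hL (u t x) 0 h1 (by simpa using hB0.le)
  have h3 : FF α θ γ 0 = 0 := by simp [FF, nl]
  rw [h3, sub_zero, sub_zero] at h2
  calc ‖FF α θ γ (u t x)‖ ≤ L * ‖u t x‖ := h2
    _ ≤ L * (C * Real.exp (-‖x‖)) := mul_le_mul_of_nonneg_left (hC t ht x) hL0.le
    _ = L * C * Real.exp (-‖x‖) := by ring

theorem P5_cont_pair {F : ℝ → E N → ℂ}
    (hF : ContinuousOn (fun p : ℝ × E N => F p.1 p.2) (Icc 0 T ×ˢ univ))
    (hB : ∃ C : ℝ, ∀ s ∈ Icc 0 T, ∀ y, ‖F s y‖ ≤ C * Real.exp (-‖y‖)) {χ : E N → ℂ}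
    (hχ : Continuous χ) (hb : ∃ C : ℝ, ∀ x, ‖χ x‖ ≤ C) :
    ContinuousOn (fun s => ∫ y, χ y * F s y) (Icc 0 T) := by
  obtain ⟨C, hC⟩ := hB
  obtain ⟨D, hD⟩ := hb
  have hFs : ∀ s ∈ Icc 0 T, Continuous (F s) := fun s hs => by
    have h1 : ContinuousOn (fun y : E N => (s, y)) univ := by fun_prop
    have h2 := hF.comp h1 (fun y _ => ⟨hs, mem_univ _⟩)
    exact continuousOn_univ.1 h2
  refine continuousOn_of_dominated (bound := fun y => |D| * (C * Real.exp (-‖y‖))) ?_ ?_ ?_ ?_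
  · intro s hs
    exact (hχ.mul (hFs s hs)).aestronglyMeasurable
  · intro s hs
    refine Filter.Eventually.of_forall fun y => ?_
    rw [norm_mul]
    exact mul_le_mul ((hD y).trans (le_abs_self D)) (hC s hs y) (norm_nonneg _) (abs_nonneg _)
  · exact ((integrable_exp N).const_mul C).const_mul |D|
  · refine Filter.Eventually.of_forall fun y => ?_
    have h1 : ContinuousOn (fun s : ℝ => (s, y)) (Icc 0 T) := by fun_prop
    have h2 : ContinuousOn (fun s => F s y) (Icc 0 T) := hF.comp h1 (fun s hs => ⟨hs, mem_univ _⟩)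
    exact continuousOn_const.mul h2

theorem P5_bdd_compact {χ : E N → ℂ} (hχ : Continuous χ) (hc : HasCompactSupport χ) :
    ∃ C : ℝ, ∀ x, ‖χ x‖ ≤ C := hc.exists_bound_of_continuous hχ

/-- **Weak formulation.**

Proof.  `t = 0` is trivial (`hu.init`).  Let `t > 0`, let `ψ` also denote the Schwartz function
(`HasCompactSupport.toSchwartzMap`) and `ψ'` the Schwartz function `Δψ` (smooth, compact support).
Put `F s y = FF α θ γ (u s y)`, `a σ s = ∫ HX θ ψ' σ y * F s y dy`, `b σ = ∫ HX θ ψ' σ y * u0 y dy`,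
`e = eth θ`.
(1) `weak1` for `ψ` at `t`: `∫ψ u(t) = ∫ HX θ ψ t y * u0 y + ∫_0^t ∫ HX θ ψ (t-s) y * F s y dy ds`;
by `HX_swap`, `= ∫ψ u0 + e ∫_0^t b(σ)dσ + ∫_0^t (∫ψ F(s) + e ∫_0^{t-s} a(σ,s) dσ) ds`.
(2) `weak1` for `ψ'` at `τ ∈ (0,t]`: `∫ψ' u(τ) = b(τ) + ∫_0^τ a(τ-s,s) ds`.  Integrate over `[0,t]`:
`∫_0^t ∫ψ' u = ∫_0^t b + ∫_0^t∫_0^τ a(τ-s,s) ds dτ`.
(3) `tri_swap`.  So `∫ψ u(t) = ∫ψ u0 + ∫_0^t ∫ψ F(s) ds + e ∫_0^t ∫ψ' u(s) ds`.
Integrability in time: `tri_int`, `tri_int'` (hypotheses from `HX_pair`), `b` is continuous on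
`(0,t]` and bounded (`HX_pair` with the constant family `u0 = u 0`, which decays by `hdec`),
`s ↦ ∫ψ F(s)` and `s ↦ ∫ψ' u(s)` are continuous on `[0,T]` (dominated convergence, `IsMild.joint`). -/
theorem weak (hα : 0 < α) (hθ : 0 < Real.cos θ) (hu : IsMild N α θ γ T u0 u)
    (hdec : ∃ C : ℝ, ∀ t ∈ Icc 0 T, ∀ x, ‖u t x‖ ≤ C * Real.exp (-‖x‖)) {ψ : E N → ℂ}
    (hψ : ContDiff ℝ ∞ ψ) (hc : HasCompactSupport ψ) {t : ℝ} (ht : t ∈ Icc 0 T) :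
    ∫ x, ψ x * u t x = (∫ x, ψ x * u0 x)
      + ∫ s in (0:ℝ)..t, (eth θ * (∫ x, lap ψ x * u s x) + ∫ x, ψ x * FF α θ γ (u s x)) := by
  rcases eq_or_lt_of_le ht.1 with h0 | h0
  · subst h0
    rw [intervalIntegral.integral_same, add_zero, hu.init]
  have hT : 0 ≤ T := ht.1.trans ht.2
  have h0T : (0:ℝ) ∈ Icc 0 T := ⟨le_rfl, hT⟩
  have hlc := P5_lap_compact hc
  have hls := P5_lap_smooth hψ
  obtain ⟨Ψ, hΨ⟩ : ∃ Ψ : 𝓢(E N, ℂ), ∀ x, Ψ x = ψ x := ⟨hc.toSchwartzMap hψ, fun x => rfl⟩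
  obtain ⟨Ψ', hΨ'⟩ : ∃ Ψ' : 𝓢(E N, ℂ), ∀ x, Ψ' x = lap ψ x :=
    ⟨hlc.toSchwartzMap hls, fun x => rfl⟩
  have hΨf : (Ψ : E N → ℂ) = ψ := funext hΨ
  have hl : ∀ x, Ψ' x = lap Ψ x := fun x => by rw [hΨ' x, hΨf]
  have hj := hu.joint
  have hFd := P5_FF_dec hα hu hdec
  have hF : ContinuousOn (fun p : ℝ × E N => FF α θ γ (u p.1 p.2)) (Icc 0 T ×ˢ univ) :=
    (P5_FF_cont hα θ γ).comp_continuousOn hj
  have hu0d : ∃ C : ℝ, ∀ s ∈ Icc 0 T, ∀ y, ‖u0 y‖ ≤ C * Real.exp (-‖y‖) := by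
    obtain ⟨C, hC⟩ := hdec
    refine ⟨C, fun s _ y => ?_⟩
    have := hC 0 h0T y
    rwa [hu.init] at this
  have hu0c : Continuous (fun y => u0 y) := map_continuous u0
  have hu0j : ContinuousOn (fun p : ℝ × E N => u0 p.2) (Icc 0 T ×ˢ univ) :=
    (hu0c.comp continuous_snd).continuousOn
  obtain ⟨a, ha⟩ : ∃ a : ℝ → ℝ → ℂ, a = fun σ s => ∫ y, HX θ Ψ' σ y * FF α θ γ (u s y) :=
    ⟨_, rfl⟩
  obtain ⟨b, hb⟩ : ∃ b : ℝ → ℂ, b = fun σ => ∫ y, HX θ Ψ' σ y * u0 y := ⟨_, rfl⟩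
  obtain ⟨hac, A, hA0, hA⟩ := HX_pair hθ Ψ' hF hFd
  obtain ⟨hbc, B, hB0, hB⟩ := HX_pair hθ Ψ' hu0j hu0d
  have hsub : Ioc (0:ℝ) t ×ˢ Icc (0:ℝ) t ⊆ Ioi 0 ×ˢ Icc 0 T :=
    fun p hp => ⟨hp.1.1, hp.2.1, hp.2.2.trans ht.2⟩
  have ham : ContinuousOn (fun p : ℝ × ℝ => a p.1 p.2) (Ioc 0 t ×ˢ Icc 0 t) := by
    rw [ha]
    exact hac.mono hsub
  have hab : ∀ σ ∈ Ioc 0 t, ∀ s ∈ Icc 0 t, ‖a σ s‖ ≤ A := fun σ hσ s hs => by
    rw [ha]
    exact hA σ hσ.1 s ⟨hs.1, hs.2.trans ht.2⟩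
  have hbi : IntervalIntegrable b volume 0 t := by
    refine P5_ii (B := B) h0 ?_ fun σ hσ => ?_
    · have h1 : ContinuousOn (fun σ : ℝ => (σ, (0:ℝ))) (Ioi 0) := by fun_prop
      have h2 := hbc.comp h1 (fun σ hσ => ⟨hσ, h0T⟩)
      rw [hb]
      exact h2
    · rw [hb]
      exact hB σ hσ 0 h0T
  have hai := tri_int h0 ham hab
  have hai' := tri_int' h0 ham hab
  have hsw := tri_swap h0 ham hab
  have hc1 : ContinuousOn (fun s => ∫ y, ψ y * FF α θ γ (u s y)) (Icc 0 T) :=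
    P5_cont_pair hF hFd hψ.continuous (P5_bdd_compact hψ.continuous hc)
  have hc2 : ContinuousOn (fun s => ∫ y, lap ψ y * u s y) (Icc 0 T) :=
    P5_cont_pair hj hdec hls.continuous (P5_bdd_compact hls.continuous hlc)
  have hIcc : uIcc 0 t ⊆ Icc 0 T := by
    rw [uIcc_of_le h0.le]
    exact Icc_subset_Icc_right ht.2
  have hi1 : IntervalIntegrable (fun s => ∫ y, ψ y * FF α θ γ (u s y)) volume 0 t :=
    (hc1.mono hIcc).intervalIntegrable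
  have hi2 : IntervalIntegrable (fun s => ∫ y, lap ψ y * u s y) volume 0 t :=
    (hc2.mono hIcc).intervalIntegrable
  -- (1)
  have e1 := weak1 hα hθ hu hdec Ψ (t := t) ⟨h0, ht.2⟩
  have e2 := HX_swap hθ Ψ Ψ' hl hu0c (by
    obtain ⟨C, hC⟩ := hu0d
    exact ⟨C, fun y => hC 0 h0T y⟩) h0
  have e3 : (∫ s in (0:ℝ)..t, ∫ y, HX θ Ψ (t - s) y * FF α θ γ (u s y)) =
      ∫ s in (0:ℝ)..t, ((∫ y, ψ y * FF α θ γ (u s y))
        + eth θ * ∫ σ in (0:ℝ)..(t - s), a σ s) := by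
    refine intervalIntegral.integral_congr_ae ?_
    have hne : ∀ᵐ s : ℝ, s ≠ t := by
      rw [ae_iff]
      simp
    filter_upwards [hne] with s hs hs'
    rw [uIoc_of_le h0.le] at hs'
    have hlt : s < t := lt_of_le_of_ne hs'.2 hs
    have hsT : s ∈ Icc 0 T := ⟨hs'.1.le, hs'.2.trans ht.2⟩
    have hcs : Continuous (fun y => FF α θ γ (u s y)) :=
      (P5_FF_cont hα θ γ).comp (map_continuous (u s))
    have h1 := HX_swap hθ Ψ Ψ' hl hcs (by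
      obtain ⟨C, hC⟩ := hFd
      exact ⟨C, fun y => hC s hsT y⟩) (sub_pos.2 hlt)
    rw [h1, ha]
    simp only [hΨ]
  rw [intervalIntegral.integral_add hi1 (hai.const_mul (eth θ)),
    intervalIntegral.integral_const_mul] at e3
  have e1' : ∫ x, Ψ x * u t x = (∫ y, HX θ Ψ t y * u0 y)
      + ∫ s in (0:ℝ)..t, ∫ y, HX θ Ψ (t - s) y * FF α θ γ (u s y) := e1
  -- (2)
  have e4 : (∫ τ in (0:ℝ)..t, ∫ y, lap ψ y * u τ y) =
      ∫ τ in (0:ℝ)..t, (b τ + ∫ s in (0:ℝ)..τ, a (τ - s) s) := by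
    refine intervalIntegral.integral_congr_ae (Filter.Eventually.of_forall fun τ hτ => ?_)
    rw [uIoc_of_le h0.le] at hτ
    have h1 := weak1 hα hθ hu hdec Ψ' (t := τ) ⟨hτ.1, hτ.2.trans ht.2⟩
    simp only [hΨ'] at h1
    rw [h1, hb, ha]
    simp only [HX, hΨ']
  rw [intervalIntegral.integral_add hbi hai'] at e4
  -- assembly
  simp only [hΨ] at e1' e2
  rw [e1', e2, e3, intervalIntegral.integral_add (hi2.const_mul (eth θ)) hi1,
    intervalIntegral.integral_const_mul, e4, hsw, hb]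
  ring

end CGL
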