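import Pool.Agent.W_317df6_h83.P2a
import Pool.Agent.W_317df6_h83.P3b
import Pool.Agent.W_317df6_h83.P3c

/-!
# Weak formulation, first form (task P5a)
-/

set_option autoImplicit false

namespace CGL

open MeasureTheory Set
open scoped ContDiff
open scoped ZeroAtInfty SchwartzMap

variable {N : ℕ} {α θ γ T : ℝ} {u0 : C₀(E N, ℂ)} {u : ℝ → C₀(E N, ℂ)}

/-- First form: `∫ψ u(t) = ∫(T_θ(t)ψ) u0 + ∫_0^t ∫ (T_θ(t-s)ψ) F(s) ds`, `F(s) = FF(u(s))`.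

Proof.  Multiply `hu.eq t ht x` by `ψ x` and integrate; `K_swap0` with `g = u0` (bounded by `‖u0‖`),
`K_swap` with `F s y = FF α θ γ (u s y)`, continuous on `[0,T] × ℝ^N` (`IsMild.joint`, `FF` is
continuous: `continuous_nl`) and bounded (`IsMild.bdd`, `FF_lip` with `w = 0`). -/
theorem weak1 (hα : 0 < α) (hθ : 0 < Real.cos θ) (hu : IsMild N α θ γ T u0 u)
    (hdec : ∃ C : ℝ, ∀ t ∈ Icc 0 T, ∀ x, ‖u t x‖ ≤ C * Real.exp (-‖x‖)) (ψ : 𝓢(E N, ℂ))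
    {t : ℝ} (ht : t ∈ Ioc 0 T) :
    ∫ x, ψ x * u t x =
      (∫ y, (∫ x, K N ((t : ℂ) * eth θ) (y - x) * ψ x) * u0 y)
      + ∫ s in (0:ℝ)..t, ∫ y, (∫ x, K N (((t - s : ℝ) : ℂ) * eth θ) (y - x) * ψ x)
          * FF α θ γ (u s y) := by
  obtain ⟨B, hB0, hB⟩ := hu.bdd
  obtain ⟨L, hL0, hL⟩ := FF_lip hα θ γ B
  have hFc : Continuous (FF α θ γ) := by
    unfold FF
    exact (continuous_const.mul (continuous_nl hα)).add (continuous_const.mul continuous_id)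
  have hF0 : FF α θ γ 0 = 0 := by
    simp [FF, nl]
  have hub : ∀ s ∈ Icc 0 T, ∀ y, ‖u s y‖ ≤ B := fun s hs y =>
    ((u s).toBCF.norm_coe_le_norm y).trans (hB s hs)
  have hF : ContinuousOn (fun p : ℝ × E N => FF α θ γ (u p.1 p.2)) (Icc 0 T ×ˢ univ) :=
    hFc.comp_continuousOn hu.joint
  have hFB : ∀ s ∈ Icc 0 T, ∀ y, ‖FF α θ γ (u s y)‖ ≤ L * B := by
    intro s hs y
    have h1 := hL (u s y) 0 (hub s hs y) (by simpa using hB0.le)
    rw [hF0, sub_zero, sub_zero] at h1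
    exact h1.trans (mul_le_mul_of_nonneg_left (hub s hs y) hL0.le)
  obtain ⟨i1, e1⟩ := K_swap0 hθ ht.1 (g := fun y => u0 y) u0.continuous
    (fun y => u0.toBCF.norm_coe_le_norm y) ψ
  obtain ⟨i2, e2⟩ := K_swap hθ (F := fun s y => FF α θ γ (u s y)) hF hFB ht ψ
  rw [← e1, ← e2, ← integral_add i1 i2]
  apply integral_congr_ae
  filter_upwards with x
  rw [hu.eq t ht x, mul_add]

end CGL
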