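import Pool.Agent.W_317df6_h83.Basic

/-!
# Mollifiers: existence, radial symmetry (task P6a)
-/

set_option autoImplicit false

namespace CGL

open MeasureTheory Set
open scoped ContDiff
open scoped ZeroAtInfty

variable {N : ℕ}

theorem Moll.compact {ε : ℝ} {ρ : E N → ℝ} (h : Moll N ε ρ) : HasCompactSupport ρ := by
  refine HasCompactSupport.intro (isCompact_closedBall (0 : E N) ε) fun x hx => ?_
  refine h.supp x ?_
  rw [Metric.mem_closedBall, dist_zero_right, not_le] at hx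
  exact hx.le

/-- existence of mollifiers: normalise `x ↦ Real.smoothTransition (1 - ‖x‖²/ε²)`. -/
theorem exists_moll (N : ℕ) {ε : ℝ} (hε : 0 < ε) : ∃ ρ : E N → ℝ, Moll N ε ρ := by
  obtain ⟨g, hg⟩ : ∃ g : E N → ℝ, g = fun x => Real.smoothTransition (1 - ‖x‖ ^ 2 / ε ^ 2) :=
    ⟨_, rfl⟩
  have hsm : ContDiff ℝ ∞ g := by
    rw [hg]
    exact Real.smoothTransition.contDiff.comp
      (contDiff_const.sub ((contDiff_norm_sq ℝ).div_const _))
  have hnn : ∀ x, 0 ≤ g x := fun x => by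
    rw [hg]
    exact Real.smoothTransition.nonneg _
  have hsupp : ∀ x, ε ≤ ‖x‖ → g x = 0 := fun x hx => by
    rw [hg]
    refine Real.smoothTransition.zero_of_nonpos ?_
    have h1 : ε ^ 2 ≤ ‖x‖ ^ 2 := pow_le_pow_left₀ hε.le hx 2
    have h2 : 1 ≤ ‖x‖ ^ 2 / ε ^ 2 := by rwa [one_le_div (by positivity)]
    linarith
  have hcs : HasCompactSupport g := by
    refine HasCompactSupport.intro (isCompact_closedBall (0 : E N) ε) fun x hx => ?_
    refine hsupp x ?_
    rw [Metric.mem_closedBall, dist_zero_right, not_le] at hx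
    exact hx.le
  have hpos : 0 < ∫ x, g x := by
    refine hsm.continuous.integral_pos_of_hasCompactSupport_nonneg_nonzero hcs hnn (x := 0) ?_
    rw [hg]
    simp
  refine ⟨fun x => (∫ x, g x)⁻¹ * g x, ?_, ?_, ?_, ?_, ?_⟩
  · exact contDiff_const.mul hsm
  · exact fun x => mul_nonneg (inv_nonneg.2 hpos.le) (hnn x)
  · rw [integral_const_mul, inv_mul_cancel₀ hpos.ne']
  · intro x hx
    rw [hsupp x hx, mul_zero]
  · intro x y hxy
    have : g x = g y := by rw [hg]; simp only [hxy]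
    rw [this]

/-- `mol ρ` of a radial function is radial (`ρ` radial): for `‖x‖ = ‖y‖` take a linear isometry `Q`
with `Q x = y` (`reflection_sub`) and substitute `Q` in the integral. -/
theorem mol_radial {ε : ℝ} {ρ : E N → ℝ} (hρ : Moll N ε ρ) {f : E N → ℂ} (hf : Continuous f)
    (hr : ∀ x y : E N, ‖x‖ = ‖y‖ → f x = f y) : ∀ x y : E N, ‖x‖ = ‖y‖ → mol ρ f x = mol ρ f y := by
  intro x y hxy
  obtain ⟨Q, hQ⟩ : ∃ Q : E N ≃ₗᵢ[ℝ] E N, Q x = y :=
    ⟨(Submodule.span ℝ {x - y})ᗮ.reflection, Submodule.reflection_sub hxy⟩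
  unfold mol
  have h1 : ∫ z, ((ρ (y - z) : ℝ) : ℂ) * f z = ∫ z, ((ρ (y - Q z) : ℝ) : ℂ) * f (Q z) :=
    (Q.measurePreserving.integral_comp Q.toHomeomorph.measurableEmbedding
      (fun z => ((ρ (y - z) : ℝ) : ℂ) * f z)).symm
  rw [h1]
  refine integral_congr_ae (Filter.Eventually.of_forall fun z => ?_)
  have h2 : ρ (y - Q z) = ρ (x - z) := by
    refine hρ.rad _ _ ?_
    rw [← hQ, ← map_sub, Q.norm_map]
  have h3 : f (Q z) = f z := hr _ _ (Q.norm_map z)
  simp only [h2, h3]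

end CGL
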