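import Pool.Agent.W_317df6_h83.P2a

/-!
# The mollification error (task P7a)
-/

set_option autoImplicit false

namespace CGL

open MeasureTheory Set
open scoped ContDiff
open scoped ZeroAtInfty

variable {N : ℕ} {α θ γ T : ℝ} {u0 : C₀(E N, ℂ)} {u : ℝ → C₀(E N, ℂ)}

/-- uniform equicontinuity of `{u(t)}` (`u([0,T])` is compact in `C_0`, its members are uniformly
continuous). -/
theorem IsMild.equi (hu : IsMild N α θ γ T u0 u) {η : ℝ} (hη : 0 < η) : ∃ ε0 > 0,
    ∀ t ∈ Icc 0 T, ∀ x y : E N, ‖x - y‖ ≤ ε0 → ‖u t x - u t y‖ ≤ η := by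
  refine isCompact_Icc.induction_on (p := fun S => ∃ ε0 > 0,
    ∀ t ∈ S, ∀ x y : E N, ‖x - y‖ ≤ ε0 → ‖u t x - u t y‖ ≤ η) ?_ ?_ ?_ ?_
  · exact ⟨1, one_pos, fun t ht => absurd ht (notMem_empty t)⟩
  · rintro S S' hS ⟨ε0, h0, h⟩
    exact ⟨ε0, h0, fun t ht => h t (hS ht)⟩
  · rintro S S' ⟨ε0, h0, h⟩ ⟨ε1, h1, h'⟩
    refine ⟨min ε0 ε1, lt_min h0 h1, fun t ht x y hxy => ?_⟩
    rcases ht with ht | ht
    · exact h t ht x y (hxy.trans (min_le_left _ _))
    · exact h' t ht x y (hxy.trans (min_le_right _ _))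
  · intro t0 ht0
    have hc : Filter.Tendsto u (nhdsWithin t0 (Icc 0 T)) (nhds (u t0)) := hu.cont t0 ht0
    have h3 : 0 < η / 3 := by positivity
    have h1 : ∀ᶠ t in nhdsWithin t0 (Icc 0 T), ‖u t - u t0‖ < η / 3 := by
      have := hc.eventually (Metric.ball_mem_nhds (u t0) h3)
      filter_upwards [this] with t ht
      rwa [dist_eq_norm] at ht
    have huc : UniformContinuous (u t0) := ZeroAtInftyContinuousMap.uniformContinuous (u t0)
    obtain ⟨ε0, hε0, h2⟩ := Metric.uniformContinuous_iff.1 huc (η / 3) h3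
    refine ⟨{t | ‖u t - u t0‖ < η / 3}, h1, ε0 / 2, by positivity, fun t ht x y hxy => ?_⟩
    have ht' : ‖u t - u t0‖ < η / 3 := ht
    have hx : ∀ z : E N, ‖u t z - u t0 z‖ ≤ η / 3 := fun z => by
      have h4 : ‖(u t - u t0) z‖ ≤ ‖u t - u t0‖ := by
        have h5 := (u t - u t0).toBCF.norm_coe_le_norm z
        exact h5
      exact h4.trans ht'.le
    have h4 : ‖u t0 x - u t0 y‖ ≤ η / 3 := by
      have h5 : dist x y < ε0 := by
        rw [dist_eq_norm]
        linarith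
      have := h2 h5
      rw [dist_eq_norm] at this
      exact this.le
    have h6 : u t x - u t y = (u t x - u t0 x) + (u t0 x - u t0 y) - (u t y - u t0 y) := by ring
    calc ‖u t x - u t y‖ = ‖(u t x - u t0 x) + (u t0 x - u t0 y) - (u t y - u t0 y)‖ := by rw [h6]
      _ ≤ ‖(u t x - u t0 x) + (u t0 x - u t0 y)‖ + ‖u t y - u t0 y‖ := norm_sub_le _ _
      _ ≤ ‖u t x - u t0 x‖ + ‖u t0 x - u t0 y‖ + ‖u t y - u t0 y‖ := by
          gcongr
          exact norm_add_le _ _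
      _ ≤ η := by
          have := hx x
          have := hx y
          linarith

theorem P7a_supp {ε : ℝ} {ρ : E N → ℝ} (h : Moll N ε ρ) : HasCompactSupport ρ := by
  refine HasCompactSupport.intro (isCompact_closedBall (0 : E N) ε) fun x hx => ?_
  rw [Metric.mem_closedBall, dist_zero_right, not_le] at hx
  exact h.supp x hx.le

theorem P7a_int {ε : ℝ} {ρ : E N → ℝ} (h : Moll N ε ρ) (x : E N) {f : E N → ℂ}
    (hf : Continuous f) : Integrable fun y => ((ρ (x - y) : ℝ) : ℂ) * f y := by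
  have hc : Continuous fun y => ((ρ (x - y) : ℝ) : ℂ) * f y :=
    (Complex.continuous_ofReal.comp (h.smooth.continuous.comp (continuous_const.sub
      continuous_id))).mul hf
  refine hc.integrable_of_hasCompactSupport ?_
  refine HasCompactSupport.intro (isCompact_closedBall x ε) fun y hy => ?_
  rw [Metric.mem_closedBall, dist_eq_norm, norm_sub_rev, not_le] at hy
  rw [h.supp _ hy.le, Complex.ofReal_zero, zero_mul]

theorem P7a_int1 {ε : ℝ} {ρ : E N → ℝ} (h : Moll N ε ρ) (x : E N) :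
    Integrable fun y => ρ (x - y) := by
  have hc : Continuous fun y => ρ (x - y) :=
    h.smooth.continuous.comp (continuous_const.sub continuous_id)
  refine hc.integrable_of_hasCompactSupport ?_
  refine HasCompactSupport.intro (isCompact_closedBall x ε) fun y hy => ?_
  rw [Metric.mem_closedBall, dist_eq_norm, norm_sub_rev, not_le] at hy
  exact h.supp _ hy.le

theorem P7a_one {ε : ℝ} {ρ : E N → ℝ} (h : Moll N ε ρ) (x : E N) : ∫ y, ρ (x - y) = 1 := by
  rw [integral_sub_left_eq_self ρ volume x, h.one]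

/-- averages stay close -/
theorem P7a_avg {ε : ℝ} {ρ : E N → ℝ} (h : Moll N ε ρ) {f : E N → ℂ} (hf : Continuous f)
    (x : E N) {c : ℂ} {ζ : ℝ} (hζ : ∀ y, ‖x - y‖ < ε → ‖f y - c‖ ≤ ζ) :
    ‖mol ρ f x - c‖ ≤ ζ := by
  have h1 : mol ρ f x - c = ∫ y, ((ρ (x - y) : ℝ) : ℂ) * (f y - c) := by
    have h2 : ∫ y, ((ρ (x - y) : ℝ) : ℂ) * c = c := by
      rw [integral_mul_const, integral_complex_ofReal, P7a_one h x, Complex.ofReal_one, one_mul]
    have h3 : Integrable fun y => ((ρ (x - y) : ℝ) : ℂ) * c := P7a_int h x continuous_const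
    calc mol ρ f x - c = (∫ y, ((ρ (x - y) : ℝ) : ℂ) * f y) -
          ∫ y, ((ρ (x - y) : ℝ) : ℂ) * c := by rw [h2]; rfl
      _ = ∫ y, (((ρ (x - y) : ℝ) : ℂ) * f y - ((ρ (x - y) : ℝ) : ℂ) * c) :=
          (integral_sub (P7a_int h x hf) h3).symm
      _ = ∫ y, ((ρ (x - y) : ℝ) : ℂ) * (f y - c) := by
          congr 1
          funext y
          ring
  rw [h1]
  calc ‖∫ y, ((ρ (x - y) : ℝ) : ℂ) * (f y - c)‖ ≤ ∫ y, ρ (x - y) * ζ := by
        refine norm_integral_le_of_norm_le ((P7a_int1 h x).mul_const ζ)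
          (Filter.Eventually.of_forall fun y => ?_)
        rw [norm_mul, Complex.norm_real, Real.norm_of_nonneg (h.nonneg _)]
        rcases lt_or_ge ‖x - y‖ ε with hy | hy
        · exact mul_le_mul_of_nonneg_left (hζ y hy) (h.nonneg _)
        · rw [h.supp _ hy, zero_mul, zero_mul]
    _ = ζ := by rw [integral_mul_const, P7a_one h x, one_mul]

theorem P7a_mol_cont {ε : ℝ} {ρ : E N → ℝ} (h : Moll N ε ρ) {f : E N → ℂ} (hf : Continuous f) :
    Continuous (mol ρ f) := by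
  have h1 : mol ρ f = MeasureTheory.convolution ρ f (ContinuousLinearMap.lsmul ℝ ℝ) volume := by
    funext x
    rw [MeasureTheory.convolution_eq_swap]
    unfold mol
    congr 1
  rw [h1]
  exact (P7a_supp h).continuous_convolution_left _ h.smooth.continuous hf.locallyIntegrable

/-- decay of averages -/
theorem P7a_dec {ε : ℝ} {ρ : E N → ℝ} (h : Moll N ε ρ) (hε : ε ≤ 1) {f : E N → ℂ}
    (hf : Continuous f) {C : ℝ} (hC0 : 0 ≤ C) (hC : ∀ x, ‖f x‖ ≤ C * Real.exp (-‖x‖)) (x : E N) :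
    ‖mol ρ f x‖ ≤ C * Real.exp 1 * Real.exp (-‖x‖) := by
  have h1 := P7a_avg h hf x (c := 0) (ζ := C * Real.exp 1 * Real.exp (-‖x‖)) (fun y hy => by
    rw [sub_zero]
    refine (hC y).trans ?_
    rw [mul_assoc, ← Real.exp_add]
    refine mul_le_mul_of_nonneg_left (Real.exp_le_exp.2 ?_) hC0
    have h2 : ‖x‖ ≤ ‖x - y‖ + ‖y‖ := by
      calc ‖x‖ = ‖(x - y) + y‖ := by rw [sub_add_cancel]
        _ ≤ _ := norm_add_le _ _
    linarith)
  rwa [sub_zero] at h1

theorem P7a_nl0 (z : ℂ) : FF α 0 0 z = nl α z := by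
  unfold FF eth
  simp

/-- **The error tends to zero.**

Proof.  `r = ρ*(|u|^α u) - |v|^α v`, `v = ρ*u`; let `ε ≤ 1`.  `∫ρ = 1`, `ρ ≥ 0`, `ρ(x-y) = 0` for
`‖x-y‖ ≥ ε`.  `nl` is Lipschitz with constant `L` on the ball of radius `B` (`FF_lip` with `θ = γ = 0`,
`eth 0 = 1`), `‖u t‖ ≤ B` (`IsMild.bdd`).  If `‖u t x - u t y‖ ≤ ω` for `‖x-y‖ ≤ ε0` (`equi`), then
`‖v - u‖ ≤ ω`, `‖ρ*(nl u) - nl u‖ ≤ L ω`, `‖r‖ ≤ 2Lω`.  Also `‖r x‖ ≤ C' exp(-‖x‖)`, `C'` independent
of `t`, `ε ≤ 1`, `ρ` (`‖ρ*(nl u)‖ ≤ L e C exp(-‖x‖)` etc., `‖nl z‖ ≤ L‖z‖`).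
So `∫‖r‖² ≤ 2Lω C' ∫exp(-‖x‖) ≤ δ²` for `ω` small.  Continuity: `mol` is continuous (convolution of a
continuous function with compact support and a continuous function). -/
theorem moll_error (hα : 0 < α) (hu : IsMild N α θ γ T u0 u)
    (hdec : ∃ C : ℝ, ∀ t ∈ Icc 0 T, ∀ x, ‖u t x‖ ≤ C * Real.exp (-‖x‖)) {δ : ℝ} (hδ : 0 < δ) :
    ∃ ε0 > 0, ∀ ε ∈ Ioo 0 ε0, ∀ ρ : E N → ℝ, Moll N ε ρ → ∀ t ∈ Icc 0 T,
      Continuous (fun x => mol ρ (fun y => nl α (u t y)) x - nl α (mol ρ (u t) x)) ∧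
      ExpDec (fun x => mol ρ (fun y => nl α (u t y)) x - nl α (mol ρ (u t) x)) ∧
      ∫ x, ‖mol ρ (fun y => nl α (u t y)) x - nl α (mol ρ (u t) x)‖ ^ 2 ≤ δ ^ 2 := by
  obtain ⟨C, hC⟩ := hdec
  obtain ⟨B, hB0, hB⟩ := hu.bdd
  obtain ⟨L, hL0, hL⟩ := FF_lip hα 0 0 B
  simp only [P7a_nl0] at hL
  have hnl0 : nl α 0 = 0 := by
    unfold nl
    rw [mul_zero]
  have hLn : ∀ z : ℂ, ‖z‖ ≤ B → ‖nl α z‖ ≤ L * ‖z‖ := fun z hz => by
    have := hL z 0 hz (by rw [norm_zero]; exact hB0.le)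
    rwa [hnl0, sub_zero, sub_zero] at this
  set C0 : ℝ := |C| with hC0
  have hC0n : 0 ≤ C0 := abs_nonneg C
  have hC' : ∀ t ∈ Icc 0 T, ∀ x, ‖u t x‖ ≤ C0 * Real.exp (-‖x‖) := fun t ht x =>
    (hC t ht x).trans (mul_le_mul_of_nonneg_right (le_abs_self C) (Real.exp_pos _).le)
  set D : ℝ := 2 * (L * C0 * Real.exp 1) with hD
  have hD0 : 0 ≤ D := by positivity
  set I : ℝ := ∫ x : E N, Real.exp (-‖x‖) with hI
  have hI0 : 0 ≤ I := integral_nonneg fun x => (Real.exp_pos _).le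
  set ζ : ℝ := δ ^ 2 / (2 * L * D * I + 1) with hζ
  have hζ0 : 0 < ζ := by positivity
  obtain ⟨ε1, hε1, he⟩ := hu.equi hζ0
  refine ⟨min ε1 1, lt_min hε1 one_pos, fun ε hε ρ hρ t ht => ?_⟩
  have hεle : ε ≤ 1 := (hε.2.le).trans (min_le_right _ _)
  have hεle' : ε ≤ ε1 := (hε.2.le).trans (min_le_left _ _)
  have huc : Continuous (u t) := (u t).continuous
  have hnc : Continuous (fun y => nl α (u t y)) := (continuous_nl hα).comp huc
  have hub : ∀ x, ‖u t x‖ ≤ B := fun x => by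
    have h1 := (u t).toBCF.norm_coe_le_norm x
    have h2 : ‖(u t).toBCF‖ = ‖u t‖ := rfl
    rw [h2] at h1
    exact h1.trans (hB t ht)
  have hvb : ∀ x, ‖mol ρ (u t) x‖ ≤ B := fun x => by
    have h1 := P7a_avg hρ huc x (c := 0) (ζ := B) (fun y _ => by rw [sub_zero]; exact hub y)
    rwa [sub_zero] at h1
  have hnd : ∀ x, ‖nl α (u t x)‖ ≤ L * C0 * Real.exp (-‖x‖) := fun x => by
    refine (hLn _ (hub x)).trans ?_
    rw [mul_assoc]
    exact mul_le_mul_of_nonneg_left (hC' t ht x) hL0.le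
  have hr1 : ∀ x, ‖mol ρ (fun y => nl α (u t y)) x - nl α (mol ρ (u t) x)‖ ≤ 2 * L * ζ := by
    intro x
    have h1 : ‖mol ρ (u t) x - u t x‖ ≤ ζ := P7a_avg hρ huc x (fun y hy => by
      refine he t ht y x ?_
      rw [norm_sub_rev]
      exact hy.le.trans hεle')
    have h2 : ‖mol ρ (fun y => nl α (u t y)) x - nl α (u t x)‖ ≤ L * ζ :=
      P7a_avg hρ hnc x (fun y hy => by
        refine (hL _ _ (hub y) (hub x)).trans ?_
        refine mul_le_mul_of_nonneg_left (he t ht y x ?_) hL0.le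
        rw [norm_sub_rev]
        exact hy.le.trans hεle')
    have h3 : ‖nl α (mol ρ (u t) x) - nl α (u t x)‖ ≤ L * ζ :=
      (hL _ _ (hvb x) (hub x)).trans (mul_le_mul_of_nonneg_left h1 hL0.le)
    have h4 : mol ρ (fun y => nl α (u t y)) x - nl α (mol ρ (u t) x) =
        (mol ρ (fun y => nl α (u t y)) x - nl α (u t x)) -
          (nl α (mol ρ (u t) x) - nl α (u t x)) := by ring
    rw [h4]
    refine (norm_sub_le _ _).trans ?_
    linarith
  have hr2 : ∀ x, ‖mol ρ (fun y => nl α (u t y)) x - nl α (mol ρ (u t) x)‖ ≤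
      D * Real.exp (-‖x‖) := by
    intro x
    have h1 := P7a_dec hρ hεle hnc (by positivity) hnd x
    have h2 := P7a_dec hρ hεle huc hC0n (hC' t ht) x
    have h3 := (hLn _ (hvb x)).trans (mul_le_mul_of_nonneg_left h2 hL0.le)
    refine (norm_sub_le _ _).trans ?_
    rw [hD]
    linarith
  have hcont : Continuous
      (fun x => mol ρ (fun y => nl α (u t y)) x - nl α (mol ρ (u t) x)) :=
    (P7a_mol_cont hρ hnc).sub ((continuous_nl hα).comp (P7a_mol_cont hρ huc))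
  refine ⟨hcont, ⟨D, hr2⟩, ?_⟩
  have hbound : ∀ x, ‖mol ρ (fun y => nl α (u t y)) x - nl α (mol ρ (u t) x)‖ ^ 2 ≤
      2 * L * ζ * D * Real.exp (-‖x‖) := by
    intro x
    have h1 := hr1 x
    have h2 := hr2 x
    have h0 := norm_nonneg (mol ρ (fun y => nl α (u t y)) x - nl α (mol ρ (u t) x))
    calc ‖mol ρ (fun y => nl α (u t y)) x - nl α (mol ρ (u t) x)‖ ^ 2
        = ‖mol ρ (fun y => nl α (u t y)) x - nl α (mol ρ (u t) x)‖ *
          ‖mol ρ (fun y => nl α (u t y)) x - nl α (mol ρ (u t) x)‖ := sq _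
      _ ≤ (2 * L * ζ) * (D * Real.exp (-‖x‖)) := mul_le_mul h1 h2 h0 (by positivity)
      _ = 2 * L * ζ * D * Real.exp (-‖x‖) := by ring
  have hint : Integrable fun x : E N => 2 * L * ζ * D * Real.exp (-‖x‖) :=
    (integrable_exp N).const_mul _
  calc ∫ x, ‖mol ρ (fun y => nl α (u t y)) x - nl α (mol ρ (u t) x)‖ ^ 2
      ≤ ∫ x : E N, 2 * L * ζ * D * Real.exp (-‖x‖) := by
        refine integral_mono_of_nonneg (Filter.Eventually.of_forall fun x => sq_nonneg _) hint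
          (Filter.Eventually.of_forall hbound)
    _ = 2 * L * ζ * D * I := integral_const_mul _ _
    _ = δ ^ 2 * ((2 * L * D * I) / (2 * L * D * I + 1)) := by
        rw [hζ]
        ring
    _ ≤ δ ^ 2 * 1 := by
        refine mul_le_mul_of_nonneg_left ?_ (sq_nonneg δ)
        rw [div_le_one (by positivity)]
        linarith
    _ = δ ^ 2 := mul_one _

end CGL
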