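import Pool.Agent.W_317df6_h83.Basic

/-!
# Identity in space: mass (task S1a)
-/

set_option autoImplicit false

namespace CGL

open MeasureTheory Set
open scoped ComplexConjugate

variable {N : ℕ}

theorem S1a_conj_dec {f : E N → ℂ} (hf : ExpDec f) : ExpDec (fun x => conj (f x)) := by
  refine hf.mono 1 fun x => ?_
  rw [RCLike.norm_conj, one_mul]

theorem S1a_conj_cont {f : E N → ℂ} (hf : Continuous f) : Continuous (fun x => conj (f x)) :=
  Complex.continuous_conj.comp hf

/-- `|z|^α z conj z = |z|^{α+2}` -/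
theorem S1a_nl {α : ℝ} (hα : 0 < α) (z : ℂ) : nl α z * conj z = ((‖z‖ ^ (α + 2) : ℝ) : ℂ) := by
  unfold nl
  rw [mul_assoc, Complex.mul_conj, Complex.normSq_eq_norm_sq, ← Complex.ofReal_mul]
  congr 1
  rcases eq_or_ne z 0 with rfl | hz
  · simp only [norm_zero]
    rw [Real.zero_rpow (by linarith), Real.zero_rpow (by linarith)]
    simp
  · rw [Real.rpow_add (norm_pos_iff.2 hz)]
    norm_num

/-- integration by parts -/
theorem S1a_ibp {w : E N → ℂ} (hw : Dec w) (i : Fin N) :
    ∫ x, pd i (pd i w) x * conj (w x) = -∫ x, ((‖pd i w x‖ ^ 2 : ℝ) : ℂ) := by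
  have hwi : ContDiff ℝ 1 (pd i w) := hw.contDiff_pd i
  have hw1 : ContDiff ℝ 1 w := hw.smooth.of_le (by norm_num)
  have hwc : ContDiff ℝ 1 (fun x => conj (w x)) :=
    Complex.conjCLE.toContinuousLinearMap.contDiff.comp hw1
  have key : ∀ x, pd i (fun y => pd i w y * conj (w y)) x =
      pd i (pd i w) x * conj (w x) + ((‖pd i w x‖ ^ 2 : ℝ) : ℂ) := by
    intro x
    have d2 : DifferentiableAt ℝ (pd i w) x := hwi.differentiable one_ne_zero x
    have d3 : DifferentiableAt ℝ (fun y => conj (w y)) x := hwc.differentiable one_ne_zero x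
    have d4 : DifferentiableAt ℝ w x := hw1.differentiable one_ne_zero x
    rw [pd_mul d2 d3, pd_conj d4, Complex.mul_conj (pd i w x), Complex.normSq_eq_norm_sq]
  have f1 : ExpDec (fun x => pd i (pd i w) x * conj (w x)) :=
    ExpDec.bmul (hw.d2 i i).bdd (S1a_conj_dec hw.d0)
  have hfe : (fun x => ((‖pd i w x‖ ^ 2 : ℝ) : ℂ)) = fun x => pd i w x * conj (pd i w x) := by
    funext x
    rw [Complex.mul_conj, Complex.normSq_eq_norm_sq]
  have f2 : ExpDec (fun x => ((‖pd i w x‖ ^ 2 : ℝ) : ℂ)) := by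
    rw [hfe]
    exact ExpDec.bmul (hw.d1 i).bdd (S1a_conj_dec (hw.d1 i))
  have i1 : Integrable (fun x => pd i (pd i w) x * conj (w x)) :=
    f1.integrable ((hw.continuous_pd2 i i).mul (S1a_conj_cont hw1.continuous))
  have i2 : Integrable (fun x => ((‖pd i w x‖ ^ 2 : ℝ) : ℂ)) :=
    f2.integrable (Complex.continuous_ofReal.comp (hwi.continuous.norm.pow 2))
  have dF : ExpDec (fun x => pd i w x * conj (w x)) :=
    ExpDec.bmul (hw.d1 i).bdd (S1a_conj_dec hw.d0)
  have hfun : pd i (fun y => pd i w y * conj (w y)) = fun x =>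
      pd i (pd i w) x * conj (w x) + ((‖pd i w x‖ ^ 2 : ℝ) : ℂ) := funext key
  have dF' : ExpDec (pd i (fun y => pd i w y * conj (w y))) := by
    rw [hfun]
    exact f1.add f2
  have z := integral_pd_eq_zero (hwi.mul hwc) dF i dF'
  have z2 : ∫ x, (pd i (pd i w) x * conj (w x) + ((‖pd i w x‖ ^ 2 : ℝ) : ℂ)) = 0 := by
    rw [← z]
    congr 1
    funext x
    exact (key x).symm
  rw [integral_add i1 i2] at z2
  exact eq_neg_of_add_eq_zero_left z2

/-- `∫ w conj v = ∫|v|^{α+2} - ∫|∇v|²`.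
Proof: `∑_i ∂_i(∂_i v conj v) = Δv conj v + |∇v|²`, `integral_pd_eq_zero`. -/
theorem int_ww_conj {α : ℝ} (hα : 0 < α) {v : E N → ℂ} (hv : Dec v) :
    ∫ x, ww α v x * conj (v x) = ((Pf α v - Gf v : ℝ) : ℂ) := by
  have hvc : Continuous v := hv.smooth.continuous
  have j1 : ∀ i, Integrable (fun x => pd i (pd i v) x * conj (v x)) := fun i =>
    (ExpDec.bmul (hv.d2 i i).bdd (S1a_conj_dec hv.d0)).integrable
      ((hv.continuous_pd2 i i).mul (S1a_conj_cont hvc))
  have j3 : ∀ i, Integrable (fun x => ((‖pd i v x‖ ^ 2 : ℝ) : ℂ)) := fun i => by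
    have hfe : (fun x => ((‖pd i v x‖ ^ 2 : ℝ) : ℂ)) = fun x => pd i v x * conj (pd i v x) := by
      funext x
      rw [Complex.mul_conj, Complex.normSq_eq_norm_sq]
    rw [hfe]
    exact (ExpDec.bmul (hv.d1 i).bdd (S1a_conj_dec (hv.d1 i))).integrable
      ((hv.contDiff_pd i).continuous.mul (S1a_conj_cont (hv.contDiff_pd i).continuous))
  have i1 : Integrable (fun x => lap v x * conj (v x)) :=
    (ExpDec.bmul hv.expDec_lap.bdd (S1a_conj_dec hv.d0)).integrable
      (hv.continuous_lap.mul (S1a_conj_cont hvc))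
  have i2 : Integrable (fun x => nl α (v x) * conj (v x)) :=
    (ExpDec.bmul (expDec_nl hα hv.d0).bdd (S1a_conj_dec hv.d0)).integrable
      (((continuous_nl hα).comp hvc).mul (S1a_conj_cont hvc))
  have e1 : ∫ x, ww α v x * conj (v x) =
      (∫ x, lap v x * conj (v x)) + ∫ x, nl α (v x) * conj (v x) := by
    rw [← integral_add i1 i2]
    congr 1
    funext x
    unfold ww
    rw [add_mul]
  have e2 : ∫ x, nl α (v x) * conj (v x) = ((Pf α v : ℝ) : ℂ) := by
    unfold Pf
    rw [← integral_complex_ofReal]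
    congr 1
    funext x
    exact S1a_nl hα _
  have e3 : ∫ x, lap v x * conj (v x) = -((Gf v : ℝ) : ℂ) := by
    have h1 : (fun x => lap v x * conj (v x)) = fun x => ∑ i, pd i (pd i v) x * conj (v x) := by
      funext x
      unfold lap
      rw [Finset.sum_mul]
    have h2 : ((Gf v : ℝ) : ℂ) = ∑ i, ∫ x, ((‖pd i v x‖ ^ 2 : ℝ) : ℂ) := by
      unfold Gf gsq
      rw [← integral_complex_ofReal, ← integral_finsetSum _ fun i _ => j3 i]
      congr 1
      funext x
      rw [Complex.ofReal_sum]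
    rw [h1, integral_finsetSum _ fun i _ => j1 i, h2, ← Finset.sum_neg_distrib]
    exact Finset.sum_congr rfl fun i _ => S1a_ibp hv i
  rw [e1, e2, e3]
  push_cast
  ring

end CGL
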