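import Pool.Agent.W_317df6_h83.Basic

/-!
# The virial identity in space: linear part (task S3a)
-/

set_option autoImplicit false

namespace CGL

open MeasureTheory Set
open scoped ComplexConjugate

variable {N : ℕ}

theorem S3a_bmul {w : E N → ℝ} {C : ℝ} (hb : ∀ x, |w x| ≤ C) {g : E N → ℂ} (hg : ExpDec g) :
    ExpDec (fun x => ((w x : ℝ) : ℂ) * g x) := by
  refine ExpDec.bmul ⟨C, fun x => ?_⟩ hg
  rw [Complex.norm_real, Real.norm_eq_abs]
  exact hb x

theorem S3a_cmul {f g : E N → ℂ} (hf : ExpDec f) (hg : ExpDec g) :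
    ExpDec (fun x => f x * conj (g x)) := by
  obtain ⟨C, hC⟩ := hf.bdd
  refine hg.mono C fun x => ?_
  rw [norm_mul, RCLike.norm_conj]
  exact mul_le_mul_of_nonneg_right (hC x) (norm_nonneg _)

theorem S3a_div {w : E N → ℝ} (hw : ContDiff ℝ 1 w) {C : ℝ} (hb : ∀ x, |w x| ≤ C) (i : Fin N)
    {C' : ℝ} (hb' : ∀ x, |pd i w x| ≤ C') {f g : E N → ℂ} (hf : ContDiff ℝ 1 f)
    (hg : ContDiff ℝ 1 g) (df : ExpDec f) (dg : ExpDec g) (df' : ExpDec (pd i f))
    (dg' : ExpDec (pd i g)) :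
    Integrable (fun x => ((pd i w x : ℝ) : ℂ) * (f x * conj (g x)) +
      ((w x : ℝ) : ℂ) * (pd i f x * conj (g x) + f x * conj (pd i g x))) ∧
    ∫ x, (((pd i w x : ℝ) : ℂ) * (f x * conj (g x)) +
      ((w x : ℝ) : ℂ) * (pd i f x * conj (g x) + f x * conj (pd i g x))) = 0 := by
  have hw0 : Differentiable ℝ w := hw.differentiable (by norm_num)
  have hf0 : Differentiable ℝ f := hf.differentiable (by norm_num)
  have hg0 : Differentiable ℝ g := hg.differentiable (by norm_num)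
  have hcg : ContDiff ℝ 1 (fun y => conj (g y)) := Complex.conjCLE.contDiff.comp hg
  have hcw : ContDiff ℝ 1 (fun y => ((w y : ℝ) : ℂ)) := Complex.ofRealCLM.contDiff.comp hw
  have hcg0 : Differentiable ℝ (fun y => conj (g y)) := hcg.differentiable (by norm_num)
  have hcw0 : Differentiable ℝ (fun y => ((w y : ℝ) : ℂ)) := hcw.differentiable (by norm_num)
  have hfg0 : Differentiable ℝ (fun y => f y * conj (g y)) := hf0.mul hcg0
  have key : pd i (fun y => ((w y : ℝ) : ℂ) * (f y * conj (g y))) =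
      fun x => ((pd i w x : ℝ) : ℂ) * (f x * conj (g x)) +
      ((w x : ℝ) : ℂ) * (pd i f x * conj (g x) + f x * conj (pd i g x)) := by
    funext x
    rw [pd_mul (hcw0 x) (hfg0 x) i, pd_ofReal (hw0 x), pd_mul (hf0 x) (hcg0 x),
      pd_conj (hg0 x)]
  have hC1 : ContDiff ℝ 1 (fun y => ((w y : ℝ) : ℂ) * (f y * conj (g y))) :=
    hcw.mul (hf.mul hcg)
  have hD0 : ExpDec (fun y => ((w y : ℝ) : ℂ) * (f y * conj (g y))) :=
    S3a_bmul hb (S3a_cmul df dg)
  have hD1 : ExpDec (pd i (fun y => ((w y : ℝ) : ℂ) * (f y * conj (g y)))) := by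
    rw [key]
    exact (S3a_bmul hb' (S3a_cmul df dg)).add
      (S3a_bmul hb ((S3a_cmul df' dg).add (S3a_cmul df dg')))
  have h1 := hD1.integrable (BasicD_c1 hC1 i)
  have h2 := integral_pd_eq_zero hC1 hD0 i hD1
  rw [key] at h1 h2
  exact ⟨h1, h2⟩

theorem S3a_alg (V : ℂ) (a : Fin N → ℂ) (h : Fin N → Fin N → ℂ) (hs : ∀ j k, h j k = h k j)
    (p r : Fin N → ℝ) (q : Fin N → Fin N → ℝ) :
    ((∑ j, h j j) * (((∑ k, q k k : ℝ) : ℂ) * conj V + 2 * ∑ k, ((p k : ℝ) : ℂ) * conj (a k))).re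
      + ((∑ j, ((r j : ℝ) : ℂ) * a j) * conj V).re
      + 2 * ∑ j, ∑ k, q j k * (a j * conj (a k)).re =
    (∑ j, (((r j : ℝ) : ℂ) * (a j * conj V) +
        ((∑ k, q k k : ℝ) : ℂ) * (h j j * conj V + a j * conj (a j)))
      + 2 * ∑ j, ∑ k, (((q j k : ℝ) : ℂ) * (a j * conj (a k)) +
        ((p k : ℝ) : ℂ) * (h j j * conj (a k) + a j * conj (h j k)))
      - ∑ k, ∑ j, (((q k k : ℝ) : ℂ) * (a j * conj (a j)) +
        ((p k : ℝ) : ℂ) * (h k j * conj (a j) + a j * conj (h k j)))).re := by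
  have e1 : ∑ j, (((r j : ℝ) : ℂ) * (a j * conj V) +
        ((∑ k, q k k : ℝ) : ℂ) * (h j j * conj V + a j * conj (a j))) =
      (∑ j, ((r j : ℝ) : ℂ) * a j) * conj V + ((∑ k, q k k : ℝ) : ℂ) * ((∑ j, h j j) * conj V)
        + ((∑ k, q k k : ℝ) : ℂ) * ∑ j, a j * conj (a j) := by
    have e0 : ∀ j, ((r j : ℝ) : ℂ) * (a j * conj V) +
        ((∑ k, q k k : ℝ) : ℂ) * (h j j * conj V + a j * conj (a j)) =
        ((r j : ℝ) : ℂ) * a j * conj V + ((∑ k, q k k : ℝ) : ℂ) * (h j j * conj V)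
        + ((∑ k, q k k : ℝ) : ℂ) * (a j * conj (a j)) := fun j => by ring
    simp only [e0]
    rw [Finset.sum_add_distrib, Finset.sum_add_distrib, ← Finset.sum_mul, ← Finset.mul_sum,
      ← Finset.mul_sum, ← Finset.sum_mul]
  have e2 : ∑ j, ∑ k, (((q j k : ℝ) : ℂ) * (a j * conj (a k)) +
        ((p k : ℝ) : ℂ) * (h j j * conj (a k) + a j * conj (h j k))) =
      ∑ j, ∑ k, ((q j k : ℝ) : ℂ) * (a j * conj (a k))
        + (∑ j, h j j) * ∑ k, ((p k : ℝ) : ℂ) * conj (a k)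
        + ∑ j, ∑ k, ((p k : ℝ) : ℂ) * (a j * conj (h j k)) := by
    rw [Finset.sum_mul_sum, ← Finset.sum_add_distrib, ← Finset.sum_add_distrib]
    refine Finset.sum_congr rfl fun j _ => ?_
    rw [← Finset.sum_add_distrib, ← Finset.sum_add_distrib]
    exact Finset.sum_congr rfl fun k _ => by ring
  have e3 : ∑ k, ∑ j, (((q k k : ℝ) : ℂ) * (a j * conj (a j)) +
        ((p k : ℝ) : ℂ) * (h k j * conj (a j) + a j * conj (h k j))) =
      ((∑ k, q k k : ℝ) : ℂ) * ∑ j, a j * conj (a j)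
        + ∑ j, ∑ k, ((p k : ℝ) : ℂ) * (h j k * conj (a j) + a j * conj (h j k)) := by
    rw [Complex.ofReal_sum, Finset.sum_mul_sum, Finset.sum_comm (s := Finset.univ)
      (f := fun j k => ((p k : ℝ) : ℂ) * (h j k * conj (a j) + a j * conj (h j k))),
      ← Finset.sum_add_distrib]
    refine Finset.sum_congr rfl fun k _ => ?_
    rw [← Finset.sum_add_distrib]
    exact Finset.sum_congr rfl fun j _ => by rw [hs k j]
  have e4 : (2 * ∑ j, ∑ k, ((p k : ℝ) : ℂ) * (a j * conj (h j k))).re =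
      (∑ j, ∑ k, ((p k : ℝ) : ℂ) * (h j k * conj (a j) + a j * conj (h j k))).re := by
    rw [Finset.mul_sum, Complex.re_sum, Complex.re_sum]
    refine Finset.sum_congr rfl fun j _ => ?_
    rw [Finset.mul_sum, Complex.re_sum, Complex.re_sum]
    refine Finset.sum_congr rfl fun k _ => ?_
    simp only [Complex.mul_re, Complex.add_re, Complex.mul_im, Complex.add_im, Complex.conj_re,
      Complex.conj_im, Complex.ofReal_re, Complex.ofReal_im, Complex.re_ofNat, Complex.im_ofNat]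
    ring
  have e5 : (∑ j, ∑ k, ((q j k : ℝ) : ℂ) * (a j * conj (a k))).re =
      ∑ j, ∑ k, q j k * (a j * conj (a k)).re := by
    rw [Complex.re_sum]
    refine Finset.sum_congr rfl fun j _ => ?_
    rw [Complex.re_sum]
    exact Finset.sum_congr rfl fun k _ => Complex.re_ofReal_mul _ _
  rw [e1, e2, e3, ← e5]
  have e6 := e4
  generalize (∑ j, ∑ k, ((p k : ℝ) : ℂ) * (a j * conj (h j k))) = X1 at *
  generalize (∑ j, ∑ k, ((p k : ℝ) : ℂ) * (h j k * conj (a j) + a j * conj (h j k))) = X2 at *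
  generalize (∑ j, ∑ k, ((q j k : ℝ) : ℂ) * (a j * conj (a k))) = X3 at *
  generalize (∑ j, a j * conj (a j)) = X4 at *
  generalize (∑ j, h j j) = X5 at *
  generalize (∑ k, ((p k : ℝ) : ℂ) * conj (a k)) = X6 at *
  generalize (∑ j, ((r j : ℝ) : ℂ) * a j) * conj V = X7 at *
  generalize ((∑ k, q k k : ℝ) : ℂ) = X8 at *
  have e7 : X7 + X8 * (X5 * conj V) + X8 * X4 + 2 * (X3 + X5 * X6 + X1) - (X8 * X4 + X2) =
      X5 * (X8 * conj V + 2 * X6) + X7 + 2 * X3 + (2 * X1 - X2) := by ring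
  rw [e7, Complex.add_re, Complex.add_re, Complex.add_re, Complex.sub_re, e6]
  have e8 : (2 * X3).re = 2 * X3.re := by simp
  rw [e8]
  ring

/-- **Linear part.**  `Re ∫ Δv (Δφ conj v + 2∇φ·∇conj v) = - Re ∫ ∇(Δφ)·∇v conj v
- 2 ∫ ∑_{jk} ∂_jkφ Re(∂_j v conj ∂_k v)`.

Proof.  Pointwise, with `v_j = ∂_j v`:
`Re(Δv Δφ conj v) = ∑_j ∂_j(Re(v_j conj v) Δφ) - |∇v|² Δφ - Re(∑_j v_j conj v (Δφ)_j)`,
`Re(2 Δv ∑_k φ_k conj v_k) = 2∑_j ∂_j(Re(v_j ∑_k φ_k conj v_k)) - 2∑_{jk} Re(v_j φ_jk conj v_k)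
- ∑_k ∂_k(φ_k |∇v|²) + Δφ|∇v|²`. -/
theorem virial_lin {R B0 B1 B2 B3 : ℝ} {φ : E N → ℝ} (hφ : Weight N R B0 B1 B2 B3 φ)
    {v : E N → ℂ} (hv : Dec v) :
    (∫ x, lap v x * zk φ v x).re =
      -(∫ x, (∑ j, ((pd j (lap φ) x : ℝ) : ℂ) * pd j v x) * conj (v x)).re
      - 2 * ∫ x, ∑ j, ∑ k, pd j (pd k φ) x * (pd j v x * conj (pd k v x)).re := by
  obtain ⟨C, hC⟩ := hφ.hb
  have hv1 : ContDiff ℝ 1 v := hv.smooth.of_le (by norm_num)
  have hF := fun j => S3a_div hφ.contDiff_lap hφ.b2 j (fun x => hφ.bdd_pd_lap j x)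
    (hv.contDiff_pd j) hv1 (hv.d1 j) hv.d0 (hv.d2 j j) (hv.d1 j)
  have hG := fun j k => S3a_div ((hφ.contDiff_pd k).of_le (by norm_num))
    (fun x => hφ.bdd_pd k x) j (fun x => hC j k x)
    (hv.contDiff_pd j) (hv.contDiff_pd k) (hv.d1 j) (hv.d1 k) (hv.d2 j j) (hv.d2 j k)
  have hH := fun k j => S3a_div ((hφ.contDiff_pd k).of_le (by norm_num))
    (fun x => hφ.bdd_pd k x) k (fun x => hC k k x)
    (hv.contDiff_pd j) (hv.contDiff_pd j) (hv.d1 j) (hv.d1 j) (hv.d2 k j) (hv.d2 k j)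
  -- the divergence
  have iF := integrable_finsetSum Finset.univ fun j _ => (hF j).1
  have iG := integrable_finsetSum Finset.univ fun j _ =>
    integrable_finsetSum Finset.univ fun k _ => (hG j k).1
  have iH := integrable_finsetSum Finset.univ fun k _ =>
    integrable_finsetSum Finset.univ fun j _ => (hH k j).1
  have zF : ∫ x, ∑ j, (((pd j (lap φ) x : ℝ) : ℂ) * (pd j v x * conj (v x)) +
      ((lap φ x : ℝ) : ℂ) * (pd j (pd j v) x * conj (v x) + pd j v x * conj (pd j v x))) = 0 := by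
    rw [integral_finsetSum _ fun j _ => (hF j).1]
    exact Finset.sum_eq_zero fun j _ => (hF j).2
  have zG : ∫ x, ∑ j, ∑ k, (((pd j (pd k φ) x : ℝ) : ℂ) * (pd j v x * conj (pd k v x)) +
      ((pd k φ x : ℝ) : ℂ) * (pd j (pd j v) x * conj (pd k v x) +
        pd j v x * conj (pd j (pd k v) x))) = 0 := by
    rw [integral_finsetSum _ fun j _ => integrable_finsetSum Finset.univ fun k _ => (hG j k).1]
    refine Finset.sum_eq_zero fun j _ => ?_
    rw [integral_finsetSum _ fun k _ => (hG j k).1]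
    exact Finset.sum_eq_zero fun k _ => (hG j k).2
  have zH : ∫ x, ∑ k, ∑ j, (((pd k (pd k φ) x : ℝ) : ℂ) * (pd j v x * conj (pd j v x)) +
      ((pd k φ x : ℝ) : ℂ) * (pd k (pd j v) x * conj (pd j v x) +
        pd j v x * conj (pd k (pd j v) x))) = 0 := by
    rw [integral_finsetSum _ fun k _ => integrable_finsetSum Finset.univ fun j _ => (hH k j).1]
    refine Finset.sum_eq_zero fun k _ => ?_
    rw [integral_finsetSum _ fun j _ => (hH k j).1]
    exact Finset.sum_eq_zero fun j _ => (hH k j).2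
  -- the three terms
  have d3 : ∀ j k, ExpDec (fun x => ((pd j (pd k φ) x : ℝ) : ℂ) * (pd j v x * conj (pd k v x))) :=
    fun j k => S3a_bmul (fun x => hC j k x) (S3a_cmul (hv.d1 j) (hv.d1 k))
  have c3 : ∀ j k, Continuous
      (fun x => ((pd j (pd k φ) x : ℝ) : ℂ) * (pd j v x * conj (pd k v x))) := fun j k =>
    (Complex.continuous_ofReal.comp (hφ.contDiff_pd2 j k).continuous).mul
      ((hv.contDiff_pd j).continuous.mul
        (Complex.continuous_conj.comp (hv.contDiff_pd k).continuous))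
  have hzk : ExpDec (zk φ v) := by
    unfold zk
    refine (S3a_bmul hφ.b2 (hv.d0.mono (g := fun x => conj (v x)) 1 fun x => ?_)).add ?_
    · rw [RCLike.norm_conj, one_mul]
    · refine ExpDec.bmul ⟨2, fun x => by simp⟩ (ExpDec.sum _ fun i _ =>
        S3a_bmul (fun x => hφ.bdd_pd i x)
          ((hv.d1 i).mono (g := fun x => conj (pd i v x)) 1 fun x => ?_))
      rw [RCLike.norm_conj, one_mul]
  have czk : Continuous (zk φ v) := by
    unfold zk
    refine ((Complex.continuous_ofReal.comp hφ.contDiff_lap.continuous).mul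
      (Complex.continuous_conj.comp hv.smooth.continuous)).add (continuous_const.mul
      (continuous_finsetSum _ fun i _ =>
        (Complex.continuous_ofReal.comp (hφ.contDiff_pd i).continuous).mul
          (Complex.continuous_conj.comp (hv.contDiff_pd i).continuous)))
  have i1 : Integrable (fun x => lap v x * zk φ v x) :=
    (ExpDec.bmul hv.expDec_lap.bdd hzk).integrable (hv.continuous_lap.mul czk)
  have i2 : Integrable (fun x => (∑ j, ((pd j (lap φ) x : ℝ) : ℂ) * pd j v x) * conj (v x)) := by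
    refine (S3a_cmul (ExpDec.sum _ fun j _ => S3a_bmul (fun x => hφ.bdd_pd_lap j x) (hv.d1 j))
      hv.d0).integrable ?_
    exact (continuous_finsetSum _ fun i _ =>
        (Complex.continuous_ofReal.comp (hφ.continuous_pd_lap i)).mul
          (hv.contDiff_pd i).continuous).mul (Complex.continuous_conj.comp hv.smooth.continuous)
  have i3 : Integrable (fun x =>
      ∑ j, ∑ k, pd j (pd k φ) x * (pd j v x * conj (pd k v x)).re) := by
    refine integrable_finsetSum _ fun j _ => integrable_finsetSum _ fun k _ => ?_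
    have h := ((d3 j k).integrable (c3 j k)).re
    refine h.congr (Filter.Eventually.of_forall fun x => ?_)
    exact Complex.re_ofReal_mul _ _
  have hpt := fun x => S3a_alg (v x) (fun j => pd j v x) (fun j k => pd j (pd k v) x)
    (fun j k => pd_comm hv.smooth j k x) (fun k => pd k φ x) (fun j => pd j (lap φ) x)
    (fun j k => pd j (pd k φ) x)
  have iD := (iF.add (iG.const_mul 2)).sub iH
  have zD := integral_sub (iF.add (iG.const_mul 2)) iH
  have zE := integral_add iF (iG.const_mul 2)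
  rw [integral_const_mul, zF, zG] at zE
  have hint : ∫ x, ((lap v x * zk φ v x).re
      + ((∑ j, ((pd j (lap φ) x : ℝ) : ℂ) * pd j v x) * conj (v x)).re
      + 2 * ∑ j, ∑ k, pd j (pd k φ) x * (pd j v x * conj (pd k v x)).re) = 0 := by
    refine Eq.trans (integral_congr_ae (Filter.Eventually.of_forall hpt)) ?_
    refine Eq.trans (integral_re iD) ?_
    refine Eq.trans (congrArg RCLike.re zD) ?_
    rw [zH]
    refine Eq.trans (congrArg (fun z : ℂ => RCLike.re (z - 0)) zE) ?_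
    simp
  have i1' : Integrable (fun x => (lap v x * zk φ v x).re) := i1.re
  have i2' : Integrable (fun x =>
      ((∑ j, ((pd j (lap φ) x : ℝ) : ℂ) * pd j v x) * conj (v x)).re) := i2.re
  have h1 : ∫ x, (lap v x * zk φ v x).re = (∫ x, lap v x * zk φ v x).re := integral_re i1
  have h2 : ∫ x, ((∑ j, ((pd j (lap φ) x : ℝ) : ℂ) * pd j v x) * conj (v x)).re =
      (∫ x, (∑ j, ((pd j (lap φ) x : ℝ) : ℂ) * pd j v x) * conj (v x)).re := integral_re i2
  have i12 : Integrable (fun x => (lap v x * zk φ v x).re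
      + ((∑ j, ((pd j (lap φ) x : ℝ) : ℂ) * pd j v x) * conj (v x)).re) := i1'.add i2'
  rw [integral_add i12 (i3.const_mul 2), integral_add i1' i2',
    integral_const_mul, h1, h2] at hint
  linarith

end CGL
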