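import Pool.Agent.W_317df6_h83.Basic

/-!
# Radial functions: the Strauss inequality (task S5a)
-/

set_option autoImplicit false

namespace CGL

open MeasureTheory Set
open scoped ComplexConjugate

variable {N : ℕ}

theorem fderiv_eq_sum_pd (v : E N → ℂ) (x u : E N) :
    fderiv ℝ v x u = ∑ i, ((u i : ℝ) : ℂ) * pd i v x := by
  have h1 : u = ∑ i, (u i) • EuclideanSpace.single i (1:ℝ) := by
    ext j
    simp [Finset.sum_apply, Pi.single_apply]
  conv_lhs => rw [h1]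
  rw [map_sum]
  refine Finset.sum_congr rfl fun i _ => ?_
  rw [map_smul]
  unfold pd
  simp

/-- pointwise bound of the radial derivative -/
theorem strauss_point {v : E N → ℂ} (hv : Dec v)
    (hr : ∀ x y : E N, ‖x‖ = ‖y‖ → v x = v y) (i0 : Fin N) (x : E N) :
    ‖v (‖x‖ • EuclideanSpace.single i0 (1:ℝ))‖ * ‖pd i0 v (‖x‖ • EuclideanSpace.single i0 (1:ℝ))‖
      ≤ ‖v x‖ * √(gsq v x) := by
  have hd : Differentiable ℝ v := hv.differentiable
  have h1 : v (‖x‖ • EuclideanSpace.single i0 (1:ℝ)) = v x := by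
    apply hr
    rw [norm_smul]; simp
  rw [h1]
  refine mul_le_mul_of_nonneg_left ?_ (norm_nonneg _)
  by_cases hx : x = 0
  · subst hx
    simp only [norm_zero, zero_smul]
    refine Real.le_sqrt_of_sq_le ?_
    exact Finset.single_le_sum (f := fun i => ‖pd i v 0‖ ^ 2) (fun i _ => sq_nonneg _)
      (Finset.mem_univ i0)
  · have hn : 0 < ‖x‖ := norm_pos_iff.2 hx
    set u : E N := ‖x‖⁻¹ • x with hu
    have hun : ‖u‖ = 1 := by
      rw [hu, norm_smul, norm_inv, norm_norm, inv_mul_cancel₀ hn.ne']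
    have hxu : ‖x‖ • u = x := by
      rw [hu, smul_smul, mul_inv_cancel₀ hn.ne', one_smul]
    have d1 : HasDerivAt (fun ρ : ℝ => v (ρ • u)) (fderiv ℝ v x u) ‖x‖ := by
      have e1 : HasDerivAt (fun ρ : ℝ => ρ • u) u ‖x‖ := by
        simpa using (hasDerivAt_id (‖x‖)).smul_const u
      have e2 : HasFDerivAt v (fderiv ℝ v x) (‖x‖ • u) := by
        rw [hxu]; exact (hd x).hasFDerivAt
      exact e2.comp_hasDerivAt _ e1
    have d2 : HasDerivAt (fun ρ : ℝ => v (ρ • EuclideanSpace.single i0 (1:ℝ)))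
        (pd i0 v (‖x‖ • EuclideanSpace.single i0 (1:ℝ))) ‖x‖ := by
      have e1 : HasDerivAt (fun ρ : ℝ => ρ • (EuclideanSpace.single i0 (1:ℝ) : E N))
          (EuclideanSpace.single i0 (1:ℝ)) ‖x‖ := by
        simpa using (hasDerivAt_id (‖x‖)).smul_const (EuclideanSpace.single i0 (1:ℝ) : E N)
      exact (hd _).hasFDerivAt.comp_hasDerivAt _ e1
    have hev : (fun ρ : ℝ => v (ρ • EuclideanSpace.single i0 (1:ℝ))) =ᶠ[nhds ‖x‖]
        (fun ρ : ℝ => v (ρ • u)) := by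
      filter_upwards with ρ
      apply hr
      rw [norm_smul, norm_smul, hun]; simp
    have d3 : fderiv ℝ v x u = pd i0 v (‖x‖ • EuclideanSpace.single i0 (1:ℝ)) :=
      (d1.congr_of_eventuallyEq hev).unique d2
    rw [← d3, fderiv_eq_sum_pd]
    refine Real.le_sqrt_of_sq_le ?_
    refine (sum_cs (fun i => u i) (fun i => pd i v x)).trans ?_
    have h2 : ∑ i, (u i) ^ 2 = 1 := by
      have := EuclideanSpace.norm_sq_eq u
      rw [hun] at this
      simpa using this.symm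
    rw [h2, one_mul]
    exact le_rfl

theorem cs_gsq {v : E N → ℂ} (hv : Dec v) :
    ∫ x, ‖v x‖ * √(gsq v x) ≤ √(Mf v * Gf v) := by
  have hg0 : ∀ x, 0 ≤ gsq v x := fun x => Finset.sum_nonneg fun i _ => sq_nonneg _
  have hM0 : 0 ≤ Mf v := integral_nonneg fun x => sq_nonneg _
  have m1 : MemLp (fun x => ‖v x‖) (ENNReal.ofReal 2) := by
    rw [show ENNReal.ofReal 2 = 2 by simp]
    rw [memLp_two_iff_integrable_sq hv.smooth.continuous.norm.aestronglyMeasurable]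
    exact (hv.expDec_normsq).integrable (hv.smooth.continuous.norm.pow 2)
  have m2 : MemLp (fun x => √(gsq v x)) (ENNReal.ofReal 2) := by
    rw [show ENNReal.ofReal 2 = 2 by simp]
    rw [memLp_two_iff_integrable_sq (hv.continuous_gsq.sqrt).aestronglyMeasurable]
    have : (fun x => √(gsq v x) ^ 2) = gsq v := funext fun x => Real.sq_sqrt (hg0 x)
    rw [this]
    exact hv.expDec_gsq.integrable hv.continuous_gsq
  have h := integral_mul_le_Lp_mul_Lq_of_nonneg (μ := volume) (p := 2) (q := 2)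
    (by rw [Real.holderConjugate_iff]; norm_num)
    (f := fun x => ‖v x‖) (g := fun x => √(gsq v x))
    (Filter.Eventually.of_forall fun x => norm_nonneg _)
    (Filter.Eventually.of_forall fun x => Real.sqrt_nonneg _) m1 m2
  refine h.trans (le_of_eq ?_)
  rw [Real.sqrt_mul hM0, Real.sqrt_eq_rpow, Real.sqrt_eq_rpow]
  congr 2
  · unfold Mf
    refine integral_congr_ae (Filter.Eventually.of_forall fun x => ?_)
    simp
  · unfold Gf
    refine integral_congr_ae (Filter.Eventually.of_forall fun x => ?_)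
    simp [Real.sq_sqrt (hg0 x)]

/-- **Strauss.**  Let `e1` be a unit vector, `h(ρ) = v(ρ e1)`, `h'(ρ) = fderiv ℝ v (ρ e1) e1`.

Proof.  (1) `|h(r)|² = -∫_r^∞ (d/dρ)|h|² dρ ≤ 2∫_r^∞ |h||h'| dρ`
(`integral_Ioi_of_hasDerivAt_of_tendsto`, `h → 0` at infinity, everything decays exponentially) and,
for `r ≥ R`, `≤ 2 R^{-(N-1)} ∫_{Ioi 0} ρ^{N-1}|h(ρ)||h'(ρ)| dρ`.
(2) `MeasureTheory.integral_fun_norm_addHaar` for the function `f(ρ) = |h(ρ)||h'(ρ)|`:
`∫_{Ioi 0} ρ^{N-1} f(ρ) dρ = (1/(N vol(B_1))) ∫ f(‖x‖) dx`.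
(3) For `x ≠ 0`: `|h(‖x‖)| = |v x|` (radial) and `|h'(‖x‖)| ≤ √(gsq v x)`: the functions
`ρ ↦ v(ρ x/‖x‖)` and `h` agree for `ρ > 0`, so `h'(‖x‖) = fderiv ℝ v x (x/‖x‖)
= ∑ (x_i/‖x‖) pd i v x` (Cauchy-Schwarz, `sum_cs`).
(4) `∫ |v| √(gsq v) ≤ √(Mf v) √(Gf v)` (Cauchy-Schwarz; Hölder `integral_mul_le_Lp_mul_Lq_of_nonneg`
or the quadratic trick).  `C = 2/(N vol(B_1))`. -/
theorem strauss (hN : 2 ≤ N) : ∃ C : ℝ, 0 < C ∧ ∀ v : E N → ℂ, Dec v →
    (∀ x y : E N, ‖x‖ = ‖y‖ → v x = v y) → ∀ R : ℝ, 0 < R → ∀ x : E N, R ≤ ‖x‖ →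
    ‖v x‖ ^ 2 ≤ C / R ^ (N - 1) * √(Mf v * Gf v) := by
  have : NeZero N := ⟨by omega⟩
  have : Nontrivial (E N) := by
    have : Nontrivial (Fin N → ℝ) := inferInstance
    exact (EuclideanSpace.equiv (Fin N) ℝ).symm.injective.nontrivial
  set i0 : Fin N := ⟨0, by omega⟩ with hi0
  set e1 : E N := EuclideanSpace.single i0 (1:ℝ) with he1
  have he1n : ‖e1‖ = 1 := by simp [he1]
  set V : ℝ := (volume : Measure (E N)).real (Metric.ball 0 1) with hV
  have hVpos : 0 < V := by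
    have h1 : 0 < (volume : Measure (E N)) (Metric.ball 0 1) :=
      Metric.measure_ball_pos _ _ one_pos
    have h2 : (volume : Measure (E N)) (Metric.ball 0 1) ≠ ⊤ := measure_ball_lt_top.ne
    exact ENNReal.toReal_pos h1.ne' h2
  have hNpos : (0:ℝ) < N := by
    have : 0 < N := by omega
    exact_mod_cast this
  refine ⟨2 / (N * V), by positivity, ?_⟩
  intro v hv hr R hR x hx
  have hd : Differentiable ℝ v := hv.differentiable
  set f : ℝ → ℝ := fun ρ => ‖v (ρ • e1)‖ * ‖pd i0 v (ρ • e1)‖ with hf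
  have hfc : Continuous f := by
    have h1 : Continuous fun ρ : ℝ => ρ • e1 := continuous_id.smul continuous_const
    exact ((hv.smooth.continuous.comp h1).norm).mul (((hv.contDiff_pd i0).continuous.comp h1).norm)
  have hf0 : ∀ ρ, 0 ≤ f ρ := fun ρ => mul_nonneg (norm_nonneg _) (norm_nonneg _)
  -- integrability
  obtain ⟨C0, hC0⟩ := hv.d0
  obtain ⟨C1, hC1⟩ := (hv.d1 i0).bdd
  have hfx : ∀ y : E N, f ‖y‖ ≤ C0 * C1 * Real.exp (-‖y‖) := by
    intro y
    have a1 := hC0 (‖y‖ • e1)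
    have a2 := hC1 (‖y‖ • e1)
    have a3 : ‖(‖y‖ • e1 : E N)‖ = ‖y‖ := by rw [norm_smul, he1n]; simp
    rw [a3] at a1
    have a4 : 0 ≤ C1 := (norm_nonneg _).trans a2
    calc f ‖y‖ ≤ (C0 * Real.exp (-‖y‖)) * C1 :=
          mul_le_mul a1 a2 (norm_nonneg _) ((norm_nonneg _).trans a1)
      _ = _ := by ring
  have hfi : Integrable (fun y : E N => f ‖y‖) := by
    refine Integrable.mono' ((integrable_exp N).const_mul (C0 * C1))
      (hfc.comp continuous_norm).aestronglyMeasurable ?_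
    filter_upwards with y
    rw [Real.norm_eq_abs, abs_of_nonneg (hf0 _)]
    exact hfx y
  have hdim : Module.finrank ℝ (E N) = N := by simp
  have hfi2 : IntegrableOn (fun y : ℝ => y ^ (N - 1) • f y) (Ioi 0) := by
    have := (integrable_fun_norm_addHaar (volume : Measure (E N)) (f := f)).1 hfi
    rwa [hdim] at this
  have hpol : ∫ y : E N, f ‖y‖ = N * V * ∫ y in Ioi (0:ℝ), y ^ (N - 1) * f y := by
    have := integral_fun_norm_addHaar (volume : Measure (E N)) f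
    rw [hdim] at this
    rw [this]
    simp only [nsmul_eq_mul, smul_eq_mul]
    rw [← hV]; ring
  -- the one dimensional estimate
  have hhd : ∀ ρ : ℝ, HasDerivAt (fun ρ : ℝ => v (ρ • e1)) (pd i0 v (ρ • e1)) ρ := by
    intro ρ
    have e1' : HasDerivAt (fun ρ : ℝ => ρ • e1) e1 ρ := by
      simpa using (hasDerivAt_id ρ).smul_const e1
    exact (hd _).hasFDerivAt.comp_hasDerivAt _ e1'
  set g' : ℝ → ℝ := fun ρ => 2 * inner ℝ (v (ρ • e1)) (pd i0 v (ρ • e1)) with hg'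
  have hgd : ∀ ρ : ℝ, HasDerivAt (fun ρ : ℝ => ‖v (ρ • e1)‖ ^ 2) (g' ρ) ρ := fun ρ =>
    (hhd ρ).norm_sq
  have hg'c : Continuous g' := by
    have h1 : Continuous fun ρ : ℝ => ρ • e1 := continuous_id.smul continuous_const
    exact continuous_const.mul ((hv.smooth.continuous.comp h1).inner
      ((hv.contDiff_pd i0).continuous.comp h1))
  have hg'f : ∀ ρ, |g' ρ| ≤ 2 * f ρ := by
    intro ρ
    rw [hg', abs_mul]
    simp only [Nat.abs_ofNat]
    exact mul_le_mul_of_nonneg_left (abs_real_inner_le_norm _ _) (by norm_num)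
  have hRN : 0 < R ^ (N - 1) := pow_pos hR _
  have hkey : ∀ ρ ∈ Ioi ‖x‖, ‖g' ρ‖ ≤ 2 / R ^ (N - 1) * (ρ ^ (N - 1) * f ρ) := by
    intro ρ hρ
    have h1 : R ≤ ρ := hx.trans (le_of_lt hρ)
    have h2 : R ^ (N - 1) ≤ ρ ^ (N - 1) := pow_le_pow_left₀ hR.le h1 _
    rw [Real.norm_eq_abs]
    refine (hg'f ρ).trans ?_
    have h3 : 1 ≤ ρ ^ (N - 1) / R ^ (N - 1) := by rwa [le_div_iff₀ hRN, one_mul]
    calc 2 * f ρ ≤ (2 * f ρ) * (ρ ^ (N - 1) / R ^ (N - 1)) :=
          le_mul_of_one_le_right (by have := hf0 ρ; linarith) h3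
      _ = _ := by ring
  have hxpos : 0 ≤ ‖x‖ := norm_nonneg x
  have hsub : Ioi ‖x‖ ⊆ Ioi (0:ℝ) := Ioi_subset_Ioi hxpos
  have hbi0 : IntegrableOn (fun ρ : ℝ => ρ ^ (N - 1) * f ρ) (Ioi 0) := by
    simpa only [smul_eq_mul] using hfi2
  have hbi : IntegrableOn (fun ρ : ℝ => 2 / R ^ (N - 1) * (ρ ^ (N - 1) * f ρ)) (Ioi ‖x‖) :=
    (hbi0.mono_set hsub).const_mul _
  have hg'i : IntegrableOn g' (Ioi ‖x‖) := by
    refine Integrable.mono' hbi hg'c.aestronglyMeasurable ?_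
    rw [ae_restrict_iff' measurableSet_Ioi]
    filter_upwards with ρ hρ using hkey ρ hρ
  have hlim : Filter.Tendsto (fun ρ : ℝ => ‖v (ρ • e1)‖ ^ 2) Filter.atTop (nhds 0) := by
    have a1 : Filter.Tendsto (fun ρ : ℝ => (C0 * Real.exp (-ρ)) ^ 2) Filter.atTop (nhds 0) := by
      have := (Real.tendsto_exp_neg_atTop_nhds_zero.const_mul C0).pow 2
      simpa using this
    refine squeeze_zero' (Filter.Eventually.of_forall fun ρ => sq_nonneg _) ?_ a1
    filter_upwards [Filter.eventually_ge_atTop (0:ℝ)] with ρ hρ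
    have a2 := hC0 (ρ • e1)
    rw [norm_smul, he1n, Real.norm_eq_abs, abs_of_nonneg hρ, mul_one] at a2
    exact pow_le_pow_left₀ (norm_nonneg _) a2 2
  have hint := integral_Ioi_of_hasDerivAt_of_tendsto' (fun ρ _ => hgd ρ) hg'i hlim
  have hvx : v x = v (‖x‖ • e1) := by
    apply hr
    rw [norm_smul, he1n]; simp
  have hstep : ‖v x‖ ^ 2 ≤ 2 / R ^ (N - 1) * ∫ ρ in Ioi (0:ℝ), ρ ^ (N - 1) * f ρ := by
    have b1 : ‖v x‖ ^ 2 = -∫ ρ in Ioi ‖x‖, g' ρ := by
      rw [hint, hvx]; simp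
    have b2 : -∫ ρ in Ioi ‖x‖, g' ρ ≤
        ∫ ρ in Ioi ‖x‖, 2 / R ^ (N - 1) * (ρ ^ (N - 1) * f ρ) := by
      have c1 : ‖∫ ρ in Ioi ‖x‖, g' ρ‖ ≤
          ∫ ρ in Ioi ‖x‖, 2 / R ^ (N - 1) * (ρ ^ (N - 1) * f ρ) := by
        refine norm_integral_le_of_norm_le hbi ?_
        rw [ae_restrict_iff' measurableSet_Ioi]
        filter_upwards with ρ hρ using hkey ρ hρ
      rw [Real.norm_eq_abs] at c1
      exact (neg_le_abs _).trans c1
    have b3 : ∫ ρ in Ioi ‖x‖, 2 / R ^ (N - 1) * (ρ ^ (N - 1) * f ρ) ≤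
        ∫ ρ in Ioi (0:ℝ), 2 / R ^ (N - 1) * (ρ ^ (N - 1) * f ρ) := by
      refine setIntegral_mono_set (hbi0.const_mul _) ?_
        (Filter.Eventually.of_forall fun ρ hρ => hsub hρ)
      rw [Filter.EventuallyLE, ae_restrict_iff' measurableSet_Ioi]
      filter_upwards with ρ hρ
      have := hf0 ρ
      have h3 : 0 < ρ := hρ
      simp only [Pi.zero_apply]
      positivity
    rw [b1]
    refine b2.trans (b3.trans (le_of_eq ?_))
    rw [integral_const_mul]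
  have hfin : ∫ y : E N, f ‖y‖ ≤ √(Mf v * Gf v) := by
    refine le_trans ?_ (cs_gsq hv)
    refine integral_mono hfi ?_ fun y => strauss_point hv hr i0 y
    have hsq : Continuous fun x => √(gsq v x) := hv.continuous_gsq.sqrt
    obtain ⟨C2, hC2⟩ := hv.expDec_gsq.bdd
    refine Integrable.mono' ((integrable_exp N).const_mul (C0 * √C2))
      ((hv.smooth.continuous.norm.mul hsq).aestronglyMeasurable) ?_
    filter_upwards with y
    rw [Real.norm_eq_abs, abs_of_nonneg (mul_nonneg (norm_nonneg _) (Real.sqrt_nonneg _))]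
    have a1 : √(gsq v y) ≤ √C2 := Real.sqrt_le_sqrt ((le_abs_self _).trans (hC2 y))
    calc ‖v y‖ * √(gsq v y) ≤ (C0 * Real.exp (-‖y‖)) * √C2 :=
          mul_le_mul (hC0 y) a1 (Real.sqrt_nonneg _) ((norm_nonneg _).trans (hC0 y))
      _ = _ := by ring
  rw [hpol] at hfin
  have hI : ∫ y in Ioi (0:ℝ), y ^ (N - 1) * f y ≤ √(Mf v * Gf v) / (N * V) := by
    rw [le_div_iff₀ (by positivity)]
    linarith
  calc ‖v x‖ ^ 2 ≤ 2 / R ^ (N - 1) * ∫ ρ in Ioi (0:ℝ), ρ ^ (N - 1) * f ρ := hstep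
    _ ≤ 2 / R ^ (N - 1) * (√(Mf v * Gf v) / (N * V)) :=
        mul_le_mul_of_nonneg_left hI (by positivity)
    _ = 2 / (N * V) / R ^ (N - 1) * √(Mf v * Gf v) := by field_simp

end CGL
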