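import Pool.Agent.W_317df6_h83.T0

/-!
# Time derivatives of the two parts of the energy (task T1b)
-/

set_option autoImplicit false

namespace CGL

open MeasureTheory Set
open scoped ComplexConjugate

variable {N : ℕ} {T : ℝ} {v a : ℝ → E N → ℂ}

theorem T1b_normsq {g : ℝ → ℂ} {g' : ℂ} {t : ℝ} (hg : HasDerivAt g g' t) :
    HasDerivAt (fun τ => ‖g τ‖ ^ 2) (2 * (g' * conj (g t)).re) t := by
  have h1 := hg.norm_sq
  rw [Complex.inner] at h1
  exact h1

theorem T1b_rpow {α : ℝ} (hα : 0 < α) {g : ℝ → ℂ} {g' : ℂ} {t : ℝ} (hg : HasDerivAt g g' t) :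
    HasDerivAt (fun τ => ‖g τ‖ ^ (α + 2)) ((α + 2) * (g' * conj (nl α (g t))).re) t := by
  have h1 := (hasFDerivAt_norm_rpow (g t) (show 1 < α + 2 by linarith)).comp_hasDerivAt t hg
  refine h1.congr_deriv ?_
  have h2 : α + 2 - 2 = α := by ring
  rw [h2]
  simp only [ContinuousLinearMap.smul_apply, innerSL_apply_apply, smul_eq_mul]
  rw [Complex.inner]
  unfold nl
  rw [map_mul, Complex.conj_ofReal]
  have h3 : g' * (((‖g t‖ ^ α : ℝ) : ℂ) * conj (g t)) =
      ((‖g t‖ ^ α : ℝ) : ℂ) * (g' * conj (g t)) := by ring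
  rw [h3, Complex.re_ofReal_mul]
  ring

theorem T1b_C {C e : ℝ} {z : ℂ} (he : 0 < e) (hz : ‖z‖ ≤ C * e) : 0 ≤ C := by
  by_contra hC
  have h1 : C * e < 0 := mul_neg_of_neg_of_pos (not_le.1 hC) he
  linarith [norm_nonneg z]

theorem T1b_sq {C e : ℝ} {z : ℂ} (he : 0 < e) (he1 : e ≤ 1) (hz : ‖z‖ ≤ C * e) :
    ‖z‖ ^ 2 ≤ C ^ 2 * e := by
  have hC := T1b_C he hz
  calc ‖z‖ ^ 2 ≤ (C * e) ^ 2 := pow_le_pow_left₀ (norm_nonneg _) hz 2
    _ = C ^ 2 * (e * e) := by ring
    _ ≤ C ^ 2 * (1 * e) := by gcongr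
    _ = C ^ 2 * e := by ring

theorem T1b_mul {C e : ℝ} {z w : ℂ} (he : 0 < e) (he1 : e ≤ 1) (hz : ‖z‖ ≤ C * e)
    (hw : ‖w‖ ≤ C * e) : |(w * conj z).re| ≤ C ^ 2 * e := by
  have hC := T1b_C he hz
  calc |(w * conj z).re| ≤ ‖w * conj z‖ := Complex.abs_re_le_norm _
    _ = ‖w‖ * ‖z‖ := by rw [norm_mul, RCLike.norm_conj]
    _ ≤ (C * e) * (C * e) := mul_le_mul hw hz (norm_nonneg _) (by positivity)
    _ = C ^ 2 * (e * e) := by ring
    _ ≤ C ^ 2 * (1 * e) := by gcongr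
    _ = C ^ 2 * e := by ring

theorem T1b_powle {C e p : ℝ} (hC : 0 ≤ C) (he : 0 < e) (he1 : e ≤ 1) (hp : 1 ≤ p) {z : ℂ}
    (hz : ‖z‖ ≤ C * e) : ‖z‖ ^ p ≤ C ^ p * e := by
  calc ‖z‖ ^ p ≤ (C * e) ^ p := Real.rpow_le_rpow (norm_nonneg _) hz (by linarith)
    _ = C ^ p * e ^ p := Real.mul_rpow hC he.le
    _ ≤ C ^ p * e := by
        refine mul_le_mul_of_nonneg_left ?_ (Real.rpow_nonneg hC _)
        calc e ^ p ≤ e ^ (1 : ℝ) := Real.rpow_le_rpow_of_exponent_ge he he1 hp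
          _ = e := Real.rpow_one e

theorem T1b_nl {C e α : ℝ} (hα : 0 < α) (he : 0 < e) (he1 : e ≤ 1) {z w : ℂ} (hz : ‖z‖ ≤ C * e)
    (hw : ‖w‖ ≤ C * e) : |(w * conj (nl α z)).re| ≤ C * C ^ (α + 1) * e := by
  have hC := T1b_C he hz
  have h1 : ‖nl α z‖ ≤ C ^ (α + 1) * e := by
    rw [norm_nl hα]
    exact T1b_powle hC he he1 (by linarith) hz
  have h2 : ‖w‖ ≤ C := hw.trans (by nlinarith)
  calc |(w * conj (nl α z)).re| ≤ ‖w * conj (nl α z)‖ := Complex.abs_re_le_norm _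
    _ = ‖w‖ * ‖nl α z‖ := by rw [norm_mul, RCLike.norm_conj]
    _ ≤ C * (C ^ (α + 1) * e) := mul_le_mul h2 h1 (norm_nonneg _) hC
    _ = C * C ^ (α + 1) * e := by ring

theorem T1b_conj_dec {f : E N → ℂ} (hf : ExpDec f) : ExpDec (fun x => conj (f x)) := by
  refine hf.mono 1 fun x => ?_
  rw [RCLike.norm_conj, one_mul]

theorem T1b_conj_cont {f : E N → ℂ} (hf : Continuous f) : Continuous (fun x => conj (f x)) :=
  Complex.continuous_conj.comp hf

theorem T1b_conj_contDiff {f : E N → ℂ} (hf : ContDiff ℝ 1 f) :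
    ContDiff ℝ 1 (fun x => conj (f x)) :=
  Complex.conjCLE.toContinuousLinearMap.contDiff.comp hf

theorem T1b_pd_cont {f : E N → ℂ} (hf : ContDiff ℝ 1 f) (i : Fin N) : Continuous (pd i f) := by
  have h2 : ContDiff ℝ ((0 : ℕ) + 1) f := by simpa using hf
  exact (pd_contDiff (n := 0) h2 i).continuous

/-- integration by parts -/
theorem T1b_ibp {w b : E N → ℂ} (hw : Dec w) (hb : ContDiff ℝ 1 b) (hb0 : ExpDec b)
    (hb1 : ∀ i, ExpDec (pd i b)) (i : Fin N) :
    ∫ x, pd i b x * conj (pd i w x) = -∫ x, b x * conj (pd i (pd i w) x) := by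
  have hwi : ContDiff ℝ 1 (pd i w) := hw.contDiff_pd i
  have hwc : ContDiff ℝ 1 (fun x => conj (pd i w x)) := T1b_conj_contDiff hwi
  have key : ∀ x, pd i (fun y => b y * conj (pd i w y)) x =
      pd i b x * conj (pd i w x) + b x * conj (pd i (pd i w) x) := by
    intro x
    have d2 : DifferentiableAt ℝ b x := hb.differentiable one_ne_zero x
    have d3 : DifferentiableAt ℝ (fun y => conj (pd i w y)) x :=
      hwc.differentiable one_ne_zero x
    have d4 : DifferentiableAt ℝ (pd i w) x := hwi.differentiable one_ne_zero x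
    rw [pd_mul d2 d3, pd_conj d4]
  have f1 : ExpDec (fun x => pd i b x * conj (pd i w x)) :=
    ExpDec.bmul (hb1 i).bdd (T1b_conj_dec (hw.d1 i))
  have f2 : ExpDec (fun x => b x * conj (pd i (pd i w) x)) :=
    ExpDec.bmul hb0.bdd (T1b_conj_dec (hw.d2 i i))
  have i1 : Integrable (fun x => pd i b x * conj (pd i w x)) :=
    f1.integrable ((T1b_pd_cont hb i).mul (T1b_conj_cont hwi.continuous))
  have i2 : Integrable (fun x => b x * conj (pd i (pd i w) x)) :=
    f2.integrable (hb.continuous.mul (T1b_conj_cont (hw.continuous_pd2 i i)))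
  have dF : ExpDec (fun x => b x * conj (pd i w x)) :=
    ExpDec.bmul hb0.bdd (T1b_conj_dec (hw.d1 i))
  have hfun : pd i (fun y => b y * conj (pd i w y)) = fun x =>
      pd i b x * conj (pd i w x) + b x * conj (pd i (pd i w) x) := funext key
  have dF' : ExpDec (pd i (fun y => b y * conj (pd i w y))) := by
    rw [hfun]
    exact f1.add f2
  have z := integral_pd_eq_zero (hb.mul hwc) dF i dF'
  have z2 : ∫ x, (pd i b x * conj (pd i w x) + b x * conj (pd i (pd i w) x)) = 0 := by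
    rw [← z]
    congr 1
    funext x
    exact (key x).symm
  rw [integral_add i1 i2] at z2
  exact eq_neg_of_add_eq_zero_left z2

/-- `2 Re ∫ ∑ ∂_i a conj ∂_i v = -2 Re ∫ a conj(Δv)` -/
theorem Fam.dG (h : Fam N T v a) {t : ℝ} (ht : t ∈ Ioo 0 T) :
    HasDerivAt (fun τ => Gf (v τ)) (-2 * (∫ x, a t x * conj (lap (v t) x)).re) t := by
  have htc : t ∈ Icc 0 T := Ioo_subset_Icc_self ht
  have he : ∀ x : E N, 0 < Real.exp (-‖x‖) ∧ Real.exp (-‖x‖) ≤ 1 := fun x =>
    ⟨Real.exp_pos _, Real.exp_le_one_iff.2 (by simp)⟩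
  obtain ⟨C, hC⟩ := h.env
  have hvp : ∀ s ∈ Icc 0 T, ∀ i, Continuous (pd i (v s)) := fun s hs i =>
    ((h.dec hs).contDiff_pd i).continuous
  have D : HasDerivAt (fun τ => ∫ x, gsq (v τ) x)
      (∫ x, ∑ i, 2 * (pd i (a t) x * conj (pd i (v t) x)).re) t := by
    refine deriv_int (T := T) (f := fun τ x => gsq (v τ) x)
      (f' := fun τ x => ∑ i, 2 * (pd i (a τ) x * conj (pd i (v τ) x)).re) ?_ ?_ ?_ ?_ ?_ ht
    · refine ⟨N * C ^ 2, fun s hs x => ?_⟩
      unfold gsq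
      calc ‖∑ i, ‖pd i (v s) x‖ ^ 2‖ ≤ ∑ i : Fin N, ‖(‖pd i (v s) x‖ ^ 2 : ℝ)‖ := norm_sum_le _ _
        _ ≤ ∑ _i : Fin N, C ^ 2 * Real.exp (-‖x‖) := by
            refine Finset.sum_le_sum fun i _ => ?_
            rw [Real.norm_eq_abs, abs_of_nonneg (sq_nonneg _)]
            exact T1b_sq (he x).1 (he x).2 ((hC s hs x).2.1 i)
        _ = N * C ^ 2 * Real.exp (-‖x‖) := by simp [mul_assoc]
    · refine ⟨N * (2 * C ^ 2), fun s hs x => ?_⟩
      calc ‖∑ i, 2 * (pd i (a s) x * conj (pd i (v s) x)).re‖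
          ≤ ∑ i : Fin N, ‖2 * (pd i (a s) x * conj (pd i (v s) x)).re‖ := norm_sum_le _ _
        _ ≤ ∑ _i : Fin N, 2 * C ^ 2 * Real.exp (-‖x‖) := by
            refine Finset.sum_le_sum fun i _ => ?_
            rw [Real.norm_eq_abs, abs_mul, abs_two, mul_assoc]
            exact mul_le_mul_of_nonneg_left (T1b_mul (he x).1 (he x).2 ((hC s hs x).2.1 i)
              ((hC s hs x).2.2.2.2 i)) two_pos.le
        _ = N * (2 * C ^ 2) * Real.exp (-‖x‖) := by simp [mul_assoc]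
    · intro s hs
      exact (h.dec hs).continuous_gsq
    · intro s hs
      exact continuous_finsetSum _ fun i _ => continuous_const.mul (Complex.continuous_re.comp
        ((T1b_pd_cont (h.sma s hs) i).mul (T1b_conj_cont (hvp s hs i))))
    · intro s hs x
      exact HasDerivAt.fun_sum fun i _ => T1b_normsq (h.dv1 s hs i x)
  refine D.congr_deriv ?_
  have hv : Dec (v t) := h.dec htc
  have i1 : ∀ i, Integrable (fun x => pd i (a t) x * conj (pd i (v t) x)) := fun i =>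
    (ExpDec.bmul (h.adec1 htc i).bdd (T1b_conj_dec (hv.d1 i))).integrable
      ((T1b_pd_cont (h.sma t htc) i).mul (T1b_conj_cont (hvp t htc i)))
  have i2 : ∀ i, Integrable (fun x => a t x * conj (pd i (pd i (v t)) x)) := fun i =>
    (ExpDec.bmul (h.adec htc).bdd (T1b_conj_dec (hv.d2 i i))).integrable
      ((h.sma t htc).continuous.mul (T1b_conj_cont (hv.continuous_pd2 i i)))
  have e0 : ∀ i, ∫ x, 2 * (pd i (a t) x * conj (pd i (v t) x)).re =
      -2 * (∫ x, a t x * conj (pd i (pd i (v t)) x)).re := fun i => by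
    have h1 := integral_re (i1 i)
    simp only [RCLike.re_eq_complex_re] at h1
    rw [integral_const_mul, h1,
      T1b_ibp hv (h.sma t htc) (h.adec htc) (fun i => h.adec1 htc i) i, Complex.neg_re]
    ring
  have e1 : (∫ x, a t x * conj (lap (v t) x)) =
      ∑ i, ∫ x, a t x * conj (pd i (pd i (v t)) x) := by
    rw [← integral_finsetSum _ fun i _ => i2 i]
    congr 1
    funext x
    unfold lap
    rw [map_sum, Finset.mul_sum]
  rw [integral_finsetSum _ fun i _ => ?_, e1, Complex.re_sum, Finset.mul_sum]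
  · exact Finset.sum_congr rfl fun i _ => e0 i
  · exact ((i1 i).re).const_mul 2

/-- the derivative of `|z|^{α+2}` is `(α+2)|z|^α Re(conj z dz)` -/
theorem Fam.dP {α : ℝ} (hα : 0 < α) (h : Fam N T v a) {t : ℝ} (ht : t ∈ Ioo 0 T) :
    HasDerivAt (fun τ => Pf α (v τ)) ((α + 2) * (∫ x, a t x * conj (nl α (v t x))).re) t := by
  have htc : t ∈ Icc 0 T := Ioo_subset_Icc_self ht
  have he : ∀ x : E N, 0 < Real.exp (-‖x‖) ∧ Real.exp (-‖x‖) ≤ 1 := fun x =>
    ⟨Real.exp_pos _, Real.exp_le_one_iff.2 (by simp)⟩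
  obtain ⟨C, hC⟩ := h.env
  have hvc : ∀ s ∈ Icc 0 T, Continuous (v s) := fun s hs => (h.smv s hs).continuous
  have hac : ∀ s ∈ Icc 0 T, Continuous (a s) := fun s hs => (h.sma s hs).continuous
  have D : HasDerivAt (fun τ => ∫ x, ‖v τ x‖ ^ (α + 2))
      (∫ x, (α + 2) * (a t x * conj (nl α (v t x))).re) t := by
    refine deriv_int (T := T) (f := fun τ x => ‖v τ x‖ ^ (α + 2))
      (f' := fun τ x => (α + 2) * (a τ x * conj (nl α (v τ x))).re) ?_ ?_ ?_ ?_ ?_ ht
    · refine ⟨C ^ (α + 2), fun s hs x => ?_⟩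
      rw [Real.norm_eq_abs, abs_of_nonneg (Real.rpow_nonneg (norm_nonneg _) _)]
      exact T1b_powle (T1b_C (he x).1 (hC s hs x).1) (he x).1 (he x).2 (by linarith)
        (hC s hs x).1
    · refine ⟨(α + 2) * (C * C ^ (α + 1)), fun s hs x => ?_⟩
      rw [Real.norm_eq_abs, abs_mul, abs_of_nonneg (show 0 ≤ α + 2 by linarith), mul_assoc]
      exact mul_le_mul_of_nonneg_left
        (T1b_nl hα (he x).1 (he x).2 (hC s hs x).1 (hC s hs x).2.2.2.1) (by linarith)
    · intro s hs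
      exact (hvc s hs).norm.rpow_const fun x => Or.inr (by linarith)
    · intro s hs
      exact continuous_const.mul (Complex.continuous_re.comp
        ((hac s hs).mul (T1b_conj_cont ((continuous_nl hα).comp (hvc s hs)))))
    · intro s hs x
      exact T1b_rpow hα (h.dv s hs x)
  refine D.congr_deriv ?_
  have hv : Dec (v t) := h.dec htc
  have i1 : Integrable (fun x => a t x * conj (nl α (v t x))) :=
    (ExpDec.bmul (h.adec htc).bdd (T1b_conj_dec (expDec_nl hα hv.d0))).integrable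
      ((hac t htc).mul (T1b_conj_cont ((continuous_nl hα).comp (hvc t htc))))
  have h1 := integral_re i1
  simp only [RCLike.re_eq_complex_re] at h1
  rw [integral_const_mul, h1]

end CGL
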