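import Pool.Agent.W_317df6_h83.T0

/-!
# Time derivative of `Y` (task T1c)
-/

set_option autoImplicit false

namespace CGL

open MeasureTheory Set
open scoped ComplexConjugate

variable {N : ℕ} {T : ℝ} {v a : ℝ → E N → ℂ}

theorem T1c_conj_dec {f : E N → ℂ} (hf : ExpDec f) : ExpDec (fun x => conj (f x)) := by
  refine hf.mono 1 fun x => ?_
  rw [RCLike.norm_conj, one_mul]

theorem T1c_conj_cont {f : E N → ℂ} (hf : Continuous f) : Continuous (fun x => conj (f x)) :=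
  Complex.continuous_conj.comp hf

theorem T1c_conj_contDiff {n : ℕ} {f : E N → ℂ} (hf : ContDiff ℝ n f) :
    ContDiff ℝ n (fun x => conj (f x)) :=
  Complex.conjCLE.toContinuousLinearMap.contDiff.comp hf

theorem T1c_ofReal_contDiff {n : ℕ} {f : E N → ℝ} (hf : ContDiff ℝ n f) :
    ContDiff ℝ n (fun x => ((f x : ℝ) : ℂ)) :=
  Complex.ofRealCLM.contDiff.comp hf

theorem T1c_bdd_ofReal {f : E N → ℝ} {B : ℝ} (hf : ∀ x, |f x| ≤ B) :
    ∃ C, ∀ x, ‖((f x : ℝ) : ℂ)‖ ≤ C :=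
  ⟨B, fun x => by rw [Complex.norm_real, Real.norm_eq_abs]; exact hf x⟩

theorem T1c_env {B C e : ℝ} (he : 0 < e) (he1 : e ≤ 1) (p q : Fin N → ℂ) (z : ℂ)
    (hp : ∀ i, ‖p i‖ ≤ B) (hq : ∀ i, ‖q i‖ ≤ C * e) (hz : ‖z‖ ≤ C * e) :
    ‖(∑ i, p i * q i) * conj z‖ ≤ ((N : ℝ) * (|B| * (C * C))) * e := by
  have hC : 0 ≤ C := by
    by_contra hC
    have h1 : C * e < 0 := mul_neg_of_neg_of_pos (not_le.1 hC) he
    linarith [norm_nonneg z]
  have hz' : ‖z‖ ≤ C := hz.trans (by nlinarith)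
  have hs : ‖∑ i, p i * q i‖ ≤ (N : ℝ) * (|B| * (C * e)) := by
    calc ‖∑ i, p i * q i‖ ≤ ∑ i : Fin N, ‖p i * q i‖ := norm_sum_le _ _
      _ ≤ ∑ _i : Fin N, |B| * (C * e) := by
          refine Finset.sum_le_sum fun i _ => ?_
          rw [norm_mul]
          exact mul_le_mul ((hp i).trans (le_abs_self B)) (hq i) (norm_nonneg _) (abs_nonneg B)
      _ = (N : ℝ) * (|B| * (C * e)) := by simp
  rw [norm_mul, RCLike.norm_conj]
  calc ‖∑ i, p i * q i‖ * ‖z‖ ≤ ((N : ℝ) * (|B| * (C * e))) * C :=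
        mul_le_mul hs hz' (norm_nonneg _) (by positivity)
    _ = ((N : ℝ) * (|B| * (C * C))) * e := by ring

/-- integration by parts -/
theorem T1c_ibp {R B0 B1 B2 B3 : ℝ} {φ : E N → ℝ} (hφ : Weight N R B0 B1 B2 B3 φ)
    {w b : E N → ℂ} (hw : Dec w) (hb : ContDiff ℝ 1 b) (hb0 : ExpDec b)
    (hb1 : ∀ i, ExpDec (pd i b)) :
    ∫ x, (∑ i, ((pd i φ x : ℝ) : ℂ) * pd i b x) * conj (w x) =
      -∫ x, b x * (((lap φ x : ℝ) : ℂ) * conj (w x)
        + ∑ i, ((pd i φ x : ℝ) : ℂ) * conj (pd i w x)) := by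
  have hw1 : ContDiff ℝ 1 w := hw.smooth.of_le (by norm_num)
  have hwc : ContDiff ℝ 1 (fun x => conj (w x)) := by
    exact_mod_cast T1c_conj_contDiff (n := 1) (by exact_mod_cast hw1)
  have hpc : ∀ i, ContDiff ℝ 1 (fun x => ((pd i φ x : ℝ) : ℂ)) := fun i => by
    have h1 : ContDiff ℝ 1 (pd i φ) := (hφ.contDiff_pd i).of_le (by norm_num)
    exact_mod_cast T1c_ofReal_contDiff (n := 1) (by exact_mod_cast h1)
  obtain ⟨Cb, hCb⟩ := hφ.hb
  have hbc : Continuous b := hb.continuous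
  have hbpc : ∀ i, Continuous (pd i b) := fun i => by
    have h2 : ContDiff ℝ ((0 : ℕ) + 1) b := by simpa using hb
    exact (pd_contDiff (n := 0) h2 i).continuous
  have hwpc : ∀ i, Continuous (pd i w) := fun i => (hw.contDiff_pd i).continuous
  have hφpc : ∀ i, Continuous (fun x => ((pd i φ x : ℝ) : ℂ)) := fun i => (hpc i).continuous
  have hφ2c : ∀ i j, Continuous (fun x => ((pd i (pd j φ) x : ℝ) : ℂ)) := fun i j =>
    Complex.continuous_ofReal.comp (hφ.contDiff_pd2 i j).continuous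
  -- the functions `F i`
  have key : ∀ i x, pd i (fun y => ((pd i φ y : ℝ) : ℂ) * (b y * conj (w y))) x =
      ((pd i (pd i φ) x : ℝ) : ℂ) * (b x * conj (w x))
        + ((pd i φ x : ℝ) : ℂ) * (pd i b x * conj (w x) + b x * conj (pd i w x)) := by
    intro i x
    have d1 : DifferentiableAt ℝ (fun y => ((pd i φ y : ℝ) : ℂ)) x :=
      (hpc i).differentiable one_ne_zero x
    have d2 : DifferentiableAt ℝ b x := hb.differentiable one_ne_zero x
    have d3 : DifferentiableAt ℝ (fun y => conj (w y)) x := hwc.differentiable one_ne_zero x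
    have d4 : DifferentiableAt ℝ w x := hw1.differentiable one_ne_zero x
    have d5 : DifferentiableAt ℝ (pd i φ) x :=
      (hφ.contDiff_pd i).differentiable two_ne_zero x
    have d6 : DifferentiableAt ℝ (fun y => b y * conj (w y)) x := d2.mul d3
    rw [pd_mul d1 d6, pd_mul d2 d3, pd_conj d4, pd_ofReal d5]
  have dbw : ExpDec (fun x => b x * conj (w x)) := ExpDec.bmul hb0.bdd (T1c_conj_dec hw.d0)
  have dF : ∀ i, ExpDec (fun x => ((pd i φ x : ℝ) : ℂ) * (b x * conj (w x))) := fun i =>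
    ExpDec.bmul (T1c_bdd_ofReal fun x => hφ.bdd_pd i x) dbw
  have dbpw : ∀ i, ExpDec (fun x => pd i b x * conj (w x)) := fun i =>
    ExpDec.bmul (hb1 i).bdd (T1c_conj_dec hw.d0)
  have dbwp : ∀ i, ExpDec (fun x => b x * conj (pd i w x)) := fun i =>
    ExpDec.bmul hb0.bdd (T1c_conj_dec (hw.d1 i))
  have dF' : ∀ i, ExpDec (pd i (fun y => ((pd i φ y : ℝ) : ℂ) * (b y * conj (w y)))) := fun i => by
    have h1 : pd i (fun y => ((pd i φ y : ℝ) : ℂ) * (b y * conj (w y))) = fun x =>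
      ((pd i (pd i φ) x : ℝ) : ℂ) * (b x * conj (w x))
        + ((pd i φ x : ℝ) : ℂ) * (pd i b x * conj (w x) + b x * conj (pd i w x)) :=
      funext (key i)
    rw [h1]
    exact (ExpDec.bmul (T1c_bdd_ofReal fun x => hCb i i x) dbw).add
      (ExpDec.bmul (T1c_bdd_ofReal fun x => hφ.bdd_pd i x) ((dbpw i).add (dbwp i)))
  have cF : ∀ i, ContDiff ℝ 1 (fun y => ((pd i φ y : ℝ) : ℂ) * (b y * conj (w y))) := fun i =>
    (hpc i).mul (hb.mul hwc)
  have z : ∀ i, ∫ x, pd i (fun y => ((pd i φ y : ℝ) : ℂ) * (b y * conj (w y))) x = 0 := fun i =>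
    integral_pd_eq_zero (cF i) (dF i) i (dF' i)
  have iF : ∀ i ∈ Finset.univ,
      Integrable (pd i (fun y => ((pd i φ y : ℝ) : ℂ) * (b y * conj (w y)))) := fun i _ => by
    refine (dF' i).integrable ?_
    have h2 : ContDiff ℝ ((0 : ℕ) + 1) (fun y => ((pd i φ y : ℝ) : ℂ) * (b y * conj (w y))) := by
      simpa using cF i
    exact (pd_contDiff (n := 0) h2 i).continuous
  have zs : ∫ x, ∑ i, pd i (fun y => ((pd i φ y : ℝ) : ℂ) * (b y * conj (w y))) x = 0 := by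
    rw [integral_finsetSum _ iF]
    exact Finset.sum_eq_zero fun i _ => z i
  -- splitting
  have i1 : Integrable (fun x => (∑ i, ((pd i φ x : ℝ) : ℂ) * pd i b x) * conj (w x)) := by
    have d1 : ExpDec (fun x => ∑ i, ((pd i φ x : ℝ) : ℂ) * pd i b x) :=
      ExpDec.sum _ fun i _ => ExpDec.bmul (T1c_bdd_ofReal fun x => hφ.bdd_pd i x) (hb1 i)
    refine (ExpDec.bmul d1.bdd (T1c_conj_dec hw.d0)).integrable ?_
    exact (continuous_finsetSum _ fun i _ => (hφpc i).mul (hbpc i)).mul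
      (T1c_conj_cont hw1.continuous)
  have i2 : Integrable (fun x => b x * (((lap φ x : ℝ) : ℂ) * conj (w x)
        + ∑ i, ((pd i φ x : ℝ) : ℂ) * conj (pd i w x))) := by
    have d1 : ExpDec (fun x => ∑ i, ((pd i φ x : ℝ) : ℂ) * conj (pd i w x)) :=
      ExpDec.sum _ fun i _ => ExpDec.bmul (T1c_bdd_ofReal fun x => hφ.bdd_pd i x)
        (T1c_conj_dec (hw.d1 i))
    have d2 : ExpDec (fun x => ((lap φ x : ℝ) : ℂ) * conj (w x)) :=
      ExpDec.bmul (T1c_bdd_ofReal fun x => hφ.b2 x) (T1c_conj_dec hw.d0)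
    refine (ExpDec.bmul hb0.bdd (d2.add d1)).integrable ?_
    refine hbc.mul (((Complex.continuous_ofReal.comp hφ.contDiff_lap.continuous).mul
      (T1c_conj_cont hw1.continuous)).add
      (continuous_finsetSum _ fun i _ => (hφpc i).mul (T1c_conj_cont (hwpc i))))
  have e1 : (fun x => ∑ i, pd i (fun y => ((pd i φ y : ℝ) : ℂ) * (b y * conj (w y))) x) =
      fun x => (∑ i, ((pd i φ x : ℝ) : ℂ) * pd i b x) * conj (w x)
        + b x * (((lap φ x : ℝ) : ℂ) * conj (w x)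
        + ∑ i, ((pd i φ x : ℝ) : ℂ) * conj (pd i w x)) := by
    funext x
    have h3 : ((lap φ x : ℝ) : ℂ) = ∑ i, ((pd i (pd i φ) x : ℝ) : ℂ) := by
      unfold lap
      rw [Complex.ofReal_sum]
    rw [h3, mul_add, Finset.sum_mul, Finset.sum_mul, Finset.mul_sum, Finset.mul_sum,
      ← Finset.sum_add_distrib, ← Finset.sum_add_distrib]
    refine Finset.sum_congr rfl fun i _ => ?_
    rw [key i x]
    ring
  rw [e1, integral_add i1 i2] at zs
  exact eq_neg_of_add_eq_zero_left zs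

/-- `∫ ∑ φ_i a_i conj v = -∫ a (Δφ conj v + ∑ φ_i conj v_i)`,
`Im ∫ ∑ φ_i v_i conj a = -Im ∫ a ∑ φ_i conj v_i`. -/
theorem Fam.dY {R B0 B1 B2 B3 : ℝ} {φ : E N → ℝ} (hφ : Weight N R B0 B1 B2 B3 φ)
    (h : Fam N T v a) {t : ℝ} (ht : t ∈ Ioo 0 T) :
    HasDerivAt (fun τ => Yf φ (v τ)) (-(Zf φ (v t) (a t)).im) t := by
  have htc : t ∈ Icc 0 T := Ioo_subset_Icc_self ht
  have hφpc : ∀ i, Continuous (fun x => ((pd i φ x : ℝ) : ℂ)) := fun i =>
    Complex.continuous_ofReal.comp (hφ.contDiff_pd i).continuous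
  have hapc : ∀ s ∈ Icc 0 T, ∀ i, Continuous (pd i (a s)) := fun s hs i => by
    have h2 : ContDiff ℝ ((0 : ℕ) + 1) (a s) := by simpa using h.sma s hs
    exact (pd_contDiff (n := 0) h2 i).continuous
  have hvpc : ∀ s ∈ Icc 0 T, ∀ i, Continuous (pd i (v s)) := fun s hs i =>
    ((h.dec hs).contDiff_pd i).continuous
  have hvc : ∀ s ∈ Icc 0 T, Continuous (v s) := fun s hs => (h.smv s hs).continuous
  have hac : ∀ s ∈ Icc 0 T, Continuous (a s) := fun s hs => (h.sma s hs).continuous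
  obtain ⟨C, hC⟩ := h.env
  have hB : ∀ i x, ‖((pd i φ x : ℝ) : ℂ)‖ ≤ |B1| := fun i x => by
    rw [Complex.norm_real, Real.norm_eq_abs]
    exact hφ.bdd_pd i x
  have he : ∀ x : E N, 0 < Real.exp (-‖x‖) ∧ Real.exp (-‖x‖) ≤ 1 := fun x =>
    ⟨Real.exp_pos _, Real.exp_le_one_iff.2 (by simp)⟩
  have D : HasDerivAt
      (fun τ => ∫ x, (∑ i, ((pd i φ x : ℝ) : ℂ) * pd i (v τ) x) * conj (v τ x))
      (∫ x, ((∑ i, ((pd i φ x : ℝ) : ℂ) * pd i (a t) x) * conj (v t x)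
        + (∑ i, ((pd i φ x : ℝ) : ℂ) * pd i (v t) x) * conj (a t x))) t := by
    refine deriv_int (T := T)
      (f := fun τ x => (∑ i, ((pd i φ x : ℝ) : ℂ) * pd i (v τ) x) * conj (v τ x))
      (f' := fun τ x => (∑ i, ((pd i φ x : ℝ) : ℂ) * pd i (a τ) x) * conj (v τ x)
        + (∑ i, ((pd i φ x : ℝ) : ℂ) * pd i (v τ) x) * conj (a τ x)) ?_ ?_ ?_ ?_ ?_ ht
    · refine ⟨(N : ℝ) * (|(|B1|)| * (C * C)), fun s hs x => ?_⟩
      exact T1c_env (he x).1 (he x).2 _ _ _ (fun i => hB i x) (fun i => (hC s hs x).2.1 i)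
        (hC s hs x).1
    · refine ⟨(N : ℝ) * (|(|B1|)| * (C * C)) + (N : ℝ) * (|(|B1|)| * (C * C)), fun s hs x => ?_⟩
      refine (norm_add_le _ _).trans ?_
      rw [add_mul]
      exact add_le_add
        (T1c_env (he x).1 (he x).2 _ _ _ (fun i => hB i x) (fun i => (hC s hs x).2.2.2.2 i)
          (hC s hs x).1)
        (T1c_env (he x).1 (he x).2 _ _ _ (fun i => hB i x) (fun i => (hC s hs x).2.1 i)
          (hC s hs x).2.2.2.1)
    · intro s hs
      exact (continuous_finsetSum _ fun i _ => (hφpc i).mul (hvpc s hs i)).mul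
        (T1c_conj_cont (hvc s hs))
    · intro s hs
      exact ((continuous_finsetSum _ fun i _ => (hφpc i).mul (hapc s hs i)).mul
        (T1c_conj_cont (hvc s hs))).add
        ((continuous_finsetSum _ fun i _ => (hφpc i).mul (hvpc s hs i)).mul
        (T1c_conj_cont (hac s hs)))
    · intro s hs x
      have h1 : HasDerivAt (fun τ => ∑ i, ((pd i φ x : ℝ) : ℂ) * pd i (v τ) x)
          (∑ i, ((pd i φ x : ℝ) : ℂ) * pd i (a s) x) s :=
        HasDerivAt.fun_sum fun i _ => (h.dv1 s hs i x).const_mul _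
      have h2 : HasDerivAt (fun τ => conj (v τ x)) (conj (a s x)) s :=
        Complex.conjCLE.toContinuousLinearMap.hasFDerivAt.comp_hasDerivAt s (h.dv s hs x)
      exact h1.mul h2
  have D2 := Complex.imCLM.hasFDerivAt.comp_hasDerivAt t D
  have hfun : (Complex.imCLM ∘
      fun τ => ∫ x, (∑ i, ((pd i φ x : ℝ) : ℂ) * pd i (v τ) x) * conj (v τ x)) =
      fun τ => Yf φ (v τ) := rfl
  rw [hfun] at D2
  refine D2.congr_deriv ?_
  have hv : Dec (v t) := h.dec htc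
  have ibp := T1c_ibp hφ hv (h.sma t htc) (h.adec htc) (fun i => h.adec1 htc i)
  have d1 : ExpDec (fun x => ∑ i, ((pd i φ x : ℝ) : ℂ) * pd i (a t) x) :=
    ExpDec.sum _ fun i _ => ExpDec.bmul (T1c_bdd_ofReal fun x => hφ.bdd_pd i x) (h.adec1 htc i)
  have d2 : ExpDec (fun x => ∑ i, ((pd i φ x : ℝ) : ℂ) * pd i (v t) x) :=
    ExpDec.sum _ fun i _ => ExpDec.bmul (T1c_bdd_ofReal fun x => hφ.bdd_pd i x) (hv.d1 i)
  have d3 : ExpDec (fun x => ∑ i, ((pd i φ x : ℝ) : ℂ) * conj (pd i (v t) x)) :=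
    ExpDec.sum _ fun i _ => ExpDec.bmul (T1c_bdd_ofReal fun x => hφ.bdd_pd i x)
      (T1c_conj_dec (hv.d1 i))
  have d4 : ExpDec (fun x => ((lap φ x : ℝ) : ℂ) * conj (v t x)) :=
    ExpDec.bmul (T1c_bdd_ofReal fun x => hφ.b2 x) (T1c_conj_dec hv.d0)
  have c1 : Continuous (fun x => ∑ i, ((pd i φ x : ℝ) : ℂ) * pd i (a t) x) :=
    continuous_finsetSum _ fun i _ => (hφpc i).mul (hapc t htc i)
  have c2 : Continuous (fun x => ∑ i, ((pd i φ x : ℝ) : ℂ) * pd i (v t) x) :=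
    continuous_finsetSum _ fun i _ => (hφpc i).mul (hvpc t htc i)
  have c3 : Continuous (fun x => ∑ i, ((pd i φ x : ℝ) : ℂ) * conj (pd i (v t) x)) :=
    continuous_finsetSum _ fun i _ => (hφpc i).mul (T1c_conj_cont (hvpc t htc i))
  have c4 : Continuous (fun x => ((lap φ x : ℝ) : ℂ) * conj (v t x)) :=
    (Complex.continuous_ofReal.comp hφ.contDiff_lap.continuous).mul (T1c_conj_cont (hvc t htc))
  have i1 : Integrable
      (fun x => (∑ i, ((pd i φ x : ℝ) : ℂ) * pd i (a t) x) * conj (v t x)) :=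
    (ExpDec.bmul d1.bdd (T1c_conj_dec hv.d0)).integrable (c1.mul (T1c_conj_cont (hvc t htc)))
  have i2 : Integrable
      (fun x => (∑ i, ((pd i φ x : ℝ) : ℂ) * pd i (v t) x) * conj (a t x)) :=
    (ExpDec.bmul d2.bdd (T1c_conj_dec (h.adec htc))).integrable
      (c2.mul (T1c_conj_cont (hac t htc)))
  have i3 : Integrable (fun x => a t x * ∑ i, ((pd i φ x : ℝ) : ℂ) * conj (pd i (v t) x)) :=
    (ExpDec.bmul (h.adec htc).bdd d3).integrable ((hac t htc).mul c3)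
  have i4 : Integrable (fun x => a t x * (((lap φ x : ℝ) : ℂ) * conj (v t x)
      + ∑ i, ((pd i φ x : ℝ) : ℂ) * conj (pd i (v t) x))) :=
    (ExpDec.bmul (h.adec htc).bdd (d4.add d3)).integrable ((hac t htc).mul (c4.add c3))
  have e2 : ∫ x, (∑ i, ((pd i φ x : ℝ) : ℂ) * pd i (v t) x) * conj (a t x) =
      conj (∫ x, a t x * ∑ i, ((pd i φ x : ℝ) : ℂ) * conj (pd i (v t) x)) := by
    rw [← integral_conj]
    congr 1
    funext x
    rw [map_mul, map_sum, mul_comm]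
    congr 1
    refine Finset.sum_congr rfl fun i _ => ?_
    rw [map_mul, Complex.conj_ofReal, Complex.conj_conj]
  have e3 : Zf φ (v t) (a t) = (∫ x, a t x * (((lap φ x : ℝ) : ℂ) * conj (v t x)
      + ∑ i, ((pd i φ x : ℝ) : ℂ) * conj (pd i (v t) x)))
      + ∫ x, a t x * ∑ i, ((pd i φ x : ℝ) : ℂ) * conj (pd i (v t) x) := by
    rw [← integral_add i4 i3]
    unfold Zf zk
    congr 1
    funext x
    ring
  change (∫ x, ((∑ i, ((pd i φ x : ℝ) : ℂ) * pd i (a t) x) * conj (v t x)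
        + (∑ i, ((pd i φ x : ℝ) : ℂ) * pd i (v t) x) * conj (a t x))).im = _
  rw [integral_add i1 i2, ibp, e2, e3, Complex.add_im, Complex.add_im, Complex.neg_im,
    Complex.conj_im]
  ring

end CGL
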