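import Pool.Agent.W_317df6_h83.T0

/-!
# Continuity of the functionals (task T1d)
-/

set_option autoImplicit false

namespace CGL

open MeasureTheory Set
open scoped ComplexConjugate

variable {N : ℕ} {T : ℝ} {v a : ℝ → E N → ℂ}

theorem T1d_C {C e : ℝ} {z : ℂ} (he : 0 < e) (hz : ‖z‖ ≤ C * e) : 0 ≤ C := by
  by_contra hC
  have h1 : C * e < 0 := mul_neg_of_neg_of_pos (not_le.1 hC) he
  linarith [norm_nonneg z]

theorem T1d_sq {C e : ℝ} {z : ℂ} (he : 0 < e) (he1 : e ≤ 1) (hz : ‖z‖ ≤ C * e) :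
    ‖z‖ ^ 2 ≤ C ^ 2 * e := by
  have hC := T1d_C he hz
  calc ‖z‖ ^ 2 ≤ (C * e) ^ 2 := pow_le_pow_left₀ (norm_nonneg _) hz 2
    _ = C ^ 2 * (e * e) := by ring
    _ ≤ C ^ 2 * (1 * e) := by gcongr
    _ = C ^ 2 * e := by ring

theorem T1d_powle {C e p : ℝ} (hC : 0 ≤ C) (he : 0 < e) (he1 : e ≤ 1) (hp : 1 ≤ p) {z : ℂ}
    (hz : ‖z‖ ≤ C * e) : ‖z‖ ^ p ≤ C ^ p * e := by
  calc ‖z‖ ^ p ≤ (C * e) ^ p := Real.rpow_le_rpow (norm_nonneg _) hz (by linarith)
    _ = C ^ p * e ^ p := Real.mul_rpow hC he.le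
    _ ≤ C ^ p * e := by
        refine mul_le_mul_of_nonneg_left ?_ (Real.rpow_nonneg hC _)
        calc e ^ p ≤ e ^ (1 : ℝ) := Real.rpow_le_rpow_of_exponent_ge he he1 hp
          _ = e := Real.rpow_one e

theorem T1d_env {B C e : ℝ} (he : 0 < e) (he1 : e ≤ 1) (p q : Fin N → ℂ) (z : ℂ)
    (hp : ∀ i, ‖p i‖ ≤ B) (hq : ∀ i, ‖q i‖ ≤ C * e) (hz : ‖z‖ ≤ C * e) :
    ‖(∑ i, p i * q i) * conj z‖ ≤ ((N : ℝ) * (|B| * (C * C))) * e := by
  have hC : 0 ≤ C := T1d_C he hz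
  have hz' : ‖z‖ ≤ C := hz.trans (by nlinarith)
  have hs : ‖∑ i, p i * q i‖ ≤ (N : ℝ) * (|B| * (C * e)) := by
    calc ‖∑ i, p i * q i‖ ≤ ∑ i : Fin N, ‖p i * q i‖ := norm_sum_le _ _
      _ ≤ ∑ _i : Fin N, |B| * (C * e) := by
          refine Finset.sum_le_sum fun i _ => ?_
          rw [norm_mul]
          exact mul_le_mul ((hp i).trans (le_abs_self B)) (hq i) (norm_nonneg _) (abs_nonneg B)
      _ = (N : ℝ) * (|B| * (C * e)) := by simp
  rw [norm_mul, RCLike.norm_conj]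
  calc ‖∑ i, p i * q i‖ * ‖z‖ ≤ ((N : ℝ) * (|B| * (C * e))) * C :=
        mul_le_mul hs hz' (norm_nonneg _) (by positivity)
    _ = ((N : ℝ) * (|B| * (C * C))) * e := by ring

/-- continuity of all functionals (`cont_int`) -/
theorem Fam.cont {α R B0 B1 B2 B3 : ℝ} (hα : 0 < α) {φ : E N → ℝ}
    (hφ : Weight N R B0 B1 B2 B3 φ) (h : Fam N T v a) :
    ContinuousOn (fun t => Mf (v t)) (Icc 0 T) ∧ ContinuousOn (fun t => Gf (v t)) (Icc 0 T) ∧
    ContinuousOn (fun t => ef α (v t)) (Icc 0 T) ∧ ContinuousOn (fun t => Df α (v t)) (Icc 0 T) ∧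
    ContinuousOn (fun t => Vf φ (v t)) (Icc 0 T) ∧ ContinuousOn (fun t => Yf φ (v t)) (Icc 0 T) := by
  have he : ∀ x : E N, 0 < Real.exp (-‖x‖) ∧ Real.exp (-‖x‖) ≤ 1 := fun x =>
    ⟨Real.exp_pos _, Real.exp_le_one_iff.2 (by simp)⟩
  obtain ⟨C, hC⟩ := h.env
  have hvc : ∀ s ∈ Icc 0 T, Continuous (v s) := fun s hs => (h.smv s hs).continuous
  have hvp : ∀ s ∈ Icc 0 T, ∀ i, Continuous (pd i (v s)) := fun s hs i =>
    ((h.dec hs).contDiff_pd i).continuous
  have hG : ContinuousOn (fun t => Gf (v t)) (Icc 0 T) := by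
    refine cont_int (T := T) (f := fun t x => gsq (v t) x) ?_ ?_ ?_
    · refine ⟨N * C ^ 2, fun s hs x => ?_⟩
      unfold gsq
      calc ‖∑ i, ‖pd i (v s) x‖ ^ 2‖ ≤ ∑ i : Fin N, ‖(‖pd i (v s) x‖ ^ 2 : ℝ)‖ := norm_sum_le _ _
        _ ≤ ∑ _i : Fin N, C ^ 2 * Real.exp (-‖x‖) := by
            refine Finset.sum_le_sum fun i _ => ?_
            rw [Real.norm_eq_abs, abs_of_nonneg (sq_nonneg _)]
            exact T1d_sq (he x).1 (he x).2 ((hC s hs x).2.1 i)
        _ = N * C ^ 2 * Real.exp (-‖x‖) := by simp [mul_assoc]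
    · intro s hs
      exact (h.dec hs).continuous_gsq
    · intro x
      exact continuousOn_finsetSum _ fun i _ => (h.c1 i x).norm.pow 2
  have hP : ContinuousOn (fun t => Pf α (v t)) (Icc 0 T) := by
    refine cont_int (T := T) (f := fun t x => ‖v t x‖ ^ (α + 2)) ?_ ?_ ?_
    · refine ⟨C ^ (α + 2), fun s hs x => ?_⟩
      rw [Real.norm_eq_abs, abs_of_nonneg (Real.rpow_nonneg (norm_nonneg _) _)]
      exact T1d_powle (T1d_C (he x).1 (hC s hs x).1) (he x).1 (he x).2 (by linarith)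
        (hC s hs x).1
    · intro s hs
      exact (hvc s hs).norm.rpow_const fun x => Or.inr (by linarith)
    · intro x
      exact (h.c0 x).norm.rpow_const fun _ _ => Or.inr (by linarith)
  refine ⟨?_, hG, ?_, ?_, ?_, ?_⟩
  · refine cont_int (T := T) (f := fun t x => ‖v t x‖ ^ 2) ?_ ?_ ?_
    · refine ⟨C ^ 2, fun s hs x => ?_⟩
      rw [Real.norm_eq_abs, abs_of_nonneg (sq_nonneg _)]
      exact T1d_sq (he x).1 (he x).2 (hC s hs x).1
    · intro s hs
      exact (hvc s hs).norm.pow 2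
    · intro x
      exact (h.c0 x).norm.pow 2
  · exact (hP.div_const _).sub (hG.div_const _)
  · refine cont_int (T := T) (f := fun t x => ‖ww α (v t) x‖ ^ 2) ?_ ?_ ?_
    · refine ⟨(N * C + C ^ (α + 1)) ^ 2, fun s hs x => ?_⟩
      rw [Real.norm_eq_abs, abs_of_nonneg (sq_nonneg _)]
      refine T1d_sq (he x).1 (he x).2 ?_
      have hC0 := T1d_C (he x).1 (hC s hs x).1
      unfold ww
      refine (norm_add_le _ _).trans ?_
      rw [add_mul]
      refine add_le_add ?_ ?_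
      · unfold lap
        calc ‖∑ i, pd i (pd i (v s)) x‖ ≤ ∑ i : Fin N, ‖pd i (pd i (v s)) x‖ := norm_sum_le _ _
          _ ≤ ∑ _i : Fin N, C * Real.exp (-‖x‖) :=
              Finset.sum_le_sum fun i _ => (hC s hs x).2.2.1 i i
          _ = N * C * Real.exp (-‖x‖) := by simp [mul_assoc]
      · rw [norm_nl hα]
        exact T1d_powle hC0 (he x).1 (he x).2 (by linarith) (hC s hs x).1
    · intro s hs
      exact ((h.dec hs).ww_cont hα).norm.pow 2
    · intro x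
      refine (ContinuousOn.norm ?_).pow 2
      refine ContinuousOn.add (continuousOn_finsetSum _ fun i _ => h.c2 i i x) ?_
      exact (continuous_nl hα).comp_continuousOn (h.c0 x)
  · refine cont_int (T := T) (f := fun t x => φ x * ‖v t x‖ ^ 2) ?_ ?_ ?_
    · refine ⟨B0 * C ^ 2, fun s hs x => ?_⟩
      have hB0 : 0 ≤ B0 := (hφ.nonneg x).trans (hφ.b0 x)
      rw [Real.norm_eq_abs, abs_mul, abs_of_nonneg (sq_nonneg ‖v s x‖), mul_assoc]
      exact mul_le_mul (hφ.bdd x) (T1d_sq (he x).1 (he x).2 (hC s hs x).1) (sq_nonneg _) hB0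
    · intro s hs
      exact hφ.smooth.continuous.mul ((hvc s hs).norm.pow 2)
    · intro x
      exact continuousOn_const.mul ((h.c0 x).norm.pow 2)
  · have hφpc : ∀ i, Continuous (fun x => ((pd i φ x : ℝ) : ℂ)) := fun i =>
      Complex.continuous_ofReal.comp (hφ.contDiff_pd i).continuous
    have hB : ∀ i x, ‖((pd i φ x : ℝ) : ℂ)‖ ≤ |B1| := fun i x => by
      rw [Complex.norm_real, Real.norm_eq_abs]
      exact hφ.bdd_pd i x
    have h1 : ContinuousOn
        (fun t => ∫ x, (∑ i, ((pd i φ x : ℝ) : ℂ) * pd i (v t) x) * conj (v t x)) (Icc 0 T) := by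
      refine cont_int (T := T)
        (f := fun t x => (∑ i, ((pd i φ x : ℝ) : ℂ) * pd i (v t) x) * conj (v t x)) ?_ ?_ ?_
      · refine ⟨(N : ℝ) * (|(|B1|)| * (C * C)), fun s hs x => ?_⟩
        exact T1d_env (he x).1 (he x).2 _ _ _ (fun i => hB i x) (fun i => (hC s hs x).2.1 i)
          (hC s hs x).1
      · intro s hs
        exact (continuous_finsetSum _ fun i _ => (hφpc i).mul (hvp s hs i)).mul
          (Complex.continuous_conj.comp (hvc s hs))
      · intro x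
        exact (continuousOn_finsetSum _ fun i _ => continuousOn_const.mul (h.c1 i x)).mul
          (Complex.continuous_conj.comp_continuousOn (h.c0 x))
    exact Complex.continuous_im.comp_continuousOn h1

end CGL
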