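import Pool.Agent.W_317df6_h83.T1a
import Pool.Agent.W_317df6_h83.T1b
import Pool.Agent.W_317df6_h83.T1c
import Pool.Agent.W_317df6_h83.T1d

/-!
# Time derivative of the energy (task T1)
-/

set_option autoImplicit false

namespace CGL

open MeasureTheory Set
open scoped ComplexConjugate

variable {N : ℕ} {T : ℝ} {v a : ℝ → E N → ℂ}

/-- `e' = Re ∫ a conj w` -/
theorem Fam.de {α : ℝ} (hα : 0 < α) (h : Fam N T v a) {t : ℝ} (ht : t ∈ Ioo 0 T) :
    HasDerivAt (fun τ => ef α (v τ)) ((∫ x, a t x * conj (ww α (v t) x)).re) t := by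
  have htc : t ∈ Icc 0 T := Ioo_subset_Icc_self ht
  have hv : Dec (v t) := h.dec htc
  have hac : Continuous (a t) := (h.sma t htc).continuous
  have cd : ∀ {f : E N → ℂ}, ExpDec f → ExpDec (fun x => conj (f x)) := fun hf => by
    refine hf.mono 1 fun x => ?_
    rw [RCLike.norm_conj, one_mul]
  have i1 : Integrable (fun x => a t x * conj (lap (v t) x)) :=
    (ExpDec.bmul (h.adec htc).bdd (cd hv.expDec_lap)).integrable
      (hac.mul (Complex.continuous_conj.comp hv.continuous_lap))
  have i2 : Integrable (fun x => a t x * conj (nl α (v t x))) :=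
    (ExpDec.bmul (h.adec htc).bdd (cd (expDec_nl hα hv.d0))).integrable
      (hac.mul (Complex.continuous_conj.comp ((continuous_nl hα).comp hv.smooth.continuous)))
  have e1 : ∫ x, a t x * conj (ww α (v t) x) =
      (∫ x, a t x * conj (lap (v t) x)) + ∫ x, a t x * conj (nl α (v t x)) := by
    rw [← integral_add i1 i2]
    congr 1
    funext x
    unfold ww
    rw [map_add, mul_add]
  have D := ((h.dP hα ht).div_const (α + 2)).sub ((h.dG ht).div_const 2)
  refine D.congr_deriv ?_
  rw [e1, Complex.add_re]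
  have h2 : α + 2 ≠ 0 := by linarith
  field_simp
  ring

end CGL
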