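import Pool.Agent.W_317df6_h83.T0

/-!
# Time derivatives of mass and variance (task T1a)
-/

set_option autoImplicit false

namespace CGL

open MeasureTheory Set
open scoped ComplexConjugate

variable {N : ℕ} {T : ℝ} {v a : ℝ → E N → ℂ}

theorem T1a_normsq {g : ℝ → ℂ} {g' : ℂ} {t : ℝ} (hg : HasDerivAt g g' t) :
    HasDerivAt (fun τ => ‖g τ‖ ^ 2) (2 * (g' * conj (g t)).re) t := by
  have h1 := hg.norm_sq
  rw [Complex.inner] at h1
  exact h1

theorem T1a_C {C e : ℝ} {z : ℂ} (he : 0 < e) (hz : ‖z‖ ≤ C * e) : 0 ≤ C := by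
  by_contra hC
  have h1 : C * e < 0 := mul_neg_of_neg_of_pos (not_le.1 hC) he
  linarith [norm_nonneg z]

theorem T1a_sq {C e : ℝ} {z : ℂ} (he : 0 < e) (he1 : e ≤ 1) (hz : ‖z‖ ≤ C * e) :
    ‖z‖ ^ 2 ≤ C ^ 2 * e := by
  have hC := T1a_C he hz
  calc ‖z‖ ^ 2 ≤ (C * e) ^ 2 := pow_le_pow_left₀ (norm_nonneg _) hz 2
    _ = C ^ 2 * (e * e) := by ring
    _ ≤ C ^ 2 * (1 * e) := by gcongr
    _ = C ^ 2 * e := by ring

theorem T1a_mul {C e : ℝ} {z w : ℂ} (he : 0 < e) (he1 : e ≤ 1) (hz : ‖z‖ ≤ C * e)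
    (hw : ‖w‖ ≤ C * e) : |(w * conj z).re| ≤ C ^ 2 * e := by
  have hC := T1a_C he hz
  calc |(w * conj z).re| ≤ ‖w * conj z‖ := Complex.abs_re_le_norm _
    _ = ‖w‖ * ‖z‖ := by rw [norm_mul, RCLike.norm_conj]
    _ ≤ (C * e) * (C * e) := mul_le_mul hw hz (norm_nonneg _) (by positivity)
    _ = C ^ 2 * (e * e) := by ring
    _ ≤ C ^ 2 * (1 * e) := by gcongr
    _ = C ^ 2 * e := by ring

/-- the derivative with a bounded weight `p` -/
theorem T1a_main {p : E N → ℝ} {B : ℝ} (hp : Continuous p) (hB : ∀ x, |p x| ≤ B)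
    (h : Fam N T v a) {t : ℝ} (ht : t ∈ Ioo 0 T) :
    HasDerivAt (fun τ => ∫ x, p x * ‖v τ x‖ ^ 2)
      (2 * (∫ x, ((p x : ℝ) : ℂ) * (a t x * conj (v t x))).re) t := by
  have htc : t ∈ Icc 0 T := Ioo_subset_Icc_self ht
  have he : ∀ x : E N, 0 < Real.exp (-‖x‖) ∧ Real.exp (-‖x‖) ≤ 1 := fun x =>
    ⟨Real.exp_pos _, Real.exp_le_one_iff.2 (by simp)⟩
  have hvc : ∀ s ∈ Icc 0 T, Continuous (v s) := fun s hs => (h.smv s hs).continuous
  have hac : ∀ s ∈ Icc 0 T, Continuous (a s) := fun s hs => (h.sma s hs).continuous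
  have hBn : 0 ≤ B := (abs_nonneg _).trans (hB 0)
  obtain ⟨C, hC⟩ := h.env
  have D : HasDerivAt (fun τ => ∫ x, p x * ‖v τ x‖ ^ 2)
      (∫ x, p x * (2 * (a t x * conj (v t x)).re)) t := by
    refine deriv_int (T := T) (f := fun τ x => p x * ‖v τ x‖ ^ 2)
      (f' := fun τ x => p x * (2 * (a τ x * conj (v τ x)).re)) ?_ ?_ ?_ ?_ ?_ ht
    · refine ⟨B * C ^ 2, fun s hs x => ?_⟩
      rw [Real.norm_eq_abs, abs_mul, abs_of_nonneg (sq_nonneg ‖v s x‖), mul_assoc]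
      exact mul_le_mul (hB x) (T1a_sq (he x).1 (he x).2 (hC s hs x).1) (sq_nonneg _) hBn
    · refine ⟨B * (2 * C ^ 2), fun s hs x => ?_⟩
      rw [Real.norm_eq_abs, abs_mul, abs_mul, abs_two, mul_assoc, mul_assoc]
      exact mul_le_mul (hB x) (mul_le_mul_of_nonneg_left
        (T1a_mul (he x).1 (he x).2 (hC s hs x).1 (hC s hs x).2.2.2.1) two_pos.le)
        (by positivity) hBn
    · intro s hs
      exact hp.mul ((hvc s hs).norm.pow 2)
    · intro s hs
      exact hp.mul (continuous_const.mul (Complex.continuous_re.comp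
        ((hac s hs).mul (Complex.continuous_conj.comp (hvc s hs)))))
    · intro s hs x
      exact (T1a_normsq (h.dv s hs x)).const_mul _
  refine D.congr_deriv ?_
  have hv : Dec (v t) := h.dec htc
  have d0 : ExpDec (fun x => conj (v t x)) := by
    refine hv.d0.mono 1 fun x => ?_
    rw [RCLike.norm_conj, one_mul]
  have d1 : ExpDec (fun x => a t x * conj (v t x)) := ExpDec.bmul (h.adec htc).bdd d0
  have d2 : ExpDec (fun x => ((p x : ℝ) : ℂ) * (a t x * conj (v t x))) := by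
    refine ExpDec.bmul ⟨B, fun x => ?_⟩ d1
    rw [Complex.norm_real, Real.norm_eq_abs]
    exact hB x
  have i1 : Integrable (fun x => ((p x : ℝ) : ℂ) * (a t x * conj (v t x))) :=
    d2.integrable ((Complex.continuous_ofReal.comp hp).mul
      ((hac t htc).mul (Complex.continuous_conj.comp (hvc t htc))))
  have e1 : (∫ x, ((p x : ℝ) : ℂ) * (a t x * conj (v t x))).re =
      ∫ x, p x * (a t x * conj (v t x)).re := by
    have h1 := integral_re i1
    simp only [RCLike.re_eq_complex_re, Complex.re_ofReal_mul] at h1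
    exact h1.symm
  rw [e1, ← integral_const_mul]
  congr 1
  funext x
  ring

theorem Fam.dM (h : Fam N T v a) {t : ℝ} (ht : t ∈ Ioo 0 T) :
    HasDerivAt (fun τ => Mf (v τ)) (2 * (∫ x, a t x * conj (v t x)).re) t := by
  have h1 := T1a_main (p := fun _ => 1) (B := 1) continuous_const (by simp) h ht
  simpa [Mf] using h1

theorem Fam.dV {R B0 B1 B2 B3 : ℝ} {φ : E N → ℝ} (hφ : Weight N R B0 B1 B2 B3 φ)
    (h : Fam N T v a) {t : ℝ} (ht : t ∈ Ioo 0 T) :
    HasDerivAt (fun τ => Vf φ (v τ))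
      (2 * (∫ x, ((φ x : ℝ) : ℂ) * (a t x * conj (v t x))).re) t :=
  T1a_main hφ.smooth.continuous hφ.bdd h ht

end CGL
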