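import Pool.Agent.W_317df6_h83.Basic

/-!
# A truncated variance weight for `R = 1` (task Wta)
-/

set_option autoImplicit false

namespace CGL

open MeasureTheory Set

variable {N : ℕ}

/-- the cut-off `χ(s) = smoothTransition (2 - s)` -/
noncomputable def wchi (s : ℝ) : ℝ := Real.smoothTransition (2 - s)

/-- `Φ(s) = ∫_0^s χ` -/
noncomputable def wPhi (s : ℝ) : ℝ := ∫ t in (0:ℝ)..s, wchi t

/-- `φ(x) = Φ(|x|²)` -/
noncomputable def wphi (N : ℕ) (x : E N) : ℝ := wPhi (‖x‖ ^ 2)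

theorem wchi_contDiff {n : ℕ∞} : ContDiff ℝ n wchi :=
  Real.smoothTransition.contDiff.comp (contDiff_const.sub contDiff_id)

theorem wchi_nonneg (s : ℝ) : 0 ≤ wchi s := Real.smoothTransition.nonneg _

theorem wchi_le_one (s : ℝ) : wchi s ≤ 1 := Real.smoothTransition.le_one _

theorem wchi_one {s : ℝ} (h : s ≤ 1) : wchi s = 1 :=
  Real.smoothTransition.one_of_one_le (by linarith)

theorem wchi_zero {s : ℝ} (h : 2 ≤ s) : wchi s = 0 :=
  Real.smoothTransition.zero_of_nonpos (by linarith)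

theorem wchi_antitone : Antitone wchi := fun a b h =>
  Real.smoothTransition.monotone (by linarith)

theorem wchi_deriv_nonpos (s : ℝ) : deriv wchi s ≤ 0 := wchi_antitone.deriv_nonpos

theorem wchi_deriv_one {s : ℝ} (h : s ≤ 1) : deriv wchi s = 0 := by
  have h1 : IsLocalMax wchi s := Filter.Eventually.of_forall fun t => by
    show wchi t ≤ wchi s
    rw [wchi_one h]
    exact wchi_le_one t
  exact h1.deriv_eq_zero

theorem wPhi_hasDerivAt (s : ℝ) : HasDerivAt wPhi (wchi s) s := by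
  have hc : Continuous wchi := (wchi_contDiff (n := 1)).continuous
  exact intervalIntegral.integral_hasDerivAt_right (hc.intervalIntegrable _ _)
    (hc.stronglyMeasurableAtFilter _ _) hc.continuousAt

theorem wPhi_deriv : deriv wPhi = wchi := funext fun s => (wPhi_hasDerivAt s).deriv

theorem wPhi_contDiff : ContDiff ℝ 3 wPhi := by
  rw [show (3 : WithTop ℕ∞) = 2 + 1 by norm_num, contDiff_succ_iff_deriv]
  refine ⟨fun s => (wPhi_hasDerivAt s).differentiableAt, by simp, ?_⟩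
  rw [wPhi_deriv]
  exact wchi_contDiff (n := 2)

theorem wPhi_nonneg {s : ℝ} (hs : 0 ≤ s) : 0 ≤ wPhi s :=
  intervalIntegral.integral_nonneg hs fun t _ => wchi_nonneg t

theorem wPhi_const {s : ℝ} (hs : 2 ≤ s) : wPhi s = wPhi 2 := by
  have hc : Continuous wchi := (wchi_contDiff (n := 1)).continuous
  have h1 : wPhi s - wPhi 2 = ∫ t in (2:ℝ)..s, wchi t :=
    intervalIntegral.integral_interval_sub_left (hc.intervalIntegrable _ _)
      (hc.intervalIntegrable _ _)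
  have h2 : ∫ t in (2:ℝ)..s, wchi t = 0 := by
    rw [intervalIntegral.integral_congr (g := fun _ => (0:ℝ))]
    · simp
    · intro t ht
      rw [uIcc_of_le hs] at ht
      exact wchi_zero ht.1
  linarith

theorem pd_comp_normsq {g : ℝ → ℝ} {g' : ℝ} {x : E N} (hg : HasDerivAt g g' (‖x‖ ^ 2))
    (i : Fin N) : pd i (fun y : E N => g (‖y‖ ^ 2)) x = g' * (2 * x i) := by
  have h1 : HasFDerivAt (fun y : E N => ‖y‖ ^ 2) (2 • innerSL ℝ x) x :=
    (hasStrictFDerivAt_norm_sq x).hasFDerivAt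
  have h2 := hg.comp_hasFDerivAt x h1
  unfold pd
  have h3 : fderiv ℝ (fun y : E N => g (‖y‖ ^ 2)) x = g' • (2 • innerSL ℝ x) := h2.fderiv
  rw [h3]
  simp [EuclideanSpace.inner_single_right]

theorem pd_wphi (i : Fin N) : pd i (wphi N) = fun x => wchi (‖x‖ ^ 2) * (2 * x i) := by
  funext x
  exact pd_comp_normsq (wPhi_hasDerivAt _) i

theorem pd_coord (i j : Fin N) (x : E N) :
    pd i (fun y : E N => 2 * y j) x = if i = j then 2 else 0 := by
  have h1 : HasFDerivAt (fun y : E N => 2 * y j) ((2:ℝ) • (EuclideanSpace.proj j : E N →L[ℝ] ℝ)) x :=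
    ((EuclideanSpace.proj j : E N →L[ℝ] ℝ).hasFDerivAt).const_mul 2
  unfold pd
  rw [h1.fderiv]
  by_cases h : i = j
  · subst h; simp
  · simp [h]

theorem pd_pd_wphi (i j : Fin N) (x : E N) : pd i (pd j (wphi N)) x =
    deriv wchi (‖x‖ ^ 2) * (2 * x i) * (2 * x j) + wchi (‖x‖ ^ 2) * (if i = j then 2 else 0) := by
  have hd : Differentiable ℝ wchi := (wchi_contDiff (n := 1)).differentiable (by norm_num)
  rw [pd_wphi, pd_mul_real (f := fun y : E N => wchi (‖y‖ ^ 2)) (g := fun y : E N => 2 * y j),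
    pd_comp_normsq (hd _).hasDerivAt, pd_coord]
  · exact (hd _).comp x (hasStrictFDerivAt_norm_sq x).hasFDerivAt.differentiableAt
  · exact (((EuclideanSpace.proj j : E N →L[ℝ] ℝ).hasFDerivAt (x := x)).const_mul
      2).differentiableAt

theorem lap_wphi (x : E N) : lap (wphi N) x =
    4 * deriv wchi (‖x‖ ^ 2) * ‖x‖ ^ 2 + 2 * N * wchi (‖x‖ ^ 2) := by
  unfold lap
  simp only [pd_pd_wphi, if_true, Finset.sum_add_distrib]
  rw [EuclideanSpace.norm_sq_eq, Finset.mul_sum]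
  congr 1
  · refine Finset.sum_congr rfl fun i _ => ?_
    rw [Real.norm_eq_abs, sq_abs]; ring
  · simp; ring

theorem wphi_contDiff : ContDiff ℝ 3 (wphi N) := wPhi_contDiff.comp (contDiff_norm_sq ℝ)

theorem bdd_of_zero {f : E N → ℝ} (hf : Continuous f) (h : ∀ x : E N, 2 < ‖x‖ → f x = 0) :
    ∃ C : ℝ, 0 < C ∧ ∀ x, f x ≤ C ∧ |f x| ≤ C := by
  have hc : HasCompactSupport f := by
    refine HasCompactSupport.intro (isCompact_closedBall (0 : E N) 2) fun x hx => h x ?_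
    simpa using hx
  obtain ⟨C, hC⟩ := hf.bounded_above_of_compact_support hc
  refine ⟨|C| + 1, by positivity, fun x => ?_⟩
  have h1 := hC x
  rw [Real.norm_eq_abs] at h1
  have h2 := le_abs_self C
  have h3 := le_abs_self (f x)
  constructor <;> linarith

theorem four_lt {x : E N} (hx : 2 < ‖x‖) : 2 < ‖x‖ ^ 2 := by nlinarith

theorem pd_zero_of_zero {f : E N → ℝ} (h : ∀ x : E N, 2 < ‖x‖ → f x = 0) (i : Fin N) (x : E N)
    (hx : 2 < ‖x‖) : pd i f x = 0 := by
  have h1 : f =ᶠ[nhds x] fun _ => (0:ℝ) := by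
    filter_upwards [(isOpen_lt continuous_const continuous_norm).mem_nhds hx] with y hy
    exact h y hy
  unfold pd
  rw [h1.fderiv_eq]
  simp

theorem wchi_deriv_zero {s : ℝ} (h : 2 < s) : deriv wchi s = 0 := by
  have h1 : wchi =ᶠ[nhds s] fun _ => (0:ℝ) := by
    filter_upwards [Ioi_mem_nhds h] with y hy
    exact wchi_zero (le_of_lt hy)
  rw [h1.deriv_eq]
  simp

/-- The case `R = 1`.  `χ(s) = Real.smoothTransition (2 - s)` (`= 1` for `s ≤ 1`, `= 0` for
`s ≥ 2`, nonincreasing, smooth), `Φ(s) = ∫_0^s χ`, `φ(x) = Φ(|x|²)`.  Then `∂_jφ = 2 x_j Φ'`,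
`∂_jkφ = 2δ_jk Φ' + 4 x_j x_k Φ''`; `0 ≤ Φ' ≤ 1`, `Φ'' ≤ 0` on `s ≥ 0`, so `D²φ ≤ 2`, `Δφ ≤ 2N`.
For `|x| ≤ 1`, `φ = |x|²` and `Δφ = 2N` (for `|x| = 1` by continuity).
`φ` is constant for `|x|² ≥ 2`, so all derivatives have compact support and are bounded. -/
theorem weight_one (N : ℕ) : ∃ b0 b1 b2 b3 : ℝ, 0 < b0 ∧ 0 < b1 ∧ 0 < b2 ∧ 0 < b3 ∧
    ∃ φ : E N → ℝ, Weight N 1 b0 b1 b2 b3 φ := by
  have hsm : ContDiff ℝ 3 (wphi N) := wphi_contDiff
  have hp1 : ∀ i, ContDiff ℝ 2 (pd i (wphi N)) := fun i => pd_contDiff (n := 2) hsm i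
  have hp2 : ∀ i j, ContDiff ℝ 1 (pd i (pd j (wphi N))) := fun i j =>
    pd_contDiff (n := 1) (hp1 j) i
  have hl : ContDiff ℝ 1 (lap (wphi N)) := by
    have : lap (wphi N) = fun x => ∑ i, pd i (pd i (wphi N)) x := rfl
    rw [this]
    exact ContDiff.sum fun i _ => hp2 i i
  have hpl : ∀ i, Continuous (pd i (lap (wphi N))) := fun i =>
    (pd_contDiff (n := 0) hl i).continuous
  -- vanishing outside the ball
  have z1 : ∀ i, ∀ x : E N, 2 < ‖x‖ → pd i (wphi N) x = 0 := by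
    intro i x hx
    rw [pd_wphi]
    simp [wchi_zero (four_lt hx).le]
  have z2 : ∀ i j, ∀ x : E N, 2 < ‖x‖ → pd i (pd j (wphi N)) x = 0 := fun i j =>
    pd_zero_of_zero (z1 j) i
  have z3 : ∀ x : E N, 2 < ‖x‖ → lap (wphi N) x = 0 := by
    intro x hx
    unfold lap
    exact Finset.sum_eq_zero fun i _ => z2 i i x hx
  have z4 : ∀ i, ∀ x : E N, 2 < ‖x‖ → pd i (lap (wphi N)) x = 0 := fun i =>
    pd_zero_of_zero z3 i
  obtain ⟨C0, hC0, h0⟩ := bdd_of_zero (f := fun x : E N => wphi N x - wPhi 2)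
    (hsm.continuous.sub continuous_const) (fun x hx => by
      show wPhi (‖x‖ ^ 2) - wPhi 2 = 0
      rw [wPhi_const (four_lt hx).le, sub_self])
  obtain ⟨C1, hC1, h1⟩ := bdd_of_zero (f := fun x : E N => ∑ i, (pd i (wphi N) x) ^ 2)
    (by
      refine continuous_finsetSum _ fun i _ => ?_
      exact (hp1 i).continuous.pow 2)
    (fun x hx => Finset.sum_eq_zero fun i _ => by simp [z1 i x hx])
  obtain ⟨C2, hC2, h2⟩ := bdd_of_zero hl.continuous z3
  obtain ⟨C3, hC3, h3⟩ := bdd_of_zero (f := fun x : E N => ∑ i, (pd i (lap (wphi N)) x) ^ 2)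
    (by
      refine continuous_finsetSum _ fun i _ => ?_
      exact (hpl i).pow 2)
    (fun x hx => Finset.sum_eq_zero fun i _ => by simp [z4 i x hx])
  obtain ⟨C4, hC4, h4⟩ := bdd_of_zero
    (f := fun x : E N => ∑ i, ∑ j, |pd i (pd j (wphi N)) x|)
    (by
      refine continuous_finsetSum _ fun i _ => continuous_finsetSum _ fun j _ => ?_
      exact (hp2 i j).continuous.abs)
    (fun x hx => Finset.sum_eq_zero fun i _ => Finset.sum_eq_zero fun j _ => by
      simp [z2 i j x hx])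
  have hP2 : 0 ≤ wPhi 2 := wPhi_nonneg (by norm_num)
  refine ⟨C0 + wPhi 2, 1 + C1, C2, 1 + C3, by positivity, by positivity, hC2, by positivity,
    wphi N, ?_⟩
  refine ⟨hsm, fun x => wPhi_nonneg (by positivity), fun x => ?_, fun x => ?_, fun x => (h2 x).2,
    fun x => ?_, ⟨C4, fun i j x => ?_⟩, fun x ξ => ?_, fun x => ?_, fun x hx => ?_⟩
  · have := (h0 x).1
    linarith
  · have := (h1 x).1
    nlinarith
  · have := (h3 x).1
    nlinarith
  · refine le_trans ?_ (h4 x).1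
    refine le_trans ?_ (Finset.single_le_sum (f := fun i => ∑ j, |pd i (pd j (wphi N)) x|)
      (fun i _ => Finset.sum_nonneg fun j _ => abs_nonneg _) (Finset.mem_univ i))
    exact Finset.single_le_sum (f := fun j => |pd i (pd j (wphi N)) x|)
      (fun j _ => abs_nonneg _) (Finset.mem_univ j)
  · have e1 : ∑ i, ∑ j, pd i (pd j (wphi N)) x * ξ i * ξ j =
        4 * deriv wchi (‖x‖ ^ 2) * (∑ i, x i * ξ i) ^ 2
          + 2 * wchi (‖x‖ ^ 2) * ∑ i, ξ i ^ 2 := by
      simp only [pd_pd_wphi]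
      have e2 : ∀ i, ∑ j, (deriv wchi (‖x‖ ^ 2) * (2 * x i) * (2 * x j)
          + wchi (‖x‖ ^ 2) * (if i = j then 2 else 0)) * ξ i * ξ j
          = 4 * deriv wchi (‖x‖ ^ 2) * (x i * ξ i) * (∑ j, x j * ξ j)
            + 2 * wchi (‖x‖ ^ 2) * ξ i ^ 2 := by
        intro i
        have e3 : ∀ j, (deriv wchi (‖x‖ ^ 2) * (2 * x i) * (2 * x j)
          + wchi (‖x‖ ^ 2) * (if i = j then 2 else 0)) * ξ i * ξ j
          = 4 * deriv wchi (‖x‖ ^ 2) * (x i * ξ i) * (x j * ξ j)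
            + (if i = j then 2 * wchi (‖x‖ ^ 2) * ξ i * ξ j else 0) := by
          intro j
          split_ifs <;> ring
        simp only [e3, Finset.sum_add_distrib]
        rw [← Finset.mul_sum]
        simp
        ring
      simp only [e2, Finset.sum_add_distrib]
      rw [← Finset.sum_mul, ← Finset.mul_sum, ← Finset.mul_sum]
      ring
    rw [e1]
    have a1 := wchi_deriv_nonpos (‖x‖ ^ 2)
    have a2 := wchi_le_one (‖x‖ ^ 2)
    have a3 : 0 ≤ ∑ i, ξ i ^ 2 := Finset.sum_nonneg fun i _ => sq_nonneg _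
    have a4 : 4 * deriv wchi (‖x‖ ^ 2) * (∑ i, x i * ξ i) ^ 2 ≤ 0 :=
      mul_nonpos_of_nonpos_of_nonneg (by linarith) (sq_nonneg _)
    nlinarith [mul_le_mul_of_nonneg_right a2 a3]
  · rw [lap_wphi]
    have a1 := wchi_deriv_nonpos (‖x‖ ^ 2)
    have a2 := wchi_le_one (‖x‖ ^ 2)
    have a4 : 4 * deriv wchi (‖x‖ ^ 2) * ‖x‖ ^ 2 ≤ 0 :=
      mul_nonpos_of_nonpos_of_nonneg (by linarith) (sq_nonneg _)
    have a5 : (0:ℝ) ≤ 2 * N := by positivity
    nlinarith [mul_le_mul_of_nonneg_left a2 a5]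
  · have hx2 : ‖x‖ ^ 2 ≤ 1 := by
      have := norm_nonneg x
      nlinarith
    rw [lap_wphi, wchi_deriv_one hx2, wchi_one hx2]
    ring

end CGL
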